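import Mathlib
import Pool.Agent.H75.Perc.Orbit2

set_option autoImplicit false
open Finset

/-! The map induced by `f` on the set of the points with `P` (first return). -/

namespace Pool.Agent.H81.G1

open Pool.Agent.H75.Perc

variable {α : Type*}

/-- `r` is the first return time to `P` -/
def IsRet (f : α → α) (P : α → Prop) (r : α → ℕ) : Prop :=
  ∀ c, P c → 0 < r c ∧ P (f^[r c] c) ∧ ∀ i, 0 < i → i < r c → ¬ P (f^[i] c)

/-- the induced map -/
def gr (f : α → α) (r : α → ℕ) (c : α) : α := f^[r c] c

/-- time of the `k`-th return -/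
def rho (f : α → α) (r : α → ℕ) (c : α) (k : ℕ) : ℕ := ∑ j ∈ range k, r ((gr f r)^[j] c)

variable {f : α → α} {P : α → Prop} {r : α → ℕ}

lemma rho_succ (c : α) (k : ℕ) : rho f r c (k + 1) = rho f r c k + r ((gr f r)^[k] c) :=
  Finset.sum_range_succ _ _

lemma rho_zero (c : α) : rho f r c 0 = 0 := rfl

lemma gr_iter (c : α) (k : ℕ) : f^[rho f r c k] c = (gr f r)^[k] c := by
  induction k with
  | zero => rfl
  | succ k ih =>
    rw [rho_succ, Nat.add_comm, Function.iterate_add_apply, ih, Function.iterate_succ_apply']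
    rfl

lemma P_iter (h : IsRet f P r) {c : α} (hc : P c) (k : ℕ) : P ((gr f r)^[k] c) := by
  induction k with
  | zero => exact hc
  | succ k ih => rw [Function.iterate_succ_apply']; exact (h _ ih).2.1

lemma rho_lt (h : IsRet f P r) {c : α} (hc : P c) (k : ℕ) :
    rho f r c k < rho f r c (k + 1) := by
  rw [rho_succ]
  have := (h _ (P_iter h hc k)).1
  omega

lemma rho_mono (h : IsRet f P r) {c : α} (hc : P c) : StrictMono (rho f r c) :=
  strictMono_nat_of_lt_succ (rho_lt h hc)

lemma times (h : IsRet f P r) {c : α} (hc : P c) {n : ℕ} (hn : P (f^[n] c)) :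
    ∃ k, n = rho f r c k := by
  -- the largest `k` with `rho k ≤ n`
  have hex : ∃ k, rho f r c k ≤ n ∧ n < rho f r c (k + 1) := by
    by_contra hno
    have hall : ∀ k, rho f r c k ≤ n := by
      intro k
      induction k with
      | zero => rw [rho_zero]; omega
      | succ k ih => by_contra hk; exact hno ⟨k, ih, by omega⟩
    have h1 := (rho_mono h hc).le_apply (x := n + 1)
    have h2 := hall (n + 1)
    omega
  obtain ⟨k, h1, h2⟩ := hex
  refine ⟨k, ?_⟩
  by_contra hne
  have h3 := (h _ (P_iter h hc k)).2.2 (n - rho f r c k) (by omega) (by rw [rho_succ] at h2; omega)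
  apply h3
  rw [← gr_iter, ← Function.iterate_add_apply]
  have : n - rho f r c k + rho f r c k = n := by omega
  rw [this]; exact hn

lemma orb_ind (h : IsRet f P r) {c : α} (hc : P c) {L : ℕ} (hO : Orb f c L) :
    ∃ M, rho f r c M = L ∧ Orb (gr f r) c M := by
  obtain ⟨M, hM⟩ := times h hc (n := L) (by rw [hO.per]; exact hc)
  refine ⟨M, hM.symm, ?_, ?_, ?_⟩
  · rcases Nat.eq_zero_or_pos M with h0 | h0
    · subst h0
      rw [rho_zero] at hM
      have := hO.pos
      omega
    · exact h0
  · rw [← gr_iter, ← hM, hO.per]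
  · intro i j hij hj
    rw [← gr_iter, ← gr_iter]
    apply hO.inj
    · exact rho_mono h hc hij
    · rw [hM]; exact rho_mono h hc hj

/-- turning between two returns -/
def Dr (f : α → α) (r : α → ℕ) (δ : α → ℤ) (c : α) : ℤ := ∑ i ∈ range (r c), δ (f^[i] c)

lemma KK_rho (δ : α → ℤ) (c : α) (k : ℕ) :
    KK f δ c 0 (rho f r c k) = ∑ j ∈ range k, Dr f r δ ((gr f r)^[j] c) := by
  induction k with
  | zero => simp [rho, KK]
  | succ k ih =>
    rw [Finset.sum_range_succ, ← ih, rho_succ]
    unfold KK Dr
    rw [Finset.sum_range_add, ← gr_iter]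
    have : ∀ i, f^[i] (f^[rho f r c k] c) = f^[rho f r c k + i] c := by
      intro i; rw [Nat.add_comm, Function.iterate_add_apply]
    simp only [this]
    ring

end Pool.Agent.H81.G1
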