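import Mathlib

set_option autoImplicit false
open Finset

/-! Planar networks of tiles with wires: definitions for the vertex (oriented) form of state sums at
`p = 1/2` (M6b, vertex form of one over-row).

A tile has four ends `W, N, E, S`. Its two states are `α = {W–N, S–E}` and `β = {W–S, N–E}`. The ends
of the tiles are joined by wires (a fixed point free involution `π`); `t x` is the turning, in quarter
turns (left = +), of the wire which starts at `x` and ends at `π x`. Root wire `{x0, π x0}`, mark wire
`{y0, π y0}`.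

Arrows `o : ι × Dir → ℤˣ`: `o x = 1` iff the arrow leaves the tile at the end `x`. -/

namespace Pool.Agent.H81.G1

/-- the four ends of a tile -/
inductive Dir
  | W | N | E | S
  deriving DecidableEq, Fintype

/-- `ζ = e^{iπ/12}`: a curve piece of turning `t` quarter turns along its arrow weighs `ζ^{-t}` -/
noncomputable def zt : ℂ := Complex.exp (Real.pi / 12 * Complex.I)

lemma zt_ne : zt ≠ 0 := Complex.exp_ne_zero _

lemma zt_norm : ‖zt‖ = 1 := by
  unfold zt
  have : (Real.pi / 12 * Complex.I : ℂ) = ((Real.pi / 12 : ℝ) : ℂ) * Complex.I := by push_cast; ring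
  rw [this, Complex.norm_exp_ofReal_mul_I]

lemma zt_pow (n : ℕ) : zt ^ n = Complex.exp (((n * (Real.pi / 12) : ℝ) : ℂ) * Complex.I) := by
  unfold zt
  rw [← Complex.exp_nat_mul]; congr 1; push_cast; ring

lemma zt_four : zt ^ 4 = ⟨1 / 2, Real.sqrt 3 / 2⟩ := by
  rw [zt_pow]
  have : (((4 : ℕ) : ℝ) * (Real.pi / 12)) = Real.pi / 3 := by push_cast; ring
  rw [this, Complex.exp_mul_I, ← Complex.ofReal_cos, ← Complex.ofReal_sin,
    Real.cos_pi_div_three, Real.sin_pi_div_three]
  apply Complex.ext <;> simp

lemma zt_eight : zt ^ 8 = zt ^ 4 - 1 := by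
  have h3 : Real.sqrt 3 * Real.sqrt 3 = 3 := Real.mul_self_sqrt (by norm_num)
  have : zt ^ 8 = zt ^ 4 * zt ^ 4 := by ring
  rw [this, zt_four]
  apply Complex.ext
  · simp only [Complex.mul_re, Complex.sub_re, Complex.one_re]; nlinarith
  · simp only [Complex.mul_im, Complex.sub_im, Complex.one_im]; ring

lemma zt_twelve : zt ^ 12 = -1 := by
  have h := zt_eight
  calc zt ^ 12 = zt ^ 8 * zt ^ 4 := by ring
    _ = (zt ^ 4 - 1) * zt ^ 4 := by rw [h]
    _ = zt ^ 8 - zt ^ 4 := by ring
    _ = -1 := by rw [h]; ring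

/-- weight of a tile with arrows `w, n, e, s` (`1` = out) on its four ends, if the state `α` has the
weight `a` and the state `β` has the weight `b` -/
noncomputable def vert (a b : ℂ) (w n e s : ℤˣ) : ℂ :=
  (if n = -w ∧ s = -e then a * zt ^ ((e : ℤ) - (n : ℤ)) else 0) +
  (if s = -w ∧ n = -e then b * zt ^ ((s : ℤ) - (e : ℤ)) else 0)

variable {ι : Type*} [Fintype ι] [DecidableEq ι]

/-- a network: tiles `ι`, wires `π`, turnings `t`, root end `x0`, mark end `y0` -/
structure Net (ι : Type*) where
  π : ι × Dir → ι × Dir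
  t : ι × Dir → ℤ
  x0 : ι × Dir
  y0 : ι × Dir

/-- is the end vertical? -/
def Dir.v : Dir → Bool
  | .W => false | .E => false | .N => true | .S => true

/-- is the end `x` incoming for the canonical orientation of the loops? (`p i = true`: the ends `W, E` of
the tile `i` are incoming and `N, S` outgoing; `p i = false`: conversely) -/
def inc (p : ι → Bool) (x : ι × Dir) : Bool := xor (p x.1) x.2.v

/-- the axioms of a network: `π` is a fixed point free involution which joins incoming to outgoing ends,
`t` is antisymmetric, `x0`, `y0` are incoming and different. -/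
structure Net.Good (X : Net ι) (p : ι → Bool) : Prop where
  inv : ∀ x, X.π (X.π x) = x
  ne : ∀ x, X.π x ≠ x
  t_neg : ∀ x, X.t (X.π x) = -X.t x
  ty : ∀ x, inc p (X.π x) = !inc p x
  x0_in : inc p X.x0 = true
  y0_in : inc p X.y0 = true
  y0_ne : X.y0 ≠ X.x0

/-- consistent arrows: opposite at the two ends of a wire; root: both arrows enter the tiles; mark:
both arrows leave the tiles (the mark is a sink) -/
def Net.Cons (X : Net ι) (o : ι × Dir → ℤˣ) : Prop :=
  o X.x0 = -1 ∧ o (X.π X.x0) = -1 ∧ o X.y0 = 1 ∧ o (X.π X.y0) = 1 ∧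
    ∀ x, x ≠ X.x0 → x ≠ X.π X.x0 → x ≠ X.y0 → x ≠ X.π X.y0 → o (X.π x) = -o x

instance (X : Net ι) (o : ι × Dir → ℤˣ) : Decidable (X.Cons o) := by
  unfold Net.Cons; infer_instance

/-- weight of the arrows `o` -/
noncomputable def Net.wt (X : Net ι) (a b : ι → ℂ) (o : ι × Dir → ℤˣ) : ℂ :=
  (∏ i, vert (a i) (b i) (o (i, .W)) (o (i, .N)) (o (i, .E)) (o (i, .S))) *
    ∏ x, (if o x = 1 then zt ^ (-X.t x) else 1)

/-- **the vertex sum** -/
noncomputable def Net.V (X : Net ι) (a b : ι → ℂ) : ℂ :=
  ∑ o : ι × Dir → ℤˣ, if X.Cons o then X.wt a b o else 0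

/-! ### The state sum -/

/-- the partner of an end inside its tile (`false`: state `α`, `true`: state `β`) -/
def Dir.mate : Bool → Dir → Dir
  | false, .W => .N | false, .N => .W | false, .S => .E | false, .E => .S
  | true, .W => .S | true, .S => .W | true, .N => .E | true, .E => .N

/-- turning of the passage through a tile which enters at the end `d` -/
def Dir.tn : Bool → Dir → ℤ
  | false, .W => 1 | false, .N => -1 | false, .S => -1 | false, .E => 1
  | true, .W => -1 | true, .S => 1 | true, .N => 1 | true, .E => -1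

/-- one step: through the tile, then along the wire -/
def Net.step (X : Net ι) (s : ι → Bool) (x : ι × Dir) : ι × Dir :=
  X.π (x.1, x.2.mate (s x.1))

/-- turning of a step -/
def Net.dt (X : Net ι) (s : ι → Bool) (x : ι × Dir) : ℤ :=
  x.2.tn (s x.1) + X.t (x.1, x.2.mate (s x.1))

/-- turning of the first `n` steps from `x` -/
def Net.KT (X : Net ι) (s : ι → Bool) (x : ι × Dir) (n : ℕ) : ℤ :=
  ∑ i ∈ range n, X.dt s ((X.step s)^[i] x)

/-- length of the loop of `x` -/
noncomputable def Net.ln (X : Net ι) (s : ι → Bool) (x : ι × Dir) : ℕ :=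
  Function.minimalPeriod (X.step s) x

/-- the amplitude of the state `s`: `ζ^{-2K}`, `K` = turning from the root to the mark along the loop of
the root, and `0` if the mark is not on it -/
noncomputable def Net.amp (X : Net ι) (s : ι → Bool) : ℂ :=
  ∑ k ∈ range (X.ln s X.x0),
    if (X.step s)^[k] X.x0 = X.y0 then zt ^ (-2 * X.KT s X.x0 k) else 0

/-- **the state sum** -/
noncomputable def Net.Z (X : Net ι) (a b : ι → ℂ) : ℂ :=
  ∑ s : ι → Bool, (∏ i, if s i then b i else a i) * X.amp s

/-! ### Rows -/

/-- the tiles `0, …, N-1` form a row: the end `E` of a column is joined to the end `W` of the next -/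
def Net.IsRow {N : ℕ} (X : Net (Fin N)) : Prop :=
  ∀ c c' : Fin N, (c' : ℕ) = c + 1 → X.π (c, .E) = (c', .W)

end Pool.Agent.H81.G1
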