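import Mathlib
import Pool.Agent.H81.G1.Net

set_option autoImplicit false
open Finset

/-! Sums over the orientations of the cycles of a permutation. -/

namespace Pool.Agent.H81.G1

variable {C : Type*} [Fintype C] [DecidableEq C]

/-- the cycles of `f` -/
abbrev Cy (f : Equiv.Perm C) := Quotient (Equiv.Perm.SameCycle.setoid f)

/-- the cycle of an element -/
def cy (f : Equiv.Perm C) (c : C) : Cy f := Quotient.mk _ c

omit [Fintype C] [DecidableEq C] in
lemma cy_eq (f : Equiv.Perm C) (a b : C) : cy f a = cy f b ↔ f.SameCycle a b := by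
  unfold cy; exact Quotient.eq (r := Equiv.Perm.SameCycle.setoid f)

omit [Fintype C] [DecidableEq C] in
lemma cy_out (f : Equiv.Perm C) (q : Cy f) : cy f q.out = q := Quotient.out_eq q

open Classical in
/-- a sum over functions which are constant on the cycles factorises -/
lemma sum_inv (f : Equiv.Perm C) (F : C → ℤˣ → ℂ) :
    (∑ ε : C → ℤˣ, if (∀ c, ε (f c) = ε c) then ∏ c, F c (ε c) else 0) =
      ∏ q : Cy f, ∑ u : ℤˣ, ∏ c ∈ univ.filter (fun c => cy f c = q), F c u := by
  rw [Finset.prod_univ_sum, Fintype.piFinset_univ, ← Finset.sum_filter]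
  have hinv : ∀ ε : C → ℤˣ, (∀ c, ε (f c) = ε c) → ∀ x y, f.SameCycle x y → ε x = ε y := by
    intro ε hε x y hxy
    obtain ⟨n, rfl⟩ := hxy.exists_nat_pow_eq
    clear hxy
    induction n with
    | zero => simp
    | succ n ih => rw [pow_succ', Equiv.Perm.mul_apply, hε, ← ih]
  refine Finset.sum_bij' (i := fun ε _ q => ε q.out)
    (j := fun ε' _ c => ε' (cy f c)) ?_ ?_ ?_ ?_ ?_
  · intro a _; exact mem_univ _
  · intro ε' _
    rw [mem_filter]
    refine ⟨mem_univ _, fun c => ?_⟩
    have : cy f (f c) = cy f c :=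
      (cy_eq f _ _).2 ((Equiv.Perm.sameCycle_apply_left).2 (Equiv.Perm.SameCycle.refl f c))
    show ε' (cy f (f c)) = ε' (cy f c)
    rw [this]
  · intro ε hε
    rw [mem_filter] at hε
    funext c
    exact hinv ε hε.2 _ _ ((cy_eq f _ _).1 (cy_out f _))
  · intro ε' _
    funext q
    show ε' (cy f q.out) = ε' q
    rw [cy_out]
  · intro ε hε
    rw [mem_filter] at hε
    rw [← Finset.prod_fiberwise univ (fun c => cy f c)]
    refine Finset.prod_congr rfl fun q _ => ?_
    refine Finset.prod_congr rfl fun c hc => ?_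
    rw [mem_filter] at hc
    congr 1
    exact hinv ε hε.2 _ _ ((cy_eq f _ _).1 (by rw [cy_out]; exact hc.2))

/-- product over a cycle = product over one period -/
lemma prod_cycle {M : Type*} [CommMonoid M] (f : Equiv.Perm C) (x : C) (s : Finset C)
    (hs : ∀ c, c ∈ s ↔ f.SameCycle x c) (g : C → M) :
    ∏ c ∈ s, g c = ∏ i ∈ range (Function.minimalPeriod f x), g (f^[i] x) := by
  have himg : s = (range (Function.minimalPeriod f x)).image (fun i => f^[i] x) := by
    ext c
    rw [hs, mem_image]
    constructor
    · intro h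
      obtain ⟨n, hn⟩ := h.exists_nat_pow_eq
      refine ⟨n % Function.minimalPeriod f x, ?_, ?_⟩
      · rw [mem_range]
        exact Nat.mod_lt _ (Function.minimalPeriod_pos_of_mem_periodicPts
          (f.injective.mem_periodicPts x))
      · show f^[n % Function.minimalPeriod f x] x = c
        rw [Function.iterate_mod_minimalPeriod_eq, ← hn, ← Equiv.Perm.iterate_eq_pow]
    · rintro ⟨i, _, rfl⟩
      refine ⟨(i : ℤ), ?_⟩
      rw [zpow_natCast, ← Equiv.Perm.iterate_eq_pow]
  rw [himg, Finset.prod_image]
  intro a ha b hb hab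
  exact Function.iterate_injOn_Iio_minimalPeriod (Set.mem_Iio.2 (mem_range.1 ha))
    (Set.mem_Iio.2 (mem_range.1 hb)) hab

lemma zt_prod {α : Type*} (s : Finset α) (g : α → ℤ) : ∏ i ∈ s, zt ^ (g i) = zt ^ (∑ i ∈ s, g i) := by
  classical
  induction s using Finset.induction_on with
  | empty => simp
  | insert a s ha ih => rw [prod_insert ha, sum_insert ha, ih, zpow_add₀ zt_ne]

lemma zt_pm (T : ℤ) (h : T = 4 ∨ T = -4) : zt ^ (-T) + zt ^ T = 1 := by
  have h8 := zt_eight
  have key : zt ^ (-4 : ℤ) + zt ^ (4 : ℤ) = 1 := by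
    have h4 : zt ^ (4 : ℤ) = zt ^ 4 := by norm_cast
    have hm : zt ^ (-4 : ℤ) = (zt ^ 4)⁻¹ := by rw [zpow_neg, h4]
    have hne : zt ^ 4 ≠ 0 := pow_ne_zero _ zt_ne
    rw [h4, hm, inv_eq_one_div, div_add' _ _ _ hne, div_eq_iff hne]
    linear_combination h8
  rcases h with rfl | rfl
  · exact key
  · rw [neg_neg, add_comm]; exact key

/-- turning of the first `n` steps from `x` -/
def dsum (f : Equiv.Perm C) (d : C → ℤ) (x : C) (n : ℕ) : ℤ := ∑ i ∈ range n, d (f^[i] x)

open Classical in
/-- **Sum over the orientations**, with a root `c0` and a mark `c1`. -/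
theorem orient_sum (f : Equiv.Perm C) (d : C → ℤ) (c0 c1 : C) (h01 : c1 ≠ c0)
    (hT : ∀ c, ¬ f.SameCycle c0 c → dsum f d c (Function.minimalPeriod f c) = 4 ∨
      dsum f d c (Function.minimalPeriod f c) = -4) :
    (∑ σ : C → ℤˣ, if (σ c0 = 1 ∧ σ c1 = -1 ∧
        ∀ c, σ (f c) = (if f c = c0 ∨ f c = c1 then -1 else 1) * σ c)
        then ∏ c, zt ^ (-(σ c : ℤ) * d c) else 0) =
      ∑ k ∈ range (Function.minimalPeriod f c0), if f^[k] c0 = c1 then
        zt ^ (dsum f d c0 (Function.minimalPeriod f c0) - 2 * dsum f d c0 k) else 0 := by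
  set L := Function.minimalPeriod f c0 with hL
  have hLpos : 0 < L := Function.minimalPeriod_pos_of_mem_periodicPts
    (f.injective.mem_periodicPts c0)
  have hper : f^[L] c0 = c0 := Function.isPeriodicPt_minimalPeriod f c0
  have hinj : ∀ i j, i < L → j < L → f^[i] c0 = f^[j] c0 → i = j := fun i j hi hj h =>
    Function.iterate_injOn_Iio_minimalPeriod (Set.mem_Iio.2 hi) (Set.mem_Iio.2 hj) h
  have hcyc : ∀ c, f.SameCycle c0 c → ∃ i < L, f^[i] c0 = c := by
    intro c h
    obtain ⟨n, hn⟩ := h.exists_nat_pow_eq
    refine ⟨n % L, Nat.mod_lt _ hLpos, ?_⟩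
    rw [hL, Function.iterate_mod_minimalPeriod_eq, ← hn, ← Equiv.Perm.iterate_eq_pow]
  have hcyc' : ∀ i, f.SameCycle c0 (f^[i] c0) := fun i => ⟨(i : ℤ), by
    rw [zpow_natCast, ← Equiv.Perm.iterate_eq_pow]⟩
  by_cases hc : f.SameCycle c0 c1
  swap
  · -- the mark is not on the loop of the root
    have hne : ∀ i, f^[i] c0 ≠ c1 := fun i h => hc (h ▸ hcyc' i)
    rw [Finset.sum_eq_zero, Finset.sum_eq_zero]
    · intro k _; rw [if_neg (hne k)]
    · intro σ _
      rw [if_neg]
      rintro ⟨h0, _, hr⟩
      have key : ∀ i, i < L → σ (f^[i] c0) = 1 := by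
        intro i
        induction i with
        | zero => intro _; exact h0
        | succ i ih =>
          intro hi
          rw [Function.iterate_succ_apply', hr, ih (by omega), if_neg, one_mul]
          rintro (h | h)
          · rw [← Function.iterate_succ_apply' (f := ⇑f)] at h
            have := hinj (i + 1) 0 hi hLpos (by simpa using h)
            omega
          · rw [← Function.iterate_succ_apply' (f := ⇑f)] at h
            exact hne _ h
      have h1 := hr (f^[L - 1] c0)
      rw [← Function.iterate_succ_apply' (f := ⇑f), Nat.succ_eq_add_one,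
        Nat.sub_add_cancel hLpos, hper, if_pos (Or.inl rfl), key _ (by omega), h0] at h1
      revert h1; decide
  · obtain ⟨k, hk, hkc⟩ := hcyc c1 hc
    have hk0 : 0 < k := by
      rcases Nat.eq_zero_or_pos k with h | h
      · subst h; exact absurd hkc.symm h01
      · exact h
    set β : C → ℤˣ := fun c => if ∃ i, k ≤ i ∧ i < L ∧ f^[i] c0 = c then -1 else 1 with hβ
    have hβi : ∀ i, i < L → β (f^[i] c0) = if k ≤ i then -1 else 1 := by
      intro i hi
      simp only [hβ]
      by_cases h : k ≤ i
      · rw [if_pos h, if_pos ⟨i, h, hi, rfl⟩]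
      · rw [if_neg h, if_neg]
        rintro ⟨j, hj, hjL, hji⟩
        exact h (hinj j i hjL hi hji ▸ hj)
    have hβo : ∀ c, ¬ f.SameCycle c0 c → β c = 1 := by
      intro c h
      simp only [hβ]
      rw [if_neg]
      rintro ⟨j, _, _, hji⟩
      exact h (hji ▸ hcyc' j)
    have hβ0 : β c0 = 1 := by
      have := hβi 0 hLpos
      rw [if_neg (by omega)] at this
      exact this
    have hβ1 : β c1 = -1 := by
      have := hβi k hk
      rw [if_pos le_rfl, hkc] at this
      exact this
    have hβr : ∀ c, β (f c) = (if f c = c0 ∨ f c = c1 then -1 else 1) * β c := by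
      intro c
      by_cases h : f.SameCycle c0 c
      · obtain ⟨j, hj, rfl⟩ := hcyc c h
        have hs : f (f^[j] c0) = f^[j + 1] c0 := (Function.iterate_succ_apply' _ _ _).symm
        rw [hs, hβi j hj]
        rcases Nat.lt_or_ge (j + 1) L with h1 | h1
        · rw [hβi (j + 1) h1]
          have e0 : f^[j + 1] c0 ≠ c0 := fun h2 => by
            have := hinj (j + 1) 0 h1 hLpos (by simpa using h2); omega
          by_cases h2 : j + 1 = k
          · have e1 : f^[j + 1] c0 = c1 := by rw [h2]; exact hkc
            rw [if_pos (by omega), if_pos (Or.inr e1), if_neg (by omega)]; decide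
          · have e1 : f^[j + 1] c0 ≠ c1 := fun h3 => by
              have := hinj (j + 1) k h1 hk (by rw [h3, hkc]); omega
            have hφ : ¬ (f^[j + 1] c0 = c0 ∨ f^[j + 1] c0 = c1) := by
              rintro (h4 | h4)
              · exact e0 h4
              · exact e1 h4
            rw [if_neg hφ, one_mul]
            by_cases h3 : k ≤ j
            · rw [if_pos h3, if_pos (by omega)]
            · rw [if_neg h3, if_neg (by omega)]
        · have e : j + 1 = L := by omega
          rw [e, hper, hβ0, if_pos (Or.inl rfl), if_pos (by omega)]; decide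
      · have h' : ¬ f.SameCycle c0 (f c) := fun h2 => h ((Equiv.Perm.sameCycle_apply_right).1 h2)
        rw [hβo _ h, hβo _ h', if_neg, one_mul]
        rintro (h2 | h2)
        · exact h' (h2 ▸ Equiv.Perm.SameCycle.refl f c0)
        · exact h' (h2 ▸ hc)
    have hββ : ∀ c, β c * β c = 1 := fun c => Int.units_mul_self _
    -- change of variables
    have step1 : (∑ σ : C → ℤˣ, if (σ c0 = 1 ∧ σ c1 = -1 ∧
        ∀ c, σ (f c) = (if f c = c0 ∨ f c = c1 then -1 else 1) * σ c)
        then ∏ c, zt ^ (-(σ c : ℤ) * d c) else 0) =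
        ∑ ε : C → ℤˣ, if (∀ c, ε (f c) = ε c) then
          ∏ c, (if c = c0 ∧ ε c = -1 then 0 else zt ^ (-((β c * ε c : ℤˣ) : ℤ) * d c)) else 0 := by
      refine Finset.sum_bij' (i := fun σ _ c => β c * σ c) (j := fun ε _ c => β c * ε c)
        (fun _ _ => mem_univ _) (fun _ _ => mem_univ _) ?_ ?_ ?_
      · intro σ _; funext c
        show β c * (β c * σ c) = σ c
        rw [← mul_assoc, hββ, one_mul]
      · intro σ _; funext c
        show β c * (β c * σ c) = σ c
        rw [← mul_assoc, hββ, one_mul]
      · intro σ _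
        have e1 : (∀ c, β (f c) * σ (f c) = β c * σ c) ↔
            ∀ c, σ (f c) = (if f c = c0 ∨ f c = c1 then -1 else 1) * σ c := by
          refine forall_congr' fun c => ?_
          rw [hβr c]
          set φ : ℤˣ := if f c = c0 ∨ f c = c1 then -1 else 1 with hφ
          have hφφ : φ * φ = 1 := Int.units_mul_self _
          constructor
          · intro h
            have h2 : β c * φ * (φ * β c * σ (f c)) = β c * φ * (β c * σ c) := by rw [h]
            calc σ (f c) = (β c * β c) * (φ * φ) * σ (f c) := by rw [hββ, hφφ]; simp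
              _ = β c * φ * (φ * β c * σ (f c)) := by ac_rfl
              _ = β c * φ * (β c * σ c) := h2
              _ = (β c * β c) * (φ * σ c) := by ac_rfl
              _ = φ * σ c := by rw [hββ, one_mul]
          · intro h
            rw [h]
            calc φ * β c * (φ * σ c) = (φ * φ) * (β c * σ c) := by ac_rfl
              _ = β c * σ c := by rw [hφφ, one_mul]
        have e2 : ∀ c, β c * (β c * σ c) = σ c := fun c => by rw [← mul_assoc, hββ, one_mul]
        by_cases hr : ∀ c, σ (f c) = (if f c = c0 ∨ f c = c1 then -1 else 1) * σ c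
        · rw [if_pos (e1.2 hr)]
          have hinv : ∀ i, β (f^[i] c0) * σ (f^[i] c0) = β c0 * σ c0 := by
            intro i
            induction i with
            | zero => rfl
            | succ i ih => rw [Function.iterate_succ_apply', (e1.2 hr), ih]
          by_cases h0 : σ c0 = 1
          · have h1 : σ c1 = -1 := by
              have := hinv k
              rw [hkc, hβ1, hβ0, h0] at this
              rcases Int.units_eq_one_or (σ c1) with h | h
              · exfalso; rw [h] at this; revert this; decide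
              · exact h
            rw [if_pos ⟨h0, h1, hr⟩]
            refine Finset.prod_congr rfl fun c _ => ?_
            rw [e2, if_neg]
            rintro ⟨rfl, h2⟩
            have h3 : β c * σ c = -1 := h2
            rw [hβ0, h0] at h3
            revert h3; decide
          · rw [if_neg (fun h => h0 h.1)]
            symm
            apply Finset.prod_eq_zero (mem_univ c0)
            rw [if_pos]
            refine ⟨rfl, ?_⟩
            rcases Int.units_eq_one_or (σ c0) with h | h
            · exact absurd h h0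
            · show β c0 * σ c0 = -1
              rw [hβ0, h]; decide
        · rw [if_neg (fun h => hr h.2.2), if_neg (fun h => hr (e1.1 h))]
    rw [step1, sum_inv f (fun c u => if c = c0 ∧ u = -1 then 0 else
      zt ^ (-((β c * u : ℤˣ) : ℤ) * d c))]
    rw [Finset.prod_eq_single (cy f c0)]
    · -- the cycle of the root
      have hs : ∀ c, c ∈ univ.filter (fun c => cy f c = cy f c0) ↔ f.SameCycle c0 c := by
        intro c
        rw [mem_filter, cy_eq]
        exact ⟨fun h => h.2.symm, fun h => ⟨mem_univ _, h.symm⟩⟩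
      have hu : (univ : Finset ℤˣ) = {1, -1} := by decide
      rw [hu, Finset.sum_pair (by decide)]
      have z0 : ∏ c ∈ univ.filter (fun c => cy f c = cy f c0),
          (if c = c0 ∧ (-1 : ℤˣ) = -1 then (0 : ℂ) else
            zt ^ (-((β c * (-1) : ℤˣ) : ℤ) * d c)) = 0 := by
        apply Finset.prod_eq_zero ((hs c0).2 (Equiv.Perm.SameCycle.refl f c0))
        rw [if_pos ⟨rfl, rfl⟩]
      rw [z0, add_zero, prod_cycle f c0 _ hs]
      rw [Finset.sum_eq_single k]
      · rw [if_pos hkc]
        have e1 : ∀ i ∈ range L, (if f^[i] c0 = c0 ∧ (1 : ℤˣ) = -1 then (0 : ℂ) else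
            zt ^ (-((β (f^[i] c0) * 1 : ℤˣ) : ℤ) * d (f^[i] c0))) =
            zt ^ ((if k ≤ i then 1 else -1) * d (f^[i] c0)) := by
          intro i hi
          rw [if_neg (fun h => absurd h.2 (by decide)), mul_one, hβi i (mem_range.1 hi)]
          congr 2
          split_ifs <;> simp
        rw [Finset.prod_congr rfl e1, zt_prod]
        congr 1
        unfold dsum
        rw [← Finset.sum_range_add_sum_Ico _ hk.le, ← Finset.sum_range_add_sum_Ico _ hk.le]
        have e2 : ∑ i ∈ range k, (if k ≤ i then (1 : ℤ) else -1) * d (f^[i] c0) =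
            -∑ i ∈ range k, d (f^[i] c0) := by
          rw [← Finset.sum_neg_distrib]
          refine Finset.sum_congr rfl fun i hi => ?_
          rw [if_neg (by have := mem_range.1 hi; omega)]; ring
        have e3 : ∑ i ∈ Ico k L, (if k ≤ i then (1 : ℤ) else -1) * d (f^[i] c0) =
            ∑ i ∈ Ico k L, d (f^[i] c0) := by
          refine Finset.sum_congr rfl fun i hi => ?_
          rw [if_pos (mem_Ico.1 hi).1]; ring
        rw [e2, e3]; ring
      · intro j hj hjk
        rw [if_neg]
        intro h
        exact hjk (hinj j k (mem_range.1 hj) hk (by rw [h, hkc]))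
      · intro h; exact absurd (mem_range.2 hk) h
    · -- the other cycles
      intro q _ hq
      obtain ⟨x, rfl⟩ : ∃ x, cy f x = q := ⟨q.out, cy_out f q⟩
      have hx : ¬ f.SameCycle c0 x := fun h => hq ((cy_eq f _ _).2 h.symm)
      have hs : ∀ c, c ∈ univ.filter (fun c => cy f c = cy f x) ↔ f.SameCycle x c := by
        intro c
        rw [mem_filter, cy_eq]
        exact ⟨fun h => h.2.symm, fun h => ⟨mem_univ _, h.symm⟩⟩
      have hu : (univ : Finset ℤˣ) = {1, -1} := by decide
      have e : ∀ u : ℤˣ, ∏ c ∈ univ.filter (fun c => cy f c = cy f x),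
          (if c = c0 ∧ u = -1 then (0 : ℂ) else zt ^ (-((β c * u : ℤˣ) : ℤ) * d c)) =
          zt ^ (-(u : ℤ) * dsum f d x (Function.minimalPeriod f x)) := by
        intro u
        have e1 : ∀ c ∈ univ.filter (fun c => cy f c = cy f x),
            (if c = c0 ∧ u = -1 then (0 : ℂ) else zt ^ (-((β c * u : ℤˣ) : ℤ) * d c)) =
            zt ^ (-(u : ℤ) * d c) := by
          intro c hcx
          have h2 := (hs c).1 hcx
          have h3 : ¬ f.SameCycle c0 c := fun h => hx (h.trans h2.symm)
          rw [if_neg (fun h : c = c0 ∧ u = -1 => h3 (h.1 ▸ Equiv.Perm.SameCycle.refl f c0)), hβo c h3,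
            one_mul]
        rw [Finset.prod_congr rfl e1, prod_cycle f x _ hs, zt_prod]
        congr 1
        unfold dsum
        rw [Finset.mul_sum]
      rw [hu, Finset.sum_pair (by decide), e, e]
      have := zt_pm _ (hT x hx)
      simpa using this
    · intro h; exact absurd (mem_univ _) h

end Pool.Agent.H81.G1
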