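import Mathlib
import Pool.Agent.H81.G1.Cyc

set_option autoImplicit false
open Finset

/-! **State sum = vertex sum** (general networks). -/

namespace Pool.Agent.H81.G1

variable {ι : Type*} [Fintype ι] [DecidableEq ι]

namespace Dir

lemma mate_mate (b : Bool) (d : Dir) : mate b (mate b d) = d := by cases b <;> cases d <;> rfl

lemma mate_v (b : Bool) (d : Dir) : (mate b d).v = !d.v := by cases b <;> cases d <;> rfl

lemma tn_mate (b : Bool) (d : Dir) : (mate b d).tn b = -d.tn b := by cases b <;> cases d <;> rfl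

end Dir

/-- the partner of an end in the state `s` -/
def par (s : ι → Bool) (x : ι × Dir) : ι × Dir := (x.1, x.2.mate (s x.1))

omit [Fintype ι] [DecidableEq ι] in
lemma par_par (s : ι → Bool) (x : ι × Dir) : par s (par s x) = x := by
  unfold par; simp [Dir.mate_mate]

omit [Fintype ι] [DecidableEq ι] in
lemma inc_par (p : ι → Bool) (s : ι → Bool) (x : ι × Dir) : inc p (par s x) = !inc p x := by
  unfold par inc; simp [Dir.mate_v]

omit [Fintype ι] [DecidableEq ι] in
lemma step_eq (X : Net ι) (s : ι → Bool) (x : ι × Dir) : X.step s x = X.π (par s x) := rfl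

/-- the incoming ends -/
abbrev In (p : ι → Bool) := {x : ι × Dir // inc p x = true}

variable {X : Net ι} {p : ι → Bool}

omit [Fintype ι] [DecidableEq ι] in
lemma inc_step (hX : X.Good p) (s : ι → Bool) {x : ι × Dir} (h : inc p x = true) :
    inc p (X.step s x) = true := by
  rw [step_eq, hX.ty, inc_par, h]; rfl

/-- the step as a permutation of the incoming ends -/
def stepP (hX : X.Good p) (s : ι → Bool) : Equiv.Perm (In p) where
  toFun x := ⟨X.step s x.1, inc_step hX s x.2⟩
  invFun y := ⟨par s (X.π y.1), by rw [inc_par, hX.ty, y.2]; rfl⟩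
  left_inv x := by
    apply Subtype.ext
    show par s (X.π (X.π (par s x.1))) = x.1
    rw [hX.inv, par_par]
  right_inv y := by
    apply Subtype.ext
    show X.π (par s (par s (X.π y.1))) = y.1
    rw [par_par, hX.inv]

omit [Fintype ι] [DecidableEq ι] in
lemma coe_stepP (hX : X.Good p) (s : ι → Bool) (x : In p) :
    ((stepP hX s x : In p) : ι × Dir) = X.step s x := rfl

omit [Fintype ι] [DecidableEq ι] in
lemma coe_iter (hX : X.Good p) (s : ι → Bool) (x : In p) (n : ℕ) :
    (((stepP hX s)^[n] x : In p) : ι × Dir) = (X.step s)^[n] x := by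
  induction n with
  | zero => rfl
  | succ n ih => rw [Function.iterate_succ_apply', Function.iterate_succ_apply', coe_stepP, ih]

omit [Fintype ι] [DecidableEq ι] in
lemma ln_eq (hX : X.Good p) (s : ι → Bool) (x : In p) :
    Function.minimalPeriod (stepP hX s) x = X.ln s x := by
  unfold Net.ln
  rw [Function.minimalPeriod_eq_minimalPeriod_iff]
  intro n
  unfold Function.IsPeriodicPt Function.IsFixedPt
  rw [Subtype.ext_iff, coe_iter]

omit [Fintype ι] [DecidableEq ι] in
lemma dsum_eq (hX : X.Good p) (s : ι → Bool) (x : In p) (n : ℕ) :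
    dsum (stepP hX s) (fun c => X.dt s c) x n = X.KT s x n := by
  unfold dsum Net.KT
  exact Finset.sum_congr rfl fun i _ => congrArg (X.dt s) (coe_iter hX s x i)

/-- the arrows are consistent with the state -/
def tc (s : ι → Bool) (o : ι × Dir → ℤˣ) : Prop := ∀ x, o (par s x) = -o x

instance (s : ι → Bool) (o : ι × Dir → ℤˣ) : Decidable (tc s o) := by
  unfold tc; infer_instance

/-- turning weight of the tile `i` in the state `b` -/
noncomputable def tw (b : Bool) (o : Dir → ℤˣ) : ℂ :=
  if b then zt ^ ((o .S : ℤ) - (o .E : ℤ)) else zt ^ ((o .E : ℤ) - (o .N : ℤ))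

/-- weight of the wires -/
noncomputable def ww (X : Net ι) (o : ι × Dir → ℤˣ) : ℂ :=
  ∏ x, (if o x = 1 then zt ^ (-X.t x) else 1)

omit [DecidableEq ι] in
/-- product over the outgoing ends as a product over all ends -/
lemma prod_out (hX : X.Good p) (g : ι × Dir → ℂ) :
    ∏ x, g x = ∏ x : In p, (g x * g (X.π x)) := by
  have h1 : ∏ x : In p, (g x * g (X.π x)) =
      (∏ x ∈ univ.filter (fun x => inc p x = true), g x) *
        ∏ x ∈ univ.filter (fun x => inc p x = true), g (X.π x) := by
    rw [← Finset.prod_mul_distrib]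
    exact (Finset.prod_subtype (univ.filter (fun x => inc p x = true)) (by simp)
      (fun x => g x * g (X.π x))).symm
  rw [h1, ← Finset.prod_filter_mul_prod_filter_not univ (fun x => inc p x = true) g]
  congr 1
  refine Finset.prod_bij' (i := fun x _ => X.π x) (j := fun x _ => X.π x) ?_ ?_ ?_ ?_ ?_
  · intro x hx
    rw [mem_filter] at hx ⊢
    refine ⟨mem_univ _, ?_⟩
    rw [hX.ty]; simpa using hx.2
  · intro x hx
    rw [mem_filter] at hx ⊢
    refine ⟨mem_univ _, ?_⟩
    rw [hX.ty, hx.2]; simp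
  · intro x _; exact hX.inv x
  · intro x _; exact hX.inv x
  · intro x _; rw [hX.inv]

/-- the wires of consistent arrows -/
lemma wires_eq (hX : X.Good p) (o : ι × Dir → ℤˣ) (ho : X.Cons o) :
    ∏ x : In p, zt ^ (-((o (X.π x) : ℤˣ) : ℤ) * X.t (X.π x)) =
      zt ^ (X.t (X.π X.x0) - X.t (X.π X.y0)) * ww X o := by
  have hπ0 : X.π X.x0 ≠ X.x0 := hX.ne _
  have hπ1 : X.π X.y0 ≠ X.y0 := hX.ne _
  obtain ⟨h0, h0', h1, h1', hr⟩ := ho
  unfold ww
  rw [prod_out hX]
  -- correction factors
  have hcorr : zt ^ (X.t (X.π X.x0) - X.t (X.π X.y0)) =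
      ∏ x : In p, ((if (x : ι × Dir) = X.x0 then zt ^ (X.t (X.π X.x0)) else 1) *
        (if (x : ι × Dir) = X.y0 then zt ^ (-X.t (X.π X.y0)) else 1)) := by
    rw [Finset.prod_mul_distrib, sub_eq_add_neg, zpow_add₀ zt_ne]
    congr 1
    · have : ∀ x : In p, ((x : ι × Dir) = X.x0) ↔ (x = ⟨X.x0, hX.x0_in⟩) := fun x =>
        ⟨fun h => Subtype.ext h, fun h => by rw [h]⟩
      simp only [this]
      rw [Finset.prod_ite_eq' univ]
      simp
    · have : ∀ x : In p, ((x : ι × Dir) = X.y0) ↔ (x = ⟨X.y0, hX.y0_in⟩) := fun x =>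
        ⟨fun h => Subtype.ext h, fun h => by rw [h]⟩
      simp only [this]
      rw [Finset.prod_ite_eq' univ]
      simp
  rw [hcorr, ← Finset.prod_mul_distrib]
  refine Finset.prod_congr rfl fun x _ => ?_
  have hx := x.2
  by_cases e0 : (x : ι × Dir) = X.x0
  · have e1 : (x : ι × Dir) ≠ X.y0 := fun h => hX.y0_ne (h ▸ e0)
    rw [if_pos e0, if_neg e1, e0, h0, h0']
    simp
  · by_cases e1 : (x : ι × Dir) = X.y0
    · rw [if_neg e0, if_pos e1, e1, h1, h1', if_pos rfl, if_pos rfl, hX.t_neg]
      simp only [Units.val_one, neg_mul, one_mul, neg_neg]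
      rw [zpow_neg, inv_mul_cancel₀ (zpow_ne_zero _ zt_ne), mul_one]
    · have e2 : (x : ι × Dir) ≠ X.π X.x0 := by
        intro h
        have := hX.ty X.x0
        rw [← h, hx, hX.x0_in] at this
        simp at this
      have e3 : (x : ι × Dir) ≠ X.π X.y0 := by
        intro h
        have := hX.ty X.y0
        rw [← h, hx, hX.y0_in] at this
        simp at this
      have := hr x e0 e2 e1 e3
      rw [if_neg e0, if_neg e1, this, hX.t_neg]
      rcases Int.units_eq_one_or (o x) with h | h
      · rw [h]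
        simp
      · rw [h]
        simp

omit [DecidableEq ι] in
/-- product over the incoming ends = product over the tiles -/
lemma prod_in (p : ι → Bool) (g : ι × Dir → ℂ) :
    ∏ x : In p, g x = ∏ i, (if p i then g (i, .W) * g (i, .E) else g (i, .N) * g (i, .S)) := by
  have h1 : ∏ x : In p, g x = ∏ x ∈ univ.filter (fun x => inc p x = true), g x :=
    (Finset.prod_subtype (univ.filter (fun x => inc p x = true)) (by simp) g).symm
  rw [h1, Finset.prod_filter, Fintype.prod_prod_type]
  refine Finset.prod_congr rfl fun i _ => ?_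
  have hu : (univ : Finset Dir) = {.W, .E, .N, .S} := by decide
  rw [hu, Finset.prod_insert (by decide), Finset.prod_insert (by decide),
    Finset.prod_insert (by decide), Finset.prod_singleton]
  unfold inc Dir.v
  cases p i <;> simp

omit [DecidableEq ι] in
/-- the tile part of the weight -/
lemma tiles_eq (p : ι → Bool) (s : ι → Bool) (o : ι × Dir → ℤˣ) (ho : tc s o) :
    ∏ x : In p, zt ^ (-((o (par s x) : ℤˣ) : ℤ) * x.1.2.tn (s x.1.1)) =
      ∏ i, tw (s i) (fun d => o (i, d)) := by
  rw [prod_in p (fun x => zt ^ (-((o (par s x) : ℤˣ) : ℤ) * x.2.tn (s x.1)))]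
  refine Finset.prod_congr rfl fun i _ => ?_
  have hW := ho (i, .W)
  have hN := ho (i, .N)
  have hE := ho (i, .E)
  have hS := ho (i, .S)
  unfold par at *
  unfold tw
  cases hp : p i <;> cases hs : s i <;>
    simp only [hs, Dir.mate, Dir.tn, Bool.false_eq_true, if_true, if_false] at * <;>
    rw [← zpow_add₀ zt_ne] <;> congr 1 <;>
    (have e1 := congrArg (Units.val) hW; have e2 := congrArg (Units.val) hN
     have e3 := congrArg (Units.val) hE; have e4 := congrArg (Units.val) hS
     simp only [Units.val_neg] at e1 e2 e3 e4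
     omega)

/-- all loops of the state `s` which do not contain the root have turning `± 4` -/
def Net.Loops (X : Net ι) (p : ι → Bool) (s : ι → Bool) : Prop :=
  ∀ x, inc p x = true → (∀ k, (X.step s)^[k] X.x0 ≠ x) →
    X.KT s x (X.ln s x) = 4 ∨ X.KT s x (X.ln s x) = -4

/-- **the amplitude of one state as a sum over arrows** -/
theorem state_eq (hX : X.Good p) (s : ι → Bool) (hT : X.Loops p s) :
    zt ^ (X.KT s X.x0 (X.ln s X.x0)) * X.amp s =
      zt ^ (X.t (X.π X.x0) - X.t (X.π X.y0)) *
        ∑ o : ι × Dir → ℤˣ, if X.Cons o ∧ tc s o then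
          ww X o * ∏ i, tw (s i) (fun d => o (i, d)) else 0 := by
  classical
  set c0 : In p := ⟨X.x0, hX.x0_in⟩ with hc0
  set c1 : In p := ⟨X.y0, hX.y0_in⟩ with hc1
  have h01 : c1 ≠ c0 := fun h => hX.y0_ne (congrArg Subtype.val h)
  have hos := orient_sum (stepP hX s) (fun c => X.dt s c) c0 c1 h01 (by
    intro c hc
    rw [ln_eq, dsum_eq]
    apply hT c c.2
    intro k hk
    apply hc
    have : (stepP hX s)^[k] c0 = c := Subtype.ext (by rw [coe_iter]; exact hk)
    rw [← this]
    exact ⟨(k : ℤ), by rw [zpow_natCast, ← Equiv.Perm.iterate_eq_pow]⟩)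
  have hL : zt ^ (X.KT s X.x0 (X.ln s X.x0)) * X.amp s =
      ∑ k ∈ range (Function.minimalPeriod (stepP hX s) c0), if (stepP hX s)^[k] c0 = c1 then
        zt ^ (dsum (stepP hX s) (fun c => X.dt s c) c0 (Function.minimalPeriod (stepP hX s) c0) -
          2 * dsum (stepP hX s) (fun c => X.dt s c) c0 k) else 0 := by
    unfold Net.amp
    rw [ln_eq, Finset.mul_sum]
    refine Finset.sum_congr rfl fun k _ => ?_
    have e : ((stepP hX s)^[k] c0 = c1) ↔ ((X.step s)^[k] X.x0 = X.y0) := by
      rw [Subtype.ext_iff, coe_iter]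
    by_cases h : (X.step s)^[k] X.x0 = X.y0
    · rw [if_pos h, if_pos (e.2 h), dsum_eq, dsum_eq, ← zpow_add₀ zt_ne]
      congr 1
      ring
    · rw [if_neg h, if_neg (fun h' => h (e.1 h')), mul_zero]
  rw [hL, ← hos, Finset.mul_sum]
  rw [← Finset.sum_filter]
  have hR : ∀ o : ι × Dir → ℤˣ, zt ^ (X.t (X.π X.x0) - X.t (X.π X.y0)) *
      (if X.Cons o ∧ tc s o then ww X o * ∏ i, tw (s i) (fun d => o (i, d)) else 0) =
      if X.Cons o ∧ tc s o then zt ^ (X.t (X.π X.x0) - X.t (X.π X.y0)) *
        (ww X o * ∏ i, tw (s i) (fun d => o (i, d))) else 0 := by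
    intro o; split_ifs <;> simp
  rw [Finset.sum_congr rfl fun o _ => hR o, ← Finset.sum_filter]
  -- the bijection
  set φ : ι × Dir → ℤˣ := fun y => if y = X.x0 ∨ y = X.y0 then -1 else 1 with hφ
  have hin : ∀ x, ¬ inc p x = true → inc p (X.π x) = true := by
    intro x h; rw [hX.ty]; simpa using h
  set F : (In p → ℤˣ) → ι × Dir → ℤˣ := fun σ x => if h : inc p x = true then -σ ⟨x, h⟩ else
      φ (X.π x) * σ ⟨X.π x, hin x h⟩ with hF
  have hfw : ∀ σ : In p → ℤˣ, (σ c0 = 1 ∧ σ c1 = -1 ∧
      ∀ c, σ (stepP hX s c) = (if stepP hX s c = c0 ∨ stepP hX s c = c1 then -1 else 1) * σ c) →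
      X.Cons (F σ) ∧ tc s (F σ) := by
    intro σ hσ
    obtain ⟨hs0, hs1, hsr⟩ := hσ
    refine ⟨⟨?_, ?_, ?_, ?_, ?_⟩, ?_⟩
    · show (if h : inc p X.x0 = true then -σ ⟨X.x0, h⟩ else
        φ (X.π X.x0) * σ ⟨X.π X.x0, hin X.x0 h⟩) = -1
      rw [dif_pos hX.x0_in]
      show -σ c0 = -1
      rw [hs0]
    · show (if h : inc p (X.π X.x0) = true then -σ ⟨X.π X.x0, h⟩ else
        φ (X.π (X.π X.x0)) * σ ⟨X.π (X.π X.x0), hin (X.π X.x0) h⟩) = -1
      rw [dif_neg (by rw [hX.ty, hX.x0_in]; simp)]
      simp only [hX.inv]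
      show φ X.x0 * σ c0 = -1
      rw [hs0]; simp [hφ]
    · show (if h : inc p X.y0 = true then -σ ⟨X.y0, h⟩ else
        φ (X.π X.y0) * σ ⟨X.π X.y0, hin X.y0 h⟩) = 1
      rw [dif_pos hX.y0_in]
      show -σ c1 = 1
      rw [hs1]; simp
    · show (if h : inc p (X.π X.y0) = true then -σ ⟨X.π X.y0, h⟩ else
        φ (X.π (X.π X.y0)) * σ ⟨X.π (X.π X.y0), hin (X.π X.y0) h⟩) = 1
      rw [dif_neg (by rw [hX.ty, hX.y0_in]; simp)]
      simp only [hX.inv]
      show φ X.y0 * σ c1 = 1
      rw [hs1]; simp [hφ]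
    · intro x n0 n0' n1 n1'
      show (if h : inc p (X.π x) = true then -σ ⟨X.π x, h⟩ else
        φ (X.π (X.π x)) * σ ⟨X.π (X.π x), hin (X.π x) h⟩) =
        -(if h : inc p x = true then -σ ⟨x, h⟩ else φ (X.π x) * σ ⟨X.π x, hin x h⟩)
      by_cases hx : inc p x = true
      · rw [dif_neg (by rw [hX.ty, hx]; simp), dif_pos hx]
        simp only [hX.inv]
        have : φ x = 1 := by
          simp only [hφ]; rw [if_neg (by rintro (h | h); exact n0 h; exact n1 h)]
        rw [this]; simp
      · rw [dif_pos (hin x hx), dif_neg hx]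
        have : φ (X.π x) = 1 := by
          simp only [hφ]
          rw [if_neg]
          rintro (h | h)
          · apply n0'; rw [← h, hX.inv]
          · apply n1'; rw [← h, hX.inv]
        rw [this]; simp
    · intro x
      show (if h : inc p (par s x) = true then -σ ⟨par s x, h⟩ else
        φ (X.π (par s x)) * σ ⟨X.π (par s x), hin (par s x) h⟩) =
        -(if h : inc p x = true then -σ ⟨x, h⟩ else φ (X.π x) * σ ⟨X.π x, hin x h⟩)
      have key : ∀ y : In p, φ (X.π (par s y.1)) * σ ⟨X.π (par s y.1), inc_step hX s y.2⟩ = σ y := by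
        intro y
        have h1 := hsr y
        have e1 : (stepP hX s y = c0 ∨ stepP hX s y = c1) ↔
            (X.π (par s y.1) = X.x0 ∨ X.π (par s y.1) = X.y0) := by
          rw [Subtype.ext_iff, Subtype.ext_iff, coe_stepP]; rfl
        have e2 : (if stepP hX s y = c0 ∨ stepP hX s y = c1 then (-1 : ℤˣ) else 1) =
            φ (X.π (par s y.1)) := by
          simp only [hφ]
          by_cases h2 : stepP hX s y = c0 ∨ stepP hX s y = c1
          · rw [if_pos h2, if_pos (e1.1 h2)]
          · rw [if_neg h2, if_neg (fun h3 => h2 (e1.2 h3))]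
        rw [e2] at h1
        have e3 : σ ⟨X.π (par s y.1), inc_step hX s y.2⟩ = σ (stepP hX s y) := rfl
        rw [e3, h1, ← mul_assoc, Int.units_mul_self, one_mul]
      by_cases hx : inc p x = true
      · rw [dif_neg (by rw [inc_par, hx]; simp), dif_pos hx, neg_neg]
        exact key ⟨x, hx⟩
      · have hx' : inc p (par s x) = true := by rw [inc_par]; simpa using hx
        rw [dif_pos hx', dif_neg hx]
        have := key ⟨par s x, hx'⟩
        simp only [par_par] at this
        rw [← this]
  refine Finset.sum_bij' (i := fun σ _ => F σ) (j := fun o _ c => -o c.1) ?_ ?_ ?_ ?_ ?_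
  · intro σ hσ
    rw [mem_filter] at hσ
    rw [mem_filter]
    exact ⟨mem_univ _, hfw σ hσ.2⟩
  · -- back
    intro o ho
    rw [mem_filter] at ho
    obtain ⟨_, ⟨h0, h0', h1, h1', hr⟩, ht⟩ := ho
    rw [mem_filter]
    refine ⟨mem_univ _, ?_, ?_, ?_⟩
    · show -o X.x0 = 1
      rw [h0]; simp
    · show -o X.y0 = -1
      rw [h1]
    · intro c
      show -o (X.step s c.1) = (if stepP hX s c = c0 ∨ stepP hX s c = c1 then -1 else 1) * -o c.1
      have e1 : (stepP hX s c = c0 ∨ stepP hX s c = c1) ↔
          (X.step s c.1 = X.x0 ∨ X.step s c.1 = X.y0) := by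
        rw [Subtype.ext_iff, Subtype.ext_iff, coe_stepP]
      have e2 := ht c.1
      by_cases h2 : X.step s c.1 = X.x0
      · rw [if_pos (e1.2 (Or.inl h2)), h2, h0]
        have h3 : par s c.1 = X.π X.x0 := by rw [← h2, step_eq, hX.inv]
        rw [h3, h0'] at e2
        rw [← e2]; simp
      · by_cases h3 : X.step s c.1 = X.y0
        · rw [if_pos (e1.2 (Or.inr h3)), h3, h1]
          have h4 : par s c.1 = X.π X.y0 := by rw [← h3, step_eq, hX.inv]
          rw [h4, h1'] at e2
          rw [← e2]; simp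
        · rw [if_neg (fun h => (e1.1 h).elim h2 h3), one_mul]
          have n0 : par s c.1 ≠ X.x0 := by
            intro h
            have := inc_par p s c.1
            rw [h, hX.x0_in, c.2] at this; simp at this
          have n1 : par s c.1 ≠ X.y0 := by
            intro h
            have := inc_par p s c.1
            rw [h, hX.y0_in, c.2] at this; simp at this
          have n0' : par s c.1 ≠ X.π X.x0 := by
            intro h; apply h2; rw [step_eq, h, hX.inv]
          have n1' : par s c.1 ≠ X.π X.y0 := by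
            intro h; apply h3; rw [step_eq, h, hX.inv]
          have := hr (par s c.1) n0 n0' n1 n1'
          rw [step_eq, this, e2, neg_neg]
  · -- left inverse
    intro σ _
    funext c
    show -(if h : inc p c.1 = true then -σ ⟨c.1, h⟩ else φ (X.π c.1) * σ ⟨X.π c.1, hin c.1 h⟩) = σ c
    rw [dif_pos c.2, neg_neg]
  · -- right inverse
    intro o ho
    rw [mem_filter] at ho
    obtain ⟨_, ⟨h0, h0', h1, h1', hr⟩, ht⟩ := ho
    funext x
    show (if h : inc p x = true then -(-o x) else φ (X.π x) * -o (X.π x)) = o x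
    by_cases hx : inc p x = true
    · rw [dif_pos hx, neg_neg]
    · rw [dif_neg hx]
      have n0 : x ≠ X.x0 := by rintro rfl; exact hx hX.x0_in
      have n1 : x ≠ X.y0 := by rintro rfl; exact hx hX.y0_in
      by_cases n0' : x = X.π X.x0
      · rw [n0', hX.inv, h0, h0']; simp [hφ]
      · by_cases n1' : x = X.π X.y0
        · rw [n1', hX.inv, h1, h1']; simp [hφ]
        · rw [hr x n0 n0' n1 n1', neg_neg]
          have : φ (X.π x) = 1 := by
            simp only [hφ]
            rw [if_neg]
            rintro (h | h)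
            · apply n0'; rw [← h, hX.inv]
            · apply n1'; rw [← h, hX.inv]
          rw [this, one_mul]
  · -- weights
    intro σ hσ
    rw [mem_filter] at hσ
    obtain ⟨hc, ht⟩ := hfw σ hσ.2
    have hσF : ∀ c : In p, σ c = F σ (par s c.1) := by
      intro c
      rw [ht c.1]
      show σ c = -(if h : inc p c.1 = true then -σ ⟨c.1, h⟩ else φ (X.π c.1) * σ ⟨X.π c.1, hin c.1 h⟩)
      rw [dif_pos c.2, neg_neg]
    have e1 : ∀ c : In p, zt ^ (-((σ c : ℤˣ) : ℤ) * X.dt s c) =
        zt ^ (-((F σ (par s c.1) : ℤˣ) : ℤ) * c.1.2.tn (s c.1.1)) *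
          zt ^ (-((F σ (X.π (stepP hX s c)) : ℤˣ) : ℤ) * X.t (X.π (stepP hX s c))) := by
      intro c
      have e2 : X.π (stepP hX s c) = par s c.1 := by
        rw [coe_stepP, step_eq, hX.inv]
      rw [e2, ← zpow_add₀ zt_ne, hσF c]
      congr 1
      unfold Net.dt par
      ring
    rw [Finset.prod_congr rfl fun c _ => e1 c, Finset.prod_mul_distrib, tiles_eq p s (F σ) ht,
      Equiv.prod_comp (stepP hX s) (fun x : In p =>
        zt ^ (-((F σ (X.π x) : ℤˣ) : ℤ) * X.t (X.π x))), wires_eq hX (F σ) hc]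
    ring

/-- **State sum = vertex sum.** -/
theorem vertex_eq (hX : X.Good p) (a b : ι → ℂ) (T0 : ℤ) (hT : ∀ s, X.Loops p s)
    (h0 : ∀ s, X.KT s X.x0 (X.ln s X.x0) = T0) :
    zt ^ T0 * X.Z a b = zt ^ (X.t (X.π X.x0) - X.t (X.π X.y0)) * X.V a b := by
  classical
  unfold Net.Z Net.V
  rw [Finset.mul_sum]
  have e1 : ∀ s : ι → Bool, zt ^ T0 * ((∏ i, if s i then b i else a i) * X.amp s) =
      zt ^ (X.t (X.π X.x0) - X.t (X.π X.y0)) * ∑ o : ι × Dir → ℤˣ,
        if X.Cons o then ww X o * ∏ i, ((if s i then b i else a i) *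
          (if ∀ d, o (i, d.mate (s i)) = -o (i, d) then tw (s i) (fun d => o (i, d)) else 0))
        else 0 := by
    intro s
    have h := state_eq hX s (hT s)
    rw [h0 s] at h
    calc zt ^ T0 * ((∏ i, if s i then b i else a i) * X.amp s)
        = (∏ i, if s i then b i else a i) * (zt ^ T0 * X.amp s) := by ring
      _ = _ := by
        rw [h, mul_left_comm]
        congr 1
        rw [Finset.mul_sum]
        refine Finset.sum_congr rfl fun o _ => ?_
        by_cases hc : X.Cons o
        · by_cases ht : tc s o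
          · rw [if_pos ⟨hc, ht⟩, if_pos hc, Finset.prod_mul_distrib]
            have : ∀ i ∈ (univ : Finset ι), (if ∀ d, o (i, d.mate (s i)) = -o (i, d) then
                tw (s i) (fun d => o (i, d)) else 0) = tw (s i) (fun d => o (i, d)) := by
              intro i _
              rw [if_pos]
              intro d
              exact ht (i, d)
            rw [Finset.prod_congr rfl this]
            ring
          · rw [if_neg (fun h => ht h.2), if_pos hc, mul_zero]
            obtain ⟨⟨i, d⟩, hx⟩ := not_forall.1 ht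
            symm
            apply mul_eq_zero_of_right
            apply Finset.prod_eq_zero (mem_univ i)
            have hn : ¬ ∀ d, o (i, d.mate (s i)) = -o (i, d) := fun h => hx (h d)
            rw [if_neg hn, mul_zero]
        · rw [if_neg (fun h => hc h.1), if_neg hc, mul_zero]
  rw [Finset.sum_congr rfl fun s _ => e1 s, ← Finset.mul_sum, Finset.sum_comm]
  congr 1
  refine Finset.sum_congr rfl fun o _ => ?_
  by_cases hc : X.Cons o
  swap
  · simp [hc]
  simp only [if_pos hc]
  rw [← Finset.mul_sum]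
  unfold Net.wt
  rw [mul_comm]
  congr 1
  have h2 := Finset.prod_univ_sum (fun _ : ι => (univ : Finset Bool))
    (fun i c => ((if c then b i else a i) *
      (if ∀ d, o (i, d.mate c) = -o (i, d) then tw c (fun d => o (i, d)) else 0)))
  rw [Fintype.piFinset_univ] at h2
  rw [← h2]
  refine Finset.prod_congr rfl fun i _ => ?_
  rw [Fintype.sum_bool]
  unfold vert
  rw [add_comm]
  have hα : (∀ d, o (i, d.mate false) = -o (i, d)) ↔
      (o (i, .N) = -o (i, .W) ∧ o (i, .S) = -o (i, .E)) := by
    constructor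
    · intro h; exact ⟨h .W, h .E⟩
    · rintro ⟨h1, h2⟩ d
      cases d
      · exact h1
      · show o (i, .W) = -o (i, .N); rw [h1, neg_neg]
      · exact h2
      · show o (i, .E) = -o (i, .S); rw [h2, neg_neg]
  have hβ : (∀ d, o (i, d.mate true) = -o (i, d)) ↔
      (o (i, .S) = -o (i, .W) ∧ o (i, .N) = -o (i, .E)) := by
    constructor
    · intro h; exact ⟨h .W, h .E⟩
    · rintro ⟨h1, h2⟩ d
      cases d
      · exact h1
      · show o (i, .E) = -o (i, .N); rw [h2, neg_neg]
      · exact h2
      · show o (i, .W) = -o (i, .S); rw [h1, neg_neg]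
  rw [if_congr hα rfl rfl, if_congr hβ rfl rfl]
  simp only [Bool.false_eq_true, if_false, if_true, mul_ite, mul_zero, tw]

end Pool.Agent.H81.G1
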