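import Mathlib
import Pool.Agent.H81.G1.Arrow
import Pool.Agent.H75.Perc.Orbit3

set_option autoImplicit false
open Finset

/-! In a connected network, if the loop of the root has the same total turning in all states, then all
other loops have turning `± 4`. -/

namespace Pool.Agent.H81.G1

open Pool.Agent.H75.Perc

section abstract

variable {α : Type*}

/-- Turning of a loop which is merged with the loop of the root by an exchange. -/
lemma merge_turn {f f' : α → α} {p q : α} (h : Swapped f f' p q) (hf : Function.Injective f)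
    {δ δ' : α → ℤ} {e : ℤ}
    (hδ : ∀ x, x ≠ p → x ≠ q → δ' x = δ x) (hp : δ p = e) (hq : δ q = e) (hp' : δ' p = -e)
    (hq' : δ' q = -e) {c : α} {L L' M : ℕ} (hO : Orb f c L) (hO' : Orb f' c L') (hQ : Orb f q M)
    (hT : KK f δ c 0 L = KK f' δ' c 0 L') (h1 : InOrb f c p) (h2 : ¬ InOrb f c q) :
    KK f δ q 0 M = 4 * e := by
  obtain ⟨m1, m2, -, -⟩ := h.merge hO hQ h1 h2
  obtain ⟨a, haL, ha⟩ := (hO'.inOrb_iff p).1 m1
  obtain ⟨b, hbL, hb⟩ := (hO'.inOrb_iff q).1 m2
  have hδ' : ∀ x, x ≠ p → x ≠ q → δ x = δ' x := fun x a b => (hδ x a b).symm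
  rcases lt_trichotomy a b with hab | hab | hab
  · obtain ⟨-, -, s3⟩ := h.symm.split hO' hab hbL ha hb
    have s4 := h.symm.split_total hδ' hp' hq' (by rw [hp]; ring) (by rw [hq]; ring) 0 0 hO' hab hbL
      ha hb
    obtain ⟨s5, s6⟩ := h.symm.split_other hO' hab hbL ha hb
    have e1 := hO.unique s3
    rw [← e1, hT] at s4
    have s7 : KK f δ (f'^[a + 1] c) 0 (b - a) = 4 * e := by linarith
    have s8 : f^[b - a - 1] (f'^[a + 1] c) = q := by
      rw [s5 _ le_rfl]
      have : a + 1 + (b - a - 1) = b := by omega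
      rw [this, hb]
    obtain ⟨r1, r2⟩ := s6.rotate hf δ 0 (b - a - 1)
    rw [s8] at r1 r2
    have e2 := hQ.unique r1
    rw [e2, r2, s7]
  · subst hab
    exfalso
    have : p = q := by rw [← ha, ← hb]
    exact h2 (this ▸ h1)
  · exfalso
    obtain ⟨s1, -, -⟩ := h.symm.comm.split hO' hab haL hb ha
    apply h2
    exact ⟨b, by rw [s1 b le_rfl, hb]⟩

/-- an orbit which avoids the two points of an exchange is unchanged -/
lemma avoid_orb {f f' : α → α} {p q : α} (h : Swapped f f' p q) {x : α} (hp : ¬ InOrb f x p)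
    (hq : ¬ InOrb f x q) : ∀ n, f'^[n] x = f^[n] x := fun n =>
  h.agree x n (fun i _ => ⟨fun e => hp ⟨i, e⟩, fun e => hq ⟨i, e⟩⟩) n le_rfl

lemma avoid_KK {f f' : α → α} {p q : α} (h : Swapped f f' p q) {δ δ' : α → ℤ}
    (hδ : ∀ x, x ≠ p → x ≠ q → δ' x = δ x) {x : α} (hp : ¬ InOrb f x p)
    (hq : ¬ InOrb f x q) (n : ℕ) : KK f' δ' x 0 n = KK f δ x 0 n := by
  unfold KK
  congr 1
  refine Finset.sum_congr rfl fun i _ => ?_
  rw [avoid_orb h hp hq]
  exact hδ _ (fun e => hp ⟨i, e⟩) (fun e => hq ⟨i, e⟩)

lemma avoid_Orb {f f' : α → α} {p q : α} (h : Swapped f f' p q) {x : α} (hp : ¬ InOrb f x p)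
    (hq : ¬ InOrb f x q) {M : ℕ} (hO : Orb f x M) : Orb f' x M :=
  ⟨hO.pos, by rw [avoid_orb h hp hq]; exact hO.per, fun i j hij hj => by
    rw [avoid_orb h hp hq, avoid_orb h hp hq]; exact hO.inj i j hij hj⟩

/-- being on a common orbit is symmetric -/
lemma inOrb_symm {f : α → α} {x y : α} {M : ℕ} (hO : Orb f x M) (h : InOrb f x y) :
    InOrb f y x := by
  obtain ⟨i, hi, hy⟩ := (hO.inOrb_iff y).1 h
  refine ⟨M - i, ?_⟩
  rw [← hy, ← Function.iterate_add_apply]
  have : M - i + i = M := by omega
  rw [this, hO.per]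

lemma inOrb_trans {f : α → α} {x y z : α} (h : InOrb f x y) (h' : InOrb f y z) : InOrb f x z := by
  obtain ⟨i, rfl⟩ := h
  obtain ⟨j, rfl⟩ := h'
  exact ⟨j + i, Function.iterate_add_apply _ _ _ _⟩

end abstract

variable {ι : Type*} [Fintype ι] [DecidableEq ι]

/-- half steps: through a tile, or along a wire -/
def Net.F (X : Net ι) (p : ι → Bool) (s : ι → Bool) (x : ι × Dir) : ι × Dir :=
  if inc p x = true then par s x else X.π x

/-- turning of a half step -/
def Net.dl (X : Net ι) (p : ι → Bool) (s : ι → Bool) (x : ι × Dir) : ℤ :=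
  if inc p x = true then x.2.tn (s x.1) else X.t x

/-- first incoming end of a tile -/
def inA (p : ι → Bool) (i : ι) : ι × Dir := if p i then (i, .W) else (i, .N)

/-- second incoming end of a tile -/
def inB (p : ι → Bool) (i : ι) : ι × Dir := if p i then (i, .E) else (i, .S)

variable {X : Net ι} {p : ι → Bool}

omit [Fintype ι] [DecidableEq ι] in
lemma F_in {s : ι → Bool} {x : ι × Dir} (h : inc p x = true) : X.F p s x = par s x := if_pos h

omit [Fintype ι] [DecidableEq ι] in
lemma F_out {s : ι → Bool} {x : ι × Dir} (h : inc p x ≠ true) : X.F p s x = X.π x := if_neg h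

omit [Fintype ι] [DecidableEq ι] in
lemma inc_inA (i : ι) : inc p (inA p i) = true := by
  unfold inA inc; cases h : p i <;> simp [h, Dir.v]

omit [Fintype ι] [DecidableEq ι] in
lemma inc_inB (i : ι) : inc p (inB p i) = true := by
  unfold inB inc; cases h : p i <;> simp [h, Dir.v]

omit [Fintype ι] [DecidableEq ι] in
lemma inA_ne_inB (i : ι) : inA p i ≠ inB p i := by
  unfold inA inB; cases h : p i <;> simp

omit [Fintype ι] [DecidableEq ι] in
lemma inA_fst (i : ι) : (inA p i).1 = i := by unfold inA; cases p i <;> rfl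

omit [Fintype ι] [DecidableEq ι] in
lemma inB_fst (i : ι) : (inB p i).1 = i := by unfold inB; cases p i <;> rfl

omit [Fintype ι] [DecidableEq ι] in
lemma in_cases {x : ι × Dir} (h : inc p x = true) : x = inA p x.1 ∨ x = inB p x.1 := by
  obtain ⟨i, d⟩ := x
  unfold inc at h
  unfold inA inB
  cases hp : p i <;> cases d <;> simp_all [Dir.v]

omit [Fintype ι] [DecidableEq ι] in
lemma out_cases {s : ι → Bool} {x : ι × Dir} (h : inc p x ≠ true) :
    x = par s (inA p x.1) ∨ x = par s (inB p x.1) := by
  have h1 : inc p (par s x) = true := by rw [inc_par]; simpa using h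
  have h2 : (par s x).1 = x.1 := rfl
  rcases in_cases h1 with h3 | h3
  · left; rw [← h2, ← h3, par_par]
  · right; rw [← h2, ← h3, par_par]

omit [Fintype ι] [DecidableEq ι] in
lemma F_inj (hX : X.Good p) (s : ι → Bool) : Function.Injective (X.F p s) := by
  intro x y h
  by_cases hx : inc p x = true <;> by_cases hy : inc p y = true
  · rw [F_in hx, F_in hy] at h
    have := congrArg (par s) h
    rwa [par_par, par_par] at this
  · rw [F_in hx, F_out hy] at h
    exfalso
    have h1 : inc p (par s x) = false := by rw [inc_par, hx]; rfl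
    have h2 : inc p (X.π y) = true := by rw [hX.ty]; simpa using hy
    rw [h, h2] at h1; cases h1
  · rw [F_out hx, F_in hy] at h
    exfalso
    have h1 : inc p (par s y) = false := by rw [inc_par, hy]; rfl
    have h2 : inc p (X.π x) = true := by rw [hX.ty]; simpa using hx
    rw [← h, h2] at h1; cases h1
  · rw [F_out hx, F_out hy] at h
    have := congrArg X.π h
    rwa [hX.inv, hX.inv] at this

omit [DecidableEq ι] in
lemma F_orb (hX : X.Good p) (s : ι → Bool) (x : ι × Dir) : ∃ M, Orb (X.F p s) x M :=
  exists_orb _ (F_inj hX s) univ (fun _ _ => mem_univ _) x (mem_univ _)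

/-- flip of one tile -/
def flip1 (s : ι → Bool) (i : ι) : ι → Bool := Function.update s i (!s i)

omit [Fintype ι] in
lemma F_swapped (s : ι → Bool) (i : ι) :
    Swapped (X.F p s) (X.F p (flip1 s i)) (inA p i) (inB p i) := by
  refine ⟨?_, ?_, ?_⟩
  · rw [F_in (inc_inA i), F_in (inc_inB i)]
    unfold par inA inB flip1
    cases h : p i <;> cases h2 : s i <;> simp [h2, Dir.mate]
  · rw [F_in (inc_inA i), F_in (inc_inB i)]
    unfold par inA inB flip1
    cases h : p i <;> cases h2 : s i <;> simp [h2, Dir.mate]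
  · intro x hA hB
    by_cases hx : inc p x = true
    · rw [F_in hx, F_in hx]
      have h1 : x.1 ≠ i := by
        rintro rfl
        rcases in_cases hx with h | h
        · exact hA h
        · exact hB h
      unfold par flip1
      rw [Function.update_of_ne h1]
    · rw [F_out hx, F_out hx]

omit [Fintype ι] in
lemma dl_off (s : ι → Bool) (i : ι) (x : ι × Dir) (hA : x ≠ inA p i) (hB : x ≠ inB p i) :
    X.dl p (flip1 s i) x = X.dl p s x := by
  unfold Net.dl
  by_cases hx : inc p x = true
  · rw [if_pos hx, if_pos hx]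
    have h1 : x.1 ≠ i := by
      rintro rfl
      rcases in_cases hx with h | h
      · exact hA h
      · exact hB h
    unfold flip1
    rw [Function.update_of_ne h1]
  · rw [if_neg hx, if_neg hx]

omit [Fintype ι] in
lemma dl_AB (s : ι → Bool) (i : ι) : X.dl p s (inB p i) = X.dl p s (inA p i) ∧
    X.dl p (flip1 s i) (inA p i) = -X.dl p s (inA p i) ∧
    X.dl p (flip1 s i) (inB p i) = -X.dl p s (inA p i) ∧
    (X.dl p s (inA p i) = 1 ∨ X.dl p s (inA p i) = -1) := by
  unfold Net.dl
  simp only [if_pos (inc_inA i), if_pos (inc_inB i)]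
  unfold inA inB flip1
  cases h : p i <;> cases h2 : s i <;> simp [h2, Dir.tn]

/-- connected network: a set of ends which contains `x0` and is closed under the wires and the tiles
is everything -/
def Net.Connected (X : Net ι) : Prop :=
  ∀ A : Set (ι × Dir), X.x0 ∈ A → (∀ x ∈ A, X.π x ∈ A) → (∀ x ∈ A, ∀ d, (x.1, d) ∈ A) → ∀ x, x ∈ A

/-- **All loops have turning `± 4`.** -/
theorem all_turn (hX : X.Good p) (hc : X.Connected) (T0 : ℤ)
    (h0 : ∀ s L, Orb (X.F p s) X.x0 L → KK (X.F p s) (X.dl p s) X.x0 0 L = T0) :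
    ∀ s x M, ¬ InOrb (X.F p s) X.x0 x → Orb (X.F p s) x M →
      KK (X.F p s) (X.dl p s) x 0 M = 4 ∨ KK (X.F p s) (X.dl p s) x 0 M = -4 := by
  classical
  have main : ∀ (n : ℕ) (s : ι → Bool),
      (univ.filter (fun y => ¬ InOrb (X.F p s) X.x0 y)).card ≤ n → ∀ x M,
      ¬ InOrb (X.F p s) X.x0 x → Orb (X.F p s) x M →
      KK (X.F p s) (X.dl p s) x 0 M = 4 ∨ KK (X.F p s) (X.dl p s) x 0 M = -4 := by
    intro n
    induction n with
    | zero =>
      intro s hn x M hx _
      exfalso
      have : x ∈ univ.filter (fun y => ¬ InOrb (X.F p s) X.x0 y) := by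
        rw [mem_filter]; exact ⟨mem_univ _, hx⟩
      rw [Finset.card_eq_zero.1 (Nat.le_zero.1 hn)] at this
      exact absurd this (notMem_empty _)
    | succ n ih =>
      intro s hn x M hx hM
      set f := X.F p s with hf
      have hinj : Function.Injective f := F_inj hX s
      obtain ⟨L, hL⟩ := F_orb hX s X.x0
      -- a tile where the loop of the root meets another loop
      obtain ⟨i, P, Q, hPQ, hP, hQ⟩ : ∃ i P Q, ((P = inA p i ∧ Q = inB p i) ∨
          (P = inB p i ∧ Q = inA p i)) ∧ InOrb f X.x0 P ∧ ¬ InOrb f X.x0 Q := by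
        by_contra hno
        apply hx
        have hback : ∀ y, InOrb f X.x0 (f y) → InOrb f X.x0 y := by
          intro y hy
          have h1 : InOrb f y (f y) := ⟨1, rfl⟩
          obtain ⟨K, hK⟩ := F_orb hX s y
          exact inOrb_trans hy (inOrb_symm hK h1)
        have hfw : ∀ y, InOrb f X.x0 y → InOrb f X.x0 (f y) := fun y hy => inOrb_trans hy ⟨1, rfl⟩
        have hboth : ∀ i, (InOrb f X.x0 (inA p i) ↔ InOrb f X.x0 (inB p i)) := by
          intro i
          constructor
          · intro h; by_contra h'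
            exact hno ⟨i, _, _, Or.inl ⟨rfl, rfl⟩, h, h'⟩
          · intro h; by_contra h'
            exact hno ⟨i, _, _, Or.inr ⟨rfl, rfl⟩, h, h'⟩
        apply hc {y | InOrb f X.x0 y} ⟨0, rfl⟩
        · intro y hy
          by_cases hiy : inc p y = true
          · have h1 : inc p (X.π y) ≠ true := by rw [hX.ty, hiy]; simp
            have h2 : f (X.π y) = y := by rw [hf, F_out h1, hX.inv]
            apply hback
            rw [h2]; exact hy
          · have h2 : f y = X.π y := F_out hiy
            show InOrb f X.x0 (X.π y)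
            rw [← h2]; exact hfw y hy
        · intro y hy d
          have hA : InOrb f X.x0 (inA p y.1) := by
            by_cases hiy : inc p y = true
            · rcases in_cases hiy with h | h
              · rw [← h]; exact hy
              · rw [hboth, ← h]; exact hy
            · rcases out_cases (s := s) hiy with h | h
              · apply hback
                rw [hf, F_in (inc_inA _), ← h]; exact hy
              · rw [hboth]
                apply hback
                rw [hf, F_in (inc_inB _), ← h]; exact hy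
          have hB : InOrb f X.x0 (inB p y.1) := (hboth _).1 hA
          show InOrb f X.x0 (y.1, d)
          by_cases hiy : inc p (y.1, d) = true
          · rcases in_cases hiy with h | h
            · rw [h]; exact hA
            · rw [h]; exact hB
          · rcases out_cases (s := s) hiy with h | h
            · rw [h]
              have := hfw _ hA
              rwa [hf, F_in (inc_inA _)] at this
            · rw [h]
              have := hfw _ hB
              rwa [hf, F_in (inc_inB _)] at this
      obtain ⟨ab1, ab2, ab3, ab4⟩ := dl_AB (X := X) (p := p) s i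
      set e := X.dl p s (inA p i) with he
      set s' := flip1 s i with hs'
      have hsw : Swapped f (X.F p s') P Q := by
        rcases hPQ with ⟨rfl, rfl⟩ | ⟨rfl, rfl⟩
        · exact F_swapped s i
        · exact (F_swapped s i).comm
      have hoff : ∀ y, y ≠ P → y ≠ Q → X.dl p s' y = X.dl p s y := by
        intro y h1 h2
        rcases hPQ with ⟨rfl, rfl⟩ | ⟨rfl, rfl⟩
        · exact dl_off s i y h1 h2
        · exact dl_off s i y h2 h1
      have hP1 : X.dl p s P = e := by
        rcases hPQ with ⟨rfl, rfl⟩ | ⟨rfl, rfl⟩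
        · rfl
        · exact ab1
      have hQ1 : X.dl p s Q = e := by
        rcases hPQ with ⟨rfl, rfl⟩ | ⟨rfl, rfl⟩
        · exact ab1
        · rfl
      have hP2 : X.dl p s' P = -e := by
        rcases hPQ with ⟨rfl, rfl⟩ | ⟨rfl, rfl⟩
        · exact ab2
        · exact ab3
      have hQ2 : X.dl p s' Q = -e := by
        rcases hPQ with ⟨rfl, rfl⟩ | ⟨rfl, rfl⟩
        · exact ab3
        · exact ab2
      by_cases hxQ : InOrb f x Q
      · -- the loop of `x` is the loop of `Q`
        obtain ⟨j, hj, hjQ⟩ := (hM.inOrb_iff Q).1 hxQ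
        obtain ⟨r1, r2⟩ := hM.rotate hinj (X.dl p s) 0 j
        rw [hjQ] at r1 r2
        obtain ⟨L', hL'⟩ := F_orb hX s' X.x0
        have := merge_turn hsw hinj hoff hP1 hQ1 hP2 hQ2 hL hL' r1
          (by rw [h0 s L hL, h0 s' L' hL']) hP hQ
        rw [← r2, this]
        rcases ab4 with h | h <;> rw [h]
        · left; norm_num
        · right; norm_num
      · have hxP : ¬ InOrb f x P := by
          intro h
          apply hx
          exact inOrb_trans hP (inOrb_symm hM h)
        rw [← avoid_KK hsw hoff hxP hxQ]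
        obtain ⟨MQ, hMQ⟩ := F_orb hX s Q
        obtain ⟨g1, g2, g3, g4⟩ := hsw.merge hL hMQ hP hQ
        apply ih s' _ x M _ (avoid_Orb hsw hxP hxQ hM)
        · have hlt : (univ.filter (fun y => ¬ InOrb (X.F p s') X.x0 y)).card <
              (univ.filter (fun y => ¬ InOrb f X.x0 y)).card := by
            apply Finset.card_lt_card
            rw [Finset.ssubset_iff_of_subset]
            · refine ⟨Q, ?_, ?_⟩
              · rw [mem_filter]; exact ⟨mem_univ _, hQ⟩
              · rw [mem_filter]; rintro ⟨_, h⟩; exact h g2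
            · intro y hy
              rw [mem_filter] at hy ⊢
              exact ⟨mem_univ _, fun h => hy.2 (g3 y h)⟩
          omega
        · intro h
          obtain ⟨K, hK⟩ := F_orb hX s' X.x0
          obtain ⟨j, hj⟩ := inOrb_symm hK h
          rw [avoid_orb hsw hxP hxQ] at hj
          exact hx (inOrb_symm hM ⟨j, hj⟩)
  intro s x M hx hM
  exact main _ s le_rfl x M hx hM

/-! ### Full steps -/

omit [Fintype ι] [DecidableEq ι] in
lemma F_step (hX : X.Good p) (s : ι → Bool) {x : ι × Dir} (hx : inc p x = true) :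
    X.F p s (X.F p s x) = X.step s x := by
  rw [F_in hx, F_out (by rw [inc_par, hx]; simp), step_eq]

omit [Fintype ι] [DecidableEq ι] in
lemma inc_iter (hX : X.Good p) (s : ι → Bool) {x : ι × Dir} (hx : inc p x = true) (n : ℕ) :
    inc p ((X.step s)^[n] x) = true := by
  induction n with
  | zero => exact hx
  | succ n ih => rw [Function.iterate_succ_apply']; exact inc_step hX s ih

omit [Fintype ι] [DecidableEq ι] in
lemma F_even (hX : X.Good p) (s : ι → Bool) {x : ι × Dir} (hx : inc p x = true) (n : ℕ) :
    (X.F p s)^[2 * n] x = (X.step s)^[n] x := by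
  induction n with
  | zero => rfl
  | succ n ih =>
    rw [show 2 * (n + 1) = 2 * n + 1 + 1 by ring, Function.iterate_succ_apply',
      Function.iterate_succ_apply', ih, Function.iterate_succ_apply', F_step hX s (inc_iter hX s hx n)]

omit [Fintype ι] [DecidableEq ι] in
lemma F_odd (hX : X.Good p) (s : ι → Bool) {x : ι × Dir} (hx : inc p x = true) (n : ℕ) :
    (X.F p s)^[2 * n + 1] x = par s ((X.step s)^[n] x) := by
  rw [Function.iterate_succ_apply', F_even hX s hx, F_in (inc_iter hX s hx n)]

omit [Fintype ι] [DecidableEq ι] in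
lemma KK_even (hX : X.Good p) (s : ι → Bool) {x : ι × Dir} (hx : inc p x = true) (n : ℕ) :
    KK (X.F p s) (X.dl p s) x 0 (2 * n) = X.KT s x n := by
  induction n with
  | zero => simp [KK, Net.KT]
  | succ n ih =>
    rw [show 2 * (n + 1) = 2 * n + 1 + 1 by ring, KK_succ, KK_succ, ih, F_even hX s hx,
      F_odd hX s hx]
    have h1 := inc_iter hX s hx n
    have h2 : inc p (par s ((X.step s)^[n] x)) ≠ true := by rw [inc_par, h1]; simp
    unfold Net.KT
    rw [Finset.sum_range_succ]
    unfold Net.dl Net.dt
    rw [if_pos h1, if_neg h2]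
    unfold par
    ring

lemma ln_pos (hX : X.Good p) (s : ι → Bool) {x : ι × Dir} (hx : inc p x = true) :
    0 < X.ln s x := by
  rw [← ln_eq hX s ⟨x, hx⟩]
  exact Function.minimalPeriod_pos_of_mem_periodicPts
    ((stepP hX s).injective.mem_periodicPts _)

lemma orb_even (hX : X.Good p) (s : ι → Bool) {x : ι × Dir} (hx : inc p x = true) :
    Orb (X.F p s) x (2 * X.ln s x) := by
  have hp := ln_pos hX s hx
  refine ⟨by omega, ?_, ?_⟩
  · rw [F_even hX s hx]
    exact Function.isPeriodicPt_minimalPeriod _ _
  · have inj : ∀ a b, a < X.ln s x → b < X.ln s x → (X.step s)^[a] x = (X.step s)^[b] x → a = b :=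
      fun a b ha hb h => Function.iterate_injOn_Iio_minimalPeriod (Set.mem_Iio.2 ha)
        (Set.mem_Iio.2 hb) h
    intro i j hij hj he
    rcases Nat.even_or_odd' i with ⟨a, ha | ha⟩ <;> rcases Nat.even_or_odd' j with ⟨b, hb | hb⟩
    · rw [ha, hb, F_even hX s hx, F_even hX s hx] at he
      have := inj a b (by omega) (by omega) he
      omega
    · rw [ha, hb, F_even hX s hx, F_odd hX s hx] at he
      have h1 := inc_iter hX s hx a
      have h2 : inc p (par s ((X.step s)^[b] x)) = false := by
        rw [inc_par, inc_iter hX s hx b]; rfl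
      rw [← he, h1] at h2; cases h2
    · rw [ha, hb, F_even hX s hx, F_odd hX s hx] at he
      have h1 := inc_iter hX s hx b
      have h2 : inc p (par s ((X.step s)^[a] x)) = false := by
        rw [inc_par, inc_iter hX s hx a]; rfl
      rw [he, h1] at h2; cases h2
    · rw [ha, hb, F_odd hX s hx, F_odd hX s hx] at he
      have h1 := congrArg (par s) he
      rw [par_par, par_par] at h1
      have := inj a b (by omega) (by omega) h1
      omega

/-- the turnings of all loops from the turning of the loop of the root -/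
theorem loops_of_root (hX : X.Good p) (hc : X.Connected) (T0 : ℤ)
    (h0 : ∀ s, X.KT s X.x0 (X.ln s X.x0) = T0) (s : ι → Bool) : X.Loops p s := by
  intro x hx hk
  have hO := orb_even hX s hx
  have key := all_turn hX hc T0 (fun s L hL => by
    have h1 := hL.unique (orb_even hX s hX.x0_in)
    rw [h1, KK_even hX s hX.x0_in, h0 s]) s x (2 * X.ln s x) (by
      rintro ⟨j, hj⟩
      rcases Nat.even_or_odd' j with ⟨a, ha | ha⟩
      · rw [ha, F_even hX s hX.x0_in] at hj
        exact hk a hj
      · rw [ha, F_odd hX s hX.x0_in] at hj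
        have h2 : inc p (par s ((X.step s)^[a] X.x0)) = false := by
          rw [inc_par, inc_iter hX s hX.x0_in a]; rfl
        rw [hj, hx] at h2; cases h2) hO
  rw [KK_even hX s hx] at key
  exact key

/-- **State sum = vertex sum** in a connected network in which the loop of the root has the total
turning `T0` for all states. -/
theorem vertex_eq' (hX : X.Good p) (hc : X.Connected) (a b : ι → ℂ) (T0 : ℤ)
    (h0 : ∀ s, X.KT s X.x0 (X.ln s X.x0) = T0) :
    zt ^ T0 * X.Z a b = zt ^ (X.t (X.π X.x0) - X.t (X.π X.y0)) * X.V a b :=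
  vertex_eq hX a b T0 (loops_of_root hX hc T0 h0) h0

omit [Fintype ι] [DecidableEq ι] in
/-- a row is connected -/
lemma row_connected {N : ℕ} {X : Net (Fin N)} (hr : X.IsRow)
    (hinv : ∀ x, X.π (X.π x) = x) : X.Connected := by
  intro A h0 hπ ht
  have key : ∀ c : Fin N, (∀ d, (c, d) ∈ A) := by
    have h1 : ∀ d, (X.x0.1, d) ∈ A := fun d => ht _ h0 d
    have up : ∀ n : ℕ, ∀ h : X.x0.1.1 + n < N, ∀ d, ((⟨X.x0.1.1 + n, h⟩ : Fin N), d) ∈ A := by
      intro n
      induction n with
      | zero => intro h d; exact h1 d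
      | succ n ih =>
        intro h d
        have h2 := ih (by omega) .E
        have h3 := hπ _ h2
        rw [hr ⟨X.x0.1.1 + n, by omega⟩ ⟨X.x0.1.1 + (n + 1), h⟩ rfl] at h3
        exact ht _ h3 d
    have dn : ∀ n : ℕ, ∀ c : Fin N, c.1 + n = X.x0.1.1 → ∀ d, (c, d) ∈ A := by
      intro n
      induction n with
      | zero =>
        intro c hc d
        have : c = X.x0.1 := Fin.ext (by omega)
        rw [this]; exact h1 d
      | succ n ih =>
        intro c hc d
        have hlt : c.1 + 1 < N := by have := X.x0.1.2; omega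
        have h2 := ih ⟨c.1 + 1, hlt⟩ (by show c.1 + 1 + n = _; omega) .W
        have h3 := hπ _ h2
        rw [← hr c ⟨c.1 + 1, hlt⟩ rfl, hinv] at h3
        exact ht _ h3 d
    intro c
    rcases le_total X.x0.1.1 c.1 with h | h
    · have := up (c.1 - X.x0.1.1) (by have := c.2; omega)
      have e : (⟨X.x0.1.1 + (c.1 - X.x0.1.1), by have := c.2; omega⟩ : Fin N) = c :=
        Fin.ext (by show X.x0.1.1 + (c.1 - X.x0.1.1) = c.1; omega)
      intro d
      have := this d
      rwa [e] at this
    · exact dn (X.x0.1.1 - c.1) c (by omega)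
  intro x
  exact key x.1 x.2

end Pool.Agent.H81.G1
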