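import Mathlib
import Pool.Agent.H81.G1.Loops
import Pool.Agent.H81.G1.Induce
import Pool.Agent.Q1.Freeze

set_option autoImplicit false
open Finset

/-! **Environments and networks.** The network of the random tiles of a natural environment; the wires
are the deterministic strands. -/

namespace Pool.Agent.H81.G1

open Pool.Agent.H75.Perc Pool.Agent.H75.TwoArm Pool.Agent.Q1

variable {ι : Type*} [Fintype ι] [DecidableEq ι]

/-- the tiles `i : ι` are the random labels `lb i` of the environment; `cr (i, d)` is the corner at the end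
`d` of the tile -/
structure Tiles (X : Env) (lb : ι → ℤ × ℤ) (p : ι → Bool) (cr : ι × Dir → ℤ × ℤ) : Prop where
  inj : Function.Injective lb
  mem : ∀ i, lb i ∈ X.E
  surj : ∀ e ∈ X.E, ∃ i, lb i = e
  tt : ∀ i, p i = true → lab (cr (i, .W)) = lb i ∧ lab (cr (i, .E)) = lb i ∧
    cr (i, .W) ≠ cr (i, .E) ∧ cr (i, .N) = nxC (cr (i, .W)) ∧ cr (i, .S) = nxC (cr (i, .E))
  ff : ∀ i, p i = false → lab (cr (i, .N)) = lb i ∧ lab (cr (i, .S)) = lb i ∧
    cr (i, .N) ≠ cr (i, .S) ∧ cr (i, .E) = nxC (cr (i, .N)) ∧ cr (i, .W) = nxC (cr (i, .S))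

/-- the network `N` is the network of the tiles of the environment `X` with the deterministic strands as
wires; the corner of the mark is `cr N.y0` -/
structure Wired (X : Env) (lb : ι → ℤ × ℤ) (p : ι → Bool) (cr : ι × Dir → ℤ × ℤ) (N : Net ι)
    (n0 : ℕ) : Prop where
  tiles : Tiles X lb p cr
  good : N.Good p
  wire : ∀ x, inc p x = false → ∃ n, (∀ i < n, lab (X.out^[i] (cr x)) ∉ X.E) ∧
    cr (N.π x) = X.out^[n] (cr x) ∧ N.t x = ∑ i ∈ range n, X.dout (X.out^[i] (cr x))
  root : (∀ i < n0, lab (X.out^[i] X.c0) ∉ X.E) ∧ cr N.x0 = X.out^[n0] X.c0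

/-- the state of the tiles -/
def stt (lb : ι → ℤ × ℤ) (p : ι → Bool) (ω : Finset (ℤ × ℤ)) (i : ι) : Bool :=
  decide (lb i ∈ ω) == p i

section

variable {X : Env} {lb : ι → ℤ × ℤ} {p : ι → Bool} {cr : ι × Dir → ℤ × ℤ} {N : Net ι} {n0 : ℕ}

omit [Fintype ι] [DecidableEq ι] in
lemma lab_cr (T : Tiles X lb p cr) {x : ι × Dir} (hx : inc p x = true) : lab (cr x) = lb x.1 := by
  obtain ⟨i, d⟩ := x
  unfold inc at hx
  cases hp : p i
  · have h := T.ff i hp
    cases d <;> simp_all [Dir.v]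
  · have h := T.tt i hp
    cases d <;> simp_all [Dir.v]

omit [Fintype ι] [DecidableEq ι] in
lemma cr_inj (T : Tiles X lb p cr) {x y : ι × Dir} (hx : inc p x = true) (hy : inc p y = true)
    (h : cr x = cr y) : x = y := by
  have h1 := lab_cr T hx
  have h2 := lab_cr T hy
  rw [h, h2] at h1
  have h3 : y.1 = x.1 := T.inj h1
  obtain ⟨i, d⟩ := x
  obtain ⟨j, d'⟩ := y
  simp only at h3
  subst h3
  unfold inc at hx hy
  cases hp : p j
  · have h4 := T.ff j hp
    cases d <;> cases d' <;> simp_all [Dir.v]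
  · have h4 := T.tt j hp
    cases d <;> cases d' <;> simp_all [Dir.v]

omit [Fintype ι] [DecidableEq ι] in
/-- every corner in front of a random label is the corner of an incoming end -/
lemma cr_surj (T : Tiles X lb p cr) {c : ℤ × ℤ} (hc : lab c ∈ X.E) :
    ∃ x, inc p x = true ∧ cr x = c := by
  obtain ⟨i, hi⟩ := T.surj _ hc
  have ho := X.odd _ (T.mem i)
  have hc' := (Pool.Agent.H75.Perc.lab_eq_iff (lb i) c ho).1 hi.symm
  cases hp : p i
  · obtain ⟨l1, l2, l3, -, -⟩ := T.ff i hp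
    have k1 := (Pool.Agent.H75.Perc.lab_eq_iff (lb i) _ ho).1 l1
    have k2 := (Pool.Agent.H75.Perc.lab_eq_iff (lb i) _ ho).1 l2
    have hN : inc p (i, .N) = true := by unfold inc; rw [hp]; rfl
    have hS : inc p (i, .S) = true := by unfold inc; rw [hp]; rfl
    rcases hc' with h | h <;> rcases k1 with k1 | k1 <;> rcases k2 with k2 | k2
    · exact absurd (k1.trans k2.symm) l3
    · exact ⟨_, hN, k1.trans h.symm⟩
    · exact ⟨_, hS, k2.trans h.symm⟩
    · exact absurd (k1.trans k2.symm) l3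
    · exact absurd (k1.trans k2.symm) l3
    · exact ⟨_, hS, k2.trans h.symm⟩
    · exact ⟨_, hN, k1.trans h.symm⟩
    · exact absurd (k1.trans k2.symm) l3
  · obtain ⟨l1, l2, l3, -, -⟩ := T.tt i hp
    have k1 := (Pool.Agent.H75.Perc.lab_eq_iff (lb i) _ ho).1 l1
    have k2 := (Pool.Agent.H75.Perc.lab_eq_iff (lb i) _ ho).1 l2
    have hW : inc p (i, .W) = true := by unfold inc; rw [hp]; rfl
    have hE : inc p (i, .E) = true := by unfold inc; rw [hp]; rfl
    rcases hc' with h | h <;> rcases k1 with k1 | k1 <;> rcases k2 with k2 | k2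
    · exact absurd (k1.trans k2.symm) l3
    · exact ⟨_, hW, k1.trans h.symm⟩
    · exact ⟨_, hE, k2.trans h.symm⟩
    · exact absurd (k1.trans k2.symm) l3
    · exact absurd (k1.trans k2.symm) l3
    · exact ⟨_, hE, k2.trans h.symm⟩
    · exact ⟨_, hW, k1.trans h.symm⟩
    · exact absurd (k1.trans k2.symm) l3

omit [Fintype ι] [DecidableEq ι] in
lemma mem_cr (T : Tiles X lb p cr) {x : ι × Dir} (hx : inc p x = true) : lab (cr x) ∈ X.E := by
  rw [lab_cr T hx]; exact T.mem _

/-- in an open tile the two passages are exchanged -/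
lemma nxO_pair {e : ℤ × ℤ} (he : (e.1 + e.2) % 2 = 1) {a b : ℤ × ℤ} (ha : lab a = e) (hb : lab b = e)
    (hab : a ≠ b) : nxO a = nxC b := by
  rcases (Pool.Agent.H75.Perc.lab_eq_iff e a he).1 ha with h | h <;>
    rcases (Pool.Agent.H75.Perc.lab_eq_iff e b he).1 hb with k | k
  · exact absurd (h.trans k.symm) hab
  · rw [h, k]; exact nxO_in1 e he
  · rw [h, k]; exact nxO_in2 e he
  · exact absurd (h.trans k.symm) hab

omit [Fintype ι] [DecidableEq ι] in
/-- passage through a tile -/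
lemma f_cr (T : Tiles X lb p cr) (ω : Finset (ℤ × ℤ)) {x : ι × Dir} (hx : inc p x = true) :
    X.f ω (cr x) = cr (par (stt lb p ω) x) := by
  rw [Env.f_in (mem_cr T hx)]
  obtain ⟨i, d⟩ := x
  have hl := lab_cr T hx
  have ho := X.odd _ (T.mem i)
  simp only at hl
  unfold inc at hx
  unfold nx par stt
  rw [hl]
  cases hp : p i
  · obtain ⟨l1, l2, l3, l4, l5⟩ := T.ff i hp
    by_cases hω : lb i ∈ ω
    · rw [if_pos hω]
      have q1 := nxO_pair ho l1 l2 l3
      have q2 := nxO_pair ho l2 l1 (Ne.symm l3)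
      cases d <;> simp_all [Dir.v, Dir.mate]
    · rw [if_neg hω]
      cases d <;> simp_all [Dir.v, Dir.mate]
  · obtain ⟨l1, l2, l3, l4, l5⟩ := T.tt i hp
    by_cases hω : lb i ∈ ω
    · rw [if_pos hω]
      have q1 := nxO_pair ho l1 l2 l3
      have q2 := nxO_pair ho l2 l1 (Ne.symm l3)
      cases d <;> simp_all [Dir.v, Dir.mate]
    · rw [if_neg hω]
      cases d <;> simp_all [Dir.v, Dir.mate]

omit [Fintype ι] [DecidableEq ι] in
lemma d_cr (T : Tiles X lb p cr) (ω : Finset (ℤ × ℤ)) {x : ι × Dir} (hx : inc p x = true) :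
    X.d ω (cr x) = x.2.tn (stt lb p ω x.1) := by
  rw [Env.d_in (mem_cr T hx)]
  obtain ⟨i, d⟩ := x
  have hl := lab_cr T hx
  simp only at hl
  unfold inc at hx
  unfold del stt
  rw [hl]
  cases hp : p i <;> by_cases hω : lb i ∈ ω <;> cases d <;> simp_all [Dir.v, Dir.tn]

/-- random labels -/
def Rn (X : Env) (c : ℤ × ℤ) : Prop := lab c ∈ X.E

omit [Fintype ι] [DecidableEq ι] in
lemma cr_mem_S (T : Tiles X lb p cr) {x : ι × Dir} (hx : inc p x = true) : cr x ∈ X.S :=
  X.in_mem _ (mem_cr T hx)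

omit [Fintype ι] [DecidableEq ι] in
/-- the states are those of the subsets: passage for an arbitrary outgoing end -/
lemma cr_out (T : Tiles X lb p cr) {ω : Finset (ℤ × ℤ)} {x : ι × Dir} (hx : inc p x = false) :
    cr x = X.f ω (cr (par (stt lb p ω) x)) := by
  have h1 : inc p (par (stt lb p ω) x) = true := by rw [inc_par, hx]; rfl
  rw [f_cr T ω h1, par_par]

omit [Fintype ι] [DecidableEq ι] in
/-- along a wire the strand is deterministic -/
lemma wire_iter {ω : Finset (ℤ × ℤ)} (hω : ω ⊆ X.E) {c : ℤ × ℤ}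
    (hc : c ∈ X.S) {n : ℕ} (hn : ∀ i < n, lab (X.out^[i] c) ∉ X.E) :
    (∀ i ≤ n, (X.f ω)^[i] c = X.out^[i] c) ∧
      ∀ i < n, X.d ω (X.out^[i] c) = X.dout (X.out^[i] c) := by
  have key : ∀ i ≤ n, (X.f ω)^[i] c = X.out^[i] c ∧ X.out^[i] c ∈ X.S := by
    intro i
    induction i with
    | zero => intro _; exact ⟨rfl, hc⟩
    | succ i ih =>
      intro hi
      obtain ⟨h1, h2⟩ := ih (by omega)
      rw [Function.iterate_succ_apply', Function.iterate_succ_apply', h1]
      have h3 := Env.f_out (ω := ω) h2 (hn i (by omega))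
      refine ⟨h3, ?_⟩
      rw [← h3]; exact Env.f_mem hω h2
  refine ⟨fun i hi => (key i hi).1, fun i hi => ?_⟩
  exact Env.d_out (key i hi.le).2 (hn i hi)

/-- first return times exist -/
lemma exists_ret {ω : Finset (ℤ × ℤ)} (hω : ω ⊆ X.E) : ∃ r, IsRet (X.f ω) (Rn X) r := by
  classical
  have hex : ∀ c, Rn X c → ∃ n, 0 < n ∧ Rn X ((X.f ω)^[n] c) := by
    intro c hc
    obtain ⟨L, hL⟩ := Env.orb_ex hω (X.in_mem c hc)
    exact ⟨L, hL.pos, by rw [hL.per]; exact hc⟩
  refine ⟨fun c => if h : Rn X c then Nat.find (hex c h) else 0, ?_⟩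
  intro c hc
  simp only [dif_pos hc]
  refine ⟨(Nat.find_spec (hex c hc)).1, (Nat.find_spec (hex c hc)).2, ?_⟩
  intro i hi0 hi h
  exact Nat.find_min (hex c hc) hi ⟨hi0, h⟩

/-- the return of the corner of an incoming end is the corner of the next incoming end -/
lemma ret_eq (W : Wired X lb p cr N n0) {ω : Finset (ℤ × ℤ)} (hω : ω ⊆ X.E) {r : ℤ × ℤ → ℕ}
    (hr : IsRet (X.f ω) (Rn X) r) {x : ι × Dir} (hx : inc p x = true) :
    gr (X.f ω) r (cr x) = cr (N.step (stt lb p ω) x) ∧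
      Dr (X.f ω) r (X.d ω) (cr x) = N.dt (stt lb p ω) x := by
  have T := W.tiles
  set s := stt lb p ω with hs
  have hpx : inc p (par s x) = false := by rw [inc_par, hx]; rfl
  obtain ⟨n, w1, w2, w3⟩ := W.wire (par s x) hpx
  have hf := f_cr T ω hx
  have hS : cr (par s x) ∈ X.S := by rw [← hf]; exact Env.f_mem hω (cr_mem_S T hx)
  obtain ⟨i1, i2⟩ := wire_iter hω hS w1
  have hin : inc p (N.π (par s x)) = true := by rw [W.good.ty, hpx]; rfl
  have hit : ∀ i, (X.f ω)^[i + 1] (cr x) = (X.f ω)^[i] (cr (par s x)) := by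
    intro i; rw [Function.iterate_succ_apply, hf]
  obtain ⟨r1, r2, r3⟩ := hr (cr x) (mem_cr T hx)
  have hrn : r (cr x) = n + 1 := by
    rcases lt_trichotomy (r (cr x)) (n + 1) with h | h | h
    · exfalso
      obtain ⟨j, hj⟩ : ∃ j, r (cr x) = j + 1 := ⟨r (cr x) - 1, by omega⟩
      rw [hj, hit, i1 j (by omega)] at r2
      exact w1 j (by omega) r2
    · exact h
    · exfalso
      apply r3 (n + 1) (by omega) h
      rw [hit, i1 n le_rfl, ← w2]
      exact mem_cr T hin
  constructor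
  · unfold gr
    rw [hrn, hit, i1 n le_rfl, ← w2]
    rfl
  · unfold Dr
    rw [hrn, Finset.sum_range_succ']
    have e1 : ∑ k ∈ range n, X.d ω ((X.f ω)^[k + 1] (cr x)) =
        ∑ k ∈ range n, X.dout (X.out^[k] (cr (par s x))) := by
      refine Finset.sum_congr rfl fun k hk => ?_
      have hk := mem_range.1 hk
      rw [hit, i1 k hk.le, i2 k hk]
    rw [e1, ← w3]
    show N.t (par s x) + X.d ω (cr x) = _
    rw [d_cr T ω hx]
    unfold Net.dt par
    rw [hs]
    ring

lemma gr_cr (W : Wired X lb p cr N n0) {ω : Finset (ℤ × ℤ)} (hω : ω ⊆ X.E) {r : ℤ × ℤ → ℕ}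
    (hr : IsRet (X.f ω) (Rn X) r) {x : ι × Dir} (hx : inc p x = true) (k : ℕ) :
    (gr (X.f ω) r)^[k] (cr x) = cr ((N.step (stt lb p ω))^[k] x) := by
  induction k with
  | zero => rfl
  | succ k ih =>
    rw [Function.iterate_succ_apply', Function.iterate_succ_apply', ih,
      (ret_eq W hω hr (inc_iter W.good _ hx k)).1]

lemma KK_cr (W : Wired X lb p cr N n0) {ω : Finset (ℤ × ℤ)} (hω : ω ⊆ X.E) {r : ℤ × ℤ → ℕ}
    (hr : IsRet (X.f ω) (Rn X) r) {x : ι × Dir} (hx : inc p x = true) (k : ℕ) :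
    KK (X.f ω) (X.d ω) (cr x) 0 (rho (X.f ω) r (cr x) k) = N.KT (stt lb p ω) x k := by
  rw [KK_rho]
  unfold Net.KT
  refine Finset.sum_congr rfl fun j _ => ?_
  rw [gr_cr W hω hr hx, (ret_eq W hω hr (inc_iter W.good _ hx j)).2]

/-- the period -/
lemma rho_ln (W : Wired X lb p cr N n0) {ω : Finset (ℤ × ℤ)} (hω : ω ⊆ X.E) {r : ℤ × ℤ → ℕ}
    (hr : IsRet (X.f ω) (Rn X) r) {x : ι × Dir} (hx : inc p x = true) {L : ℕ}
    (hL : Orb (X.f ω) (cr x) L) : rho (X.f ω) r (cr x) (N.ln (stt lb p ω) x) = L := by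
  obtain ⟨M, h1, h2⟩ := orb_ind hr (mem_cr W.tiles hx) hL
  have h3 : Orb (N.step (stt lb p ω)) x M := by
    refine ⟨h2.pos, ?_, ?_⟩
    · have := h2.per
      rw [gr_cr W hω hr hx] at this
      exact cr_inj W.tiles (inc_iter W.good _ hx M) hx this
    · intro i j hij hj he
      apply h2.inj i j hij hj
      rw [gr_cr W hω hr hx, gr_cr W hω hr hx, he]
  have h4 : N.ln (stt lb p ω) x = M := h3.minimalPeriod
  rw [h4, h1]

/-- the labels of a state -/
def osn (lb : ι → ℤ × ℤ) (p : ι → Bool) (s : ι → Bool) : Finset (ℤ × ℤ) :=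
  (univ.filter (fun i => s i = p i)).image lb

omit [DecidableEq ι] in
lemma mem_osn (T : Tiles X lb p cr) (s : ι → Bool) (i : ι) : lb i ∈ osn lb p s ↔ s i = p i := by
  unfold osn
  rw [mem_image]
  constructor
  · rintro ⟨j, hj, h⟩
    rw [mem_filter] at hj
    rw [← T.inj h]; exact hj.2
  · intro h; exact ⟨i, by rw [mem_filter]; exact ⟨mem_univ _, h⟩, rfl⟩

omit [DecidableEq ι] in
lemma osn_sub (T : Tiles X lb p cr) (s : ι → Bool) : osn lb p s ⊆ X.E := by
  intro e he
  unfold osn at he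
  obtain ⟨i, _, rfl⟩ := mem_image.1 he
  exact T.mem i

omit [DecidableEq ι] in
lemma stt_osn (T : Tiles X lb p cr) (s : ι → Bool) : stt lb p (osn lb p s) = s := by
  funext i
  unfold stt
  have h := mem_osn T s i
  cases hp : p i <;> cases hs : s i <;> simp_all

omit [DecidableEq ι] in
lemma osn_stt (T : Tiles X lb p cr) {ω : Finset (ℤ × ℤ)} (hω : ω ⊆ X.E) :
    osn lb p (stt lb p ω) = ω := by
  ext e
  constructor
  · intro he
    unfold osn at he
    obtain ⟨i, hi, rfl⟩ := mem_image.1 he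
    rw [mem_filter] at hi
    have h := hi.2
    unfold stt at h
    cases hp : p i <;> simp_all
  · intro he
    obtain ⟨i, rfl⟩ := T.surj e (hω he)
    rw [mem_osn T]
    unfold stt
    cases hp : p i <;> simp_all

/-- index shift from the root corner to the first incoming end -/
def dsh (X : Env) (n0 : ℕ) : ℤ := ∑ i ∈ range n0, X.dout (X.out^[i] X.c0)

lemma root_orb (W : Wired X lb p cr N n0) {ω : Finset (ℤ × ℤ)} (hω : ω ⊆ X.E) :
    (X.f ω)^[n0] X.c0 = cr N.x0 ∧ KK (X.f ω) (X.d ω) X.c0 X.k0 n0 = X.k0 + dsh X n0 ∧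
      Orb (X.f ω) (cr N.x0) (X.len ω) ∧
      KK (X.f ω) (X.d ω) (cr N.x0) 0 (X.len ω) = X.T := by
  obtain ⟨i1, i2⟩ := wire_iter hω X.c0_mem W.root.1
  have h1 : (X.f ω)^[n0] X.c0 = cr N.x0 := by rw [i1 n0 le_rfl, W.root.2]
  refine ⟨h1, ?_, ?_⟩
  · unfold KK dsh
    congr 1
    refine Finset.sum_congr rfl fun i hi => ?_
    have hi := mem_range.1 hi
    rw [i1 i hi.le, i2 i hi]
  · obtain ⟨r1, r2⟩ := (Env.orb hω).rotate (Env.f_injective hω) (X.d ω) 0 n0
    rw [h1] at r1 r2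
    refine ⟨r1, ?_⟩
    rw [r2]
    have h3 := Env.K_len hω
    unfold Env.K at h3
    rw [KK_shift (X.f ω) (X.d ω) X.c0 X.k0 0, h3]
    ring

/-- the loop of the root has the turning `X.T` -/
lemma root_turn (W : Wired X lb p cr N n0) (s : ι → Bool) :
    N.KT s N.x0 (N.ln s N.x0) = X.T := by
  have hω := osn_sub W.tiles s
  obtain ⟨r, hr⟩ := exists_ret hω
  obtain ⟨-, -, h3, h4⟩ := root_orb W hω
  have h5 := rho_ln W hω hr W.good.x0_in h3
  have h6 := KK_cr W hω hr W.good.x0_in (N.ln (stt lb p (osn lb p s)) N.x0)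
  rw [h5, h4] at h6
  rw [stt_osn W.tiles] at h6
  exact h6.symm

omit [Fintype ι] [DecidableEq ι] in
/-- before the first incoming end there is no random label -/
lemma incO_time (W : Wired X lb p cr N n0) {ω : Finset (ℤ × ℤ)} (hω : ω ⊆ X.E) {i : ℕ}
    (hi : i < n0) : ¬ Rn X (X.z ω i) := by
  obtain ⟨i1, -⟩ := wire_iter hω X.c0_mem W.root.1
  unfold Env.z Rn
  rw [i1 i hi.le]
  exact W.root.1 i hi

/-- **the increments of an environment in terms of the network** -/
theorem incO_eq (W : Wired X lb p cr N n0) {ω : Finset (ℤ × ℤ)} (hω : ω ⊆ X.E) :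
    X.incO ω (cr N.y0) = ∑ k ∈ range (N.ln (stt lb p ω) N.x0),
      if (N.step (stt lb p ω))^[k] N.x0 = N.y0 then
        ph (X.k0 + dsh X n0 + N.KT (stt lb p ω) N.x0 k) else 0 := by
  obtain ⟨r, hr⟩ := exists_ret hω
  set s := stt lb p ω with hs
  obtain ⟨h1, h2, h3, h4⟩ := root_orb W hω
  have hin := W.good.x0_in
  have hP : Rn X (cr N.x0) := mem_cr W.tiles hin
  have h5 := rho_ln W hω hr hin h3
  rw [← hs] at h5
  -- corner and index at the time `n0 + rho k`
  have hz : ∀ k, X.z ω (n0 + rho (X.f ω) r (cr N.x0) k) = cr ((N.step s)^[k] N.x0) := by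
    intro k
    unfold Env.z
    rw [Nat.add_comm, Function.iterate_add_apply, h1, gr_iter, gr_cr W hω hr hin]
  have hK : ∀ k, X.K ω (n0 + rho (X.f ω) r (cr N.x0) k) = X.k0 + dsh X n0 + N.KT s N.x0 k := by
    intro k
    rw [← KK_cr W hω hr hin k, ← h2]
    unfold Env.K KK
    rw [Finset.sum_range_add]
    have : ∀ j, (X.f ω)^[n0 + j] X.c0 = (X.f ω)^[j] (cr N.x0) := by
      intro j; rw [Nat.add_comm, Function.iterate_add_apply, h1]
    simp only [this]
    ring
  -- the time is less than the length of the loop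
  have hlt : ∀ k, k < N.ln s N.x0 → n0 + rho (X.f ω) r (cr N.x0) k < X.len ω := by
    intro k hk
    by_contra hge
    have g1 : rho (X.f ω) r (cr N.x0) k < X.len ω := by
      rw [← h5]; exact rho_mono hr hP hk
    obtain ⟨j, hj⟩ : ∃ j, n0 + rho (X.f ω) r (cr N.x0) k = j + X.len ω :=
      ⟨n0 + rho (X.f ω) r (cr N.x0) k - X.len ω, by omega⟩
    apply incO_time W hω (i := j) (by omega)
    have g2 : X.z ω j = X.z ω (j + X.len ω) := by
      unfold Env.z; rw [(Env.orb hω).add]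
    rw [g2, ← hj, hz]
    exact mem_cr W.tiles (inc_iter W.good _ hin k)
  unfold Env.incO
  symm
  refine Finset.sum_bij_ne_zero (fun k _ _ => n0 + rho (X.f ω) r (cr N.x0) k) ?_ ?_ ?_ ?_
  · intro k hk _
    exact mem_range.2 (hlt k (mem_range.1 hk))
  · intro a _ _ b _ _ hab
    exact (rho_mono hr hP).injective (by omega)
  · intro i hi hne
    have hzi : X.z ω i = cr N.y0 := by
      by_contra h; exact hne (if_neg h)
    have hRi : Rn X (X.z ω i) := by rw [hzi]; exact mem_cr W.tiles W.good.y0_in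
    have hi0 : n0 ≤ i := by
      by_contra h; exact incO_time W hω (not_le.1 h) hRi
    obtain ⟨k, hk⟩ := times hr hP (n := i - n0) (by
      have : (X.f ω)^[i - n0] (cr N.x0) = X.z ω i := by
        unfold Env.z
        rw [← h1, ← Function.iterate_add_apply]
        congr 1; omega
      rw [this]; exact hRi)
    have hik : n0 + rho (X.f ω) r (cr N.x0) k = i := by omega
    have hkl : k < N.ln s N.x0 := by
      by_contra h
      have g1 : rho (X.f ω) r (cr N.x0) (N.ln s N.x0) ≤ rho (X.f ω) r (cr N.x0) k :=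
        (rho_mono hr hP).monotone (not_lt.1 h)
      rw [h5] at g1
      have := mem_range.1 hi
      omega
    have hstep : (N.step s)^[k] N.x0 = N.y0 := by
      apply cr_inj W.tiles (inc_iter W.good _ hin k) W.good.y0_in
      rw [← hz, hik, hzi]
    refine ⟨k, mem_range.2 hkl, ?_, hik⟩
    rw [if_pos hstep]; exact ph_ne _
  · intro k _ hne
    have hstep : (N.step s)^[k] N.x0 = N.y0 := by
      by_contra h; exact hne (if_neg h)
    rw [if_pos hstep, hz, if_pos (by rw [hstep]), hK]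

lemma zt_w6 : zt ^ 4 = w6 := zt_four

lemma ph_zt (m : ℤ) : ph m = zt ^ (4 * m) := by
  unfold ph
  rw [← zt_w6, zpow_mul]; norm_cast

lemma zt_24 (k : ℤ) : zt ^ (24 * k) = 1 := by
  rw [zpow_mul]
  have : zt ^ (24 : ℤ) = 1 := by
    have h := zt_twelve
    have : zt ^ (24 : ℤ) = (zt ^ 12) ^ 2 := by norm_cast; ring
    rw [this, h]; norm_num
  rw [this, one_zpow]

/-- **increment = amplitude** -/
theorem incO_amp (W : Wired X lb p cr N n0) {ω : Finset (ℤ × ℤ)} (hω : ω ⊆ X.E) :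
    X.incO ω (cr N.y0) = zt ^ (6 * ty (cr N.y0) - 2 * (X.k0 + dsh X n0)) *
      N.amp (stt lb p ω) := by
  rw [incO_eq W hω]
  unfold Net.amp
  rw [Finset.mul_sum]
  obtain ⟨r, hr⟩ := exists_ret hω
  obtain ⟨h1, h2, h3, h4⟩ := root_orb W hω
  have hin := W.good.x0_in
  refine Finset.sum_congr rfl fun k _ => ?_
  by_cases h : (N.step (stt lb p ω))^[k] N.x0 = N.y0
  swap
  · rw [if_neg h, if_neg h, mul_zero]
  rw [if_pos h, if_pos h, ph_zt, ← zpow_add₀ zt_ne]
  -- the index mod 4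
  have hz : X.z ω (n0 + rho (X.f ω) r (cr N.x0) k) = cr N.y0 := by
    unfold Env.z
    rw [Nat.add_comm, Function.iterate_add_apply, h1, gr_iter, gr_cr W hω hr hin, h]
  have hK : X.K ω (n0 + rho (X.f ω) r (cr N.x0) k) =
      X.k0 + dsh X n0 + N.KT (stt lb p ω) N.x0 k := by
    rw [← KK_cr W hω hr hin k, ← h2]
    unfold Env.K KK
    rw [Finset.sum_range_add]
    have : ∀ j, (X.f ω)^[n0 + j] X.c0 = (X.f ω)^[j] (cr N.x0) := by
      intro j; rw [Nat.add_comm, Function.iterate_add_apply, h1]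
    simp only [this]
    ring
  have hm := Env.K_mod hω (n0 + rho (X.f ω) r (cr N.x0) k)
  rw [hz, hK] at hm
  set m := X.k0 + dsh X n0 + N.KT (stt lb p ω) N.x0 k with hmd
  obtain ⟨j, hj⟩ : ∃ j, m = ty (cr N.y0) + 4 * j := ⟨m / 4, by omega⟩
  have e : 4 * m = (6 * ty (cr N.y0) - 2 * (X.k0 + dsh X n0) +
      -2 * N.KT (stt lb p ω) N.x0 k) + 24 * j := by
    have : N.KT (stt lb p ω) N.x0 k = m - X.k0 - dsh X n0 := by rw [hmd]; ring
    rw [this, hj]; ring
  rw [e, zpow_add₀ zt_ne, zt_24, mul_one]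

/-- weight of the state `α` -/
def wA (lb : ι → ℤ × ℤ) (p : ι → Bool) (q : ℤ × ℤ → ℂ) (i : ι) : ℂ :=
  if p i then 1 - q (lb i) else q (lb i)

/-- weight of the state `β` -/
def wB (lb : ι → ℤ × ℤ) (p : ι → Bool) (q : ℤ × ℤ → ℂ) (i : ι) : ℂ :=
  if p i then q (lb i) else 1 - q (lb i)

/-- **the weighted increments of an environment = the state sum of its network** -/
theorem incW_eq (W : Wired X lb p cr N n0) (q : ℤ × ℤ → ℂ) :
    Ec q X.E (fun ω => X.incO ω (cr N.y0)) =
      zt ^ (6 * ty (cr N.y0) - 2 * (X.k0 + dsh X n0)) * N.Z (wA lb p q) (wB lb p q) := by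
  have T := W.tiles
  unfold Ec Net.Z
  rw [Finset.mul_sum]
  refine Finset.sum_bij' (i := fun ω _ => stt lb p ω) (j := fun s _ => osn lb p s) ?_ ?_ ?_ ?_ ?_
  · intro ω _; exact mem_univ _
  · intro s _; exact mem_powerset.2 (osn_sub T s)
  · intro ω hω; exact osn_stt T (mem_powerset.1 hω)
  · intro s _; exact stt_osn T s
  · intro ω hω
    have hω := mem_powerset.1 hω
    show wtc q X.E ω * X.incO ω (cr N.y0) = _
    rw [incO_amp W hω]
    have hE : X.E = univ.image lb := by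
      ext e
      rw [mem_image]
      constructor
      · intro he; obtain ⟨i, hi⟩ := T.surj e he; exact ⟨i, mem_univ _, hi⟩
      · rintro ⟨i, _, rfl⟩; exact T.mem i
    have hw : wtc q X.E ω = ∏ i, (if stt lb p ω i then wB lb p q i else wA lb p q i) := by
      unfold wtc
      have e1 : ω = X.E.filter (fun e => e ∈ ω) := by
        ext e; rw [mem_filter]; exact ⟨fun h => ⟨hω h, h⟩, fun h => h.2⟩
      have e2 : X.E \ ω = X.E.filter (fun e => ¬ e ∈ ω) := by
        ext e; rw [mem_filter, mem_sdiff]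
      have e3 : (∏ e ∈ ω, q e) * ∏ e ∈ X.E \ ω, (1 - q e) =
          ∏ e ∈ X.E, (if e ∈ ω then q e else 1 - q e) := by
        rw [Finset.prod_ite, ← e2, ← e1]
      rw [e3, hE, Finset.prod_image (fun a _ b _ h => T.inj h)]
      refine Finset.prod_congr rfl fun i _ => ?_
      unfold stt wA wB
      by_cases h : lb i ∈ ω <;> cases hp : p i <;> simp [h]
    rw [hw]
    ring

/-- **the weighted increments of an environment = the vertex sum of its network** -/
theorem incW_vertex (W : Wired X lb p cr N n0) (hc : N.Connected) (q : ℤ × ℤ → ℂ) :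
    Ec q X.E (fun ω => X.incO ω (cr N.y0)) =
      zt ^ (6 * ty (cr N.y0) - 2 * (X.k0 + dsh X n0) - X.T + N.t (N.π N.x0) - N.t (N.π N.y0)) *
        N.V (wA lb p q) (wB lb p q) := by
  rw [incW_eq W q]
  have h := vertex_eq' W.good hc (wA lb p q) (wB lb p q) X.T (root_turn W)
  have h2 : N.Z (wA lb p q) (wB lb p q) = zt ^ (-X.T) * (zt ^ X.T * N.Z (wA lb p q) (wB lb p q)) := by
    rw [← mul_assoc, ← zpow_add₀ zt_ne, neg_add_cancel, zpow_zero, one_mul]
  rw [h2, h, ← mul_assoc, ← mul_assoc, ← zpow_add₀ zt_ne, ← zpow_add₀ zt_ne]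
  congr 2
  ring

end

end Pool.Agent.H81.G1
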