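import Mathlib
import Pool.Agent.H81.G1.Bridge

set_option autoImplicit false
open Finset

/-! **Existence of the network of an environment**: the wires are the deterministic strands. -/

namespace Pool.Agent.H81.G1

open Pool.Agent.H75.Perc Pool.Agent.H75.TwoArm Pool.Agent.Q1

variable {ι : Type*} [Fintype ι] [DecidableEq ι]
  {X : Env} {lb : ι → ℤ × ℤ} {p : ι → Bool} {cr : ι × Dir → ℤ × ℤ}

omit [Fintype ι] [DecidableEq ι] in
/-- the strand from an outgoing end reaches a random label -/
lemma wire_ex (T : Tiles X lb p cr) {x : ι × Dir} (hx : inc p x = false) :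
    ∃ n, lab (X.out^[n] (cr x)) ∈ X.E := by
  by_contra hno
  push Not at hno
  have h0 : (∅ : Finset (ℤ × ℤ)) ⊆ X.E := empty_subset _
  have hy : inc p (par (stt lb p ∅) x) = true := by rw [inc_par, hx]; rfl
  obtain ⟨L, hL⟩ := Env.orb_ex h0 (cr_mem_S T hy)
  have hc : X.f ∅ (cr (par (stt lb p ∅) x)) = cr x := (cr_out T hx).symm
  have hS : cr x ∈ X.S := by rw [← hc]; exact Env.f_mem h0 (cr_mem_S T hy)
  have h1 := (wire_iter h0 hS (n := L - 1) (fun i _ => hno i)).1 (L - 1) le_rfl
  have h2 := hL.per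
  obtain ⟨k, hk⟩ : ∃ k, L = k + 1 := ⟨L - 1, by have := hL.pos; omega⟩
  subst hk
  rw [Function.iterate_succ_apply, hc] at h2
  rw [Nat.add_sub_cancel, h2] at h1
  apply hno k
  rw [← h1]
  exact mem_cr T hy

open Classical in
/-- length of the wire of an outgoing end -/
noncomputable def wl (T : Tiles X lb p cr) (x : ι × Dir) : ℕ :=
  if h : inc p x = false then Nat.find (wire_ex T h) else 0

omit [Fintype ι] [DecidableEq ι] in
lemma wl_lt (T : Tiles X lb p cr) {x : ι × Dir} (hx : inc p x = false) {i : ℕ}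
    (hi : i < wl T x) : lab (X.out^[i] (cr x)) ∉ X.E := by
  classical
  unfold wl at hi
  rw [dif_pos hx] at hi
  exact Nat.find_min (wire_ex T hx) hi

omit [Fintype ι] [DecidableEq ι] in
lemma wl_mem (T : Tiles X lb p cr) {x : ι × Dir} (hx : inc p x = false) :
    lab (X.out^[wl T x] (cr x)) ∈ X.E := by
  classical
  unfold wl
  rw [dif_pos hx]
  exact Nat.find_spec (wire_ex T hx)

/-- the incoming end at the end of the wire of an outgoing end -/
noncomputable def sg (T : Tiles X lb p cr) (x : ι × Dir) : ι × Dir :=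
  if h : inc p x = false then Classical.choose (cr_surj T (wl_mem T h)) else x

omit [Fintype ι] [DecidableEq ι] in
lemma sg_in (T : Tiles X lb p cr) {x : ι × Dir} (hx : inc p x = false) :
    inc p (sg T x) = true := by
  unfold sg
  rw [dif_pos hx]
  exact (Classical.choose_spec (cr_surj T (wl_mem T hx))).1

omit [Fintype ι] [DecidableEq ι] in
lemma sg_cr (T : Tiles X lb p cr) {x : ι × Dir} (hx : inc p x = false) :
    cr (sg T x) = X.out^[wl T x] (cr x) := by
  unfold sg
  rw [dif_pos hx]
  exact (Classical.choose_spec (cr_surj T (wl_mem T hx))).2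

omit [Fintype ι] [DecidableEq ι] in
lemma out_mem_S (T : Tiles X lb p cr) {x : ι × Dir} (hx : inc p x = false) : cr x ∈ X.S := by
  have h0 : (∅ : Finset (ℤ × ℤ)) ⊆ X.E := empty_subset _
  have hy : inc p (par (stt lb p ∅) x) = true := by rw [inc_par, hx]; rfl
  rw [cr_out (ω := ∅) T hx]; exact Env.f_mem h0 (cr_mem_S T hy)

omit [Fintype ι] [DecidableEq ι] in
lemma sg_inj_aux (T : Tiles X lb p cr) {x y : ι × Dir} (hx : inc p x = false)
    (hy : inc p y = false) (h : sg T x = sg T y) (hl : wl T x ≤ wl T y) : x = y := by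
  have h0 : (∅ : Finset (ℤ × ℤ)) ⊆ X.E := empty_subset _
  have hc := congrArg cr h
  rw [sg_cr T hx, sg_cr T hy] at hc
  have e1 := (wire_iter h0 (out_mem_S T hx) (n := wl T x) (fun i hi => wl_lt T hx hi)).1 _ le_rfl
  have e2 := (wire_iter h0 (out_mem_S T hy) (n := wl T y) (fun i hi => wl_lt T hy hi)).1
  rw [← e1, ← e2 _ le_rfl] at hc
  obtain ⟨k, hk⟩ : ∃ k, wl T y = wl T x + k := ⟨wl T y - wl T x, by omega⟩
  rw [hk, Function.iterate_add_apply] at hc
  have h3 : cr x = (X.f ∅)^[k] (cr y) := (Env.f_injective h0).iterate _ hc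
  have hpx : inc p (par (stt lb p ∅) x) = true := by rw [inc_par, hx]; rfl
  have hpy : inc p (par (stt lb p ∅) y) = true := by rw [inc_par, hy]; rfl
  rcases Nat.eq_zero_or_pos k with rfl | hk0
  · simp only [Function.iterate_zero, id_eq] at h3
    rw [cr_out (ω := ∅) T hx, cr_out (ω := ∅) T hy] at h3
    have h4 := cr_inj T hpx hpy (Env.f_injective h0 h3)
    have h5 := congrArg (par (stt lb p ∅)) h4
    rwa [par_par, par_par] at h5
  · exfalso
    obtain ⟨j, rfl⟩ : ∃ j, k = j + 1 := ⟨k - 1, by omega⟩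
    rw [Function.iterate_succ_apply', cr_out (ω := ∅) T hx] at h3
    have h4 := Env.f_injective h0 h3
    rw [e2 j (by omega)] at h4
    apply wl_lt T hy (i := j) (by omega)
    rw [← h4]
    exact mem_cr T hpx

omit [Fintype ι] [DecidableEq ι] in
lemma sg_inj (T : Tiles X lb p cr) {x y : ι × Dir} (hx : inc p x = false)
    (hy : inc p y = false) (h : sg T x = sg T y) : x = y := by
  rcases le_total (wl T x) (wl T y) with hl | hl
  · exact sg_inj_aux T hx hy h hl
  · exact (sg_inj_aux T hy hx h.symm hl).symm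

omit [DecidableEq ι] in
lemma sg_surj (T : Tiles X lb p cr) {y : ι × Dir} (hy : inc p y = true) :
    ∃ x, inc p x = false ∧ sg T x = y := by
  classical
  let s : ι → Bool := fun _ => false
  let A : Finset (ι × Dir) := univ.filter (fun x => inc p x = false)
  let B : Finset (ι × Dir) := univ.filter (fun x => inc p x = true)
  have hcard : B.card ≤ A.card := by
    refine Finset.card_le_card_of_injOn (par s) ?_ ?_
    · intro x hx
      have hx : inc p x = true := (mem_filter.1 hx).2
      refine mem_coe.2 (mem_filter.2 ⟨mem_univ _, ?_⟩)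
      rw [inc_par, hx]; rfl
    · intro x _ z _ h
      have := congrArg (par s) h
      rwa [par_par, par_par] at this
  have hmaps : Set.MapsTo (sg T) (A : Set (ι × Dir)) (B : Set (ι × Dir)) := by
    intro x hx
    have hx : inc p x = false := (mem_filter.1 hx).2
    exact mem_coe.2 (mem_filter.2 ⟨mem_univ _, sg_in T hx⟩)
  have hinj : Set.InjOn (sg T) (A : Set (ι × Dir)) := by
    intro x hx z hz h
    exact sg_inj T (mem_filter.1 hx).2 (mem_filter.1 hz).2 h
  have hs := Finset.surjOn_of_injOn_of_card_le (sg T) hmaps hinj hcard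
  obtain ⟨x, hx, h⟩ := hs (mem_coe.2 (mem_filter.2 ⟨mem_univ y, hy⟩) : y ∈ (B : Set (ι × Dir)))
  exact ⟨x, (mem_filter.1 hx).2, h⟩

/-- the outgoing end whose wire ends at an incoming end -/
noncomputable def sgi (T : Tiles X lb p cr) (y : ι × Dir) : ι × Dir :=
  if h : inc p y = true then Classical.choose (sg_surj T h) else y

omit [DecidableEq ι] in
lemma sgi_out (T : Tiles X lb p cr) {y : ι × Dir} (hy : inc p y = true) :
    inc p (sgi T y) = false := by
  unfold sgi
  rw [dif_pos hy]
  exact (Classical.choose_spec (sg_surj T hy)).1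

omit [DecidableEq ι] in
lemma sg_sgi (T : Tiles X lb p cr) {y : ι × Dir} (hy : inc p y = true) :
    sg T (sgi T y) = y := by
  unfold sgi
  rw [dif_pos hy]
  exact (Classical.choose_spec (sg_surj T hy)).2

omit [DecidableEq ι] in
lemma sgi_sg (T : Tiles X lb p cr) {x : ι × Dir} (hx : inc p x = false) :
    sgi T (sg T x) = x := by
  have h := sg_in T hx
  exact sg_inj T (sgi_out T h) hx (sg_sgi T h)

/-- turning of the wire of an outgoing end -/
noncomputable def wt (T : Tiles X lb p cr) (x : ι × Dir) : ℤ :=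
  ∑ i ∈ range (wl T x), X.dout (X.out^[i] (cr x))

/-- the wires -/
noncomputable def wπ (T : Tiles X lb p cr) (x : ι × Dir) : ι × Dir :=
  if inc p x = false then sg T x else sgi T x

/-- the turnings of the wires -/
noncomputable def wτ (T : Tiles X lb p cr) (x : ι × Dir) : ℤ :=
  if inc p x = false then wt T x else -wt T (sgi T x)

/-- the root has an incoming end -/
def Meets (X : Env) : Prop := ∃ n, lab (X.out^[n] X.c0) ∈ X.E

open Classical in
/-- number of deterministic steps before the first random label -/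
noncomputable def rn0 (X : Env) : ℕ :=
  if h : Meets X then Nat.find h else 0

lemma rn0_lt (hm : Meets X) {i : ℕ} (hi : i < rn0 X) : lab (X.out^[i] X.c0) ∉ X.E := by
  classical
  unfold rn0 at hi
  rw [dif_pos hm] at hi
  exact Nat.find_min hm hi

lemma rn0_mem (hm : Meets X) : lab (X.out^[rn0 X] X.c0) ∈ X.E := by
  classical
  unfold rn0
  rw [dif_pos hm]
  exact Nat.find_spec hm

/-- the first incoming end -/
noncomputable def rx0 (T : Tiles X lb p cr) (hm : Meets X) : ι × Dir :=
  Classical.choose (cr_surj T (rn0_mem hm))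

omit [Fintype ι] [DecidableEq ι] in
lemma rx0_in (T : Tiles X lb p cr) (hm : Meets X) : inc p (rx0 T hm) = true :=
  (Classical.choose_spec (cr_surj T (rn0_mem hm))).1

omit [Fintype ι] [DecidableEq ι] in
lemma rx0_cr (T : Tiles X lb p cr) (hm : Meets X) : cr (rx0 T hm) = X.out^[rn0 X] X.c0 :=
  (Classical.choose_spec (cr_surj T (rn0_mem hm))).2

/-- **the network of the tiles of an environment** with the mark `y` -/
noncomputable def net (T : Tiles X lb p cr) (hm : Meets X) (y : ι × Dir) : Net ι where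
  π := wπ T
  t := wτ T
  x0 := rx0 T hm
  y0 := y

omit [DecidableEq ι] in
lemma inc_wπ (T : Tiles X lb p cr) (x : ι × Dir) : inc p (wπ T x) = !inc p x := by
  unfold wπ
  cases h : inc p x
  · rw [if_pos rfl, sg_in T h]; rfl
  · rw [if_neg (by simp), sgi_out T h]; rfl

omit [DecidableEq ι] in
lemma wπ_wπ (T : Tiles X lb p cr) (x : ι × Dir) : wπ T (wπ T x) = x := by
  cases h : inc p x
  · have h1 : wπ T x = sg T x := if_pos h
    have h2 : inc p (sg T x) ≠ false := by rw [sg_in T h]; simp
    rw [h1]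
    unfold wπ
    rw [if_neg h2, sgi_sg T h]
  · have h0 : inc p x ≠ false := by rw [h]; simp
    have h1 : wπ T x = sgi T x := if_neg h0
    rw [h1]
    unfold wπ
    rw [if_pos (sgi_out T h), sg_sgi T h]

omit [DecidableEq ι] in
lemma wτ_wπ (T : Tiles X lb p cr) (x : ι × Dir) : wτ T (wπ T x) = -wτ T x := by
  cases h : inc p x
  · have h1 : wπ T x = sg T x := if_pos h
    have h2 : inc p (sg T x) ≠ false := by rw [sg_in T h]; simp
    rw [h1]
    unfold wτ
    rw [if_neg h2, if_pos h, sgi_sg T h]
  · have h0 : inc p x ≠ false := by rw [h]; simp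
    have h1 : wπ T x = sgi T x := if_neg h0
    rw [h1]
    unfold wτ
    rw [if_pos (sgi_out T h), if_neg h0, neg_neg]

omit [DecidableEq ι] in
/-- **the network of an environment is wired** -/
theorem net_wired (T : Tiles X lb p cr) (hm : Meets X) {y : ι × Dir} (hy : inc p y = true)
    (hne : y ≠ rx0 T hm) : Wired X lb p cr (net T hm y) (rn0 X) := by
  refine ⟨T, ⟨wπ_wπ T, ?_, wτ_wπ T, inc_wπ T, rx0_in T hm, hy, hne⟩, ?_, ?_, rx0_cr T hm⟩
  · intro x h
    have h1 := inc_wπ T x
    have h2 : (net T hm y).π x = wπ T x := rfl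
    rw [h2] at h
    rw [h] at h1
    cases h3 : inc p x <;> simp [h3] at h1
  · intro x hx
    refine ⟨wl T x, fun i hi => wl_lt T hx hi, ?_, ?_⟩
    · show cr (wπ T x) = _
      unfold wπ
      rw [if_pos hx]
      exact sg_cr T hx
    · show wτ T x = _
      unfold wτ
      rw [if_pos hx]
      rfl
  · intro i hi
    exact rn0_lt hm hi

omit [Fintype ι] [DecidableEq ι] in
/-- the wires of a wired network are unique -/
lemma wired_pi (T : Tiles X lb p cr) {x x' : ι × Dir} {n : ℕ} (hx : inc p x = false)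
    (hx' : inc p x' = true) (h1 : ∀ i < n, lab (X.out^[i] (cr x)) ∉ X.E)
    (h2 : X.out^[n] (cr x) = cr x') : wl T x = n ∧ sg T x = x' := by
  have hn : wl T x = n := by
    rcases lt_trichotomy (wl T x) n with h | h | h
    · exact absurd (wl_mem T hx) (h1 _ h)
    · exact h
    · exfalso
      apply wl_lt T hx h
      rw [h2]; exact mem_cr T hx'
  refine ⟨hn, ?_⟩
  apply cr_inj T (sg_in T hx) hx'
  rw [sg_cr T hx, hn, h2]

omit [Fintype ι] [DecidableEq ι] in
/-- **the increment at the first incoming end** (trivial mark) -/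
theorem incO_root (T : Tiles X lb p cr) (hm : Meets X) {ω : Finset (ℤ × ℤ)} (hω : ω ⊆ X.E) :
    X.incO ω (cr (rx0 T hm)) = ph (X.k0 + dsh X (rn0 X)) := by
  obtain ⟨i1, i2⟩ := wire_iter hω X.c0_mem (n := rn0 X) (fun i hi => rn0_lt hm hi)
  have hz : X.z ω (rn0 X) = cr (rx0 T hm) := by
    rw [rx0_cr T hm]; exact i1 _ le_rfl
  have hK : X.K ω (rn0 X) = X.k0 + dsh X (rn0 X) := by
    unfold Env.K KK dsh
    congr 1
    refine Finset.sum_congr rfl fun i hi => ?_
    have hi := mem_range.1 hi
    rw [i1 i hi.le, i2 i hi]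
  have hlt : rn0 X < X.len ω := by
    by_contra hge
    obtain ⟨j, hj⟩ : ∃ j, rn0 X = j + X.len ω := ⟨rn0 X - X.len ω, by omega⟩
    have hpos := Env.len_pos hω
    apply rn0_lt hm (i := j) (by omega)
    have g2 : X.z ω j = X.z ω (j + X.len ω) := by
      unfold Env.z; rw [(Env.orb hω).add]
    rw [← hj, hz] at g2
    have g3 : X.z ω j = X.out^[j] X.c0 := i1 j (by omega)
    rw [← g3, g2]
    exact mem_cr T (rx0_in T hm)
  unfold Env.incO
  rw [Finset.sum_eq_single (rn0 X)]
  · rw [if_pos hz, hK]
  · intro i hi hne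
    rw [if_neg]
    intro h
    apply hne
    exact Env.z_inj hω (mem_range.1 hi) hlt (h.trans hz.symm)
  · intro h
    exact absurd (mem_range.2 hlt) h

end Pool.Agent.H81.G1
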