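import Pool.Agent.H81.G1.Mid1
import Pool.Agent.H30.Mid.MidXT

set_option autoImplicit false
set_option linter.unusedSectionVars false
open Finset

/-! # The glued configuration of the frozen environment `XF`

`WGl` : the open labels of the glued configuration which are not random. -/

namespace Pool.Agent.H81.G1

open Pool.Agent.H75.Perc Pool.Agent.H75.TwoArm Pool.Agent.Q1 Pool.Agent.H30.Mid
open Pool.Agent.H69.M6b (lbt lbt_inj lbt_odd pr0)
open Pool.Agent.Q1.M6b.Gl
open Pool.Agent.Q1.M6b.Gd (sm)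
open Pool.Agent.H74.R45 Pool.Agent.H13.R45 Pool.Agent.H33.Q1

variable {w h j x y : ℤ} {N : ℕ} {B t : Finset (ℤ × ℤ)}

/-- open labels of the glued configuration which are not random -/
noncomputable def WGl (w h j : ℤ) (W EU : Finset (ℤ × ℤ)) : Finset (ℤ × ℤ) :=
  (W ∩ RT (-2) (w + 2) (-2) (j - 1)) ∪ ((RT (-2) (w + 2) j (h + 1) \ (W ∪ EU)).map (tr (1, -1)))

lemma lbt_tr (x y : ℤ) : lbt x y - (1, -1) = lbt x (y + 1) := by
  unfold lbt
  refine Prod.ext ?_ ?_
  · simp only [Prod.fst_sub]; ring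
  · simp only [Prod.snd_sub]; ring

lemma mem_WGl {W EU : Finset (ℤ × ℤ)} : lbt x y ∈ WGl w h j W EU ↔
    (lbt x y ∈ W ∧ -2 ≤ x ∧ x < w + 2 ∧ -2 ≤ y ∧ y < j - 1) ∨
    ((-2 ≤ x ∧ x < w + 2 ∧ j - 1 ≤ y ∧ y < h) ∧ lbt x (y + 1) ∉ W ∧ lbt x (y + 1) ∉ EU) := by
  unfold WGl
  rw [mem_union, mem_inter, mem_tr, lbt_tr, mem_sdiff, mem_union, not_or, lbt_lt, lt_mem_RT, lbt_lt,
    lt_mem_RT]
  constructor
  · rintro (h1 | h1)
    · exact Or.inl h1
    · exact Or.inr ⟨⟨h1.1.1, h1.1.2.1, by omega, by omega⟩, h1.2⟩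
  · rintro (h1 | h1)
    · exact Or.inl h1
    · exact Or.inr ⟨⟨h1.1.1, h1.1.2.1, by omega, by omega⟩, h1.2⟩

lemma mem_gE {EL EU : Finset (ℤ × ℤ)} : lbt x y ∈ gE EL EU (1, -1) ↔
    lbt x y ∈ EL ∨ lbt x (y + 1) ∈ EU := by
  unfold gE
  rw [mem_union, mem_tr, lbt_tr]

lemma gE_odd {e : ℤ × ℤ} (he : e ∈ gE (BL w j B) (BU w h j B) (1, -1)) : (e.1 + e.2) % 2 = 1 := by
  unfold gE at he
  rw [mem_union, mem_tr] at he
  rcases he with he | he
  · exact odd_BL he
  · have := odd_BU he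
    simp only [Prod.fst_sub, Prod.snd_sub] at this
    omega

lemma WGl_odd {W EU : Finset (ℤ × ℤ)} {e : ℤ × ℤ} (he : e ∈ WGl w h j W EU) : (e.1 + e.2) % 2 = 1 := by
  unfold WGl at he
  rw [mem_union, mem_inter, mem_tr, mem_sdiff] at he
  rcases he with he | he
  · exact odd_RT he.2
  · have := odd_RT he.1
    simp only [Prod.fst_sub, Prod.snd_sub] at this
    omega

section

variable (O : Out w h) (h0 : 0 ≤ j) (h1 : j ≤ h) (j2 : j % 2 = 0)

/-- the random labels are not open in `WF` -/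
lemma not_WF (hN : (N : ℤ) = w) (g0 : 0 < j) (g1 : j < h) {e : ℤ × ℤ}
    (he : e ∈ BL w j B ∪ BU w h j B) : e ∉ WF O h0 h1 j2 N B t := by
  refine disjoint_left.1 (po_XF O h0 h1 j2 (N := N) (B := B) (t := t)).disj ?_
  rw [XF_E O h0 h1 j2 hN g0 g1]
  exact mem_union_left _ he

/-- the random labels are not among the fixed open labels of the glued configuration -/
theorem disj_WGl (hN : (N : ℤ) = w) (g0 : 0 < j) (g1 : j < h) :
    Disjoint (gE (BL w j B) (BU w h j B) (1, -1))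
      (WGl w h j (WF O h0 h1 j2 N B t) (BU w h j B)) := by
  rw [disjoint_left]
  intro e he he'
  obtain ⟨x, y, rfl⟩ := exists_lbt (gE_odd he)
  rw [mem_gE] at he
  rw [mem_WGl] at he'
  rcases he with he | he
  · have h2 := (mem_BL.1 he).1
    rcases he' with h3 | h3
    · exact not_WF O h0 h1 j2 hN g0 g1 (mem_union_left _ he) h3.1
    · omega
  · have h2 := (mem_BU.1 he).1
    rcases he' with h3 | h3
    · omega
    · exact h3.2.2 he

/-- the open labels of the frozen environment in terms of the glued random labels -/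
lemma mem_LF (hN : (N : ℤ) = w) (g0 : 0 < j) (g1 : j < h) {ω : Finset (ℤ × ℤ)} {e : ℤ × ℤ} :
    e ∈ LF O h0 h1 j2 N B t (ug (BL w j B) (BU w h j B) (1, -1) ω) ↔
      e ∈ WF O h0 h1 j2 N B t ∨ (e ∈ ω ∧ e ∈ BL w j B) ∨ (e ∈ BU w h j B ∧ e + (1, -1) ∉ ω) := by
  unfold LF fW
  rw [mem_union, mem_inter, XF_sdiff O h0 h1 j2 hN g0 g1, mem_ug]
  constructor
  · rintro (h2 | h2)
    · exact Or.inl h2
    · exact Or.inr h2.1
  · rintro (h2 | h2)
    · exact Or.inl h2
    · refine Or.inr ⟨h2, ?_⟩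
      rcases h2 with h3 | h3
      · exact mem_union_left _ h3.2
      · exact mem_union_right _ h3.1

/-- **The glued configuration of `XF`.** -/
theorem glab_XF (hN : (N : ℤ) = w) (g0 : 0 < j) (g1 : j < h) {ω : Finset (ℤ × ℤ)}
    (hω : ω ⊆ gE (BL w j B) (BU w h j B) (1, -1))
    (F : Frame (LF O h0 h1 j2 N B t (ug (BL w j B) (BU w h j B) (1, -1) ω)) N 0 (j - 1))
    (hF : ∀ x y : ℤ, F.In (lbt x y) → -2 ≤ x ∧ x < N + 2 ∧ -2 ≤ y ∧ y ≤ h) :
    GLab F (ω ∪ WGl w h j (WF O h0 h1 j2 N B t) (BU w h j B)) := by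
  constructor
  · intro x y a1 a2 a3 a4
    have hb := hF x y (Or.inr (Or.inl ⟨x, y, rfl, a1, a2, a3, a4⟩))
    rw [mem_LF O h0 h1 j2 hN g0 g1, mem_union, mem_WGl]
    have nU : lbt x y ∉ BU w h j B := fun hh => by have := (mem_BU.1 hh).1; omega
    constructor
    · rintro (h2 | h2 | h2)
      · have h3 := hω h2
        rw [mem_gE] at h3
        rcases h3 with h3 | h3
        · exact Or.inr (Or.inl ⟨h2, h3⟩)
        · have := (mem_BU.1 h3).1; omega
      · exact Or.inl h2.1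
      · omega
    · rintro (h2 | h2 | h2)
      · exact Or.inr (Or.inl ⟨h2, by omega, by omega, by omega, by omega⟩)
      · exact Or.inl h2.1
      · exact absurd h2.1 nU
  · intro x y a1 a2 a3 a4
    have hb := hF x y (Or.inl ⟨x, y, rfl, a1, a2, a3, a4⟩)
    have e1 : lbt x y + vg = lbt x (y - 1) := lbt_add x y
    rw [mem_LF O h0 h1 j2 hN g0 g1, mem_union, e1, mem_WGl, sub_add_cancel]
    have nL : lbt x y ∉ BL w j B := fun hh => by have := (mem_BL.1 hh).1; omega
    have e2 : lbt x y + (1, -1) = lbt x (y - 1) := lbt_add x y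
    rw [e2]
    constructor
    · rintro (h2 | h2 | h2)
      · have h3 := hω h2
        rw [mem_gE, sub_add_cancel] at h3
        rcases h3 with h3 | h3
        · have := (mem_BL.1 h3).1; omega
        · rintro (h4 | h4 | h4)
          · exact not_WF O h0 h1 j2 hN g0 g1 (mem_union_right _ h3) h4
          · exact nL h4.2
          · exact h4.2 h2
      · omega
      · rintro (h4 | h4 | h4)
        · exact h2.2.1 h4
        · exact nL h4.2
        · exact h2.2.2 h4.1
    · intro h2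
      by_cases h3 : lbt x (y - 1) ∈ ω
      · exact Or.inl h3
      · refine Or.inr (Or.inr ⟨⟨by omega, by omega, by omega, by omega⟩, fun h4 => h2 (Or.inl h4),
          fun h4 => h2 (Or.inr (Or.inr ⟨h4, h3⟩))⟩)

end

end Pool.Agent.H81.G1
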