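import Pool.Agent.H81.G1.Mid1

set_option autoImplicit false
set_option linter.unusedSectionVars false
open Finset

/-! # The bound of the amplitudes of a row with a frame -/

namespace Pool.Agent.H81.G1

open Pool.Agent.H75.Perc Pool.Agent.H75.TwoArm Pool.Agent.Q1 Pool.Agent.H30.Mid
open Pool.Agent.H69.M6b (lbt lbt_inj lbt_odd pr0)
open Pool.Agent.Q1.M6b.Strand Pool.Agent.Q1.M6b.ExN Pool.Agent.Q1.M6b.PB Pool.Agent.Q1.M6b.Nest
open Pool.Agent.Q1.M6b.Gd (sm FarIn)
open Pool.Agent.H34.Q1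

variable {N : ℕ} {x0 y0 : ℤ} {ι : Type*} [Fintype ι] [DecidableEq ι]

/-- position of the mark on the line of the row -/
def mpos : Fin N × Dir → ℕ := pos

/-- The windows of a row: column intervals `[l i, r i]`, special columns `x i` = the columns of `S`,
columns `Iv i` of the inner boxes, sides `e i`; `p` = position of the mark. -/
structure WinR (U D : Fin N → Option (Fin N)) (S : Finset (Fin N)) (p : ℕ) (l r : ι → ℕ)
    (x : ι → Fin N) (e : ι → Bool) (Iv : ι → Finset (Fin N)) : Prop where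
  disj : ∀ i j, i ≠ j → r i < l j ∨ r j < l i
  lr : ∀ i, l i ≤ (x i : ℕ) ∧ (x i : ℕ) ≤ r i
  rN : ∀ i, r i < N
  iv : ∀ i, ∀ c ∈ Iv i, l i ≤ (c : ℕ) ∧ (c : ℕ) ≤ r i
  xS : ∀ i, x i ∈ S
  Sx : ∀ c ∈ S, ∃ i, c = x i
  mrk : ∀ i, p ≤ l i ∨ r i < p
  near : ∀ i, ∃ S : Finset (Fin N), S.card ≤ 2 ∧ ∀ c ∈ Iv i, c ∉ S → ∀ c',
    (if e i then U else D) c = some c' → (l i ≤ (c' : ℕ) ∧ (c' : ℕ) ≤ r i) ∧
      ¬ (c < x i ∧ x i < c') ∧ ¬ (c' < x i ∧ x i < c)

/-- the cuts of the arcs -/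
def Zc (N p : ℕ) (l : ι → ℕ) (x : ι → Fin N) : Finset ℕ :=
  (univ.biUnion fun i => {l i, (x i : ℕ), (x i : ℕ) + 1}) ∪ {p, N}

lemma mem_Zc {p : ℕ} {l : ι → ℕ} {x : ι → Fin N} {z : ℕ} :
    z ∈ Zc N p l x ↔ (∃ i, z = l i ∨ z = x i ∨ z = (x i : ℕ) + 1) ∨ z = p ∨ z = N := by
  unfold Zc
  simp only [mem_union, mem_biUnion, mem_univ, true_and, mem_insert, mem_singleton]

lemma card_Zc {p : ℕ} {l : ι → ℕ} {x : ι → Fin N} : (Zc N p l x).card ≤ 3 * Fintype.card ι + 2 := by
  unfold Zc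
  refine (card_union_le _ _).trans (Nat.add_le_add ?_ card_le_two)
  refine card_biUnion_le.trans ?_
  refine (sum_le_card_nsmul _ _ 3 fun i _ => card_le_three).trans ?_
  rw [card_univ, smul_eq_mul, mul_comm]

section

variable {U D : Fin N → Option (Fin N)} {S : Finset (Fin N)} {p : ℕ} {l r : ι → ℕ} {x : ι → Fin N}
  {e : ι → Bool} {Iv : ι → Finset (Fin N)}

/-- the windows for the cuts `Zc` -/
lemma WinR.winE (h : WinR U D S p l r x e Iv) : WinE U D (Zc N p l x) l r x e Iv where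
  disj := h.disj
  lr := h.lr
  iv := h.iv
  cut z hz i h1 h2 := by
    have hlr := h.lr i
    rcases mem_Zc.1 hz with ⟨j, hj⟩ | hz | hz
    · by_cases hij : i = j
      · subst hij
        rcases hj with hj | hj | hj
        · omega
        · exact Or.inl hj
        · exact Or.inr hj
      · have hlj := h.lr j
        exfalso
        rcases h.disj i j hij with h3 | h3 <;> rcases hj with hj | hj | hj <;> omega
    · have := h.mrk i; omega
    · have := h.rN i; omega
  lz i := mem_Zc.2 (Or.inl ⟨i, Or.inl rfl⟩)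
  near := h.near

end

section

variable {X2 : Env} {Nw : Net (Fin N)} {n0 : ℕ} {L : Finset (ℤ × ℤ)} {S : Finset (Fin N)} {p : ℕ}
  {l r : ι → ℕ} {x : ι → Fin N} {e : ι → Bool} {Iv : ι → Finset (Fin N)}

open Classical in
/-- the special columns: coupons and gates -/
noncomputable def spF (F : Frame L N x0 y0) (S : Finset (Fin N)) : Finset (Fin N) := S ∪ F.EU ∪ F.ED

open Classical in
/-- all cuts -/
noncomputable def Zf (F : Frame L N x0 y0) (S : Finset (Fin N)) (Z : Finset ℕ) : Finset ℕ :=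
  Z ∪ (spF F S).image (Fin.val (n := N))

/-- **the blocks of a row with a frame** -/
theorem frame_blk (F : Frame L N x0 y0) (W : Wired X2 (rl x0 y0) (rp x0 y0) (rcr x0 y0) Nw n0)
    (ho : OutL X2 L) (hE : X2.E = RS N x0 y0) (hroot : ¬ F.In (plab X2.c0)) {k : Fin N}
    (hy : Nw.y0 = (k, .W) ∨ Nw.y0 = (k, .E))
    (h : WinR (opt F.EU F.U) (opt F.ED F.D) S (pos Nw.y0) l r x e Iv) :
    Blk Nw (spF F S) S (cA S (zt ^ (4 : ℤ))) (cB S (zt ^ (-4 : ℤ))) (opt F.EU F.U) (opt F.ED F.D)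
      (Zc N (pos Nw.y0) l x) (Zf F S (Zc N (pos Nw.y0) l x)) (sdW l e) := by
  classical
  have hR := frame_rm F W ho hE
  have hrt := frame_root F W ho hE hroot
  have hinv := hR.inv
  have row : ∀ z z' : Fin N, (z' : ℕ) = z + 1 → Nw.π (z, .E) = (z', .W) := fun z z' hz => hR.row z z' hz
  constructor
  · intro c hc
    unfold cA cB
    rw [if_neg hc, if_neg hc]
    exact ⟨rfl, rfl⟩
  · intro c hc
    unfold spF
    exact mem_union_left _ (mem_union_left _ hc)
  · intro z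
    exact anc_row W _ hy z
  · intro c hc
    unfold spF
    exact mem_union_left _ (mem_union_right _ (opt_none.1 hc))
  · intro c hc
    unfold spF
    exact mem_union_right _ (opt_none.1 hc)
  · intro c hc
    obtain ⟨i, rfl⟩ := h.Sx c hc
    exact ⟨mem_Zc.2 (Or.inl ⟨i, Or.inr (Or.inl rfl)⟩), mem_Zc.2 (Or.inl ⟨i, Or.inr (Or.inr rfl)⟩)⟩
  · intro c hc
    unfold Zf
    exact mem_union_right _ (mem_image.2 ⟨c, hc, rfl⟩)
  · -- row ends
    intro c hc
    have hcN := c.2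
    rw [mem_Zc]
    right
    by_cases hl : (c : ℕ) + 1 < N
    · have hw := row c ⟨(c : ℕ) + 1, hl⟩ rfl
      have hw' : Nw.π (⟨(c : ℕ) + 1, hl⟩, .W) = (c, .E) := by rw [← hw, hinv]
      rcases hc with hc | hc | hc | hc
      · rw [← hc] at hrt
        exact Or.inr hrt
      · -- the root is next
        exfalso
        have e1 : Nw.x0 = (⟨(c : ℕ) + 1, hl⟩, .W) := by rw [← hw, hc, hinv]
        rw [e1] at hrt
        have : (c : ℕ) + 1 = 0 := hrt
        omega
      · left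
        rw [← hc]; rfl
      · left
        have e1 : Nw.y0 = (⟨(c : ℕ) + 1, hl⟩, .W) := by rw [← hw, hc, hinv]
        rw [e1]; rfl
    · right; omega
  · -- upper ends
    intro c hc
    by_contra hne
    obtain ⟨c', hc'⟩ := Option.ne_none_iff_exists'.1 hne
    have h1 := (hR.up c c' hc').1
    rcases hc with hc | hc | hc | hc
    · rw [← hc] at hrt
      exact hne hrt
    · have e1 : Nw.x0 = (c', .N) := by rw [← h1, hc, hinv]
      rw [e1] at hrt
      have h2 : opt F.EU F.U c' = none := hrt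
      rw [hR.pU.sy _ _ hc'] at h2
      exact absurd h2 (by simp)
    · rcases hy with hy | hy <;> rw [hy] at hc <;> simp at hc
    · have e1 : Nw.y0 = (c', .N) := by rw [← h1, hc, hinv]
      rcases hy with hy | hy <;> rw [hy] at e1 <;> simp at e1
  · -- lower ends
    intro c hc
    by_contra hne
    obtain ⟨c', hc'⟩ := Option.ne_none_iff_exists'.1 hne
    have h1 := (hR.dn c c' hc').1
    rcases hc with hc | hc | hc | hc
    · rw [← hc] at hrt
      exact hne hrt
    · have e1 : Nw.x0 = (c', .S) := by rw [← h1, hc, hinv]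
      rw [e1] at hrt
      have h2 : opt F.ED F.D c' = none := hrt
      rw [hR.pD.sy _ _ hc'] at h2
      exact absurd h2 (by simp)
    · rcases hy with hy | hy <;> rw [hy] at hc <;> simp at hc
    · have e1 : Nw.y0 = (c', .S) := by rw [← h1, hc, hinv]
      rcases hy with hy | hy <;> rw [hy] at e1 <;> simp at e1
  · unfold Zf
    exact subset_union_left
  · intro c c' hc
    exact sdW_SB (fun i => mem_Zc.2 (Or.inl ⟨i, Or.inl rfl⟩)) hc

end

/-! ### The theorem -/

/-- the data for the number of exits: `w` the original configuration, `w'` the configuration of the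
network, `B` the labels where they may differ -/
structure ExD (N : ℕ) (w w' E W : Finset (ℤ × ℤ)) (B : Set (ℤ × ℤ)) (a0 y0 : ℤ) (Z : Finset ℕ)
    (Sp : Finset ℤ) (R0 : ℕ) (Iv : ι → Finset (Fin N)) : Prop where
  cuts : ∀ z ∈ Z, a0 + (z : ℕ) ∈ Sp
  r0 : 2 ≤ R0
  oneN : ∀ c : Fin N, ∀ M : ℤ, 1 ≤ M → Dst Sp R0 (sm true y0 (a0 + (c : ℕ))) M →
    OneType E W (HN y0) (sm true y0 (a0 + (c : ℕ))) M
  oneS : ∀ c : Fin N, ∀ M : ℤ, 1 ≤ M → Dst Sp R0 (sm true y0 (a0 + (c : ℕ))) M →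
    OneType E W (HS y0) (sm true y0 (a0 + (c : ℕ))) M
  agr : ∀ e, e ∉ B → (e ∈ w' ↔ e ∈ w)
  box : ∀ c : Fin N, (∀ i, c ∉ Iv i) → ∀ M, Dst Sp R0 (sm true y0 (a0 + (c : ℕ))) M → ∀ e ∈ B,
    ¬ (|e.1 - (sm true y0 (a0 + (c : ℕ))).1| ≤ M ∧ |e.2 - (sm true y0 (a0 + (c : ℕ))).2| ≤ M)

/-- the bound of the exits on both sides -/
noncomputable def TEE (N : ℕ) (w E W : Finset (ℤ × ℤ)) (a0 y0 : ℤ) (Sp : Finset ℤ) (R0 : ℕ) : ℕ :=
  TE N w E W (HN y0) (fun c : Fin N => sm true y0 (a0 + (c : ℕ))) Sp R0 +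
    TE N w E W (HS y0) (fun c : Fin N => sm true y0 (a0 + (c : ℕ))) Sp R0

/-- **The bound of the amplitudes of a row with a frame.** -/
theorem ar_bound {X : Env} {ω L : Finset (ℤ × ℤ)} (h : HasRow X N x0 y0)
    (ho : OutL (X.freeze (RS N x0 y0) ω) L) (F : Frame L N x0 y0) (hroot : ¬ F.In (plab X.c0))
    {y : Fin N × Dir} (hy : inc (rp x0 y0) y = true) {k : Fin N} (hyk : y = (k, .W) ∨ y = (k, .E))
    {S : Finset (Fin N)} {l r : ι → ℕ} {x : ι → Fin N} {e : ι → Bool} {Iv : ι → Finset (Fin N)}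
    (hWR : WinR (opt F.EU F.U) (opt F.ED F.D) S (pos y) l r x e Iv)
    {w w' E W : Finset (ℤ × ℤ)} (hL : GLab F w') {In Out : ι → Finset (ℤ × ℤ)} {Sp : Finset ℤ}
    {R0 : ℕ} (hex : ExD N w w' E W {q | ∃ i, q ∈ In i} (x0 - y0 + 1) y0 (Zc N (pos y) l x) Sp R0 Iv)
    (hsub : ∀ i, In i ⊆ Out i)
    (hfar : ∀ i z, FarIn (In i) (Out i) w' z → ∃ (n : ℕ) (c : Fin N), c ∈ S ∧
      ((nx w')^[n] z = sm true y0 (x0 - y0 + 1 + (c : ℕ)) ∨
        (nx w')^[n] (sm true y0 (x0 - y0 + 1 + (c : ℕ))) = z))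
    (hout : ∀ i, (∀ c : Fin N, lab (sm true y0 (x0 - y0 + 1 + (c : ℕ))) ∈ Out i → (c : ℕ) < pos y) ∨
      (∀ c : Fin N, lab (sm true y0 (x0 - y0 + 1 + (c : ℕ))) ∈ Out i → pos y ≤ (c : ℕ)))
    (hfin : (Lp w (vx (sm true y0 (x0 - y0 + 1 + (pos y : ℕ))))).Finite) :
    ‖AR X x0 y0 y (cA S (zt ^ (4 : ℤ))) (cB S (zt ^ (-4 : ℤ))) ω‖ ≤
      2 ^ ((Lp w (vx (sm true y0 (x0 - y0 + 1 + (pos y : ℕ))))).ncard + 1) *
      2 ^ (6 * (Fintype.card ι + F.EU.card + F.ED.card) + (3 * Fintype.card ι + 3)) *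
      (1 + (6 * Fintype.card ι + TEE N w E W (x0 - y0 + 1) y0 Sp R0 : ℕ)) ^
        (Fintype.card ι + F.EU.card + F.ED.card + (3 * Fintype.card ι + 3)) := by
  classical
  set v := vx (sm true y0 (x0 - y0 + 1 + (pos y : ℕ))) with hv
  have hScard : S.card ≤ Fintype.card ι := by
    have : S ⊆ univ.image x := fun c hc => by
      obtain ⟨i, rfl⟩ := hWR.Sx c hc
      exact mem_image_of_mem _ (mem_univ _)
    exact (card_le_card this).trans (card_image_le.trans (by rw [card_univ]))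
  have hone : (1 : ℝ) ≤ 1 + ((6 * Fintype.card ι + TEE N w E W (x0 - y0 + 1) y0 Sp R0 : ℕ) : ℝ) := by
    have : (0 : ℝ) ≤ ((6 * Fintype.card ι + TEE N w E W (x0 - y0 + 1) y0 Sp R0 : ℕ) : ℝ) :=
      Nat.cast_nonneg _
    linarith
  have hpos : (0 : ℝ) ≤ 2 ^ ((Lp w v).ncard + 1) *
      2 ^ (6 * (Fintype.card ι + F.EU.card + F.ED.card) + (3 * Fintype.card ι + 3)) *
      (1 + (6 * Fintype.card ι + TEE N w E W (x0 - y0 + 1) y0 Sp R0 : ℕ)) ^
        (Fintype.card ι + F.EU.card + F.ED.card + (3 * Fintype.card ι + 3)) := by positivity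
  have hge1 : (1 : ℝ) ≤ 2 ^ ((Lp w v).ncard + 1) *
      2 ^ (6 * (Fintype.card ι + F.EU.card + F.ED.card) + (3 * Fintype.card ι + 3)) *
      (1 + (6 * Fintype.card ι + TEE N w E W (x0 - y0 + 1) y0 Sp R0 : ℕ)) ^
        (Fintype.card ι + F.EU.card + F.ED.card + (3 * Fintype.card ι + 3)) := by
    refine one_le_mul_of_one_le_of_one_le (one_le_mul_of_one_le_of_one_le ?_ ?_) ?_
    · exact one_le_pow₀ (by norm_num)
    · exact one_le_pow₀ (by norm_num)
    · exact one_le_pow₀ hone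
  by_cases hm : Meets (X.freeze (RS N x0 y0) ω)
  swap
  · rw [AR_none h hy hm, norm_zero]
    exact hpos
  by_cases hne : y = rx0 (rtiles h ω) hm
  · rcases S.eq_empty_or_nonempty with hS | hS
    · rw [AR_triv h hm hne, norm_mul, norm_prod]
      have e1 : ∏ i : Fin N, ‖cA S (zt ^ (4 : ℤ)) i + cB S (zt ^ (-4 : ℤ)) i‖ = 1 := by
        refine Finset.prod_eq_one fun i _ => ?_
        unfold cA cB
        rw [hS, if_neg (notMem_empty _), if_neg (notMem_empty _)]
        rw [add_comm, zt_pm 4 (Or.inl rfl)]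
        exact norm_one
      rw [e1, mul_one]
      exact le_trans (le_of_eq (Pool.Agent.Q1.ph_norm _)) hge1
    · rw [AR_triv_zero h hm hne hS, norm_zero]
      exact hpos
  have hW := net_wired (rtiles h ω) hm hy hne
  set Nw := net (rtiles h ω) hm y with hNw
  have hy0 : Nw.y0 = y := rfl
  have hEr := frz_E h ω
  have hroot' : ¬ F.In (plab (X.freeze (RS N x0 y0) ω).c0) := hroot
  have hyk' : Nw.y0 = (k, .W) ∨ Nw.y0 = (k, .E) := hyk
  have hR := frame_rm F hW ho hEr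
  have hrt := frame_root F hW ho hEr hroot'
  have hG := frame_gnet F hL
  have hblk := frame_blk F hW ho hEr hroot' hyk' (l := l) (r := r) (x := x) (e := e) (Iv := Iv)
    (S := S) hWR
  have hsp : S ⊆ spF F S := fun c hc => by
    unfold spF; exact mem_union_left _ (mem_union_left _ hc)
  rw [AR_net h hy hm hne, norm_mul, zt_norm_zpow, one_mul, ← hNw]
  have key := F3 (ι := ι) hW.good (root_turn hW) hR hrt hblk hWR.winE
    (fun i => hsp (hWR.xS i))
    (fun c hc => by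
      unfold cA cB
      by_cases hcS : c ∈ S
      · rw [if_pos hcS, if_pos hcS]; exact Or.inl ⟨rfl, rfl⟩
      · rw [if_neg hcS, if_neg hcS]; exact Or.inr ⟨rfl, rfl⟩)
    (w₁ := w) (w₁' := w') (E₁ := E) (W₁ := W) (G₁ := HN y0) (B₁ := {q | ∃ i, q ∈ In i})
    (cr₁ := fun c : Fin N => sm true y0 (x0 - y0 + 1 + (c : ℕ))) (a₁ := x0 - y0 + 1) (Sp₁ := Sp)
    (R₁ := R0)
    { wires := hG.sideU hR.pU.sy
      cr1 := fun c => by unfold sm; simp
      agr := hex.agr
      cuts := hex.cuts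
      r0 := hex.r0
      one := hex.oneN
      box := hex.box }
    (w₂ := w) (w₂' := w') (E₂ := E) (W₂ := W) (G₂ := HS y0) (B₂ := {q | ∃ i, q ∈ In i})
    (cr₂ := fun c : Fin N => sm true y0 (x0 - y0 + 1 + (c : ℕ))) (a₂ := x0 - y0 + 1) (Sp₂ := Sp)
    (R₂ := R0)
    { wires := hG.sideD hR.pD.sy
      cr1 := fun c => by unfold sm; simp
      agr := hex.agr
      cuts := hex.cuts
      r0 := hex.r0
      one := hex.oneS
      box := hex.box }
    (κ := ι) (In := In) (Out := Out) (w := w) (w' := w') (up := true) (s := y0) (j0 := x0 - y0 + 1)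
    hG.snet
    { sub := hsub
      agr := fun q hq => hex.agr q (fun ⟨i, hi⟩ => hq i hi)
      far := fun i z hz => by
        obtain ⟨n, c, hc, h1⟩ := hfar i z hz
        refine ⟨n, x0 - y0 + 1 + (c : ℕ), h1, fun c' hc' he => ?_⟩
        have e1 : c = c' := Fin.ext (by omega)
        subst e1
        exact Kn_sp hc' (hsp hc)
      out := hout }
    hfin
  refine key.trans ?_
  have hspc : (spF F S).card ≤ Fintype.card ι + F.EU.card + F.ED.card := by
    unfold spF
    refine (card_union_le _ _).trans (Nat.add_le_add_right ((card_union_le _ _).trans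
      (Nat.add_le_add_right hScard _)) _)
  have hZc : (Zf F S (Zc N (pos Nw.y0) l x)).card ≤
      Fintype.card ι + F.EU.card + F.ED.card + (3 * Fintype.card ι + 2) := by
    unfold Zf
    refine (card_union_le _ _).trans ?_
    have h1 := card_Zc (N := N) (p := pos Nw.y0) (l := l) (x := x)
    have h2 : ((spF F S).image (Fin.val (n := N))).card ≤ (spF F S).card := card_image_le
    omega
  have hTE : 6 * Fintype.card ι + TE N w E W (HN y0) (fun c : Fin N => sm true y0 (x0 - y0 + 1 + (c : ℕ)))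
      Sp R0 + TE N w E W (HS y0) (fun c : Fin N => sm true y0 (x0 - y0 + 1 + (c : ℕ))) Sp R0 =
      6 * Fintype.card ι + TEE N w E W (x0 - y0 + 1) y0 Sp R0 := by
    unfold TEE; ring
  rw [hTE]
  refine mul_le_mul (mul_le_mul_of_nonneg_left ?_ (by positivity)) ?_ (by positivity) (by positivity)
  · exact pow_le_pow_right₀ (by norm_num) (by omega)
  · exact pow_le_pow_right₀ hone (by omega)

end Pool.Agent.H81.G1
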