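import Pool.Agent.H81.G1.NeB
import Pool.Agent.H34.Q1.KapCover

set_option autoImplicit false
set_option linter.unusedSectionVars false
open Finset

/-! # Number of exit columns of the blocks of one side

`SideW w G cr o V`: the wires `V` of one side of the row: the strand of the configuration `w` from the
corner `cr c` (forwards if `o c`, backwards otherwise) stays in the labels `G` until it reaches the corner
`cr c'`, `V c = some c'`. `exits_card`: if every column of `Xc` is joined to a column on the other side of a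
cut, then `#Xc` is bounded by the number of strands `KK` of the ORIGINAL configuration, as the strands are
not influenced by the boxes. -/

namespace Pool.Agent.H81.G1

open Pool.Agent.H75.Perc Pool.Agent.H75.TwoArm Pool.Agent.H34.Q1

variable {N : ℕ}

/-- the wires of one side -/
structure SideW (w : Finset (ℤ × ℤ)) (G : Set (ℤ × ℤ)) (cr : Fin N → ℤ × ℤ) (o : Fin N → Bool)
    (V : Fin N → Option (Fin N)) : Prop where
  sy : ∀ c c', V c = some c' → V c' = some c
  ori : ∀ c c', V c = some c' → o c' = !o c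
  path : ∀ c c', V c = some c' → o c = true → ∃ n : ℕ,
    (∀ t < n, lab ((nx w)^[t] (cr c)) ∈ G) ∧ (nx w)^[n] (cr c) = cr c'
  pl : ∀ c, o c = true → plab (cr c) ∉ G
  la : ∀ c, o c = false → lab (cr c) ∉ G

/-- reversed paths -/
lemma rev_path {w : Finset (ℤ × ℤ)} {G : Set (ℤ × ℤ)} {c c' : ℤ × ℤ} {n : ℕ}
    (h : ∀ t < n, lab ((nx w)^[t] c) ∈ G) (he : (nx w)^[n] c = c') :
    (∀ t < n, plab ((pv w)^[t] c') ∈ G) ∧ (pv w)^[n] c' = c := by
  have key : ∀ t ≤ n, (pv w)^[t] c' = (nx w)^[n - t] c := by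
    intro t
    induction t with
    | zero => intro _; exact he.symm
    | succ t ih =>
      intro ht
      rw [Function.iterate_succ_apply', ih (by omega)]
      have e : n - t = (n - (t + 1)) + 1 := by omega
      rw [e, Function.iterate_succ_apply', pv_nx]
  refine ⟨fun t ht => ?_, ?_⟩
  · rw [key t ht.le]
    have e : n - t = (n - t - 1) + 1 := by omega
    rw [e, Function.iterate_succ_apply', plab_nx]
    exact h _ (by omega)
  · rw [key n le_rfl, Nat.sub_self]; rfl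

/-- a far reaching strand does not depend on the boxes -/
lemma kst_agree {f f' lb lb' : ℤ × ℤ → ℤ × ℤ} {G V : Set (ℤ × ℤ)} {M : ℤ} {c : ℤ × ℤ}
    (hlb : ∀ c, |(lb c).1 - c.1| ≤ 1 ∧ |(lb c).2 - c.2| ≤ 1)
    (hag : ∀ d, lb d ∉ V → f' d = f d)
    (hV : ∀ e ∈ V, ¬ (|e.1 - c.1| ≤ M ∧ |e.2 - c.2| ≤ M)) (h : Kst f' lb lb' G M c) :
    Kst f lb lb' G M c := by
  classical
  obtain ⟨h0, n, h1, h2⟩ := h
  have hex : ∃ n, FarC c M (f'^[n] c) := ⟨n, h2⟩
  have hn : Nat.find hex ≤ n := Nat.find_min' hex h2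
  have key : ∀ t ≤ Nat.find hex, f^[t] c = f'^[t] c := by
    intro t
    induction t with
    | zero => intro _; rfl
    | succ t ih =>
      intro ht
      have e := ih (by omega)
      rw [Function.iterate_succ_apply', Function.iterate_succ_apply', e]
      refine (hag _ fun hh => hV _ hh ?_).symm
      have h3 := Nat.find_min hex (m := t) (by omega)
      unfold FarC at h3
      push Not at h3
      obtain ⟨h4, h5⟩ := h3
      obtain ⟨h6, h7⟩ := hlb (f'^[t] c)
      rw [abs_lt] at h4 h5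
      rw [abs_le] at h6 h7 ⊢
      rw [abs_le]
      omega
  refine ⟨h0, Nat.find hex, fun t ht => ?_, ?_⟩
  · rw [key t ht.le]; exact h1 t (by omega)
  · rw [key _ le_rfl]; exact Nat.find_spec hex

lemma pv_agree {w w' : Finset (ℤ × ℤ)} {c : ℤ × ℤ} (h : plab c ∈ w' ↔ plab c ∈ w) :
    pv w' c = pv w c := StrandAux.pv_congr h

section

variable {w w' : Finset (ℤ × ℤ)} {G B : Set (ℤ × ℤ)} {cr : Fin N → ℤ × ℤ} {o : Fin N → Bool}
  {V : Fin N → Option (Fin N)} {a : ℤ} {Z : Finset ℕ} {Sp : Finset ℤ} {R0 : ℕ}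

/-- the strands of the exit columns in the original configuration -/
lemma exit_kst (h : SideW w' G cr o V) (hcr : ∀ c, (cr c).1 = a + (c : ℕ))
    (hag : ∀ e, e ∉ B → (e ∈ w' ↔ e ∈ w)) (hZ : ∀ z ∈ Z, a + (z : ℕ) ∈ Sp) {c c' : Fin N}
    (hc : V c = some c') (hcut : ∃ z ∈ Z, ((c : ℕ) < z ∧ z ≤ c') ∨ ((c' : ℕ) < z ∧ z ≤ c))
    (hB : ∀ M, Dst Sp R0 (cr c) M → ∀ e ∈ B, ¬ (|e.1 - (cr c).1| ≤ M ∧ |e.2 - (cr c).2| ≤ M))
    {M : ℤ} (hM : Dst Sp R0 (cr c) M) :
    (o c = true → Kst (nx w) lab plab G M (cr c)) ∧ (o c = false → Kst (pv w) plab lab G M (cr c)) := by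
  have hfar : FarC (cr c) M (cr c') := by
    obtain ⟨z, hz, hz2⟩ := hcut
    have h1 := hM.2 _ (hZ z hz)
    left
    rw [hcr, hcr] at *
    rw [le_abs] at h1 ⊢
    rcases hz2 with h2 | h2 <;> omega
  constructor
  · intro ho
    obtain ⟨n, h1, h2⟩ := h.path c c' hc ho
    refine kst_agree (f' := nx w') (V := B) lab_near (fun d hd => nx_agree (hag _ hd)) (hB M hM) ?_
    exact ⟨h.pl c ho, n, h1, by rw [h2]; exact hfar⟩
  · intro ho
    have ho' : o c' = true := by rw [h.ori c c' hc, ho]; rfl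
    obtain ⟨n, h1, h2⟩ := h.path c' c (h.sy _ _ hc) ho'
    obtain ⟨h3, h4⟩ := rev_path h1 h2
    refine kst_agree (f' := pv w') (V := B) plab_near (fun d hd => pv_agree (hag _ hd)) (hB M hM) ?_
    exact ⟨h.la c ho, n, h3, by rw [h4]; exact hfar⟩

/-- **The number of exit columns.** -/
theorem exits_card {E W : Finset (ℤ × ℤ)} (h : SideW w' G cr o V)
    (hcr : ∀ c, (cr c).1 = a + (c : ℕ)) (hag : ∀ e, e ∉ B → (e ∈ w' ↔ e ∈ w))
    (hZ : ∀ z ∈ Z, a + (z : ℕ) ∈ Sp) (hR0 : 2 ≤ R0)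
    (hT : ∀ c : Fin N, ∀ M : ℤ, 1 ≤ M → Dst Sp R0 (cr c) M → OneType E W G (cr c) M)
    {Xc : Finset (Fin N)} (hX : ∀ c ∈ Xc, ∃ c', V c = some c' ∧
      ∃ z ∈ Z, ((c : ℕ) < z ∧ z ≤ c') ∨ ((c' : ℕ) < z ∧ z ≤ c))
    (hB : ∀ c ∈ Xc, ∀ M, Dst Sp R0 (cr c) M →
      ∀ e ∈ B, ¬ (|e.1 - (cr c).1| ≤ M ∧ |e.2 - (cr c).2| ≤ M)) :
    Xc.card ≤ (9 * Sp.card * Nat.log 2 R0 + (4 * N / R0 + 2)) *
      (KK (nx w) lab plab E W G (univ.image cr) (Nat.log 2 R0) +
        KK (pv w) plab lab E W G (univ.image cr) (Nat.log 2 R0)) + 6 * Sp.card := by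
  classical
  have hinj : Function.Injective cr := by
    intro c c' he
    have h1 := hcr c
    have h2 := hcr c'
    rw [he] at h1
    exact Fin.ext (by omega)
  have hRa : ∀ c ∈ univ.image cr, a ≤ c.1 ∧ c.1 ≤ a + N := by
    intro c hc
    obtain ⟨k, -, rfl⟩ := mem_image.1 hc
    rw [hcr]
    have := k.2
    omega
  have hcol : ∀ b : ℤ, ((univ.image cr).filter fun c => c.1 = b).card ≤ 1 := by
    intro b
    rw [card_le_one]
    intro x hx y hy
    obtain ⟨h1, h2⟩ := mem_filter.1 hx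
    obtain ⟨h3, h4⟩ := mem_filter.1 hy
    obtain ⟨k, -, rfl⟩ := mem_image.1 h1
    obtain ⟨l, -, rfl⟩ := mem_image.1 h3
    rw [hcr] at h2 h4
    have : k = l := Fin.ext (by omega)
    rw [this]
  have hT' : ∀ c ∈ univ.image cr, ∀ M : ℤ, 1 ≤ M → Dst Sp R0 c M → OneType E W G c M := by
    intro c hc
    obtain ⟨k, -, rfl⟩ := mem_image.1 hc
    exact hT k
  have key : ∀ (b : Bool) (f lb lb' : ℤ × ℤ → ℤ × ℤ),
      (∀ c ∈ Xc, o c = b → ∀ M, Dst Sp R0 (cr c) M → Kst f lb lb' G M (cr c)) →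
      ((Xc.filter fun c => o c = b).image cr).card ≤
        (9 * Sp.card * Nat.log 2 R0 + (4 * N / R0 + 2)) *
          KK f lb lb' E W G (univ.image cr) (Nat.log 2 R0) + 3 * 1 * Sp.card := by
    intro b f lb lb' hb
    refine exits_le (a := a) (m := 1) hR0 hRa hcol hT' (image_subset_image (subset_univ _)) ?_
    intro c hc M _ hM
    obtain ⟨k, hk, rfl⟩ := mem_image.1 hc
    obtain ⟨h1, h2⟩ := mem_filter.1 hk
    exact hb k h1 h2 M hM
  have k1 := key true (nx w) lab plab (fun c hc ho M hM => by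
    obtain ⟨c', h1, h2⟩ := hX c hc
    exact (exit_kst h hcr hag hZ h1 h2 (hB c hc) hM).1 ho)
  have k2 := key false (pv w) plab lab (fun c hc ho M hM => by
    obtain ⟨c', h1, h2⟩ := hX c hc
    exact (exit_kst h hcr hag hZ h1 h2 (hB c hc) hM).2 ho)
  rw [card_image_of_injective _ hinj] at k1 k2
  have hs : Xc.card ≤ (Xc.filter fun c => o c = true).card + (Xc.filter fun c => o c = false).card := by
    have : Xc ⊆ (Xc.filter fun c => o c = true) ∪ (Xc.filter fun c => o c = false) := by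
      intro c hc
      rw [mem_union, mem_filter, mem_filter]
      cases o c
      · exact Or.inr ⟨hc, rfl⟩
      · exact Or.inl ⟨hc, rfl⟩
    exact (card_le_card this).trans (card_union_le _ _)
  calc Xc.card ≤ _ := hs
    _ ≤ _ := Nat.add_le_add k1 k2
    _ = _ := by ring

end

end Pool.Agent.H81.G1
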