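import Pool.Agent.H81.G1.Exits

set_option autoImplicit false
set_option linter.unusedSectionVars false
open Finset

/-! # The wires of the row as strands of a glued configuration

`GNet w GN GS ln j0 dn U D`: `GN`, `GS` = labels of the two sides of the line `ln`; the strand of `w` which
leaves the line at the column `c` to the upper side (`dn c = false`) stays in `GN` until it reaches the
column `c'`, `U c = some c'`, and the same below. -/

namespace Pool.Agent.H81.G1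

open Pool.Agent.H75.Perc Pool.Agent.H75.TwoArm

variable {N : ℕ}

/-- the wires of the row as strands of `w` -/
structure GNet (w : Finset (ℤ × ℤ)) (GN GS : Set (ℤ × ℤ)) (ln : ℤ → ℤ × ℤ) (j0 : ℤ)
    (dn : Fin N → Bool) (U D : Fin N → Option (Fin N)) : Prop where
  lnj : Function.Injective ln
  sepN : ∀ x, ¬ (lab (ln x) ∈ GN ∧ plab (ln x) ∈ GN)
  sepS : ∀ x, ¬ (lab (ln x) ∈ GS ∧ plab (ln x) ∈ GS)
  dir0 : ∀ c : Fin N, dn c = false → plab (ln (j0 + (c : ℕ))) ∉ GN ∧ lab (ln (j0 + (c : ℕ))) ∉ GS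
  dir1 : ∀ c : Fin N, dn c = true → lab (ln (j0 + (c : ℕ))) ∉ GN ∧ plab (ln (j0 + (c : ℕ))) ∉ GS
  up : ∀ c c', U c = some c' → dn c = false → ∃ n : ℕ, 0 < n ∧
    (∀ t < n, lab ((nx w)^[t] (ln (j0 + (c : ℕ)))) ∈ GN) ∧
    (nx w)^[n] (ln (j0 + (c : ℕ))) = ln (j0 + (c' : ℕ))
  dw : ∀ c c', D c = some c' → dn c = true → ∃ n : ℕ, 0 < n ∧
    (∀ t < n, lab ((nx w)^[t] (ln (j0 + (c : ℕ)))) ∈ GS) ∧
    (nx w)^[n] (ln (j0 + (c : ℕ))) = ln (j0 + (c' : ℕ))
  fU : ∀ c c', U c = some c' → dn c' = !dn c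
  fD : ∀ c c', D c = some c' → dn c' = !dn c

namespace GNet

variable {w : Finset (ℤ × ℤ)} {GN GS : Set (ℤ × ℤ)} {ln : ℤ → ℤ × ℤ} {j0 : ℤ} {dn : Fin N → Bool}
  {U D : Fin N → Option (Fin N)}

lemma off {G : Set (ℤ × ℤ)} (hs : ∀ x, ¬ (lab (ln x) ∈ G ∧ plab (ln x) ∈ G)) {c : ℤ × ℤ} {n : ℕ}
    (h : ∀ t < n, lab ((nx w)^[t] c) ∈ G) {i : ℕ} (h0 : 0 < i) (hi : i < n) (x : ℤ) :
    (nx w)^[i] c ≠ ln x := by
  intro he
  apply hs x
  rw [← he]
  refine ⟨h i hi, ?_⟩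
  obtain ⟨j, rfl⟩ : ∃ j, i = j + 1 := ⟨i - 1, by omega⟩
  rw [Function.iterate_succ_apply', plab_nx]
  exact h j (by omega)

theorem snet (h : GNet w GN GS ln j0 dn U D) : SNet (nx w) ln j0 dn U D where
  inj := nx_injective w
  lnj := h.lnj
  nx c c' hc := by
    unfold sx at hc
    cases hd : dn c
    · rw [hd] at hc
      obtain ⟨n, h0, h1, h2⟩ := h.up c c' (by simpa using hc) hd
      exact ⟨n, h0, h2, fun i hi hin x => off h.sepN h1 hi hin x⟩
    · rw [hd] at hc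
      obtain ⟨n, h0, h1, h2⟩ := h.dw c c' (by simpa using hc) hd
      exact ⟨n, h0, h2, fun i hi hin x => off h.sepS h1 hi hin x⟩
  fU := h.fU
  fD := h.fD

theorem sideU (h : GNet w GN GS ln j0 dn U D) (hs : ∀ c c', U c = some c' → U c' = some c) :
    SideW w GN (fun c : Fin N => ln (j0 + (c : ℕ))) (fun c => !dn c) U where
  sy := hs
  ori c c' hc := by rw [h.fU c c' hc]
  path c c' hc ho := by
    obtain ⟨n, -, h1, h2⟩ := h.up c c' hc (by simpa using ho)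
    exact ⟨n, h1, h2⟩
  pl c ho := (h.dir0 c (by simpa using ho)).1
  la c ho := (h.dir1 c (by simpa using ho)).1

theorem sideD (h : GNet w GN GS ln j0 dn U D) (hs : ∀ c c', D c = some c' → D c' = some c) :
    SideW w GS (fun c : Fin N => ln (j0 + (c : ℕ))) dn D where
  sy := hs
  ori c c' hc := h.fD c c' hc
  path c c' hc ho := by
    obtain ⟨n, -, h1, h2⟩ := h.dw c c' hc ho
    exact ⟨n, h1, h2⟩
  pl c ho := (h.dir1 c ho).2
  la c ho := (h.dir0 c ho).2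

end GNet

end Pool.Agent.H81.G1
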