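import Pool.Agent.H81.G1.Blk
import Pool.Agent.H81.G1.GNet

set_option autoImplicit false
set_option linter.unusedSectionVars false
open Finset

/-! # The pointwise bound of the outer factor (F3)

Windows `i` with the column interval `[l i, r i]` of the big box, the special column `x i`, the columns
`Iv i` of the inner box and a side `e i` such that, except for two of them, the wires on this side join
the columns of `Iv i` to columns of `[l i, r i]` and do not jump over `x i`. -/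

namespace Pool.Agent.H81.G1

open Pool.Agent.Q1.M6b.Strand Pool.Agent.Q1.M6b.ExN Pool.Agent.Q1.M6b.PB Pool.Agent.Q1.M6b.Meander
open Pool.Agent.H75.Perc Pool.Agent.H75.TwoArm Pool.Agent.Q1.M6b.Nest Pool.Agent.Q1.M6b.Gd
open Pool.Agent.H34.Q1

variable {N : ℕ} {ι : Type*} [Fintype ι] [DecidableEq ι]

/-! ### The side of a column -/

open Classical in
/-- the side of the last window of a set of windows -/
noncomputable def sdF (l : ι → ℕ) (e : ι → Bool) (S : Finset ι) : Bool :=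
  if h : S.Nonempty then e (S.exists_max_image l h).choose else true

/-- the windows which begin before the column `c` -/
def Wb (l : ι → ℕ) (c : Fin N) : Finset ι := univ.filter fun i => l i ≤ (c : ℕ)

/-- the side of a column -/
noncomputable def sdW (l : ι → ℕ) (e : ι → Bool) (c : Fin N) : Bool := sdF l e (Wb l c)

lemma sdW_SB {l : ι → ℕ} {e : ι → Bool} {Z : Finset ℕ} (hl : ∀ i, l i ∈ Z) {c c' : Fin N}
    (h : SB Z c c') : sdW l e c = sdW l e c' := by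
  have : Wb l c = Wb l c' := by
    ext i
    unfold Wb
    simp only [mem_filter, mem_univ, true_and]
    have h1 := h _ (hl i)
    constructor <;> intro h2 <;> by_contra h3
    · exact h1.2 ⟨by omega, h2⟩
    · exact h1.1 ⟨by omega, h2⟩
  unfold sdW
  rw [this]

/-- the windows of a row -/
structure WinE (U D : Fin N → Option (Fin N)) (Z : Finset ℕ) (l r : ι → ℕ) (x : ι → Fin N)
    (e : ι → Bool) (Iv : ι → Finset (Fin N)) : Prop where
  disj : ∀ i j, i ≠ j → r i < l j ∨ r j < l i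
  lr : ∀ i, l i ≤ (x i : ℕ) ∧ (x i : ℕ) ≤ r i
  iv : ∀ i, ∀ c ∈ Iv i, l i ≤ (c : ℕ) ∧ (c : ℕ) ≤ r i
  cut : ∀ z ∈ Z, ∀ i, l i < z → z ≤ r i → z = x i ∨ z = x i + 1
  lz : ∀ i, l i ∈ Z
  near : ∀ i, ∃ S : Finset (Fin N), S.card ≤ 2 ∧ ∀ c ∈ Iv i, c ∉ S → ∀ c',
    (if e i then U else D) c = some c' → (l i ≤ (c' : ℕ) ∧ (c' : ℕ) ≤ r i) ∧
      ¬ (c < x i ∧ x i < c') ∧ ¬ (c' < x i ∧ x i < c)

section win

variable {U D : Fin N → Option (Fin N)} {Z : Finset ℕ} {l r : ι → ℕ} {x : ι → Fin N} {e : ι → Bool}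
  {Iv : ι → Finset (Fin N)} {sp : Finset (Fin N)}

/-- near a window the side is the side of the window -/
lemma WinE.side (h : WinE U D Z l r x e Iv) (i : ι) {c : Fin N} (hc : c ∈ Iv i) :
    sdW l e c = e i := by
  obtain ⟨h1, h2⟩ := h.iv i c hc
  have hi : i ∈ Wb l c := mem_filter.2 ⟨mem_univ _, h1⟩
  have hne : (Wb l c).Nonempty := ⟨i, hi⟩
  unfold sdW sdF
  rw [dif_pos hne]
  obtain ⟨a1, a2⟩ := ((Wb l c).exists_max_image l hne).choose_spec
  set j := ((Wb l c).exists_max_image l hne).choose with hj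
  have a3 := a2 i hi
  have a4 : l j ≤ (c : ℕ) := (mem_filter.1 a1).2
  by_cases hij : j = i
  · rw [hij]
  · have h6 := h.lr j
    rcases h.disj j i hij with h5 | h5 <;> omega

lemma sb_not {c c' : Fin N} (h : ¬ SB Z c c') :
    ∃ z ∈ Z, ((c : ℕ) < z ∧ z ≤ c') ∨ ((c' : ℕ) < z ∧ z ≤ c) := by
  unfold SB at h
  push Not at h
  obtain ⟨z, hz, h1⟩ := h
  by_cases h2 : (c : ℕ) < z ∧ z ≤ c'
  · exact ⟨z, hz, Or.inl h2⟩
  · exact ⟨z, hz, Or.inr (h1 (fun a1 => by by_contra a2; exact h2 ⟨a1, by omega⟩))⟩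

/-- the exits near a window: abstract form for one side -/
lemma near_le {V : Fin N → Option (Fin N)} (hsy : ∀ c c', V c = some c' → V c' = some c)
    {l0 r0 : ℕ} {x0 : Fin N} {I : Finset (Fin N)} (hx0 : x0 ∈ sp)
    (hI : ∀ c ∈ I, l0 ≤ (c : ℕ) ∧ (c : ℕ) ≤ r0)
    (hcut : ∀ z ∈ Z, l0 < z → z ≤ r0 → z = x0 ∨ z = x0 + 1)
    (hl : ∃ S : Finset (Fin N), S.card ≤ 2 ∧ ∀ c ∈ I, c ∉ S → ∀ c', V c = some c' →
      (l0 ≤ (c' : ℕ) ∧ (c' : ℕ) ≤ r0) ∧ ¬ (c < x0 ∧ x0 < c') ∧ ¬ (c' < x0 ∧ x0 < c))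
    {E : Finset (Fin N)} (hE : ∀ c ∈ E, c ∉ sp ∧ ∃ c', V c = some c' ∧ ¬ SB Z c c') :
    (E ∩ I).card ≤ 3 := by
  classical
  obtain ⟨S, hS, hS2⟩ := hl
  have hsub : E ∩ I ⊆ S ∪ (univ.filter fun c => V x0 = some c) := by
    intro c hc
    obtain ⟨h1, h2⟩ := mem_inter.1 hc
    obtain ⟨h3, c', h4, h5⟩ := hE c h1
    rw [mem_union, mem_filter]
    by_cases h6 : c ∉ S
    · right
      refine ⟨mem_univ _, ?_⟩
      obtain ⟨z, hz, h7⟩ := sb_not h5
      have h8 := hI c h2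
      obtain ⟨h6', h9⟩ := hS2 c h2 h6 c' h4
      have h10 := hcut z hz (by omega) (by omega)
      have h11 : c ≠ x0 := fun hh => h3 (hh ▸ hx0)
      have h12 : c' = x0 := by
        by_contra h13
        rcases lt_or_gt_of_ne h11 with a1 | a1 <;> rcases lt_or_gt_of_ne h13 with a2 | a2
        · have := Fin.lt_def.1 a1; have := Fin.lt_def.1 a2; omega
        · exact h9.1 ⟨a1, a2⟩
        · exact h9.2 ⟨a2, a1⟩
        · have := Fin.lt_def.1 a1; have := Fin.lt_def.1 a2; omega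
      rw [← h12]
      exact hsy _ _ h4
    · left
      exact not_not.1 h6
  have h1 : (univ.filter fun c => V x0 = some c).card ≤ 1 := by
    rw [card_le_one]
    intro a ha b hb
    have e1 := (mem_filter.1 ha).2
    have e2 := (mem_filter.1 hb).2
    rw [e1] at e2
    exact Option.some.inj e2
  calc (E ∩ I).card ≤ _ := card_le_card hsub
    _ ≤ _ := card_union_le _ _
    _ ≤ 2 + 1 := Nat.add_le_add hS h1

/-- all exits on one side: `3` for every window and the exits which are not near a window -/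
lemma side_le {E : Finset (Fin N)} {J : Finset ι} {t : ℕ}
    (hn : ∀ i ∈ J, (E ∩ Iv i).card ≤ 3) (ho : ∀ i ∉ J, E ∩ Iv i = ∅)
    (hf : (E.filter fun c => ∀ i, c ∉ Iv i).card ≤ t) : E.card ≤ 3 * J.card + t := by
  classical
  have hsub : E ⊆ (J.biUnion fun i => E ∩ Iv i) ∪ (E.filter fun c => ∀ i, c ∉ Iv i) := by
    intro c hc
    rw [mem_union]
    by_cases h : ∀ i, c ∉ Iv i
    · exact Or.inr (mem_filter.2 ⟨hc, h⟩)
    · push Not at h
      obtain ⟨i, hi⟩ := h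
      left
      have hm : c ∈ E ∩ Iv i := mem_inter.2 ⟨hc, hi⟩
      have hiJ : i ∈ J := by
        by_contra hh
        rw [ho i hh] at hm
        exact absurd hm (notMem_empty _)
      exact mem_biUnion.2 ⟨i, hiJ, hm⟩
  calc E.card ≤ _ := card_le_card hsub
    _ ≤ _ := card_union_le _ _
    _ ≤ 3 * J.card + t := by
      refine Nat.add_le_add ?_ hf
      refine card_biUnion_le.trans ?_
      refine (sum_le_card_nsmul _ _ 3 hn).trans ?_
      rw [smul_eq_mul, mul_comm]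

end win

/-! ### The theorem -/

/-- the data of the environment on one side of the row for the number of exits: `w` the original
configuration, `w'` the configuration of the network -/
structure SideE (w w' E W : Finset (ℤ × ℤ)) (G B : Set (ℤ × ℤ)) (cr : Fin N → ℤ × ℤ)
    (o : Fin N → Bool) (V : Fin N → Option (Fin N)) (a0 : ℤ) (Z : Finset ℕ) (Sp : Finset ℤ) (R0 : ℕ)
    (Iv : ι → Finset (Fin N)) : Prop where
  wires : SideW w' G cr o V
  cr1 : ∀ c, (cr c).1 = a0 + (c : ℕ)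
  agr : ∀ e, e ∉ B → (e ∈ w' ↔ e ∈ w)
  cuts : ∀ z ∈ Z, a0 + (z : ℕ) ∈ Sp
  r0 : 2 ≤ R0
  one : ∀ c : Fin N, ∀ M : ℤ, 1 ≤ M → Dst Sp R0 (cr c) M → OneType E W G (cr c) M
  box : ∀ c : Fin N, (∀ i, c ∉ Iv i) → ∀ M, Dst Sp R0 (cr c) M →
    ∀ e ∈ B, ¬ (|e.1 - (cr c).1| ≤ M ∧ |e.2 - (cr c).2| ≤ M)

/-- the bound of the exits on one side which are not near a window -/
noncomputable def TE (N : ℕ) (w E W : Finset (ℤ × ℤ)) (G : Set (ℤ × ℤ)) (cr : Fin N → ℤ × ℤ)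
    (Sp : Finset ℤ) (R0 : ℕ) : ℕ :=
  (9 * Sp.card * Nat.log 2 R0 + (4 * N / R0 + 2)) *
      (KK (nx w) lab plab E W G (univ.image cr) (Nat.log 2 R0) +
        KK (pv w) plab lab E W G (univ.image cr) (Nat.log 2 R0)) + 6 * Sp.card

section main

variable {X : Net (Fin N)} {a b : Fin N → ℂ} {U D : Fin N → Option (Fin N)} {Z Z' : Finset ℕ}
  {l r : ι → ℕ} {x : ι → Fin N} {e : ι → Bool} {Iv : ι → Finset (Fin N)} {sp cp : Finset (Fin N)}

/-- **F3.** The bound of the state sum of a row by the number of closed orbits around the mark and the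
numbers of strands. -/
theorem F3 {p : Fin N → Bool} (hX : X.Good p) {T0 : ℤ}
    (h0 : ∀ s, X.KT s X.x0 (X.ln s X.x0) = T0) (hR : RM X U D) (hroot : Gt U D X.x0)
    (hB : Blk X sp cp a b U D Z Z' (sdW l e)) (hWE : WinE U D Z l r x e Iv) (hxs : ∀ i, x i ∈ sp)
    (hcp : ∀ c ∈ sp, (a c = 1 ∧ b c = -1) ∨ (a c = zt ^ (4 : ℤ) ∧ b c = zt ^ (-4 : ℤ)))
    {w₁ w₁' E₁ W₁ : Finset (ℤ × ℤ)} {G₁ B₁ : Set (ℤ × ℤ)} {cr₁ : Fin N → ℤ × ℤ} {o₁ : Fin N → Bool}
    {a₁ : ℤ} {Sp₁ : Finset ℤ} {R₁ : ℕ} (hU : SideE w₁ w₁' E₁ W₁ G₁ B₁ cr₁ o₁ U a₁ Z Sp₁ R₁ Iv)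
    {w₂ w₂' E₂ W₂ : Finset (ℤ × ℤ)} {G₂ B₂ : Set (ℤ × ℤ)} {cr₂ : Fin N → ℤ × ℤ} {o₂ : Fin N → Bool}
    {a₂ : ℤ} {Sp₂ : Finset ℤ} {R₂ : ℕ} (hD : SideE w₂ w₂' E₂ W₂ G₂ B₂ cr₂ o₂ D a₂ Z Sp₂ R₂ Iv)
    {κ : Type*} {In Out : κ → Finset (ℤ × ℤ)} {w w' : Finset (ℤ × ℤ)} {up : Bool} {s j0 : ℤ}
    {dn : Fin N → Bool} (hS : SNet (nx w') (sm up s) j0 dn U D)
    (hW : WinData In Out w w' up s j0 (Kn X sp) (pos X.y0))
    (ha : (Lp w (vx (sm up s (j0 + (pos X.y0 : ℕ))))).Finite) :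
    ‖X.Z a b‖ ≤ 2 ^ ((Lp w (vx (sm up s (j0 + (pos X.y0 : ℕ))))).ncard + 1) *
      2 ^ (5 * sp.card + (Z'.card + 1)) *
      (1 + (6 * Fintype.card ι + TE N w₁ E₁ W₁ G₁ cr₁ Sp₁ R₁ + TE N w₂ E₂ W₂ G₂ cr₂ Sp₂ R₂ : ℕ)) ^
        (Z'.card + 1) := by
  classical
  have hbd := hB.bound hX h0 hR hroot hcp
  have hK : SNet.Rg U D (Kn X sp) := by
    intro c hc
    have hcs := Kn_sp hc
    exact ⟨fun hn => hcs (hB.gU c hn), fun hn => hcs (hB.gD c hn)⟩
  have hNe := ne_le_Lp hR hS hK hW ha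
  have hex : ∀ (V : Fin N → Option (Fin N)) (E : Finset (Fin N)), (∀ c, V c = none → c ∈ sp) →
      (∀ c ∈ E, c ∉ sp ∧ ∀ c', V c = some c' → ¬ SB Z c c') →
      ∀ c ∈ E, c ∉ sp ∧ ∃ c', V c = some c' ∧ ¬ SB Z c c' := by
    intro V E hV hE c hc
    obtain ⟨h1, h2⟩ := hE c hc
    refine ⟨h1, ?_⟩
    cases hv : V c with
    | none => exact absurd (hV c hv) h1
    | some c' => exact ⟨c', rfl, h2 c' hv⟩
  have eU := hex U (XU U sp Z (sdW l e)) hB.gU
    (fun c hc => ⟨(mem_XU.1 hc).1, (mem_XU.1 hc).2.2⟩)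
  have eD := hex D (XD D sp Z (sdW l e)) hB.gD
    (fun c hc => ⟨(mem_XD.1 hc).1, (mem_XD.1 hc).2.2⟩)
  have bU : (XU U sp Z (sdW l e)).card ≤
      3 * (univ.filter fun i => e i = true).card + TE N w₁ E₁ W₁ G₁ cr₁ Sp₁ R₁ := by
    refine side_le (Iv := Iv) ?_ ?_ ?_
    · intro i hi
      have hi := (mem_filter.1 hi).2
      have hn := hWE.near i
      rw [hi] at hn
      exact near_le hR.pU.sy (hxs i) (hWE.iv i) (fun z hz => hWE.cut z hz i) hn eU
    · intro i hi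
      rw [← not_nonempty_iff_eq_empty]
      rintro ⟨c, hc⟩
      obtain ⟨h1, h2⟩ := mem_inter.1 hc
      apply hi
      rw [mem_filter]
      refine ⟨mem_univ _, ?_⟩
      rw [← hWE.side i h2]
      exact (mem_XU.1 h1).2.1
    · refine exits_card hU.wires hU.cr1 hU.agr hU.cuts hU.r0 hU.one ?_ ?_
      · intro c hc
        obtain ⟨-, c', h1, h2⟩ := eU c (mem_filter.1 hc).1
        exact ⟨c', h1, sb_not h2⟩
      · intro c hc
        exact hU.box c (mem_filter.1 hc).2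
  have bD : (XD D sp Z (sdW l e)).card ≤
      3 * (univ.filter fun i => e i = false).card + TE N w₂ E₂ W₂ G₂ cr₂ Sp₂ R₂ := by
    refine side_le (Iv := Iv) ?_ ?_ ?_
    · intro i hi
      have hi := (mem_filter.1 hi).2
      have hn := hWE.near i
      rw [hi] at hn
      exact near_le hR.pD.sy (hxs i) (hWE.iv i) (fun z hz => hWE.cut z hz i) hn eD
    · intro i hi
      rw [← not_nonempty_iff_eq_empty]
      rintro ⟨c, hc⟩
      obtain ⟨h1, h2⟩ := mem_inter.1 hc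
      apply hi
      rw [mem_filter]
      refine ⟨mem_univ _, ?_⟩
      rw [← hWE.side i h2]
      exact (mem_XD.1 h1).2.1
    · refine exits_card hD.wires hD.cr1 hD.agr hD.cuts hD.r0 hD.one ?_ ?_
      · intro c hc
        obtain ⟨-, c', h1, h2⟩ := eD c (mem_filter.1 hc).1
        exact ⟨c', h1, sb_not h2⟩
      · intro c hc
        exact hD.box c (mem_filter.1 hc).2
  have c1 : (univ.filter fun i => e i = true).card ≤ Fintype.card ι := card_le_univ _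
  have c2 : (univ.filter fun i => e i = false).card ≤ Fintype.card ι := card_le_univ _
  refine hbd.trans ?_
  have hpow : (2 : ℝ) ^ Ne X (Kn X sp) ≤
      2 ^ ((Lp w (vx (sm up s (j0 + (pos X.y0 : ℕ))))).ncard + 1) :=
    pow_le_pow_right₀ (by norm_num) hNe
  have hbase : (1 + ((XU U sp Z (sdW l e)).card + (XD D sp Z (sdW l e)).card : ℝ)) ≤
      1 + ((6 * Fintype.card ι + TE N w₁ E₁ W₁ G₁ cr₁ Sp₁ R₁ + TE N w₂ E₂ W₂ G₂ cr₂ Sp₂ R₂ : ℕ) : ℝ) := by
    have : (XU U sp Z (sdW l e)).card + (XD D sp Z (sdW l e)).card ≤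
        6 * Fintype.card ι + TE N w₁ E₁ W₁ G₁ cr₁ Sp₁ R₁ + TE N w₂ E₂ W₂ G₂ cr₂ Sp₂ R₂ := by omega
    have h2 : (((XU U sp Z (sdW l e)).card + (XD D sp Z (sdW l e)).card : ℕ) : ℝ) ≤
        ((6 * Fintype.card ι + TE N w₁ E₁ W₁ G₁ cr₁ Sp₁ R₁ + TE N w₂ E₂ W₂ G₂ cr₂ Sp₂ R₂ : ℕ) : ℝ) :=
      by exact_mod_cast this
    push_cast at h2 ⊢
    linarith
  exact mul_le_mul (mul_le_mul_of_nonneg_right hpow (by positivity))
    (pow_le_pow_left₀ (by positivity) hbase _) (by positivity) (by positivity)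

end main

end Pool.Agent.H81.G1
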