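import Pool.Agent.H81.G1.One
import Pool.Agent.H53.G1.GF3
import Pool.Agent.H69.M6b.F1

set_option autoImplicit false
set_option linter.unusedSectionVars false
open Finset

/-! # The bound of the amplitude of a reference configuration

`ar_core`: from the data of the windows (`Wnd`), of the strands near the windows and of the far strands
the bound of the amplitude of the configuration `z'` (which differs from `ω` in the inner boxes) by
functions of `ω`. -/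

namespace Pool.Agent.H81.G1

open Pool.Agent.H75.Perc Pool.Agent.H75.TwoArm Pool.Agent.Q1 Pool.Agent.H30.Mid
open Pool.Agent.H69.M6b (lbt lbt_inj lbt_odd pr0)
open Pool.Agent.Q1.M6b.Strand Pool.Agent.Q1.M6b.ExN Pool.Agent.Q1.M6b.PB Pool.Agent.Q1.M6b.Nest
open Pool.Agent.Q1.M6b.Gd (sm FarIn iter_congr)
open Pool.Agent.H34.Q1 Pool.Agent.H53.G1

/-- radius of a window of level `l` -/
def Rw (b : ℤ) (l : ℕ) : ℤ := if l = 0 then 0 else 2 * (b ^ (l + 1) + 1) + 1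

lemma Rw_zero (b : ℤ) : Rw b 0 = 0 := if_pos rfl

lemma Rw_pos {b : ℤ} {l : ℕ} (hl : l ≠ 0) : Rw b l = 2 * (b ^ (l + 1) + 1) + 1 := if_neg hl

lemma Rw_nonneg {b : ℤ} (hb : 2 ≤ b) (l : ℕ) : 0 ≤ Rw b l := by
  unfold Rw
  split_ifs
  · exact le_rfl
  · have : 0 < b ^ (l + 1) := by positivity
    omega

variable {N : ℕ} {x0 y0 : ℤ} {ι : Type*} [Fintype ι] [DecidableEq ι]

/-- the columns of the windows and of the reference -/
structure Wnd (N k : ℕ) (b : ℤ) (Lv : ι → ℕ) (cc : ι → ℤ) (x1 : ι → Fin N) : Prop where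
  nr : ∀ i, |((x1 i : ℕ) : ℤ) - cc i| ≤ Rw b (Lv i)
  lo : ∀ i, 0 ≤ cc i - Rw b (Lv i)
  hi : ∀ i, cc i + Rw b (Lv i) < N
  far : ∀ i i', i ≠ i' → Rw b (Lv i) + Rw b (Lv i') < |cc i - cc i'|
  mark : ∀ i, Lv i ≠ 0 → cc i + Rw b (Lv i) + 1 < k ∨ (k : ℤ) ≤ cc i - Rw b (Lv i) - 1

/-- left end of a window -/
def lw (b : ℤ) (Lv : ι → ℕ) (cc : ι → ℤ) (i : ι) : ℕ := (cc i - Rw b (Lv i)).toNat

/-- right end of a window -/
def rw' (b : ℤ) (Lv : ι → ℕ) (cc : ι → ℤ) (i : ι) : ℕ := (cc i + Rw b (Lv i)).toNat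

/-- columns of the inner box -/
def Iw (N : ℕ) (b : ℤ) (Lv : ι → ℕ) (cc : ι → ℤ) (i : ι) : Finset (Fin N) :=
  if Lv i = 0 then ∅ else univ.filter fun c => |((c : ℕ) : ℤ) - cc i| ≤ 8 * b ^ Lv i - 2

section

variable {k : ℕ} {b : ℤ} {Lv : ι → ℕ} {cc : ι → ℤ} {x1 : ι → Fin N}

lemma Wnd.lw_eq (h : Wnd N k b Lv cc x1) (i : ι) : ((lw b Lv cc i : ℕ) : ℤ) = cc i - Rw b (Lv i) :=
  Int.toNat_of_nonneg (h.lo i)

lemma Wnd.rw_eq (hb : 2 ≤ b) (h : Wnd N k b Lv cc x1) (i : ι) :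
    ((rw' b Lv cc i : ℕ) : ℤ) = cc i + Rw b (Lv i) := by
  refine Int.toNat_of_nonneg ?_
  have := h.lo i
  have := Rw_nonneg hb (Lv i)
  omega

lemma iw_rw {b : ℤ} (hb : 4 ≤ b) {l : ℕ} (hl : l ≠ 0) : 8 * b ^ l - 2 ≤ Rw b l := by
  rw [Rw_pos hl, pow_succ]
  have : 0 < b ^ l := by positivity
  nlinarith

/-- the windows of the row -/
theorem Wnd.winR (hb : 4 ≤ b) (h : Wnd N k b Lv cc x1) {U D : Fin N → Option (Fin N)} {p : ℕ}
    (hp : p = k) {e : ι → Bool}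
    (near : ∀ i, Lv i ≠ 0 → ∃ S : Finset (Fin N), S.card ≤ 2 ∧ ∀ c : Fin N,
      |((c : ℕ) : ℤ) - cc i| ≤ 8 * b ^ Lv i - 2 → c ∉ S → ∀ c', (if e i then U else D) c = some c' →
      |((c' : ℕ) : ℤ) - cc i| ≤ Rw b (Lv i) ∧ ¬ (c < x1 i ∧ x1 i < c') ∧ ¬ (c' < x1 i ∧ x1 i < c)) :
    WinR U D (univ.image x1) p (lw b Lv cc) (rw' b Lv cc) x1 e (Iw N b Lv cc) where
  disj i j hij := by
    have h1 := h.lw_eq i
    have h2 := h.lw_eq j
    have h3 := h.rw_eq (by omega) i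
    have h4 := h.rw_eq (by omega) j
    have h5 := h.far i j hij
    rcases lt_abs.1 h5 with h6 | h6 <;> omega
  lr i := by
    have h1 := h.lw_eq i
    have h3 := h.rw_eq (by omega) i
    have h5 := h.nr i
    rw [abs_le] at h5
    omega
  rN i := by
    have h3 := h.rw_eq (by omega) i
    have := h.hi i
    omega
  iv i c hc := by
    unfold Iw at hc
    split_ifs at hc with hl
    · exact absurd hc (notMem_empty _)
    · have h1 := (mem_filter.1 hc).2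
      have h2 := iw_rw hb hl
      have h3 := h.lw_eq i
      have h4 := h.rw_eq (by omega) i
      rw [abs_le] at h1
      omega
  xS i := mem_image_of_mem _ (mem_univ _)
  Sx c hc := by
    obtain ⟨i, -, rfl⟩ := mem_image.1 hc
    exact ⟨i, rfl⟩
  mrk i := by
    have h3 := h.lw_eq i
    have h4 := h.rw_eq (by omega) i
    by_cases hl : Lv i = 0
    · rw [hl, Rw_zero] at h3 h4
      omega
    · have := h.mark i hl
      omega
  near i := by
    by_cases hl : Lv i = 0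
    · refine ⟨∅, by simp, ?_⟩
      intro c hc
      unfold Iw at hc
      rw [if_pos hl] at hc
      exact absurd hc (notMem_empty _)
    · obtain ⟨S, hS, h1⟩ := near i hl
      refine ⟨S, hS, ?_⟩
      intro c hc hcS c' hc'
      unfold Iw at hc
      rw [if_neg hl] at hc
      obtain ⟨h2, h3⟩ := h1 c (mem_filter.1 hc).2 hcS c' hc'
      refine ⟨?_, h3⟩
      have h4 := h.lw_eq i
      have h5 := h.rw_eq (by omega) i
      rw [abs_le] at h2
      omega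

/-- special columns of the inner boxes -/
noncomputable def Sb (a0 b : ℤ) (Lv : ι → ℕ) (cc : ι → ℤ) : Finset ℤ :=
  univ.biUnion fun i => ((Finset.Icc (-1 : ℤ) 2).image fun t => a0 + cc i + (8 * b ^ Lv i + t)) ∪
    ((Finset.Icc (-1 : ℤ) 2).image fun t => a0 + cc i - (8 * b ^ Lv i + t))

lemma card_Sb {a0 b : ℤ} {Lv : ι → ℕ} {cc : ι → ℤ} : (Sb a0 b Lv cc).card ≤ 8 * Fintype.card ι := by
  unfold Sb
  refine card_biUnion_le.trans ?_
  refine (sum_le_card_nsmul _ _ 8 fun i _ => ?_).trans ?_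
  · refine (card_union_le _ _).trans ?_
    have h1 : ((Finset.Icc (-1 : ℤ) 2).image fun t => a0 + cc i + (8 * b ^ Lv i + t)).card ≤ 4 :=
      card_image_le.trans (by simp)
    have h2 : ((Finset.Icc (-1 : ℤ) 2).image fun t => a0 + cc i - (8 * b ^ Lv i + t)).card ≤ 4 :=
      card_image_le.trans (by simp)
    omega
  · rw [card_univ, smul_eq_mul, mul_comm]

lemma mem_Sb {a0 b : ℤ} {Lv : ι → ℕ} {cc : ι → ℤ} (i : ι) {t : ℤ} (h1 : -1 ≤ t) (h2 : t ≤ 2) :
    a0 + cc i + (8 * b ^ Lv i + t) ∈ Sb a0 b Lv cc ∧ a0 + cc i - (8 * b ^ Lv i + t) ∈ Sb a0 b Lv cc := by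
  unfold Sb
  constructor
  · exact mem_biUnion.2 ⟨i, mem_univ _, mem_union_left _ (mem_image.2 ⟨t, mem_Icc.2 ⟨h1, h2⟩, rfl⟩)⟩
  · exact mem_biUnion.2 ⟨i, mem_univ _, mem_union_right _ (mem_image.2 ⟨t, mem_Icc.2 ⟨h1, h2⟩, rfl⟩)⟩

/-- the columns outside of `Iw` are not influenced by the inner box -/
lemma box_far {a0 : ℤ} {Sp : Finset ℤ} (hSp : Sb a0 b Lv cc ⊆ Sp) {R0 : ℕ} {i : ι} (hl : Lv i ≠ 0)
    {c : Fin N} (hc : c ∉ Iw N b Lv cc i) {M : ℤ} (hM : Dst Sp R0 (sm true y0 (a0 + (c : ℕ))) M)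
    {q : ℤ × ℤ} (hq1 : |q.1 - (a0 + cc i)| ≤ 8 * b ^ Lv i + 1) (hq2 : (q.1 + q.2) % 2 = 1) :
    ¬ (|q.1 - (sm true y0 (a0 + (c : ℕ))).1| ≤ M ∧ |q.2 - (sm true y0 (a0 + (c : ℕ))).2| ≤ M) := by
  rintro ⟨h1, h2⟩
  have e1 : (sm true y0 (a0 + (c : ℕ))).1 = a0 + (c : ℕ) := by unfold sm; simp
  have e2 : (sm true y0 (a0 + (c : ℕ))).2 = a0 + (c : ℕ) + 2 * y0 := by unfold sm; simp
  rw [e1] at h1
  rw [e2] at h2
  unfold Iw at hc
  rw [if_neg hl, mem_filter] at hc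
  have hc' : 8 * b ^ Lv i - 2 < |((c : ℕ) : ℤ) - cc i| := by
    by_contra hh
    exact hc ⟨mem_univ _, not_lt.1 hh⟩
  obtain ⟨-, hMs⟩ := hM
  rw [e1] at hMs
  have hM0 : 0 ≤ M := (abs_nonneg _).trans h1
  set T := 8 * b ^ Lv i with hT
  -- `M` is positive
  have hM1 : 1 ≤ M := by
    by_contra hh
    have : M = 0 := by omega
    subst this
    rw [abs_le] at h1 h2
    omega
  have key : ∀ t : ℤ, -1 ≤ t → t ≤ 2 → M ≤ |((c : ℕ) : ℤ) - cc i - (T + t)| ∧
      M ≤ |((c : ℕ) : ℤ) - cc i + (T + t)| := by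
    intro t t1 t2
    obtain ⟨m1, m2⟩ := mem_Sb (a0 := a0) (b := b) (Lv := Lv) (cc := cc) i t1 t2
    have h3 := hMs _ (hSp m1)
    have h4 := hMs _ (hSp m2)
    rw [show a0 + ((c : ℕ) : ℤ) - (a0 + cc i + (8 * b ^ Lv i + t)) =
      ((c : ℕ) : ℤ) - cc i - (T + t) by rw [hT]; ring] at h3
    rw [show a0 + ((c : ℕ) : ℤ) - (a0 + cc i - (8 * b ^ Lv i + t)) =
      ((c : ℕ) : ℤ) - cc i + (T + t) by rw [hT]; ring] at h4
    exact ⟨h3, h4⟩
  have k1 := key (-1) (by omega) (by omega)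
  have k2 := key 0 (by omega) (by omega)
  have k3 := key 1 (by omega) (by omega)
  have k4 := key 2 (by omega) (by omega)
  set u := ((c : ℕ) : ℤ) - cc i with hu
  have hc4 : ((c : ℕ) : ℤ) = u + cc i := by rw [hu]; ring
  rw [hc4] at h1
  rw [abs_le] at h1 hq1
  rcases lt_abs.1 hc' with h5 | h5
  · have a1 : u - (T + -1) ≠ 0 := fun hh => by have := k1.1; rw [hh, abs_zero] at this; omega
    have a2 : u - (T + 0) ≠ 0 := fun hh => by have := k2.1; rw [hh, abs_zero] at this; omega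
    have a3 : u - (T + 1) ≠ 0 := fun hh => by have := k3.1; rw [hh, abs_zero] at this; omega
    have a4 : u - (T + 2) ≠ 0 := fun hh => by have := k4.1; rw [hh, abs_zero] at this; omega
    have a5 := k4.1
    rw [abs_of_nonneg (by omega)] at a5
    omega
  · have a1 : u + (T + -1) ≠ 0 := fun hh => by have := k1.2; rw [hh, abs_zero] at this; omega
    have a2 : u + (T + 0) ≠ 0 := fun hh => by have := k2.2; rw [hh, abs_zero] at this; omega
    have a3 : u + (T + 1) ≠ 0 := fun hh => by have := k3.2; rw [hh, abs_zero] at this; omega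
    have a4 : u + (T + 2) ≠ 0 := fun hh => by have := k4.2; rw [hh, abs_zero] at this; omega
    have a5 := k4.2
    rw [abs_of_nonpos (by omega)] at a5
    omega

end

/-! ### Configurations -/

/-- `FarIn` does not depend on the deterministic labels -/
lemma farIn_sub {E WG In Out z' : Finset (ℤ × ℤ)} (hd : Disjoint E WG) (hO : Out ⊆ E) {z : ℤ × ℤ}
    (h : FarIn In Out (z' ∪ WG) z) : FarIn In Out z' z := by
  refine Pool.Agent.Q1.M6b.Gd.FarIn.congr ?_ h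
  ext q
  rw [mem_inter, mem_inter, mem_union, mem_sdiff]
  constructor
  · rintro ⟨h1 | h1, h2⟩
    · exact ⟨h1, h2⟩
    · exact absurd h1 (disjoint_left.1 hd (hO h2.1))
  · rintro ⟨h1, h2⟩
    exact ⟨Or.inl h1, h2⟩

/-- paths in the random labels -/
lemma path_sub {E WG z' : Finset (ℤ × ℤ)} (hd : Disjoint E WG) {c : ℤ × ℤ} {n : ℕ}
    (h : ∀ t < n, lab ((nx z')^[t] c) ∈ E) : (nx (z' ∪ WG))^[n] c = (nx z')^[n] c := by
  refine (iter_congr (ω := z') (ω' := z' ∪ WG) (fun t ht => ?_) n le_rfl).1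
  rw [mem_union]
  constructor
  · rintro (h1 | h1)
    · exact h1
    · exact absurd h1 (disjoint_left.1 hd (h t ht))
  · exact Or.inl

/-- **The bound of the amplitude of the reference configuration.** -/
theorem ar_core {X : Env} {ζ L : Finset (ℤ × ℤ)} (h : HasRow X N x0 y0)
    (ho : OutL (X.freeze (RS N x0 y0) ζ) L) (F : Frame L N x0 y0) (hEU : F.EU.card ≤ 6)
    (hED : F.ED.card ≤ 12) (hroot : ¬ F.In (plab X.c0))
    {y : Fin N × Dir} (hy : inc (rp x0 y0) y = true) {k0 : Fin N} (hyk : y = (k0, .W) ∨ y = (k0, .E))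
    {k : ℕ} (hpos : pos y = k) {b : ℤ} (hb : 4 ≤ b) {Lv : ι → ℕ} {cc : ι → ℤ} {x1 : ι → Fin N}
    {e : ι → Bool} (hW : Wnd N k b Lv cc x1)
    (near : ∀ i, Lv i ≠ 0 → ∃ S : Finset (Fin N), S.card ≤ 2 ∧ ∀ c : Fin N,
      |((c : ℕ) : ℤ) - cc i| ≤ 8 * b ^ Lv i - 2 → c ∉ S → ∀ c',
      (if e i then opt F.EU F.U else opt F.ED F.D) c = some c' →
      |((c' : ℕ) : ℤ) - cc i| ≤ Rw b (Lv i) ∧ ¬ (c < x1 i ∧ x1 i < c') ∧ ¬ (c' < x1 i ∧ x1 i < c))
    {E WG ω z' : Finset (ℤ × ℤ)} (hd : Disjoint E WG) (hL : GLab F (z' ∪ WG))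
    {In Out : ι → Finset (ℤ × ℤ)} (hsub : ∀ i, In i ⊆ Out i) (hOE : ∀ i, Out i ⊆ E)
    (hI0 : ∀ i, Lv i = 0 → Out i = ∅)
    (hI1 : ∀ i, Lv i ≠ 0 → ∀ q ∈ In i, |q.1 - (x0 - y0 + 1 + cc i)| ≤ 8 * b ^ Lv i + 1 ∧
      (q.1 + q.2) % 2 = 1)
    (hO1 : ∀ i, Lv i ≠ 0 → ∀ q ∈ Out i, |q.1 - (x0 - y0 + 1 + cc i)| ≤ Rw b (Lv i))
    (hag : ∀ q, (∀ i, q ∉ In i) → (q ∈ z' ↔ q ∈ ω))
    (hfar : ∀ i, Lv i ≠ 0 → ∀ z, FarIn (In i) (Out i) z' z → ∃ n : ℕ,
      ((∀ t < n, lab ((nx z')^[t] z) ∈ E) ∧ (nx z')^[n] z = sc x0 y0 (x1 i)) ∨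
      ((∀ t < n, lab ((nx z')^[t] (sc x0 y0 (x1 i))) ∈ E) ∧ (nx z')^[n] (sc x0 y0 (x1 i)) = z))
    {Sw : Finset ℤ} (hSw : Sw.card ≤ 9) {R0 : ℕ} (hR0 : 2 ≤ R0)
    (one : ∀ Sp : Finset ℤ, Sw ⊆ Sp → ∀ G : Set (ℤ × ℤ), (∀ q ∈ G, (q.1 + q.2) % 2 = 1) →
      ∀ c : Fin N, ∀ M : ℤ, 1 ≤ M → Dst Sp R0 (sc x0 y0 c) M → OneType E WG G (sc x0 y0 c) M)
    (hfin : (Lp (ω ∪ WG) (vx (sm true y0 (x0 - y0 + 1 + (k : ℕ))))).Finite) :
    ‖AR X x0 y0 y (cA (univ.image x1) (zt ^ (4 : ℤ))) (cB (univ.image x1) (zt ^ (-4 : ℤ))) ζ‖ ≤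
      2 ^ ((Lp (ω ∪ WG) (vx (sm true y0 (x0 - y0 + 1 + (k : ℕ))))).ncard + 1) *
      gF (4 * Fintype.card ι + 20) (Fintype.card ι + 18) (Fintype.card ι) (11 * Fintype.card ι + 11) N
        E WG WG (HN y0) (HS y0) (sc x0 y0) (sc x0 y0) R0 R0 ω := by
  classical
  have hWR := hW.winR hb (p := pos y) hpos near
  set Sp : Finset ℤ := (Zc N (pos y) (lw b Lv cc) x1).image (fun z : ℕ => x0 - y0 + 1 + (z : ℤ)) ∪
    Sb (x0 - y0 + 1) b Lv cc ∪ Sw with hSp
  have hSpc : Sp.card ≤ 11 * Fintype.card ι + 11 := by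
    rw [hSp]
    refine (card_union_le _ _).trans ?_
    have h1 : ((Zc N (pos y) (lw b Lv cc) x1).image (fun z : ℕ => x0 - y0 + 1 + (z : ℤ)) ∪
      Sb (x0 - y0 + 1) b Lv cc).card ≤ (3 * Fintype.card ι + 2) + 8 * Fintype.card ι :=
      (card_union_le _ _).trans (Nat.add_le_add (card_image_le.trans card_Zc) card_Sb)
    omega
  have hag' : ∀ q, q ∉ {q : ℤ × ℤ | ∃ i, q ∈ In i} → (q ∈ z' ∪ WG ↔ q ∈ ω ∪ WG) := by
    intro q hq
    rw [mem_union, mem_union, hag q (fun i hi => hq ⟨i, hi⟩)]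
  have hex : ExD N (ω ∪ WG) (z' ∪ WG) E WG {q | ∃ i, q ∈ In i} (x0 - y0 + 1) y0
      (Zc N (pos y) (lw b Lv cc) x1) Sp R0 (Iw N b Lv cc) :=
    { cuts := fun z hz => by
        rw [hSp]
        exact mem_union_left _ (mem_union_left _ (mem_image_of_mem _ hz))
      r0 := hR0
      oneN := fun c M hM1 hM => one Sp (by rw [hSp]; exact subset_union_right) _ HN_odd c M hM1 hM
      oneS := fun c M hM1 hM => one Sp (by rw [hSp]; exact subset_union_right) _ HS_odd c M hM1 hM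
      agr := hag'
      box := fun c hc M hM q hq => by
        obtain ⟨i, hi⟩ := hq
        by_cases hl : Lv i = 0
        · have := hsub i hi
          rw [hI0 i hl] at this
          exact absurd this (notMem_empty _)
        · obtain ⟨h1, h2⟩ := hI1 i hl q hi
          exact box_far (by rw [hSp]; exact subset_union_right.trans subset_union_left) hl (hc i) hM
            h1 h2 }
  have key := ar_bound h ho F hroot hy hyk hWR hL hex hsub
    (fun i z hz => by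
      have hl : Lv i ≠ 0 := by
        intro hl
        have h1 := hsub i hz.1
        rw [hI0 i hl] at h1
        exact absurd h1 (notMem_empty _)
      obtain ⟨n, h1⟩ := hfar i hl z (farIn_sub hd (hOE i) hz)
      refine ⟨n, x1 i, mem_image_of_mem _ (mem_univ _), ?_⟩
      rcases h1 with ⟨h2, h3⟩ | ⟨h2, h3⟩
      · left
        rw [path_sub hd h2]
        exact h3
      · right
        have h4 := path_sub (WG := WG) hd h2
        rw [h3] at h4
        exact h4)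
    (fun i => by
      by_cases hl : Lv i = 0
      · left
        intro c hc
        rw [hI0 i hl] at hc
        exact absurd hc (notMem_empty _)
      · have hnear : ∀ c : Fin N, lab (sm true y0 (x0 - y0 + 1 + (c : ℕ))) ∈ Out i →
            |((c : ℕ) : ℤ) - cc i| ≤ Rw b (Lv i) + 1 := by
          intro c hc
          have h1 := hO1 i hl _ hc
          have h2 := (lab_near (sm true y0 (x0 - y0 + 1 + (c : ℕ)))).1
          have e1 : (sm true y0 (x0 - y0 + 1 + (c : ℕ))).1 = x0 - y0 + 1 + (c : ℕ) := by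
            unfold sm; simp
          rw [e1] at h2
          rw [abs_le] at h1 h2 ⊢
          omega
        rcases hW.mark i hl with h1 | h1
        · left
          intro c hc
          have h2 := hnear c hc
          rw [abs_le] at h2
          omega
        · right
          intro c hc
          have h2 := hnear c hc
          rw [abs_le] at h2
          omega)
    (by rw [hpos]; exact hfin)
  rw [hpos] at key
  refine key.trans ?_
  rw [mul_assoc]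
  refine mul_le_mul_of_nonneg_left ?_ (by positivity)
  have hT : TEE N (ω ∪ WG) E WG (x0 - y0 + 1) y0 Sp R0 ≤
      TB N (ω ∪ WG) E WG (HN y0) (sc x0 y0) (11 * Fintype.card ι + 11) R0 +
        TB N (ω ∪ WG) E WG (HS y0) (sc x0 y0) (11 * Fintype.card ι + 11) R0 := by
    unfold TEE
    exact Nat.add_le_add (TE_le_TB hSpc) (TE_le_TB hSpc)
  unfold gF
  have hn : (0 : ℝ) ≤ ((6 * Fintype.card ι + TEE N (ω ∪ WG) E WG (x0 - y0 + 1) y0 Sp R0 : ℕ) : ℝ) :=
    Nat.cast_nonneg _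
  have hT' : ((6 * Fintype.card ι + TEE N (ω ∪ WG) E WG (x0 - y0 + 1) y0 Sp R0 : ℕ) : ℝ) ≤
      ((6 * Fintype.card ι + TB N (ω ∪ WG) E WG (HN y0) (sc x0 y0) (11 * Fintype.card ι + 11) R0 +
        TB N (ω ∪ WG) E WG (HS y0) (sc x0 y0) (11 * Fintype.card ι + 11) R0 : ℕ) : ℝ) := by
    have : 6 * Fintype.card ι + TEE N (ω ∪ WG) E WG (x0 - y0 + 1) y0 Sp R0 ≤
      6 * Fintype.card ι + TB N (ω ∪ WG) E WG (HN y0) (sc x0 y0) (11 * Fintype.card ι + 11) R0 +
        TB N (ω ∪ WG) E WG (HS y0) (sc x0 y0) (11 * Fintype.card ι + 11) R0 := by omega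
    exact_mod_cast this
  refine mul_le_mul ?_ ?_ (by positivity) (by positivity)
  · exact pow_le_pow_right₀ (by norm_num) (by omega)
  · refine (pow_le_pow_left₀ (by linarith) (by linarith) _).trans
      (pow_le_pow_right₀ (by linarith) (by omega))

end Pool.Agent.H81.G1
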