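import Pool.Agent.H81.G1.Fin3

set_option autoImplicit false
set_option linter.unusedSectionVars false
open Finset

/-! # There are finitely many closed strands around a vertex -/

namespace Pool.Agent.H81.G1

open Pool.Agent.H75.Perc Pool.Agent.H75.TwoArm Pool.Agent.Q1 Pool.Agent.H30.Mid
open Pool.Agent.Q1.M6b.Nest Pool.Agent.H34.Q1

lemma nxC_cases (c : ℤ × ℤ) :
    (c.1 % 2 = 0 ∧ c.2 % 2 = 0 ∧ nxC c = (c.1 + 1, c.2)) ∨
    (c.1 % 2 = 1 ∧ c.2 % 2 = 0 ∧ nxC c = (c.1, c.2 + 1)) ∨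
    (c.1 % 2 = 0 ∧ c.2 % 2 = 1 ∧ nxC c = (c.1, c.2 - 1)) ∨
    (c.1 % 2 = 1 ∧ c.2 % 2 = 1 ∧ nxC c = (c.1 - 1, c.2)) := by
  unfold nxC
  split_ifs with h1 h2 h2
  · exact Or.inl ⟨h2, h1, rfl⟩
  · exact Or.inr (Or.inl ⟨by omega, h1, rfl⟩)
  · exact Or.inr (Or.inr (Or.inl ⟨h2, by omega, rfl⟩))
  · exact Or.inr (Or.inr (Or.inr ⟨by omega, by omega, rfl⟩))

/-- **The closed strands around a vertex are finitely many.** -/
theorem Lp_finite (w : Finset (ℤ × ℤ)) (v : ℤ × ℤ) : (Lp w v).Finite := by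
  set S : Set (ℤ × ℤ) := {c | lab c ∈ w} ∪ {c | vx c = v} with hS
  have hSf : S.Finite := by
    refine Set.Finite.union ?_ ?_
    · have h3 : {c : ℤ × ℤ | lab c ∈ w} ⊆ ⋃ e ∈ w, (Set.Icc (e.1 - 1) (e.1 + 1)) ×ˢ
          (Set.Icc (e.2 - 1) (e.2 + 1)) := by
        intro c hc
        have h4 := lab_near c
        rw [abs_le, abs_le] at h4
        refine Set.mem_iUnion₂.2 ⟨lab c, hc, ?_⟩
        rw [Set.mem_prod, Set.mem_Icc, Set.mem_Icc]
        omega
      refine Set.Finite.subset (Set.Finite.biUnion (Finset.finite_toSet w) fun e _ => ?_) h3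
      exact (Set.finite_Icc _ _).prod (Set.finite_Icc _ _)
    · have h3 : {c : ℤ × ℤ | vx c = v} ⊆ (Set.Icc (2 * v.1) (2 * v.1 + 1)) ×ˢ
          (Set.Icc (2 * v.2) (2 * v.2 + 1)) := by
        rintro c hc
        have hc' : vx c = v := hc
        unfold vx at hc'
        have e1 := congrArg Prod.fst hc'
        have e2 := congrArg Prod.snd hc'
        simp only at e1 e2
        rw [Set.mem_prod, Set.mem_Icc, Set.mem_Icc]
        omega
      exact Set.Finite.subset ((Set.finite_Icc _ _).prod (Set.finite_Icc _ _)) h3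
  refine Set.Finite.subset (hSf.image (fun c => Set.range (fun i : ℕ => (nx w)^[i] c))) ?_
  rintro O ⟨⟨c, hc⟩, hfin, hodd⟩
  by_cases hex : ∃ c' ∈ O, lab c' ∈ w
  · obtain ⟨c', h1, h2⟩ := hex
    exact ⟨c', Or.inl h2, (orbit_of_mem hc hfin h1).symm⟩
  push Not at hex
  have hcl : ∀ d ∈ O, nxC d ∈ O := by
    intro d hd
    have h1 : nx w d = nxC d := by unfold nx; rw [if_neg (hex d hd)]
    rw [hc] at hd ⊢
    obtain ⟨i, hi⟩ := hd
    refine ⟨i + 1, ?_⟩
    simp only at hi ⊢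
    rw [Function.iterate_succ_apply', hi, h1]
  have hvx : ∀ i : ℕ, (nx w)^[i] c ∈ O ∧ vx ((nx w)^[i] c) = vx c := by
    intro i
    induction i with
    | zero => exact ⟨by rw [hc]; exact ⟨0, rfl⟩, rfl⟩
    | succ i ih =>
      have h1 : nx w ((nx w)^[i] c) = nxC ((nx w)^[i] c) := by
        unfold nx; rw [if_neg]; exact hex _ ih.1
      rw [Function.iterate_succ_apply', h1]
      exact ⟨hcl _ ih.1, by rw [Pool.Agent.H75.Perc.vx_nxC, ih.2]⟩
  have hOv : ∀ d ∈ O, vx d = vx c := by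
    intro d hd
    rw [hc] at hd
    obtain ⟨i, hi⟩ := hd
    rw [← hi]
    exact (hvx i).2
  have hcO : c ∈ O := by rw [hc]; exact ⟨0, rfl⟩
  refine ⟨c, Or.inr ?_, hc.symm⟩
  change vx c = v
  -- the ray
  set K : Set ℤ := {k : ℤ | k < 0 ∧ (2 * v.1 + k + 1, 2 * v.2 - k) ∈ O} with hK
  obtain ⟨k, hk0, hkO⟩ : K.Nonempty := by
    rw [Set.nonempty_iff_ne_empty]
    intro h
    rw [h, Set.ncard_empty] at hodd
    simp at hodd
  have hv1 : ∀ k : ℤ, (2 * v.1 + k + 1, 2 * v.2 - k) ∈ O →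
      (2 * v.1 + k + 1) / 2 = (vx c).1 ∧ (2 * v.2 - k) / 2 = (vx c).2 := by
    intro k hk
    have h1 := hOv _ hk
    unfold vx at h1 ⊢
    exact ⟨congrArg Prod.fst h1, congrArg Prod.snd h1⟩
  have hvk := hv1 k hkO
  by_cases ha : (vx c).1 = v.1
  · have : (vx c).2 = v.2 := by omega
    exact Prod.ext ha this
  exfalso
  -- both corners of the vertex are on the ray
  have hpart : ∀ k : ℤ, k < 0 → (2 * v.1 + k + 1, 2 * v.2 - k) ∈ O → (vx c).1 < v.1 := by
    intro k hk1 hk2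
    have := hv1 k hk2
    omega
  have hlt := hpart k hk0 hkO
  have hKe : K = {2 * ((vx c).1 - v.1) - 1, 2 * ((vx c).1 - v.1)} := by
    have step : ∀ d ∈ O, nxC (nxC d) ∈ O := fun d hd => hcl _ (hcl d hd)
    have hst := step _ hkO
    have e0 : nxC (nxC (2 * v.1 + k + 1, 2 * v.2 - k)) =
        if k % 2 = 0 then (2 * v.1 + (k - 1) + 1, 2 * v.2 - (k - 1)) else
          (2 * v.1 + (k + 1) + 1, 2 * v.2 - (k + 1)) := by
      split_ifs with hk2
      · have e1 : nxC (2 * v.1 + k + 1, 2 * v.2 - k) = (2 * v.1 + k + 1, 2 * v.2 - k + 1) := by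
          rcases nxC_cases (2 * v.1 + k + 1, 2 * v.2 - k) with h | h | h | h <;> simp only at h
          · omega
          · exact h.2.2
          · omega
          · omega
        rw [e1]
        rcases nxC_cases (2 * v.1 + k + 1, 2 * v.2 - k + 1) with h | h | h | h <;> simp only at h
        · omega
        · omega
        · omega
        · rw [h.2.2]
          refine Prod.ext ?_ ?_ <;> simp only <;> ring
      · have e1 : nxC (2 * v.1 + k + 1, 2 * v.2 - k) = (2 * v.1 + k + 1, 2 * v.2 - k - 1) := by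
          rcases nxC_cases (2 * v.1 + k + 1, 2 * v.2 - k) with h | h | h | h <;> simp only at h
          · omega
          · omega
          · exact h.2.2
          · omega
        rw [e1]
        rcases nxC_cases (2 * v.1 + k + 1, 2 * v.2 - k - 1) with h | h | h | h <;> simp only at h
        · rw [h.2.2]
          refine Prod.ext ?_ ?_ <;> simp only <;> ring
        · omega
        · omega
        · omega
    rw [e0] at hst
    ext m
    constructor
    · rintro ⟨hm0, hmO⟩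
      have := hv1 m hmO
      rw [Set.mem_insert_iff, Set.mem_singleton_iff]
      omega
    · intro hm
      rw [Set.mem_insert_iff, Set.mem_singleton_iff] at hm
      refine ⟨by omega, ?_⟩
      split_ifs at hst with hk2
      · have h4 := hvk.1
        rcases hm with hm | hm
        · have : m = k - 1 := by omega
          rw [this]; exact hst
        · have : m = k := by omega
          rw [this]; exact hkO
      · have h4 := hvk.1
        rcases hm with hm | hm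
        · have : m = k := by omega
          rw [this]; exact hkO
        · have : m = k + 1 := by omega
          rw [this]; exact hst
  have h2 : K.ncard = 2 := by
    rw [hKe]
    exact Set.ncard_pair (by omega)
  have h3 : Odd K.ncard := hodd
  rw [h2] at h3
  exact absurd h3 (by decide)

section

open Pool.Agent.Q1.M6b.Gd Pool.Agent.Q1.M6b.Gl
open Pool.Agent.Q1.M6b (dy mem_dy cells)
open Pool.Agent.H74.R45 Pool.Agent.H13.R45 Pool.Agent.H33.Q1

variable {w h j : ℤ} {N : ℕ} {B t : Finset (ℤ × ℤ)}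

lemma vM_eq (j : ℤ) (k : ℕ) : vM j k = vx (sm true (j - 1) ((k : ℤ) - (j - 1) + 1)) := by
  unfold vM
  rw [show 0 - (j - 1) + 1 + (k : ℤ) = (k : ℤ) - (j - 1) + 1 by ring]

/-- **The data of `g1_row` for the environment `XF`**, without the finiteness hypothesis. -/
theorem data_XF' (O : Out w h) (h0 : 0 ≤ j) (h1 : j ≤ h) (j2 : j % 2 = 0) (hN : (N : ℤ) = w)
    (g0 : 0 < j) (g1 : j < h) (hr : RootFar O) (hB : Sep B N 0 (j - 1)) (hB' : Sep B N 0 j)
    {b K K0 : ℤ} (hb : 6 ≤ b) (hK0 : 6 ≤ K0) (hya : w < K0 * (j + 1)) (hyb : w < K0 * (h - j + 1))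
    (hK : K0 * (4 * b + 8) + 1 ≤ K) {k : ℕ} (hk1 : 1 ≤ k) (hkN : k + 1 ≤ N) {y : Fin N × Dir}
    (hy : inc (rp 0 (j - 1)) y = true) {k0 : Fin N} (hyk : y = (k0, .W) ∨ y = (k0, .E))
    (hpos : Pool.Agent.Q1.M6b.Strand.pos y = k) {R0 : ℕ} (hR : 2 ≤ R0) (hR1 : (R0 : ℤ) ≤ j)
    (hR2 : (R0 : ℤ) ≤ h - j)
    {S m₁ m₂ : ℕ} {k₁ : Fin m₁ → ℕ × ℤ} {k₂ : Fin m₂ → ℕ × ℤ} (hk₁ : k₁ ∈ cells b K S m₁ k)
    (hk₂ : k₂ ∈ cells b K S m₂ (N - k)) {Lv : Fin m₁ ⊕ Fin m₂ → ℕ} {yv : Fin m₁ ⊕ Fin m₂ → ℤ}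
    (hL : Lv ∈ Lev (lv2 k₁ k₂)) (hyv : yv ∈ Num b (lv2 k₁ k₂) (nu2 k₁ k₂) Lv)
    {ω : Finset (ℤ × ℤ)} (hω : ω ⊆ gE (BL w j B) (BU w h j B) (1, -1))
    (hS : Stops b (lv2 k₁ k₂) (fun i => badB b (zz (fun i => sm true (j - 1)
      ((k : ℤ) - (j - 1) + 1 + i)) i) (gE (BL w j B) (BU w h j B) (1, -1))) Lv yv ω) :
    ∃ A hh, AmpData b (zz (fun i => sm true (j - 1) ((k : ℤ) - (j - 1) + 1 + i))) Lv yv ω
      (fun x ζ => Amp (XF O h0 h1 j2 N B t) 0 (j - 1) y (zt ^ (4 : ℤ)) (zt ^ (-4 : ℤ)) (BL w j B)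
        (BU w h j B) k (cols2 x) ζ) A hh ∧
      ‖A‖ ≤ 2 ^ ((Lp (ω ∪ WGl w h j (WF O h0 h1 j2 N B t) (BU w h j B))
          (vx (sm true (j - 1) ((k : ℤ) - (j - 1) + 1)))).ncard + 1) *
        gX O h0 h1 j2 N B t (m₁ + m₂) R0 ω := by
  rw [← vM_eq]
  exact data_XF O h0 h1 j2 hN g0 g1 hr hB hB' hb hK0 hya hyb hK hk1 hkN hy hyk hpos hR hR1 hR2 hk₁ hk₂
    hL hyv hω hS (Lp_finite _ _)

end

end Pool.Agent.H81.G1
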