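import Pool.Agent.H81.G1.Core
import Pool.Agent.H69.M6b.F1e
import Pool.Agent.H65.G1.TipsB

set_option autoImplicit false
set_option linter.unusedSectionVars false
open Finset

/-! # The amplitudes of the frozen environment `XF` (chapter B, the data for `g1_row`) -/

namespace Pool.Agent.H81.G1

open Pool.Agent.H75.Perc Pool.Agent.H75.TwoArm Pool.Agent.Q1 Pool.Agent.H30.Mid
open Pool.Agent.H69.M6b (lbt lbt_inj lbt_odd pr0 Lay3 lbt_diff zr AX hX ctz rad Ref Near sd amp_first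
  rad_in rad_sep zz_czz)
open Pool.Agent.Q1.M6b.Strand Pool.Agent.Q1.M6b.ExN Pool.Agent.Q1.M6b.PB Pool.Agent.Q1.M6b.Nest
open Pool.Agent.Q1.M6b.Gd
open Pool.Agent.Q1.M6b.Gl
open Pool.Agent.Q1.M6b (dy mem_dy cells)
open Pool.Agent.H34.Q1 Pool.Agent.H53.G1 Pool.Agent.H99.NC
open Pool.Agent.H74.R45 Pool.Agent.H13.R45 Pool.Agent.H33.Q1

/-- the outer boxes of all levels consist of random labels -/
lemma out_sub {E : Finset (ℤ × ℤ)} {z : ℤ → ℤ × ℤ} {K0 b K : ℤ} {N₁ N₂ S m₁ m₂ : ℕ} (hb : 4 ≤ b)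
    (h : RowGeo E z K0 N₁ N₂) (hK0 : 1 ≤ K0) (hK : K0 * (2 * b + 2) + 1 ≤ K)
    {k₁ : Fin m₁ → ℕ × ℤ} {k₂ : Fin m₂ → ℕ × ℤ} (hk₁ : k₁ ∈ cells b K S m₁ N₁)
    (hk₂ : k₂ ∈ cells b K S m₂ N₂) {Lv : Fin m₁ ⊕ Fin m₂ → ℕ} {yv : Fin m₁ ⊕ Fin m₂ → ℤ}
    (hL : Lv ∈ Lev (lv2 k₁ k₂)) (hyv : yv ∈ Num b (lv2 k₁ k₂) (nu2 k₁ k₂) Lv) {i : Fin m₁ ⊕ Fin m₂}
    (hi : Lv i ≠ 0) : OutB b (zz z i) (Lv i) (yv i) ⊆ E := by
  have h1 := mem_Lev.1 hL i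
  have h2 := mem_Num.1 hyv i
  have htop := h.top (b := b) (by omega) hK0 hK hk₁ hk₂ i (by omega)
  rw [mem_dy (by omega)] at h2
  rcases eq_or_lt_of_le h1 with h3 | h3
  · rw [h3, Nat.sub_self, pow_zero, Int.ediv_one] at h2
    rw [h3, h2]
    exact htop
  · have h4 := nest_B (b := b) (by omega) (h.zz_iso i) h3 (Nat.pos_of_ne_zero hi) (yv i)
    rw [h2] at h4
    exact h4.trans ((in_out_B hb _ _ _).trans htop)

variable {w h j : ℤ} {N : ℕ} {B t : Finset (ℤ × ℤ)}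

/-- the layers of `XF` -/
lemma lay3_XF (O : Out w h) (h0 : 0 ≤ j) (h1 : j ≤ h) (j2 : j % 2 = 0) (hN : (N : ℤ) = w)
    (g0 : 0 < j) (g1 : j < h) :
    Lay3 (XF O h0 h1 j2 N B t) N 0 (j - 1) (BL w j B) (BU w h j B) where
  row := hasRow_XF O h0 h1 j2 hN g0 g1
  eq := XF_sdiff O h0 h1 j2 hN g0 g1
  low e he := by
    obtain ⟨x, y, rfl⟩ := exists_lbt (odd_BL he)
    have := (mem_BL.1 he).1
    rw [lbt_diff]
    omega
  upp e he := by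
    obtain ⟨x, y, rfl⟩ := exists_lbt (odd_BU he)
    have := (mem_BU.1 he).1
    rw [lbt_diff]
    omega

/-- vertex of the mark in the glued plane -/
def vM (j : ℤ) (k : ℕ) : ℤ × ℤ := vx (sm true (j - 1) (0 - (j - 1) + 1 + (k : ℕ)))

/-- the factor `g` of `g1_row` for `XF` and `m` coupons -/
noncomputable def gX (O : Out w h) (h0 : 0 ≤ j) (h1 : j ≤ h) (j2 : j % 2 = 0) (N : ℕ)
    (B t : Finset (ℤ × ℤ)) (m R0 : ℕ) (ω : Finset (ℤ × ℤ)) : ℝ :=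
  gF (4 * m + 20) (m + 18) m (11 * m + 11) N (gE (BL w j B) (BU w h j B) (1, -1))
    (WGl w h j (WF O h0 h1 j2 N B t) (BU w h j B)) (WGl w h j (WF O h0 h1 j2 N B t) (BU w h j B))
    (HN (j - 1)) (HS (j - 1)) (sc 0 (j - 1)) (sc 0 (j - 1)) R0 R0 ω

lemma gX_nonneg (O : Out w h) (h0 : 0 ≤ j) (h1 : j ≤ h) (j2 : j % 2 = 0) (m R0 : ℕ)
    (ω : Finset (ℤ × ℤ)) : 0 ≤ gX O h0 h1 j2 N B t m R0 ω := gF_nonneg ..

/-- **The data of `g1_row` for the environment `XF`.** -/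
theorem data_XF (O : Out w h) (h0 : 0 ≤ j) (h1 : j ≤ h) (j2 : j % 2 = 0) (hN : (N : ℤ) = w)
    (g0 : 0 < j) (g1 : j < h) (hr : RootFar O) (hB : Sep B N 0 (j - 1)) (hB' : Sep B N 0 j)
    {b K K0 : ℤ} (hb : 6 ≤ b) (hK0 : 6 ≤ K0) (hya : w < K0 * (j + 1)) (hyb : w < K0 * (h - j + 1))
    (hK : K0 * (4 * b + 8) + 1 ≤ K) {k : ℕ} (hk1 : 1 ≤ k) (hkN : k + 1 ≤ N) {y : Fin N × Dir}
    (hy : inc (rp 0 (j - 1)) y = true) {k0 : Fin N} (hyk : y = (k0, .W) ∨ y = (k0, .E))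
    (hpos : pos y = k) {R0 : ℕ} (hR : 2 ≤ R0) (hR1 : (R0 : ℤ) ≤ j) (hR2 : (R0 : ℤ) ≤ h - j)
    {S m₁ m₂ : ℕ} {k₁ : Fin m₁ → ℕ × ℤ} {k₂ : Fin m₂ → ℕ × ℤ} (hk₁ : k₁ ∈ cells b K S m₁ k)
    (hk₂ : k₂ ∈ cells b K S m₂ (N - k)) {Lv : Fin m₁ ⊕ Fin m₂ → ℕ} {yv : Fin m₁ ⊕ Fin m₂ → ℤ}
    (hL : Lv ∈ Lev (lv2 k₁ k₂)) (hyv : yv ∈ Num b (lv2 k₁ k₂) (nu2 k₁ k₂) Lv)
    {ω : Finset (ℤ × ℤ)} (hω : ω ⊆ gE (BL w j B) (BU w h j B) (1, -1))
    (hS : Stops b (lv2 k₁ k₂) (fun i => badB b (zz (fun i => sm true (j - 1)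
      ((k : ℤ) - (j - 1) + 1 + i)) i) (gE (BL w j B) (BU w h j B) (1, -1))) Lv yv ω)
    (hfin : (Lp (ω ∪ WGl w h j (WF O h0 h1 j2 N B t) (BU w h j B)) (vM j k)).Finite) :
    ∃ A hh, AmpData b (zz (fun i => sm true (j - 1) ((k : ℤ) - (j - 1) + 1 + i))) Lv yv ω
      (fun x ζ => Amp (XF O h0 h1 j2 N B t) 0 (j - 1) y (zt ^ (4 : ℤ)) (zt ^ (-4 : ℤ)) (BL w j B)
        (BU w h j B) k (cols2 x) ζ) A hh ∧
      ‖A‖ ≤ 2 ^ ((Lp (ω ∪ WGl w h j (WF O h0 h1 j2 N B t) (BU w h j B)) (vM j k)).ncard + 1) *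
        gX O h0 h1 j2 N B t (m₁ + m₂) R0 ω := by
  classical
  unfold gX
  have L3 := lay3_XF (B := B) (t := t) O h0 h1 j2 hN g0 g1
  have hgeo := rowGeo_XF (B := B) hN hk1 hkN hK0 hya hyb hB hB'
  have ez : (fun i : ℤ => sm true (j - 1) ((k : ℤ) - (j - 1) + 1 + i)) = zr 0 (j - 1) k := by
    funext i
    unfold zr
    rw [zero_add]
  rw [ez] at hgeo hS ⊢
  have hb4 : 4 ≤ b := by omega
  have hKb : K0 * (2 * b + 2) + 1 ≤ K := by nlinarith only [hK, hb4, hK0]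
  have hKc : 4 * b + 9 ≤ K := by nlinarith only [hK, hb4, hK0]
  have hoE : ∀ i, Lv i ≠ 0 → OutB b (zz (zr 0 (j - 1) k) i) (Lv i) (yv i) ⊆
      gE (BL w j B) (BU w h j B) (1, -1) := fun i hi =>
    out_sub hb4 hgeo (by omega) hKb hk₁ hk₂ hL hyv hi
  have uniq : ∀ i, Lv i ≠ 0 → ∀ a a', FarIn (InB b (zz (zr 0 (j - 1) k) i) (Lv i) (yv i))
      (OutB b (zz (zr 0 (j - 1) k) i) (Lv i) (yv i)) ω a →
      FarIn (InB b (zz (zr 0 (j - 1) k) i) (Lv i) (yv i))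
      (OutB b (zz (zr 0 (j - 1) k) i) (Lv i) (yv i)) ω a' → a = a' := by
    intro i hi a a' ha ha'
    have h2 := (hS i).1
    refine Pool.Agent.H65.G1.far_unique_box hb (hoE i hi) ?_ ha ha'
    rcases h2 with h2 | h2
    · exact absurd h2 hi
    · exact h2
  have hyk' : (y.1 : ℕ) = k ∨ (y.1 : ℕ) + 1 = k := by
    rcases hyk with e1 | e1
    · left; rw [← hpos, e1]; rfl
    · right; rw [← hpos, e1]; rfl
  obtain ⟨A, hA, hA2⟩ := amp_first L3 hb4 (by omega) hK (by omega) hgeo hy hyk' hk₁ hk₂ hL hyv uniq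
  refine ⟨A, _, hA, ?_⟩
  have hg1 : (1 : ℝ) ≤ 2 ^ ((Lp (ω ∪ WGl w h j (WF O h0 h1 j2 N B t) (BU w h j B)) (vM j k)).ncard + 1) *
        gF (4 * (m₁ + m₂) + 20) ((m₁ + m₂) + 18) (m₁ + m₂) (11 * (m₁ + m₂) + 11) N
          (gE (BL w j B) (BU w h j B) (1, -1)) (WGl w h j (WF O h0 h1 j2 N B t) (BU w h j B))
          (WGl w h j (WF O h0 h1 j2 N B t) (BU w h j B)) (HN (j - 1)) (HS (j - 1)) (sc 0 (j - 1))
          (sc 0 (j - 1)) R0 R0 ω := by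
    unfold gF
    refine one_le_mul_of_one_le_of_one_le (one_le_pow₀ (by norm_num))
      (one_le_mul_of_one_le_of_one_le (one_le_pow₀ (by norm_num)) (one_le_pow₀ ?_))
    exact le_add_of_nonneg_right (Nat.cast_nonneg _)
  rcases hA2 with hA2 | ⟨η0, hη0, x1, e, hm, hne, hAn, hRef, hCon⟩
  · exact hA2.trans hg1
  let V := univ.biUnion (Wi b (zz (zr 0 (j - 1) k)) Lv yv)
  have hV : V = univ.biUnion (Wi b (zz (zr 0 (j - 1) k)) Lv yv) := rfl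
  let z' := ω \ V ∪ η0
  have hz' : z' = ω \ V ∪ η0 := rfl
  -- the boxes
  let In : Fin m₁ ⊕ Fin m₂ → Finset (ℤ × ℤ) := Wi b (zz (zr 0 (j - 1) k)) Lv yv
  have hIn : In = Wi b (zz (zr 0 (j - 1) k)) Lv yv := rfl
  set Out : Fin m₁ ⊕ Fin m₂ → Finset (ℤ × ℤ) := fun i =>
    if Lv i = 0 then ∅ else OutB b (zz (zr 0 (j - 1) k) i) (Lv i) (yv i) with hOut
  have eIn : ∀ i, Lv i ≠ 0 → In i = InB b (zz (zr 0 (j - 1) k) i) (Lv i) (yv i) := by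
    intro i hi
    rw [hIn]; unfold Wi; rw [if_neg hi]
  have eOut : ∀ i, Lv i ≠ 0 → Out i = OutB b (zz (zr 0 (j - 1) k) i) (Lv i) (yv i) := by
    intro i hi
    rw [hOut]; simp only; rw [if_neg hi]
  have hsub : ∀ i, In i ⊆ Out i := by
    intro i
    by_cases hi : Lv i = 0
    · rw [hIn]; unfold Wi; rw [if_pos hi]; exact empty_subset _
    · rw [eIn i hi, eOut i hi]; exact in_out_B hb4 _ _ _
  have hOE : ∀ i, Out i ⊆ gE (BL w j B) (BU w h j B) (1, -1) := by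
    intro i
    by_cases hi : Lv i = 0
    · rw [hOut]; simp only; rw [if_pos hi]; exact empty_subset _
    · rw [eOut i hi]; exact hoE i hi
  have hz'E : z' ⊆ gE (BL w j B) (BU w h j B) (1, -1) := by
    intro q hq
    rw [hz', mem_union, mem_sdiff] at hq
    rcases hq with hq | hq
    · exact hω hq.1
    · have h2 : q ∈ V := hη0 hq
      rw [hV, mem_biUnion] at h2
      obtain ⟨i, -, h3⟩ := h2
      exact hOE i (hsub i h3)
  have hag : ∀ q, (∀ i, q ∉ In i) → (q ∈ z' ↔ q ∈ ω) := by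
    intro q hq
    have hqV : q ∉ V := by
      rw [hV, mem_biUnion]
      rintro ⟨i, -, h3⟩
      exact hq i h3
    rw [hz', mem_union, mem_sdiff]
    constructor
    · rintro (h3 | h3)
      · exact h3.1
      · exact absurd (hη0 h3) hqV
    · exact fun h3 => Or.inl ⟨h3, hqV⟩
  -- positions
  have hzr : ∀ i, zz (zr 0 (j - 1) k) i (b ^ Lv i * yv i) =
      sm true (j - 1) (0 - (j - 1) + 1 + ctz k b Lv yv i) := by
    intro i
    rw [zz_czz]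
    change sm true (j - 1) (0 + (k : ℤ) - (j - 1) + 1 + Pool.Agent.H69.M6b.czz i (b ^ Lv i * yv i)) =
      sm true (j - 1) (0 - (j - 1) + 1 + ((k : ℤ) + Pool.Agent.H69.M6b.czz i (b ^ Lv i * yv i)))
    rw [show 0 + (k : ℤ) - (j - 1) + 1 + Pool.Agent.H69.M6b.czz i (b ^ Lv i * yv i) =
      0 - (j - 1) + 1 + ((k : ℤ) + Pool.Agent.H69.M6b.czz i (b ^ Lv i * yv i)) by ring]
  have hsm1 : ∀ a : ℤ, (sm true (j - 1) a).1 = a := by
    intro a; unfold sm; simp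
  have hI1 : ∀ i, Lv i ≠ 0 → ∀ q ∈ In i, |q.1 - (0 - (j - 1) + 1 + ctz k b Lv yv i)| ≤
      8 * b ^ Lv i + 1 ∧ (q.1 + q.2) % 2 = 1 := by
    intro i hi q hq
    rw [eIn i hi] at hq
    unfold InB at hq
    obtain ⟨h3, h4⟩ := box_near hq
    have h5 := h3.1
    rw [hzr, hsm1] at h5
    exact ⟨by linarith, h4⟩
  have hO1 : ∀ i, Lv i ≠ 0 → ∀ q ∈ Out i, |q.1 - (0 - (j - 1) + 1 + ctz k b Lv yv i)| ≤
      Rw b (Lv i) := by
    intro i hi q hq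
    rw [eOut i hi] at hq
    unfold OutB at hq
    obtain ⟨h3, h4⟩ := box_near hq
    have h5 := h3.1
    rw [hzr, hsm1] at h5
    rw [Rw_pos hi]
    exact h5
  have hrw : ∀ i, rad b Lv i = Rw b (Lv i) := fun i => rfl
  -- the windows
  have hWnd : Wnd N k b Lv (ctz k b Lv yv) x1 := by
    have hin1 : ∀ i, Lv i ≠ 0 → _ := fun i hi =>
      rad_in (yc := ⟨k, by omega⟩) hb4 (by omega) hK (by omega) hgeo hk₁ hk₂ hL hyv (Or.inl rfl) (i := i) hi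
    have hin2 : ∀ i, Lv i ≠ 0 → _ := fun i hi =>
      rad_in (yc := ⟨k - 1, by omega⟩) hb4 (by omega) hK (by omega) hgeo hk₁ hk₂ hL hyv
        (Or.inr (by simp only; omega)) (i := i) hi
    refine ⟨fun i => hRef.bd i, ?_, ?_, ?_, ?_⟩
    · intro i
      by_cases hi : Lv i = 0
      · rw [hi, Rw_zero, ← hRef.pt i hi]
        simp
      · have h3 := (hin1 i hi).1
        rw [hrw] at h3
        omega
    · intro i
      by_cases hi : Lv i = 0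
      · rw [hi, Rw_zero, ← hRef.pt i hi]
        have := (x1 i).2
        omega
      · have h3 := (hin1 i hi).2.1
        rw [hrw] at h3
        omega
    · intro i i' hii
      have h3 := rad_sep (k := k) hb4 hKc hk₁ hk₂ hL hyv hii
      rw [hrw, hrw] at h3
      rw [abs_sub_comm]
      exact h3
    · intro i hi
      have h3 := (hin1 i hi).2.2
      have h4 := (hin2 i hi).2.2
      have h5 := Rw_nonneg (b := b) (by omega) (Lv i)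
      rw [hrw] at h3 h4
      simp only at h3 h4
      rw [lt_abs] at h3 h4
      rcases h3 with h3 | h3 <;> rcases h4 with h4 | h4 <;> omega
  -- the frame
  obtain ⟨F, f1, f2, f3⟩ := frame_R45 (lay_XF O h0 h1 j2 (B := B) (t := t)
    (ω := ug (BL w j B) (BU w h j B) (1, -1) z') hN) (by have := O.w2; omega) O.h2 j2 h0 h1
  have hroot : ¬ F.In (plab (XF O h0 h1 j2 N B t).c0) := by
    intro hI
    obtain ⟨x, y, e1⟩ := exists_lbt (odd_plab' O.c0)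
    have hI' : F.In (plab O.c0) := hI
    rw [e1] at hI'
    have := f3 x y hI'
    exact hr x y e1 (by omega)
  have hGL : GLab F (z' ∪ WGl w h j (WF O h0 h1 j2 N B t) (BU w h j B)) :=
    glab_XF O h0 h1 j2 hN g0 g1 hz'E F (fun x y hI => by have := f3 x y hI; omega)
  have ho := outL_XF O h0 h1 j2 (N := N) (B := B) (t := t)
    (ω := ug (BL w j B) (BU w h j B) (1, -1) z')
  have hW2 := net_wired (rtiles L3.row _) hm hy hne
  have hRM := frame_rm F hW2 ho (frz_E L3.row _)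
  have near : ∀ i, Lv i ≠ 0 → ∃ S : Finset (Fin N), S.card ≤ 2 ∧ ∀ c : Fin N,
      |((c : ℕ) : ℤ) - ctz k b Lv yv i| ≤ 8 * b ^ Lv i - 2 → c ∉ S → ∀ c',
      (if e i then opt F.EU F.U else opt F.ED F.D) c = some c' →
      |((c' : ℕ) : ℤ) - ctz k b Lv yv i| ≤ Rw b (Lv i) ∧ ¬ (c < x1 i ∧ x1 i < c') ∧
        ¬ (c' < x1 i ∧ x1 i < c) := by
    intro i hi
    obtain ⟨S', hS', hS2⟩ := hRef.near i hi
    refine ⟨S', hS', ?_⟩
    intro c hc hcS c' hc'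
    obtain ⟨c2, h3, h4, h5, h6⟩ := hS2 c hc hcS
    have h7 : (net (rtiles L3.row _) hm y).π (c, sd (e i)) = (c', sd (e i)) := by
      cases hei : e i
      · rw [hei] at hc'
        exact (hRM.dn c c' hc').1
      · rw [hei] at hc'
        exact (hRM.up c c' hc').1
    rw [h3] at h7
    have h8 : c2 = c' := (Prod.mk.inj h7).1
    rw [← h8]
    exact ⟨h4, h5, h6⟩
  have key := ar_core (x0 := 0) (y0 := j - 1) L3.row ho F f1 f2 hroot hy hyk hpos hb4 hWnd near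
    (disj_WGl O h0 h1 j2 hN g0 g1) hGL hsub hOE
    (fun i hi => by rw [hOut]; simp only; rw [if_pos hi]) hI1 hO1 hag
    (fun i hi z hz => by
      rw [eIn i hi, eOut i hi] at hz
      rcases hCon i hi z hz with ⟨n, h3, h4⟩ | ⟨n, h3, h4⟩
      · exact ⟨n, Or.inl ⟨h4, h3⟩⟩
      · exact ⟨n, Or.inr ⟨h4, h3⟩⟩)
    (Sw := Sw N (j - 1)) (card_Sw _) hR
    (fun Sp hSp G hG c M hM1 hM => one_XF O h0 h1 j2 hN g0 g1 hB hB' hSp hR1 hR2 hG c hM1 hM)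
    hfin
  rw [Fintype.card_sum, Fintype.card_fin, Fintype.card_fin] at key
  refine le_trans (le_of_eq ?_) key
  rw [hAn, AR_net L3.row hy hm hne, norm_mul, zt_norm_zpow, one_mul]

lemma sc_slope (N : ℕ) (x0 y0 : ℤ) (c c' : Fin N) :
    |(sc x0 y0 c).2 - (sc x0 y0 c').2| ≤ |(sc x0 y0 c).1 - (sc x0 y0 c').1| + (0 : ℕ) := by
  unfold sc sm
  simp only [if_true]
  rw [show x0 - y0 + 1 + ((c : ℕ) : ℤ) + 2 * y0 - (x0 - y0 + 1 + ((c' : ℕ) : ℤ) + 2 * y0) =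
    x0 - y0 + 1 + ((c : ℕ) : ℤ) - (x0 - y0 + 1 + ((c' : ℕ) : ℤ)) by ring]
  simp

/-- **The moment of `g` for `XF`.** -/
theorem gX_root (m A : ℕ) (ε : ℝ) (hε : 0 < ε) : ∃ C : ℝ, 1 ≤ C ∧
    ∀ (N : ℕ) (w h j : ℤ) (O : Out w h) (h0 : 0 ≤ j) (h1 : j ≤ h) (j2 : j % 2 = 0)
      (B t : Finset (ℤ × ℤ)) (R0 : ℕ) (R : ℝ), 2 ≤ R0 → (R0 : ℝ) ≤ R → N ≤ A * R0 →
    (Ex (cp (1 / 2)) (gE (BL w j B) (BU w h j B) (1, -1))
      (fun ω => gX O h0 h1 j2 N B t m R0 ω ^ 10)) ^ (1 / 10 : ℝ) ≤ C * R ^ ε := by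
  obtain ⟨C, hC, hg⟩ := gF_root (4 * m + 20) (m + 18) m (11 * m + 11) A 0 ε hε
  refine ⟨C, hC, ?_⟩
  intro N w h j O h0 h1 j2 B t R0 R h2 hR hN
  exact hg N _ _ _ _ _ _ _ R0 R0 R (fun e he => gE_odd he) (sc_slope N 0 (j - 1)) (sc_slope N 0 (j - 1))
    h2 h2 hR hR hN hN

end Pool.Agent.H81.G1
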