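import Pool.Agent.H81.G1.Near

set_option autoImplicit false
set_option linter.unusedSectionVars false
open Finset

/-! # Half rectangles next to the seam -/

namespace Pool.Agent.H81.G1

open Pool.Agent.H75.Perc Pool.Agent.H75.TwoArm Pool.Agent.Q1 Pool.Agent.H30.Mid
open Pool.Agent.H69.M6b (lbt lbt_inj lbt_odd pr0 PR Pn TD se Kp Bx' tt)
open Pool.Agent.Q1.M6b.Gd (sm)
open Pool.Agent.H74.R45 (he ve)

/-! ### Ends of the tiles of the plane -/

lemma uc_UW (z : (ℤ × ℤ) × Dir) : uc (UW z) = uc z := by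
  obtain ⟨⟨x, y⟩, d⟩ := z
  cases d
  · show uc ((x - 1, y), .E) = uc ((x, y), .W)
    rw [uc_E, uc_W, sub_add_cancel]
  · show uc ((x, y + 1), .S) = uc ((x, y), .N)
    rw [uc_S, uc_N]
  · show uc ((x + 1, y), .W) = uc ((x, y), .E)
    rw [uc_W, uc_E]
  · show uc ((x, y - 1), .N) = uc ((x, y), .S)
    rw [uc_S, uc_N, sub_add_cancel]

lemma lab_uc (L : Finset (ℤ × ℤ)) {z : (ℤ × ℤ) × Dir} (hz : ui z = true) :
    lab (uc z) = lbt z.1.1 z.1.2 := (ustep L hz).2.2.1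

lemma plab_uc (L : Finset (ℤ × ℤ)) {z : (ℤ × ℤ) × Dir} (hz : ui z = false) :
    plab (uc z) = lbt z.1.1 z.1.2 := by
  have h1 : ui (z.1, Dir.mate (us L z.1) z.2) = true := by rw [ui_mate, hz]; rfl
  obtain ⟨h2, -, h3, -⟩ := ustep L h1
  have e : uf L (z.1, Dir.mate (us L z.1) z.2) = UW z := by
    unfold uf
    simp only
    congr 1
    refine Prod.ext rfl ?_
    simp only
    cases us L z.1 <;> cases z.2 <;> rfl
  rw [e, uc_UW] at h2
  rw [h2, plab_nx, h3]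

variable {N : ℕ} {x0 y0 : ℤ} {l r H : ℕ} {w : Finset (ℤ × ℤ)}

/-- labels of the half rectangle above the seam -/
def Bup (x0 y0 : ℤ) (l r H : ℕ) : Set (ℤ × ℤ) :=
  {e | ∃ x y : ℤ, e = lbt x y ∧ x0 + l ≤ x ∧ x ≤ x0 + r ∧ y0 ≤ y ∧ y < y0 + H}

/-- labels of the half rectangle below the seam -/
def Bdn (x0 y0 : ℤ) (l r H : ℕ) : Set (ℤ × ℤ) :=
  {e | ∃ x y : ℤ, e = lbt x y ∧ x0 + l ≤ x ∧ x ≤ x0 + r ∧ y0 - H ≤ y ∧ y < y0}

/-- labels of the rectangle around the seam -/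
def Bal (x0 y0 : ℤ) (l r H : ℕ) : Set (ℤ × ℤ) :=
  {e | ∃ x y : ℤ, e = lbt x y ∧ x0 + l ≤ x ∧ x ≤ x0 + r ∧ y0 - H ≤ y ∧ y < y0 + H}

lemma mem_Bup {x y : ℤ} : lbt x y ∈ Bup x0 y0 l r H ↔ x0 + l ≤ x ∧ x ≤ x0 + r ∧ y0 ≤ y ∧ y < y0 + H := by
  constructor
  · rintro ⟨x', y', e, h⟩
    obtain ⟨rfl, rfl⟩ := lbt_inj e
    exact h
  · exact fun h => ⟨x, y, rfl, h⟩

lemma mem_Bdn {x y : ℤ} : lbt x y ∈ Bdn x0 y0 l r H ↔ x0 + l ≤ x ∧ x ≤ x0 + r ∧ y0 - H ≤ y ∧ y < y0 := by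
  constructor
  · rintro ⟨x', y', e, h⟩
    obtain ⟨rfl, rfl⟩ := lbt_inj e
    exact h
  · exact fun h => ⟨x, y, rfl, h⟩

lemma mem_Bal {x y : ℤ} :
    lbt x y ∈ Bal x0 y0 l r H ↔ x0 + l ≤ x ∧ x ≤ x0 + r ∧ y0 - H ≤ y ∧ y < y0 + H := by
  constructor
  · rintro ⟨x', y', e, h⟩
    obtain ⟨rfl, rfl⟩ := lbt_inj e
    exact h
  · exact fun h => ⟨x, y, rfl, h⟩

/-- the seam corner of the column `c` -/
def sc (x0 y0 : ℤ) (c : Fin N) : ℤ × ℤ := sm true y0 (x0 - y0 + 1 + (c : ℕ))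

lemma sc_he (c : Fin N) : sc x0 y0 c = he (x0 + (c : ℕ), y0) := by
  unfold sc sm he
  simp only [if_true, Prod.mk.injEq]
  constructor <;> ring

lemma sc_inj : Function.Injective (sc (N := N) x0 y0) := by
  intro c c' h
  unfold sc sm at h
  simp only [if_true, Prod.mk.injEq] at h
  exact Fin.ext (by omega)

/-- labels at the seam -/
lemma lab_sc (c : Fin N) :
    (rp x0 y0 c = false → lab (sc x0 y0 c) = lbt (x0 + (c : ℕ)) y0 ∧
      plab (sc x0 y0 c) = lbt (x0 + (c : ℕ)) (y0 - 1)) ∧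
    (rp x0 y0 c = true → plab (sc x0 y0 c) = lbt (x0 + (c : ℕ)) y0 ∧
      lab (sc x0 y0 c) = lbt (x0 + (c : ℕ)) (y0 - 1)) := by
  rw [sc_he]
  constructor
  · intro h
    have h1 := (rp_false c).1 h
    have z1 : ui ((x0 + (c : ℕ), y0), Dir.S) = true := by
      have h2 : pr0 (lbt (x0 + (c : ℕ)) y0) = false := pr0_lbt_false.2 (by omega)
      unfold ui; simp only [h2, Dir.v]; rfl
    have z2 : ui ((x0 + (c : ℕ), y0 - 1), Dir.N) = false := by
      have h2 : pr0 (lbt (x0 + (c : ℕ)) (y0 - 1)) = true := pr0_lbt_true.2 (by omega)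
      unfold ui; simp only [h2, Dir.v]; rfl
    have e1 := lab_uc ∅ z1
    have e2 := plab_uc ∅ z2
    rw [uc_S] at e1
    rw [uc_N, sub_add_cancel] at e2
    exact ⟨e1, e2⟩
  · intro h
    have h1 := (rp_true c).1 h
    have z1 : ui ((x0 + (c : ℕ), y0), Dir.S) = false := by
      have h2 : pr0 (lbt (x0 + (c : ℕ)) y0) = true := pr0_lbt_true.2 (by omega)
      unfold ui; simp only [h2, Dir.v]; rfl
    have z2 : ui ((x0 + (c : ℕ), y0 - 1), Dir.N) = true := by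
      have h2 : pr0 (lbt (x0 + (c : ℕ)) (y0 - 1)) = false := pr0_lbt_false.2 (by omega)
      unfold ui; simp only [h2, Dir.v]; rfl
    have e1 := plab_uc ∅ z1
    have e2 := lab_uc ∅ z2
    rw [uc_S] at e1
    rw [uc_N, sub_add_cancel] at e2
    exact ⟨e1, e2⟩

lemma sc_lab_mem (c : Fin N) (h1 : l ≤ (c : ℕ)) (h2 : (c : ℕ) ≤ r) (hH : 0 < H) :
    lab (sc x0 y0 c) ∈ Bal x0 y0 l r H ∧ plab (sc x0 y0 c) ∈ Bal x0 y0 l r H := by
  cases h : rp x0 y0 c
  · rw [((lab_sc c).1 h).1, ((lab_sc c).1 h).2, mem_Bal, mem_Bal]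
    omega
  · rw [((lab_sc c).2 h).1, ((lab_sc c).2 h).2, mem_Bal, mem_Bal]
    omega

/-! ### Columns of the window -/

/-- column of the row of a column of the window -/
def cb (hr : r < N) (d : Fin (r - l + 1)) (hlr : l ≤ r) : Fin N :=
  ⟨l + (d : ℕ), by have := d.2; omega⟩

lemma cb_val (hr : r < N) (hlr : l ≤ r) (d : Fin (r - l + 1)) : ((cb hr d hlr : Fin N) : ℕ) = l + d := rfl

lemma exists_cb (hr : r < N) (hlr : l ≤ r) {c : Fin N} (h1 : l ≤ (c : ℕ)) (h2 : (c : ℕ) ≤ r) :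
    ∃ d : Fin (r - l + 1), c = cb hr d hlr :=
  ⟨⟨(c : ℕ) - l, by omega⟩, Fin.ext (by rw [cb_val]; simp only; omega)⟩

lemma cb_inj (hr : r < N) (hlr : l ≤ r) {d d' : Fin (r - l + 1)} (h : cb hr d hlr = cb hr d' hlr) :
    d = d' := by
  have := congrArg Fin.val h
  rw [cb_val, cb_val] at this
  exact Fin.ext (by omega)

open Classical in
/-- exceptional columns -/
noncomputable def exW (hr : r < N) (hlr : l ≤ r) (E : Finset (Fin (r - l + 1))) : Finset (Fin N) :=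
  univ.filter fun c => ∃ d ∈ E, c = cb hr d hlr

lemma mem_exW {hr : r < N} {hlr : l ≤ r} {E : Finset (Fin (r - l + 1))} {d : Fin (r - l + 1)} :
    cb hr d hlr ∈ exW hr hlr E ↔ d ∈ E := by
  classical
  unfold exW
  rw [mem_filter]
  constructor
  · rintro ⟨-, d', h1, h2⟩
    rw [cb_inj hr hlr h2]; exact h1
  · exact fun h => ⟨mem_univ _, d, h, rfl⟩

/-- partner -/
def vW (hr : r < N) (hlr : l ≤ r) (f : Fin (r - l + 1) → Fin (r - l + 1)) (c : Fin N) : Fin N :=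
  if h : l ≤ (c : ℕ) ∧ (c : ℕ) ≤ r then cb hr (f ⟨(c : ℕ) - l, by omega⟩) hlr else c

lemma vW_cb (hr : r < N) (hlr : l ≤ r) (f : Fin (r - l + 1) → Fin (r - l + 1)) (d : Fin (r - l + 1)) :
    vW hr hlr f (cb hr d hlr) = cb hr (f d) hlr := by
  have hd := d.2
  unfold vW
  rw [dif_pos (by rw [cb_val]; omega)]
  congr 2
  exact Fin.ext (by simp only [cb_val]; omega)

/-! ### Above the seam -/

lemma out_up (hlr : l ≤ r) (hH : 0 < H) {m : ℕ} (hm : m < 2 * (H + (r - l + 1)))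
    (hne : ∀ d : Fin (r - l + 1), m ≠ prt true (H + 0) d) :
    lbt (UW (se (TT (x0 + l) y0) (r - l + 1) H m)).1.1 (UW (se (TT (x0 + l) y0) (r - l + 1) H m)).1.2 ∉
      Bal x0 y0 l r H := by
  unfold se TT
  split_ifs with h1 h2 h3
  · unfold UW
    simp only
    rw [mem_Bal]; push_cast; omega
  · exfalso
    apply hne ⟨m - H, by omega⟩
    show m = H + 0 + (m - H)
    omega
  · unfold UW
    simp only
    rw [mem_Bal]; push_cast; omega
  · unfold UW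
    simp only
    rw [mem_Bal]; push_cast; omega

/-- **The half rectangle above the seam.** -/
theorem halfU (w : Finset (ℤ × ℤ)) (x0 y0 : ℤ) (hlr : l ≤ r) (hr : r < N) (hH : 0 < H) :
    ∃ (Ex : Finset (Fin N)) (V : Fin N → Fin N), HalfR w (sc x0 y0) (HN y0) (Bup x0 y0 l r H)
      (Bal x0 y0 l r H) (fun c : Fin N => !rp x0 y0 c) l r Ex V := by
  obtain ⟨M, hM⟩ := rectTD w (x0 + l) y0 (w := r - l + 1) (h := H) (by omega) hH
  have e1 : (x0 + l : ℤ) - ((0 : ℕ) : ℤ) = x0 + l := by simp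
  have e2 : (y0 - 1 + 1 : ℤ) = y0 := by ring
  have hT : TD (uf w) (ud w) (Bx' (TT ((x0 + l : ℤ) - ((0 : ℕ) : ℤ)) (y0 - 1 + 1)) (r - l + 1) 0 H)
      (H + (r - l + 1)) (se (TT ((x0 + l : ℤ) - ((0 : ℕ) : ℤ)) (y0 - 1 + 1)) (r - l + 1) H)
      (fun k => UW (se (TT ((x0 + l : ℤ) - ((0 : ℕ) : ℤ)) (y0 - 1 + 1)) (r - l + 1) H k))
      (Kp (r - l + 1) H) M := by
    rw [e1, e2]; exact hM
  have how : 0 + (r - l + 1) ≤ r - l + 1 := by omega
  set E := exc (r - l + 1) M true (H + 0) with hE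
  set f := mt (r - l + 1) M true (H + 0) with hf
  have hS : Side E f := sideU how hT
  -- corners and orientations
  have cr : ∀ d : Fin (r - l + 1), rcr (x0 + l) (y0 - 1) (d, .N) = sc x0 y0 (cb hr d hlr) := by
    intro d
    rw [rcr_N, sc_he, cb_val, e2]
    push_cast
    congr 1
    refine Prod.ext ?_ rfl
    simp only; ring
  have or' : ∀ d : Fin (r - l + 1), rp (x0 + l) (y0 - 1) d = !rp x0 y0 (cb hr d hlr) := by
    intro d
    cases h : rp x0 y0 (cb hr d hlr)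
    · have h1 := (rp_false _).1 h
      rw [cb_val] at h1
      refine (rp_true d).2 ?_
      push_cast at h1 ⊢; omega
    · have h1 := (rp_true _).1 h
      rw [cb_val] at h1
      refine (rp_false d).2 ?_
      push_cast at h1 ⊢; omega
  have hse : ∀ d : Fin (r - l + 1), se (TT (x0 + l) y0) (r - l + 1) H (prt true (H + 0) d) =
      ((x0 + l + (d : ℕ), y0), .S) := by
    intro d
    have := se_up (x0 := x0 + l) (y0 := y0 - 1) (o := 0) (w := r - l + 1) (h := H) d how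
    rwa [e1, e2] at this
  have hk : ∀ d : Fin (r - l + 1), prt true (H + 0) d < 2 * (H + (r - l + 1)) := by
    intro d
    have hd := d.2
    show H + 0 + (d : ℕ) < _
    omega
  have hui : ∀ d : Fin (r - l + 1), ui ((x0 + l + (d : ℕ), y0), Dir.S) = !rp x0 y0 (cb hr d hlr) := by
    intro d
    cases h : rp x0 y0 (cb hr d hlr)
    · have h1 := (rp_false _).1 h
      rw [cb_val] at h1
      have h2 : pr0 (lbt (x0 + l + (d : ℕ)) y0) = false := pr0_lbt_false.2 (by push_cast at h1; omega)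
      unfold ui; simp only [h2, Dir.v]; rfl
    · have h1 := (rp_true _).1 h
      rw [cb_val] at h1
      have h2 : pr0 (lbt (x0 + l + (d : ℕ)) y0) = true := pr0_lbt_true.2 (by push_cast at h1; omega)
      unfold ui; simp only [h2, Dir.v]; rfl
  have huc : ∀ d : Fin (r - l + 1), uc ((x0 + l + (d : ℕ), y0), Dir.S) = sc x0 y0 (cb hr d hlr) := by
    intro d
    rw [uc_S, sc_he, cb_val]
    push_cast
    congr 1
    refine Prod.ext ?_ rfl
    simp only; ring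
  have hlabR : ∀ {n : ℕ} {z : (ℤ × ℤ) × Dir},
      (∀ i < n, ∃ u, (u, (((uf w)^[i] z).2)) ∈ Bx' (TT (x0 + l) y0) (r - l + 1) 0 H ∧
        lab ((nx w)^[i] (uc z)) = lbt u.1 u.2) → ∀ t < n, lab ((nx w)^[t] (uc z)) ∈ Bup x0 y0 l r H := by
    intro n z h t ht
    obtain ⟨u, hu, hl⟩ := h t ht
    obtain ⟨i', hi', j', -, hj', e⟩ := hu
    simp only at e
    rw [hl, e]
    unfold TT
    simp only
    rw [mem_Bup]
    omega
  refine ⟨exW hr hlr E, vW hr hlr f, ?_⟩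
  constructor
  · rintro _ ⟨x, y, rfl, h⟩
    unfold HN lbt
    simp only [Set.mem_ofPred_eq]
    omega
  · rintro _ ⟨x, y, rfl, h⟩
    rw [mem_Bal]; omega
  · -- rg
    intro c h1 h2 hc
    obtain ⟨d, rfl⟩ := exists_cb hr hlr h1 h2
    rw [mem_exW] at hc
    rw [vW_cb, vW_cb, hS.inv d hc, mem_exW, cb_val]
    have hfd := (f d).2
    refine ⟨by omega, hS.mem d hc, rfl, ?_⟩
    have o1 := or' d
    have o2 := or' (f d)
    cases hp : rp (x0 + l) (y0 - 1) d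
    · have h3 := up_par how hT hc hp
      rw [← hf] at h3
      rw [← o1, ← o2, hp, h3]; rfl
    · obtain ⟨n, -, h3, -, -⟩ := up_path how hH hT hc hp
      rw [← hf] at h3
      rw [← o1, ← o2, hp, h3]; rfl
  · -- path
    intro c h1 h2 hc ho
    obtain ⟨d, rfl⟩ := exists_cb hr hlr h1 h2
    rw [mem_exW] at hc
    rw [vW_cb]
    have ho : (!rp x0 y0 (cb hr d hlr)) = true := ho
    rw [← or' d] at ho
    obtain ⟨n, a1, -, a3, -⟩ := up_path how hH hT hc ho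
    rw [← hf, cr, cr] at a1
    refine ⟨n, fun t ht => ?_, a1⟩
    obtain ⟨x, y, e, b1, b2, b3, b4⟩ := a3 t ht
    rw [cr] at e
    rw [e, mem_Bup]
    push_cast at b1 b2
    omega
  · -- jump
    intro c h1 h2 hc d hd
    obtain ⟨c', rfl⟩ := exists_cb hr hlr h1 h2
    obtain ⟨-, d', hd', rfl⟩ := mem_filter.1 hd
    rw [mem_exW] at hc
    rw [vW_cb]
    rintro ⟨h3, h4⟩
    rw [Fin.lt_def, cb_val, cb_val] at h3 h4
    exact hS.ex c' hc d' hd' ⟨by rw [Fin.lt_def]; omega, by rw [Fin.lt_def]; omega⟩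
  · -- exo
    intro c h1 h2 hc ho
    obtain ⟨d, rfl⟩ := exists_cb hr hlr h1 h2
    rw [mem_exW] at hc
    obtain ⟨n, hn⟩ := hM.path _ (hk d)
    rw [hse d] at hn
    obtain ⟨a1, a2, a3, -⟩ := upath w (by rw [hui d]; exact ho) hn
    have a4 := hlabR a3
    rw [huc] at a1 a4
    refine ⟨n, a4, ?_⟩
    rw [a1, lab_uc w a2]
    exact out_up hlr hH (hM.lt _ (hk d)) (mem_exc.1 hc)
  · -- exi
    intro c h1 h2 hc ho
    obtain ⟨d, rfl⟩ := exists_cb hr hlr h1 h2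
    rw [mem_exW] at hc
    set m := M (prt true (H + 0) d) with hm
    have hml : m < 2 * (H + (r - l + 1)) := hM.lt _ (hk d)
    obtain ⟨n, hn⟩ := hM.path m hml
    rw [hm, hM.inv _ (hk d), ← hm] at hn
    simp only [hse d] at hn
    have u1 : ui (UW ((x0 + l + (d : ℕ), y0), Dir.S)) = true := by
      rw [ui_UW, hui d]
      have ho : (!rp x0 y0 (cb hr d hlr)) = false := ho
      rw [ho]; rfl
    have u2 : ui (se (TT (x0 + l) y0) (r - l + 1) H m) = true := by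
      rw [← ui_iter w _ n, hn.1]; exact u1
    obtain ⟨a1, -, a3, -⟩ := upath w u2 hn
    have a4 := hlabR a3
    rw [uc_UW, huc] at a1
    refine ⟨uc (se (TT (x0 + l) y0) (r - l + 1) H m), n, ?_, a4, a1⟩
    rw [← uc_UW, plab_uc w (by rw [ui_UW, u2]; rfl)]
    exact out_up hlr hH hml (mem_exc.1 hc)

/-! ### Below the seam -/

lemma out_dn (hlr : l ≤ r) (hH : 0 < H) {m : ℕ} (hm : m < 2 * (H + (r - l + 1)))
    (hne : ∀ d : Fin (r - l + 1), m ≠ prt false (2 * (H + (r - l + 1)) - 1 - 0) d) :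
    lbt (UW (se (TT (x0 + l) (y0 - H)) (r - l + 1) H m)).1.1
      (UW (se (TT (x0 + l) (y0 - H)) (r - l + 1) H m)).1.2 ∉ Bal x0 y0 l r H := by
  unfold se TT
  split_ifs with h1 h2 h3
  · unfold UW
    simp only
    rw [mem_Bal]; omega
  · unfold UW
    simp only
    rw [mem_Bal]; omega
  · unfold UW
    simp only
    rw [mem_Bal]; omega
  · exfalso
    apply hne ⟨2 * (H + (r - l + 1)) - 1 - m, by omega⟩
    show m = 2 * (H + (r - l + 1)) - 1 - 0 - (2 * (H + (r - l + 1)) - 1 - m)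
    omega

/-- **The half rectangle below the seam.** -/
theorem halfD (w : Finset (ℤ × ℤ)) (x0 y0 : ℤ) (hlr : l ≤ r) (hr : r < N) (hH : 0 < H) :
    ∃ (Ex : Finset (Fin N)) (V : Fin N → Fin N), HalfR w (sc x0 y0) (HS y0) (Bdn x0 y0 l r H)
      (Bal x0 y0 l r H) (fun c : Fin N => rp x0 y0 c) l r Ex V := by
  obtain ⟨M, hM⟩ := rectTD w (x0 + l) (y0 - H) (w := r - l + 1) (h := H) (by omega) hH
  have e1 : (x0 + l : ℤ) - ((0 : ℕ) : ℤ) = x0 + l := by simp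
  have hT : TD (uf w) (ud w) (Bx' (TT ((x0 + l : ℤ) - ((0 : ℕ) : ℤ)) (y0 - H)) (r - l + 1) 0 H)
      (H + (r - l + 1)) (se (TT ((x0 + l : ℤ) - ((0 : ℕ) : ℤ)) (y0 - H)) (r - l + 1) H)
      (fun k => UW (se (TT ((x0 + l : ℤ) - ((0 : ℕ) : ℤ)) (y0 - H)) (r - l + 1) H k))
      (Kp (r - l + 1) H) M := by
    rw [e1]; exact hM
  have how : 0 + (r - l + 1) ≤ r - l + 1 := by omega
  set E := exc (r - l + 1) M false (2 * (H + (r - l + 1)) - 1 - 0) with hE
  set f := mt (r - l + 1) M false (2 * (H + (r - l + 1)) - 1 - 0) with hf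
  have hS : Side E f := sideD how hH hT
  have cr : ∀ d : Fin (r - l + 1), rcr (x0 + l) y0 (d, .S) = sc x0 y0 (cb hr d hlr) := by
    intro d
    rw [rcr_S, sc_he, cb_val]
    push_cast
    congr 1
    refine Prod.ext ?_ rfl
    simp only; ring
  have or' : ∀ d : Fin (r - l + 1), rp (x0 + l) y0 d = rp x0 y0 (cb hr d hlr) := by
    intro d
    cases h : rp x0 y0 (cb hr d hlr)
    · have h1 := (rp_false _).1 h
      rw [cb_val] at h1
      refine (rp_false d).2 ?_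
      push_cast at h1 ⊢; omega
    · have h1 := (rp_true _).1 h
      rw [cb_val] at h1
      refine (rp_true d).2 ?_
      push_cast at h1 ⊢; omega
  have hse : ∀ d : Fin (r - l + 1), se (TT (x0 + l) (y0 - H)) (r - l + 1) H
      (prt false (2 * (H + (r - l + 1)) - 1 - 0) d) = ((x0 + l + (d : ℕ), y0 - 1), .N) := by
    intro d
    have := se_dn (x0 := x0 + l) (y0 := y0) (o := 0) (w := r - l + 1) (h := H) d how hH
    rwa [e1] at this
  have hk : ∀ d : Fin (r - l + 1), prt false (2 * (H + (r - l + 1)) - 1 - 0) d <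
      2 * (H + (r - l + 1)) := by
    intro d
    have hd := d.2
    show 2 * (H + (r - l + 1)) - 1 - 0 - (d : ℕ) < _
    omega
  have hui : ∀ d : Fin (r - l + 1), ui ((x0 + l + (d : ℕ), y0 - 1), Dir.N) =
      rp x0 y0 (cb hr d hlr) := by
    intro d
    cases h : rp x0 y0 (cb hr d hlr)
    · have h1 := (rp_false _).1 h
      rw [cb_val] at h1
      have h2 : pr0 (lbt (x0 + l + (d : ℕ)) (y0 - 1)) = true :=
        pr0_lbt_true.2 (by push_cast at h1; omega)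
      unfold ui; simp only [h2, Dir.v]; rfl
    · have h1 := (rp_true _).1 h
      rw [cb_val] at h1
      have h2 : pr0 (lbt (x0 + l + (d : ℕ)) (y0 - 1)) = false :=
        pr0_lbt_false.2 (by push_cast at h1; omega)
      unfold ui; simp only [h2, Dir.v]; rfl
  have huc : ∀ d : Fin (r - l + 1), uc ((x0 + l + (d : ℕ), y0 - 1), Dir.N) =
      sc x0 y0 (cb hr d hlr) := by
    intro d
    rw [uc_N, sc_he, cb_val, sub_add_cancel]
    push_cast
    congr 1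
    refine Prod.ext ?_ rfl
    simp only; ring
  have hlabR : ∀ {n : ℕ} {z : (ℤ × ℤ) × Dir},
      (∀ i < n, ∃ u, (u, (((uf w)^[i] z).2)) ∈ Bx' (TT (x0 + l) (y0 - H)) (r - l + 1) 0 H ∧
        lab ((nx w)^[i] (uc z)) = lbt u.1 u.2) → ∀ t < n, lab ((nx w)^[t] (uc z)) ∈ Bdn x0 y0 l r H := by
    intro n z h t ht
    obtain ⟨u, hu, hl⟩ := h t ht
    obtain ⟨i', hi', j', -, hj', e⟩ := hu
    simp only at e
    rw [hl, e]
    unfold TT
    simp only
    rw [mem_Bdn]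
    omega
  refine ⟨exW hr hlr E, vW hr hlr f, ?_⟩
  constructor
  · rintro _ ⟨x, y, rfl, h⟩
    unfold HS lbt
    simp only [Set.mem_ofPred_eq]
    omega
  · rintro _ ⟨x, y, rfl, h⟩
    rw [mem_Bal]; omega
  · -- rg
    intro c h1 h2 hc
    obtain ⟨d, rfl⟩ := exists_cb hr hlr h1 h2
    rw [mem_exW] at hc
    rw [vW_cb, vW_cb, hS.inv d hc, mem_exW, cb_val]
    have hfd := (f d).2
    refine ⟨by omega, hS.mem d hc, rfl, ?_⟩
    have o1 := or' d
    have o2 := or' (f d)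
    cases hp : rp (x0 + l) y0 d
    · have h3 := dn_par how hH hT hc hp
      rw [← hf] at h3
      rw [← o1, ← o2, hp, h3]; rfl
    · obtain ⟨n, -, h3, -, -⟩ := dn_path how hH hT hc hp
      rw [← hf] at h3
      rw [← o1, ← o2, hp, h3]; rfl
  · -- path
    intro c h1 h2 hc ho
    obtain ⟨d, rfl⟩ := exists_cb hr hlr h1 h2
    rw [mem_exW] at hc
    rw [vW_cb]
    have ho : rp x0 y0 (cb hr d hlr) = true := ho
    rw [← or' d] at ho
    obtain ⟨n, a1, -, a3, -⟩ := dn_path how hH hT hc ho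
    rw [← hf, cr, cr] at a1
    refine ⟨n, fun t ht => ?_, a1⟩
    obtain ⟨x, y, e, b1, b2, b3, b4⟩ := a3 t ht
    rw [cr] at e
    rw [e, mem_Bdn]
    push_cast at b1 b2
    omega
  · -- jump
    intro c h1 h2 hc d hd
    obtain ⟨c', rfl⟩ := exists_cb hr hlr h1 h2
    obtain ⟨-, d', hd', rfl⟩ := mem_filter.1 hd
    rw [mem_exW] at hc
    rw [vW_cb]
    rintro ⟨h3, h4⟩
    rw [Fin.lt_def, cb_val, cb_val] at h3 h4
    exact hS.ex c' hc d' hd' ⟨by rw [Fin.lt_def]; omega, by rw [Fin.lt_def]; omega⟩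
  · -- exo
    intro c h1 h2 hc ho
    obtain ⟨d, rfl⟩ := exists_cb hr hlr h1 h2
    rw [mem_exW] at hc
    obtain ⟨n, hn⟩ := hM.path _ (hk d)
    rw [hse d] at hn
    obtain ⟨a1, a2, a3, -⟩ := upath w (by rw [hui d]; exact ho) hn
    have a4 := hlabR a3
    rw [huc] at a1 a4
    refine ⟨n, a4, ?_⟩
    rw [a1, lab_uc w a2]
    exact out_dn hlr hH (hM.lt _ (hk d)) (mem_exc.1 hc)
  · -- exi
    intro c h1 h2 hc ho
    obtain ⟨d, rfl⟩ := exists_cb hr hlr h1 h2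
    rw [mem_exW] at hc
    set m := M (prt false (2 * (H + (r - l + 1)) - 1 - 0) d) with hm
    have hml : m < 2 * (H + (r - l + 1)) := hM.lt _ (hk d)
    obtain ⟨n, hn⟩ := hM.path m hml
    rw [hm, hM.inv _ (hk d), ← hm] at hn
    simp only [hse d] at hn
    have u1 : ui (UW ((x0 + l + (d : ℕ), y0 - 1), Dir.N)) = true := by
      rw [ui_UW, hui d]
      have ho : rp x0 y0 (cb hr d hlr) = false := ho
      rw [ho]; rfl
    have u2 : ui (se (TT (x0 + l) (y0 - H)) (r - l + 1) H m) = true := by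
      rw [← ui_iter w _ n, hn.1]; exact u1
    obtain ⟨a1, -, a3, -⟩ := upath w u2 hn
    have a4 := hlabR a3
    rw [uc_UW, huc] at a1
    refine ⟨uc (se (TT (x0 + l) (y0 - H)) (r - l + 1) H m), n, ?_, a4, a1⟩
    rw [← uc_UW, plab_uc w (by rw [ui_UW, u2]; rfl)]
    exact out_dn hlr hH hml (mem_exc.1 hc)

/-! ### The wires of the row near a window -/

/-- **The wires of the row near a window**, from the strand `q → x` which enters the rectangle -/
theorem near_plane {L : Finset (ℤ × ℤ)} (F : Frame L N x0 y0) {w' : Finset (ℤ × ℤ)}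
    (hL : GLab F w') (hlr : l ≤ r) (hr : r < N) (hH : 0 < H) {In Out : Finset (ℤ × ℤ)}
    (hIO : In ⊆ Out) (hOB : ∀ e ∈ Out, e ∈ Bal x0 y0 l r H) {a : ℤ × ℤ}
    (hu : ∀ a', Pool.Agent.Q1.M6b.Gd.FarIn In Out w' a' → a' = a) {x : Fin N}
    (hx : l ≤ (x : ℕ) ∧ (x : ℕ) ≤ r) {q : ℤ × ℤ} {n : ℕ} (hq : plab q ∉ Bal x0 y0 l r H) {e : Bool}
    (hqn : ∀ t < n, lab ((nx w')^[t] q) ∈ (if e then Bup x0 y0 l r H else Bdn x0 y0 l r H))
    (hqx : (nx w')^[n] q = sc x0 y0 x) {Iv : Finset (Fin N)}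
    (hIv : ∀ c ∈ Iv, (l ≤ (c : ℕ) ∧ (c : ℕ) ≤ r) ∧
      (lab (sc x0 y0 c) ∈ In ∨ plab (sc x0 y0 c) ∈ In)) :
    ∃ S : Finset (Fin N), S.card ≤ 2 ∧ ∀ c ∈ Iv, c ∉ S → ∀ c',
      (if e then opt F.EU F.U else opt F.ED F.D) c = some c' →
      (l ≤ (c' : ℕ) ∧ (c' : ℕ) ≤ r) ∧ ¬ (c < x ∧ x < c') ∧ ¬ (c' < x ∧ x < c) := by
  have hG := frame_gnet F hL
  have hcol : ∀ c : Fin N, l ≤ (c : ℕ) → (c : ℕ) ≤ r → plab (sc x0 y0 c) ∈ Bal x0 y0 l r H :=
    fun c h1 h2 => (sc_lab_mem c h1 h2 hH).2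
  cases e
  · obtain ⟨Ex, V, hHR⟩ := halfD w' x0 y0 hlr hr hH
    exact near_of hHR sc_inj (hG.sideD (side_pm F.sD).sy) hIO hOB hu hx hcol hq hqn hqx hIv
  · obtain ⟨Ex, V, hHR⟩ := halfU w' x0 y0 hlr hr hH
    exact near_of hHR sc_inj (hG.sideU (side_pm F.sU).sy) hIO hOB hu hx hcol hq hqn hqx hIv

end Pool.Agent.H81.G1
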