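import Pool.Agent.H81.G1.F3
import Pool.Agent.H30.Mid.Plan

set_option autoImplicit false
set_option linter.unusedSectionVars false
open Finset

/-! # The regular wires of a row with a frame; the glued configuration

From helper30's `Frame`: the regular wires `RM`, the root at a gate, and the strands of the glued
configuration (`GNet`). -/

namespace Pool.Agent.H81.G1

open Pool.Agent.H75.Perc Pool.Agent.H75.TwoArm Pool.Agent.Q1 Pool.Agent.H30.Mid
open Pool.Agent.H69.M6b (lbt lbt_inj lbt_odd pr0)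
open Pool.Agent.Q1.M6b.Meander (dir dir_lt dir_gt)
open Pool.Agent.H74.R45 (he ve)
open Pool.Agent.Q1.M6b.Gl (OddV nx_add lab_add)
open Pool.Agent.Q1.M6b.Gd (sm)

variable {N : ℕ} {x0 y0 : ℤ} {X2 : Env} {Nw : Net (Fin N)} {n0 : ℕ} {L : Finset (ℤ × ℤ)}

open Classical in
/-- partner of a regular column, `none` for an exceptional column -/
noncomputable def opt (Ex : Finset (Fin N)) (f : Fin N → Fin N) (c : Fin N) : Option (Fin N) :=
  if c ∈ Ex then none else some (f c)

lemma opt_some {Ex : Finset (Fin N)} {f : Fin N → Fin N} {c c' : Fin N} :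
    opt Ex f c = some c' ↔ c ∉ Ex ∧ f c = c' := by
  unfold opt
  split_ifs with h
  · simp [h]
  · simp [h]

lemma opt_none {Ex : Finset (Fin N)} {f : Fin N → Fin N} {c : Fin N} :
    opt Ex f c = none ↔ c ∈ Ex := by
  unfold opt
  split_ifs with h
  · simp [h]
  · simp [h]

/-- a side is a partial noncrossing matching -/
lemma side_pm {Ex : Finset (Fin N)} {f : Fin N → Fin N} (h : Side Ex f) : PM (opt Ex f) where
  sy c c' hc := by
    obtain ⟨h1, rfl⟩ := opt_some.1 hc
    exact opt_some.2 ⟨h.mem c h1, h.inv c h1⟩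
  ne c c' hc := by
    obtain ⟨h1, rfl⟩ := opt_some.1 hc
    exact (h.ne c h1).symm
  ns x x' y hx h1 h2 := by
    obtain ⟨h3, rfl⟩ := opt_some.1 hx
    have hy : y ∉ Ex := fun hh => h.ex x h3 y hh ⟨h1, h2⟩
    exact ⟨f y, opt_some.2 ⟨hy, rfl⟩, h.nc x h3 y hy h1 h2⟩

/-- the row wires are trivial -/
lemma row_t (W : Wired X2 (rl x0 y0) (rp x0 y0) (rcr x0 y0) Nw n0) {c c' : Fin N}
    (h : (c' : ℕ) = c + 1) : Nw.t (c, .E) = 0 := by
  have hw := row_wire W h
  have hc : rcr x0 y0 (c, .E) = rcr x0 y0 (c', .W) := by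
    rw [rcr_E, rcr_W, h]; push_cast; rw [add_assoc]
  have key : ∀ {x y : Fin N × Dir}, rcr x0 y0 x = rcr x0 y0 y → inc (rp x0 y0) x = false →
      inc (rp x0 y0) y = true → Nw.t x = 0 := by
    intro x y e h1 h2
    obtain ⟨n, w1, w2, w3⟩ := W.wire x h1
    have hn : n = 0 := by
      rcases Nat.eq_zero_or_pos n with h3 | h3
      · exact h3
      · exfalso
        apply w1 0 h3
        show lab (rcr x0 y0 x) ∈ X2.E
        rw [e]
        exact mem_cr W.tiles h2
    subst hn
    rw [w3]; simp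
  have hi := W.good.ty (c, .E)
  rw [hw.1] at hi
  cases h1 : inc (rp x0 y0) (c, Dir.E)
  · rw [h1] at hi
    exact key hc h1 hi
  · rw [h1] at hi
    have h2 := key hc.symm hi h1
    have h3 := W.good.t_neg (c, .E)
    rw [hw.1, h2] at h3
    omega

/-- **the regular wires of the row** -/
theorem frame_rm (F : Frame L N x0 y0) (W : Wired X2 (rl x0 y0) (rp x0 y0) (rcr x0 y0) Nw n0)
    (ho : OutL X2 L) (hE : X2.E = RS N x0 y0) : RM Nw (opt F.EU F.U) (opt F.ED F.D) where
  inv := W.good.inv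
  ne := W.good.ne
  tn := W.good.t_neg
  row c c' hc := (row_wire W hc).1
  tE c hc := row_t W (c := c) (c' := ⟨c + 1, hc⟩) rfl
  pU := side_pm F.sU
  pD := side_pm F.sD
  up c c' hc := by
    obtain ⟨h1, rfl⟩ := opt_some.1 hc
    exact up_wire W ho hE F.u1 F.u2 F.TU h1
  dn c c' hc := by
    obtain ⟨h1, rfl⟩ := opt_some.1 hc
    exact dn_wire W ho hE F.d1 F.d2 F.TD' h1

/-- the root enters at a gate -/
theorem frame_root (F : Frame L N x0 y0) (W : Wired X2 (rl x0 y0) (rp x0 y0) (rcr x0 y0) Nw n0)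
    (ho : OutL X2 L) (hE : X2.E = RS N x0 y0) (hroot : ¬ F.In (plab X2.c0)) :
    Gt (opt F.EU F.U) (opt F.ED F.D) Nw.x0 := by
  have h := Frame.root_not_inn W ho hE hroot
  revert h
  generalize Nw.x0 = x
  obtain ⟨c, d⟩ := x
  intro h
  have hc := c.2
  cases d
  · have h1 : ¬ 0 < (c : ℕ) := h
    show (c : ℕ) = 0
    omega
  · have h1 : ¬ c ∉ F.EU := h
    exact opt_none.2 (not_not.1 h1)
  · have h1 : ¬ (c : ℕ) + 1 < N := h
    show (c : ℕ) + 1 = N
    omega
  · have h1 : ¬ c ∉ F.ED := h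
    exact opt_none.2 (not_not.1 h1)

/-! ### The glued configuration -/

/-- the translation of the upper side -/
def vg : ℤ × ℤ := (1, -1)

lemma vg_odd : OddV vg := by
  unfold OddV vg; decide

/-- labels above the seam -/
def HN (y0 : ℤ) : Set (ℤ × ℤ) := {e | (e.1 + e.2) % 2 = 1 ∧ 2 * y0 < e.2 - e.1}

/-- labels below the seam -/
def HS (y0 : ℤ) : Set (ℤ × ℤ) := {e | (e.1 + e.2) % 2 = 1 ∧ e.2 - e.1 < 2 * y0}

lemma lbt_HS {x y : ℤ} (h : y < y0) : lbt x y ∈ HS y0 := by
  unfold lbt HS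
  simp only [Set.mem_ofPred_eq]
  omega

lemma lbt_HN {x y : ℤ} (h : y0 + 1 ≤ y) : lbt x y + vg ∈ HN y0 := by
  unfold lbt HN vg
  simp only [Set.mem_ofPred_eq, Prod.fst_add, Prod.snd_add]
  omega

/-- the glued configuration: `L` below, the translated complement of `L` above -/
structure GLab (F : Frame L N x0 y0) (Lg : Finset (ℤ × ℤ)) : Prop where
  low : ∀ x y : ℤ, x0 - F.oD ≤ x → x < x0 - F.oD + F.wD → y0 - F.hD ≤ y → y < y0 →
    (lbt x y ∈ Lg ↔ lbt x y ∈ L)
  upp : ∀ x y : ℤ, x0 - F.oU ≤ x → x < x0 - F.oU + F.wU → y0 + 1 ≤ y → y < y0 + 1 + F.hU →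
    (lbt x y + vg ∈ Lg ↔ lbt x y ∉ L)

/-- the seam corner of a column -/
lemma seam_S (c : Fin N) : sm true y0 (x0 - y0 + 1 + (c : ℕ)) = rcr x0 y0 (c, .S) := by
  rw [rcr_S]
  unfold sm he
  simp only [if_true, Prod.mk.injEq]
  constructor <;> ring

lemma seam_N (c : Fin N) : sm true y0 (x0 - y0 + 1 + (c : ℕ)) = rcr x0 y0 (c, .N) + vg := by
  rw [rcr_N]
  unfold sm he vg
  simp only [if_true]
  refine Prod.ext ?_ ?_
  · simp only [Prod.fst_add]; ring
  · simp only [Prod.snd_add]; ring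

lemma seam_lab (t : ℤ) : (t % 2 = 0 → lab (sm true y0 t) ∉ HN y0 ∧ plab (sm true y0 t) ∉ HS y0) ∧
    (t % 2 = 1 → plab (sm true y0 t) ∉ HN y0 ∧ lab (sm true y0 t) ∉ HS y0) := by
  have h : sm true y0 t = (t, t + 2 * y0) := rfl
  rw [h]
  unfold lab plab HN HS
  simp only [Set.mem_ofPred_eq]
  constructor
  · intro ht
    constructor <;> split_ifs <;> simp only <;> omega
  · intro ht
    constructor <;> split_ifs <;> simp only <;> omega

/-- **the strands of the glued configuration** -/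
theorem frame_gnet (F : Frame L N x0 y0) {Lg : Finset (ℤ × ℤ)} (hL : GLab F Lg) :
    GNet Lg (HN y0) (HS y0) (sm true y0) (x0 - y0 + 1) (rp x0 y0) (opt F.EU F.U) (opt F.ED F.D) where
  lnj a b h := by
    unfold sm at h
    simp only [if_true, Prod.mk.injEq] at h
    exact h.1
  sepN t h := by
    have h1 := seam_lab (y0 := y0) t
    rcases Int.emod_two_eq_zero_or_one t with h2 | h2
    · exact (h1.1 h2).1 h.1
    · exact (h1.2 h2).1 h.2
  sepS t h := by
    have h1 := seam_lab (y0 := y0) t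
    rcases Int.emod_two_eq_zero_or_one t with h2 | h2
    · exact (h1.1 h2).2 h.2
    · exact (h1.2 h2).2 h.1
  dir0 c hc := by
    have h1 := (rp_false c).1 hc
    exact (seam_lab (y0 := y0) _).2 (by omega)
  dir1 c hc := by
    have h1 := (rp_true c).1 hc
    exact (seam_lab (y0 := y0) _).1 (by omega)
  up c c' hc hd := by
    obtain ⟨h1, rfl⟩ := opt_some.1 hc
    have hm := F.sU.mem c h1
    have hp' : rp x0 y0 (F.U c) = true := up_par F.u1 F.TU h1 hd
    obtain ⟨n, a1, a2, a3, -⟩ := up_path F.u1 F.u2 F.TU hm hp'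
    have e1 : mt N F.MU true (F.hU + F.oU) (F.U c) = c := F.sU.inv c h1
    rw [e1] at a1
    set d := rcr x0 y0 (c, Dir.N) with hdd
    -- the reversed path
    have hrev : ∀ t ≤ n, (pv L)^[t] d = (nx L)^[n - t] (rcr x0 y0 (F.U c, .N)) := by
      intro t
      induction t with
      | zero => intro _; exact a1.symm
      | succ t ih =>
        intro ht
        rw [Function.iterate_succ_apply', ih (by omega)]
        have e : n - t = (n - (t + 1)) + 1 := by omega
        rw [e, Function.iterate_succ_apply', pv_nx]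
    have hlabs : ∀ t < n, ∃ x y : ℤ, plab ((pv L)^[t] d) = lbt x y ∧
        x0 - F.oU ≤ x ∧ x < x0 - F.oU + F.wU ∧ y0 + 1 ≤ y ∧ y < y0 + 1 + F.hU := by
      intro t ht
      rw [hrev t ht.le]
      have e : n - t = (n - t - 1) + 1 := by omega
      rw [e, Function.iterate_succ_apply', plab_nx]
      exact a3 _ (by omega)
    have hit : ∀ t ≤ n, (nx Lg)^[t] (d + vg) = (pv L)^[t] d + vg := by
      intro t
      induction t with
      | zero => intro _; rfl
      | succ t ih =>
        intro ht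
        rw [Function.iterate_succ_apply', ih (by omega), Function.iterate_succ_apply']
        refine nx_add vg_odd ?_
        rw [lab_add vg_odd]
        obtain ⟨x, y, e, b1, b2, b3, b4⟩ := hlabs t (by omega)
        rw [e]
        exact hL.upp x y b1 b2 b3 b4
    rw [seam_N c, seam_N (F.U c), ← hdd]
    refine ⟨n, ?_, ?_, ?_⟩
    · rcases Nat.eq_zero_or_pos n with h0 | h0
      · exfalso
        subst h0
        have h2 : rcr x0 y0 (F.U c, .N) = rcr x0 y0 (c, .N) := a1
        rw [rcr_N, rcr_N] at h2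
        unfold he at h2
        simp only [Prod.mk.injEq] at h2
        exact F.sU.ne c h1 (Fin.ext (by omega))
      · exact h0
    · intro t ht
      rw [hit t ht.le, lab_add vg_odd]
      obtain ⟨x, y, e, b1, b2, b3, b4⟩ := hlabs t ht
      rw [e]
      exact lbt_HN b3
    · rw [hit n le_rfl, hrev n le_rfl, Nat.sub_self]; rfl
  dw c c' hc hd := by
    obtain ⟨h1, rfl⟩ := opt_some.1 hc
    obtain ⟨n, a1, a2, a3, -⟩ := dn_path F.d1 F.d2 F.TD' h1 hd
    set d := rcr x0 y0 (c, Dir.S) with hdd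
    have hit : ∀ t ≤ n, (nx Lg)^[t] d = (nx L)^[t] d := by
      intro t
      induction t with
      | zero => intro _; rfl
      | succ t ih =>
        intro ht
        rw [Function.iterate_succ_apply', ih (by omega), Function.iterate_succ_apply']
        obtain ⟨x, y, e, b1, b2, b3, b4⟩ := a3 t (by omega)
        refine nx_agree ?_
        rw [e]
        exact hL.low x y b1 b2 b3 b4
    rw [seam_S c, seam_S (F.D c), ← hdd]
    refine ⟨n, ?_, ?_, ?_⟩
    · rcases Nat.eq_zero_or_pos n with h0 | h0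
      · exfalso
        subst h0
        have h2 : rcr x0 y0 (c, .S) = rcr x0 y0 (F.D c, .S) := a1
        rw [rcr_S, rcr_S] at h2
        unfold he at h2
        simp only [Prod.mk.injEq] at h2
        exact F.sD.ne c h1 (Fin.ext (by omega))
      · exact h0
    · intro t ht
      rw [hit t ht.le]
      obtain ⟨x, y, e, b1, b2, b3, b4⟩ := a3 t ht
      rw [e]
      exact lbt_HS b4
    · rw [hit n le_rfl]; exact a1
  fU c c' hc := by
    obtain ⟨h1, rfl⟩ := opt_some.1 hc
    cases h2 : rp x0 y0 c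
    · exact up_par F.u1 F.TU h1 h2
    · obtain ⟨n, -, a2, -, -⟩ := up_path F.u1 F.u2 F.TU h1 h2
      exact a2
  fD c c' hc := by
    obtain ⟨h1, rfl⟩ := opt_some.1 hc
    cases h2 : rp x0 y0 c
    · exact dn_par F.d1 F.d2 F.TD' h1 h2
    · obtain ⟨n, -, a2, -, -⟩ := dn_path F.d1 F.d2 F.TD' h1 h2
      exact a2

end Pool.Agent.H81.G1
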