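import Pool.Agent.Q1.M6b.PB

set_option autoImplicit false
set_option linter.unusedSectionVars false
open Finset

/-! # Regular wires of a row

`RM X U D`: the wires of the row network `X` above and below a straight row. `U c = some c'`: the wire of
`(c, N)` stays above the row and ends at `(c', N)`; `U c = none`: it leaves the upper side through a gate.
The same for `D` below the row. -/

namespace Pool.Agent.H81.G1

open Pool.Agent.Q1.M6b.Strand Pool.Agent.Q1.M6b.ExN Pool.Agent.Q1.M6b.PB Pool.Agent.Q1.M6b.Meander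

variable {N : ℕ}

/-- a partial matching without crossings; the points inside an arc are matched inside the arc -/
structure PM (V : Fin N → Option (Fin N)) : Prop where
  sy : ∀ c c', V c = some c' → V c' = some c
  ne : ∀ c c', V c = some c' → c ≠ c'
  ns : ∀ x x' y, V x = some x' → x < y → y < x' → ∃ y', V y = some y' ∧ x < y' ∧ y' < x'

/-- the regular wires of a row -/
structure RM (X : Net (Fin N)) (U D : Fin N → Option (Fin N)) : Prop where
  inv : ∀ x, X.π (X.π x) = x
  ne : ∀ x, X.π x ≠ x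
  tn : ∀ x, X.t (X.π x) = -X.t x
  row : X.IsRow
  tE : ∀ c : Fin N, (c : ℕ) + 1 < N → X.t (c, .E) = 0
  pU : PM U
  pD : PM D
  up : ∀ c c', U c = some c' → X.π (c, .N) = (c', .N) ∧ X.t (c, .N) = -2 * dir c c'
  dn : ∀ c c', D c = some c' → X.π (c, .S) = (c', .S) ∧ X.t (c, .S) = 2 * dir c c'

/-- gate ends -/
def Gt (U D : Fin N → Option (Fin N)) : Fin N × Dir → Prop
  | (c, .N) => U c = none
  | (c, .S) => D c = none
  | (c, .W) => (c : ℕ) = 0
  | (c, .E) => (c : ℕ) + 1 = N

/-- the partner -/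
def fU (U : Fin N → Option (Fin N)) (c : Fin N) : Fin N := (U c).getD c

lemma fU_eq {U : Fin N → Option (Fin N)} {c c' : Fin N} (h : U c = some c') : fU U c = c' := by
  unfold fU; rw [h]; rfl

namespace PM

variable {V : Fin N → Option (Fin N)}

/-- noncrossing -/
lemma nc (h : PM V) {x x' y y' : Fin N} (hx : V x = some x') (hy : V y = some y') (h1 : x < y)
    (h2 : y < x') : x < y' ∧ y' < x' := by
  obtain ⟨z, hz, h3⟩ := h.ns x x' y hx h1 h2
  rw [hy] at hz
  rw [Option.some.inj hz]; exact h3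

/-- a gate is outside all arcs -/
lemma gate (h : PM V) {K : Finset (Fin N)} (hK : ∀ c ∈ K, V c ≠ none) {c : Fin N}
    (hc : V c = none) : Pres K (fU V) 0 c := by
  intro z hz _ hzc
  refine ⟨Nat.zero_le _, ?_⟩
  obtain ⟨z', hz'⟩ := Option.ne_none_iff_exists'.1 (hK z hz)
  rw [fU_eq hz']
  by_contra hcon
  have h1 : z' ≠ c := by
    rintro rfl
    have := h.sy z z' hz'
    rw [hc] at this
    exact absurd this (by simp)
  obtain ⟨y', hy', -⟩ := h.ns z z' c hz' (Fin.lt_def.2 hzc)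
    (Fin.lt_def.2 (lt_of_le_of_ne (not_lt.1 hcon) (fun e => h1 (Fin.ext e.symm))))
  rw [hc] at hy'
  exact absurd hy' (by simp)

/-- the points of `K` inside an arc outside `K` -/
lemma arc (h : PM V) {K : Finset (Fin N)} (hK : ∀ c ∈ K, V c ≠ none) {c c' : Fin N}
    (hc : V c = some c') (hcK : c ∉ K) (hcK' : c' ∉ K) :
    ((c : ℕ) ≤ c' ∧ Pres K (fU V) c c') ∨ ((c' : ℕ) ≤ c ∧ Pres K (fU V) c' c) := by
  have gen : ∀ x x' : Fin N, V x = some x' → x ∉ K → x < x' → Pres K (fU V) x x' := by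
    intro x x' hx hxK hlt z hz h1 h2
    obtain ⟨z', hz'⟩ := Option.ne_none_iff_exists'.1 (hK z hz)
    rw [fU_eq hz']
    have hzx : x < z := Fin.lt_def.2 (lt_of_le_of_ne h1 (fun e => hxK (by
      have : x = z := Fin.ext e
      rw [this]; exact hz)))
    have := h.nc hx hz' hzx (Fin.lt_def.2 h2)
    exact ⟨(Fin.lt_def.1 this.1).le, Fin.lt_def.1 this.2⟩
  rcases lt_trichotomy c c' with h1 | h1 | h1
  · exact Or.inl ⟨h1.le, gen c c' hc hcK h1⟩
  · exact absurd h1 (h.ne _ _ hc)
  · exact Or.inr ⟨h1.le, gen c' c (h.sy _ _ hc) hcK' h1⟩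

end PM

variable {X : Net (Fin N)} {U D : Fin N → Option (Fin N)} {sp : Finset (Fin N)} {a b : Fin N → ℂ}

namespace RM

lemma pi_W (h : RM X U D) {c : Fin N} (hc : (c : ℕ) ≠ 0) :
    X.π (c, .W) = (⟨c - 1, by have := c.2; omega⟩, .E) := by
  have h1 := h.row ⟨c - 1, by have := c.2; omega⟩ c (by simp; omega)
  rw [← h1, h.inv]

lemma pi_E (h : RM X U D) {c : Fin N} (hc : (c : ℕ) + 1 ≠ N) :
    X.π (c, .E) = (⟨c + 1, by have := c.2; omega⟩, .W) :=
  h.row c ⟨c + 1, by have := c.2; omega⟩ rfl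

/-- the wires join gates to gates -/
lemma gt_pi (h : RM X U D) (x : Fin N × Dir) : Gt U D (X.π x) ↔ Gt U D x := by
  have key : ∀ x, ¬ Gt U D x → ¬ Gt U D (X.π x) := by
    rintro ⟨c, d⟩ hx
    cases d
    · have hc : (c : ℕ) ≠ 0 := hx
      rw [h.pi_W hc]
      show ¬ ((c : ℕ) - 1 + 1 = N)
      have := c.2
      omega
    · cases hU : U c with
      | none => exact absurd hU hx
      | some c' =>
        rw [(h.up c c' hU).1]
        show ¬ U c' = none
        rw [h.pU.sy c c' hU]; simp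
    · have hc : (c : ℕ) + 1 ≠ N := hx
      rw [h.pi_E hc]
      show ¬ ((c : ℕ) + 1 = 0)
      omega
    · cases hD : D c with
      | none => exact absurd hD hx
      | some c' =>
        rw [(h.dn c c' hD).1]
        show ¬ D c' = none
        rw [h.pD.sy c c' hD]; simp
  constructor
  · intro h1
    by_contra h2
    exact key x h2 h1
  · intro h1
    by_contra h2
    have := key _ h2
    rw [h.inv] at this
    exact this h1

/-- positions at gates are outside all arcs of `K` -/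
lemma gate_pr (h : RM X U D) {K : Finset (Fin N)} (hU : ∀ c ∈ K, U c ≠ none)
    (hD : ∀ c ∈ K, D c ≠ none) {x : Fin N × Dir} (hx : Gt U D x) :
    Pr K (fU U) (fU D) 0 (pos x) := by
  obtain ⟨c, d⟩ := x
  cases d
  · have : (c : ℕ) = 0 := hx
    left
    intro z _ _ hz
    change (z : ℕ) < c at hz
    omega
  · left
    exact h.pU.gate hU hx
  · have hc : (c : ℕ) + 1 = N := hx
    left
    intro z _ _ _
    refine ⟨Nat.zero_le _, ?_⟩
    change (fU U z : ℕ) < c + 1
    rw [hc]; exact (fU U z).2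
  · right
    exact h.pD.gate hD hx

/-- **closed strands of regular columns**: the planar structure -/
theorem planar (h : RM X U D) {K : Finset (Fin N)} (hU : ∀ c ∈ K, U c ≠ none)
    (hD : ∀ c ∈ K, D c ≠ none) (hK : Str X K) (hroot : Gt U D X.x0) :
    Planar X K (fU U) (fU D) 0 where
  up c hc := by
    obtain ⟨c', hc'⟩ := Option.ne_none_iff_exists'.1 (hU c hc)
    rw [fU_eq hc']; exact (h.up c c' hc').1
  dn c hc := by
    obtain ⟨c', hc'⟩ := Option.ne_none_iff_exists'.1 (hD c hc)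
    rw [fU_eq hc']; exact (h.dn c c' hc').1
  ncU x hx y hy h1 h2 := by
    obtain ⟨x', hx'⟩ := Option.ne_none_iff_exists'.1 (hU x hx)
    obtain ⟨y', hy'⟩ := Option.ne_none_iff_exists'.1 (hU y hy)
    rw [fU_eq hx'] at h2
    rw [fU_eq hx', fU_eq hy']
    exact h.pU.nc hx' hy' h1 h2
  ncD x hx y hy h1 h2 := by
    obtain ⟨x', hx'⟩ := Option.ne_none_iff_exists'.1 (hD x hx)
    obtain ⟨y', hy'⟩ := Option.ne_none_iff_exists'.1 (hD y hy)
    rw [fU_eq hx'] at h2
    rw [fU_eq hx', fU_eq hy']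
    exact h.pD.nc hx' hy' h1 h2
  tU c hc := by
    obtain ⟨c', hc'⟩ := Option.ne_none_iff_exists'.1 (hU c hc)
    rw [fU_eq hc', (h.up c c' hc').2]
    simp
  tD c hc := by
    obtain ⟨c', hc'⟩ := Option.ne_none_iff_exists'.1 (hD c hc)
    rw [fU_eq hc', (h.dn c c' hc').2]
    simp
  out x hx := by
    by_cases hg : Gt U D x
    · exact Or.inr (Or.inr ⟨h.gate_pr hU hD hg, h.gate_pr hU hD ((h.gt_pi x).2 hg)⟩)
    obtain ⟨c, d⟩ := x
    have hvac : ∀ p : ℕ, Pr K (fU U) (fU D) p p := fun p => Or.inl fun z _ h1 h2 => by omega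
    cases d
    · have hc : (c : ℕ) ≠ 0 := hg
      rw [h.pi_W hc]
      show Same K (fU U) (fU D) c ((c : ℕ) - 1 + 1)
      have e : (c : ℕ) - 1 + 1 = c := by omega
      rw [e]
      exact Or.inl ⟨le_rfl, hvac _⟩
    · obtain ⟨c', hc'⟩ := Option.ne_none_iff_exists'.1 (show U c ≠ none from hg)
      have hcK : c ∉ K := fun hh => hx (by rw [mem_VE]; exact ⟨hh, Or.inl rfl⟩)
      have e := (h.up c c' hc').1
      have hcK' : c' ∉ K := by
        intro hh
        have h1 := hK.mem (c', .N) (by rw [mem_VE]; exact ⟨hh, Or.inl rfl⟩)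
        rw [← e, h.inv, mem_VE] at h1
        exact hcK h1.1
      rw [e]
      show Same K (fU U) (fU D) c c'
      rcases h.pU.arc hU hc' hcK hcK' with h1 | h1
      · exact Or.inl ⟨h1.1, Or.inl h1.2⟩
      · exact Or.inr (Or.inl ⟨h1.1, Or.inl h1.2⟩)
    · have hc : (c : ℕ) + 1 ≠ N := hg
      rw [h.pi_E hc]
      exact Or.inl ⟨le_rfl, hvac _⟩
    · obtain ⟨c', hc'⟩ := Option.ne_none_iff_exists'.1 (show D c ≠ none from hg)
      have hcK : c ∉ K := fun hh => hx (by rw [mem_VE]; exact ⟨hh, Or.inr rfl⟩)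
      have e := (h.dn c c' hc').1
      have hcK' : c' ∉ K := by
        intro hh
        have h1 := hK.mem (c', .S) (by rw [mem_VE]; exact ⟨hh, Or.inr rfl⟩)
        rw [← e, h.inv, mem_VE] at h1
        exact hcK h1.1
      rw [e]
      show Same K (fU U) (fU D) c c'
      rcases h.pD.arc hD hc' hcK hcK' with h1 | h1
      · exact Or.inl ⟨h1.1, Or.inr h1.2⟩
      · exact Or.inr (Or.inl ⟨h1.1, Or.inr h1.2⟩)
  root := h.gate_pr hU hD hroot

/-- **all closed strands without special column** -/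
theorem planar_Kn (h : RM X U D) (hA : ∀ z : Fin N, Anch X sp (z, .W) ∧ Anch X sp (z, .E))
    (hgU : ∀ c, U c = none → Anch X sp (c, .N)) (hgD : ∀ c, D c = none → Anch X sp (c, .S))
    (hroot : Gt U D X.x0) : Planar X (Kn X sp) (fU U) (fU D) 0 := by
  refine h.planar ?_ ?_ (Kn_str hA) hroot
  · intro c hc hn
    exact mem_Kn.1 hc (hgU c hn)
  · intro c hc hn
    exact mem_Kn.1 hc (Anch.opp (c, .N) (hgD c hn))

/-- **inner arcs above the row** -/
theorem inner (h : RM X U D) {x y : Fin N} (hxy : U x = some y) (hlt : x < y)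
    (hov : ∀ c, x ≤ c → c ≤ y → a c = zt ^ (4 : ℤ) ∧ b c = zt ^ (-4 : ℤ))
    (hE : ∀ c, x ≤ c → c < y → ¬ Sp X (c, .E)) (hN : ∀ c, x ≤ c → c ≤ y → ¬ Sp X (c, .N)) :
    Inner X a b x y where
  lt := hlt
  arc := (h.up x y hxy).1
  ovr := hov
  row c c' _ _ he := h.row c c' he
  nsE := hE
  nsN := hN
  nest z h1 h2 := by
    obtain ⟨z', h3, h4, h5⟩ := h.pU.ns x y z hxy h1 h2
    exact ⟨z', h4, h5, (h.pU.ne z z' h3).symm, (h.up z z' h3).1⟩
  turn := by
    rw [(h.up x y hxy).2, dir_lt hlt]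
    have : ∑ c ∈ Finset.Ico x y, X.t (c, .E) = 0 := by
      refine sum_eq_zero fun c hc => h.tE c ?_
      have h1 := Fin.lt_def.1 (Finset.mem_Ico.1 hc).2
      have h2 := y.2
      omega
    rw [this]; ring

end RM

end Pool.Agent.H81.G1
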