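import Pool.Agent.Q1.M6b.PB
import Pool.Agent.H69.M6b.Mirror
import Pool.Agent.H81.G1.RM

set_option autoImplicit false
set_option linter.unusedSectionVars false
open Finset

/-! # Pointwise bound of a row: arcs above and below the row

Cancellation of the exchange vertices at the feet of the inner arcs `LN` above and `LS` below the row
(lower arcs = upper arcs of the mirror image with the conjugate weights), and the resulting bound of the
vertex sum. -/

namespace Pool.Agent.H81.G1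

open Pool.Agent.Q1.M6b.Strand Pool.Agent.Q1.M6b.ExN Pool.Agent.Q1.M6b.PB Pool.Agent.Q1.M6b.Meander
open Pool.Agent.H69.M6b (mir fl fl_fl flE fld)

variable {N : ℕ} {X : Net (Fin N)} {a b : Fin N → ℂ}

/-! ### The mirror image with conjugate weights -/

/-- conjugate weights -/
noncomputable def cj (a : Fin N → ℂ) (c : Fin N) : ℂ := (starRingEnd ℂ) (a c)

lemma conj_zt : (starRingEnd ℂ) zt = zt⁻¹ := by
  rw [eq_comm, inv_eq_iff_eq_inv]
  have h : zt * (starRingEnd ℂ) zt = 1 := by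
    rw [Complex.mul_conj, Complex.normSq_eq_norm_sq, zt_norm]
    norm_num
  exact eq_inv_of_mul_eq_one_left h

lemma conj_zt_zpow (k : ℤ) : (starRingEnd ℂ) (zt ^ k) = zt ^ (-k) := by
  rw [map_zpow₀, conj_zt, inv_zpow, zpow_neg]

lemma vert_cj (a b : ℂ) (w n e s : ℤˣ) :
    vert ((starRingEnd ℂ) b) ((starRingEnd ℂ) a) w s e n = (starRingEnd ℂ) (vert a b w n e s) := by
  unfold vert
  rw [map_add, add_comm]
  congr 1
  · split_ifs with h
    · rw [map_mul, conj_zt_zpow]
      congr 2; ring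
    · rw [map_zero]
  · split_ifs with h
    · rw [map_mul, conj_zt_zpow]
      congr 2; ring
    · rw [map_zero]

lemma wt_mir (o : Fin N × Dir → ℤˣ) :
    (mir X).wt (cj b) (cj a) (o ∘ fl) = (starRingEnd ℂ) (X.wt a b o) := by
  unfold Net.wt
  rw [map_mul, map_prod, map_prod]
  congr 1
  · refine prod_congr rfl fun i _ => ?_
    exact vert_cj (a i) (b i) _ _ _ _
  · rw [← Equiv.prod_comp (flE (ι := Fin N))]
    refine prod_congr rfl fun x _ => ?_
    have e : (o ∘ fl) (flE x) = o x := by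
      change o (fl (fl x)) = o x
      rw [fl_fl]
    have e2 : (mir X).t (flE x) = -X.t x := by
      change -X.t (fl (fl x)) = -X.t x
      rw [fl_fl]
    rw [e, e2]
    split_ifs
    · rw [conj_zt_zpow]
    · rw [map_one]

lemma cons_mir (o : Fin N × Dir → ℤˣ) : (mir X).Cons (o ∘ fl) ↔ X.Cons o := by
  have h1 : (mir X).x0 = fl X.x0 := rfl
  have h2 : (mir X).y0 = fl X.y0 := rfl
  have h3 : ∀ p, (mir X).π (fl p) = fl (X.π p) := fun p => by
    change fl (X.π (fl (fl p))) = _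
    rw [fl_fl]
  have inj : ∀ p q : Fin N × Dir, fl p = fl q ↔ p = q := fun p q =>
    ⟨fun h => by rw [← fl_fl p, h, fl_fl], fun h => by rw [h]⟩
  unfold Net.Cons
  rw [h1, h2, h3, h3]
  simp only [Function.comp, fl_fl]
  refine and_congr Iff.rfl (and_congr Iff.rfl (and_congr Iff.rfl (and_congr Iff.rfl ?_)))
  constructor
  · intro h p a1 a2 a3 a4
    have := h (fl p) (fun hh => a1 ((inj _ _).1 hh)) (fun hh => a2 ((inj _ _).1 hh))
      (fun hh => a3 ((inj _ _).1 hh)) (fun hh => a4 ((inj _ _).1 hh))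
    rwa [h3, fl_fl, fl_fl] at this
  · intro h p a1 a2 a3 a4
    have e : ∀ q, p ≠ fl q → fl p ≠ q := fun q hq hh => hq (by rw [← hh, fl_fl])
    have := h (fl p) (e _ a1) (e _ a2) (e _ a3) (e _ a4)
    change o (fl (fl (X.π (fl p)))) = _
    rw [fl_fl]
    exact this

lemma ex_mir (o : Fin N × Dir → ℤˣ) (c : Fin N) : ex (o ∘ fl) c ↔ ex o c := by
  unfold ex
  exact eq_comm

lemma mir_inv (hinv : ∀ p, X.π (X.π p) = p) (p : Fin N × Dir) : (mir X).π ((mir X).π p) = p := by
  change fl (X.π (fl (fl (X.π (fl p))))) = p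
  rw [fl_fl, hinv, fl_fl]

lemma mir_tn (ht : ∀ p, X.t (X.π p) = -X.t p) (p : Fin N × Dir) :
    (mir X).t ((mir X).π p) = -(mir X).t p := by
  change -X.t (fl (fl (X.π (fl p)))) = - -X.t (fl p)
  rw [fl_fl, ht]

/-- reversal of a lower arc and of the row between its feet -/
def togS (x y : Fin N) (o : Fin N × Dir → ℤˣ) : Fin N × Dir → ℤˣ := (tog x y (o ∘ fl)) ∘ fl

lemma comp_fl_fl (o : Fin N × Dir → ℤˣ) : (o ∘ fl) ∘ fl = o := by
  funext p; simp only [Function.comp, fl_fl]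

lemma togS_fl (x y : Fin N) (o : Fin N × Dir → ℤˣ) : (togS x y o) ∘ fl = tog x y (o ∘ fl) := by
  unfold togS; rw [comp_fl_fl]

lemma togS_togS (x y : Fin N) (o : Fin N × Dir → ℤˣ) : togS x y (togS x y o) = o := by
  unfold togS
  rw [comp_fl_fl, tog_tog, comp_fl_fl]

/-- a lower inner arc -/
def InnerS (X : Net (Fin N)) (a b : Fin N → ℂ) (x y : Fin N) : Prop :=
  Inner (mir X) (cj b) (cj a) x y

lemma tog_keep {x y c : Fin N} (h1 : c ≠ x) (h2 : c ≠ y) (o : Fin N × Dir → ℤˣ) :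
    ex (tog x y o) c ↔ ex o c := by
  unfold ex
  rw [tog_not (nT_S _), tog_not (nT_N h1 h2)]

lemma togS_keep {x y c : Fin N} (h1 : c ≠ x) (h2 : c ≠ y) (o : Fin N × Dir → ℤˣ) :
    ex (togS x y o) c ↔ ex o c := by
  rw [← ex_mir, togS_fl, tog_keep h1 h2, ex_mir]

lemma wtS {x y : Fin N} (hI : InnerS X a b x y) (hinv : ∀ p, X.π (X.π p) = p) (ht : ∀ p, X.t (X.π p) = -X.t p)
    {o : Fin N × Dir → ℤˣ} (hc : X.Cons o) (h : X.wt a b o ≠ 0) (hex : ex o x ∨ ex o y) :
    X.wt a b (togS x y o) = -X.wt a b o ∧ (ex (togS x y o) x ∨ ex (togS x y o) y) := by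
  have h1 := wt_tog' hI (mir_inv hinv) (mir_tn ht) ((cons_mir o).2 hc)
    (by rw [wt_mir]; exact (map_ne_zero _).2 h) (by rw [ex_mir, ex_mir]; exact hex)
  rw [← togS_fl, wt_mir, wt_mir, ex_mir, ex_mir] at h1
  refine ⟨?_, h1.2⟩
  have := congrArg (starRingEnd ℂ) h1.1
  rwa [Complex.conj_conj, map_neg, Complex.conj_conj] at this

open Classical in
/-- **Cancellation of the exchange vertices at the feet of the arcs on both sides.** -/
theorem V_eq2 (X : Net (Fin N)) (a b : Fin N → ℂ) (hinv : ∀ p, X.π (X.π p) = p)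
    (ht : ∀ p, X.t (X.π p) = -X.t p) (LN LS : Finset (Fin N × Fin N))
    (hN : ∀ p ∈ LN, Inner X a b p.1 p.2) (hS : ∀ p ∈ LS, InnerS X a b p.1 p.2)
    (hd : ∀ p ∈ LN, ∀ q ∈ LS, p.1 ≠ q.1 ∧ p.1 ≠ q.2 ∧ p.2 ≠ q.1 ∧ p.2 ≠ q.2) :
    X.V a b = ∑ o : Fin N × Dir → ℤˣ with X.Cons o ∧ (∀ p ∈ LN ∪ LS, ¬ ex o p.1 ∧ ¬ ex o p.2),
      X.wt a b o := by
  rw [V_eq X a b hinv ht LN hN]
  have main : ∀ P : Finset (Fin N × Fin N), P ⊆ LS →
      ∑ o : Fin N × Dir → ℤˣ with X.Cons o ∧ (∀ p ∈ LN, ¬ ex o p.1 ∧ ¬ ex o p.2), X.wt a b o =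
      ∑ o : Fin N × Dir → ℤˣ with X.Cons o ∧ (∀ p ∈ LN ∪ P, ¬ ex o p.1 ∧ ¬ ex o p.2),
        X.wt a b o := by
    intro P
    induction P using Finset.induction_on with
    | empty => intro _; rw [union_empty]
    | insert q P hqP ih =>
      intro hP
      have hq : q ∈ LS := hP (Finset.mem_insert_self _ _)
      have hPL : P ⊆ LS := fun z hz => hP (Finset.mem_insert_of_mem hz)
      rw [ih hPL]
      obtain ⟨x, y⟩ := q
      have hI : InnerS X a b x y := hS _ hq
      set G : (Fin N × Dir → ℤˣ) → Prop := fun o => X.Cons o ∧ ∀ p ∈ LN ∪ P, ¬ ex o p.1 ∧ ¬ ex o p.2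
        with hG
      set B : (Fin N × Dir → ℤˣ) → Prop := fun o => ex o x ∨ ex o y with hB
      rw [← Finset.sum_filter_add_sum_filter_not (s := Finset.univ.filter G) (p := B)]
      have e2 : ((Finset.univ : Finset (Fin N × Dir → ℤˣ)).filter G).filter (fun o => ¬ B o) =
          (Finset.univ : Finset (Fin N × Dir → ℤˣ)).filter (fun o => X.Cons o ∧
            ∀ p ∈ LN ∪ insert (x, y) P, ¬ ex o p.1 ∧ ¬ ex o p.2) := by
        ext o
        simp only [Finset.mem_filter, Finset.mem_univ, true_and, hG, hB, Finset.union_insert,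
          Finset.forall_mem_insert, not_or]
        tauto
      rw [e2]
      have e1 : ∑ o ∈ ((Finset.univ : Finset (Fin N × Dir → ℤˣ)).filter G).filter B, X.wt a b o = 0 := by
        rw [← Finset.sum_filter_ne_zero]
        refine Finset.sum_involution (fun o _ => togS x y o) ?_ ?_ ?_ ?_
        · intro o ho
          simp only [Finset.mem_filter, Finset.mem_univ, true_and, hG, hB] at ho
          rw [(wtS hI hinv ht ho.1.1.1 ho.2 ho.1.2).1]; ring
        · intro o ho hne heq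
          simp only [Finset.mem_filter, Finset.mem_univ, true_and, hG, hB] at ho
          have h1 := (wtS hI hinv ht ho.1.1.1 ho.2 ho.1.2).1
          rw [heq] at h1
          have : X.wt a b o = 0 := by
            have h2 : (2 : ℂ) * X.wt a b o = 0 := by linear_combination h1
            simpa using h2
          exact hne this
        · intro o ho
          simp only [Finset.mem_filter, Finset.mem_univ, true_and, hG, hB] at ho ⊢
          obtain ⟨h1, h2⟩ := wtS hI hinv ht ho.1.1.1 ho.2 ho.1.2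
          refine ⟨⟨⟨?_, fun p hp => ?_⟩, h2⟩, ?_⟩
          · rw [← cons_mir, togS_fl]
            exact cons_tog hI (mir_inv hinv) ((cons_mir o).2 ho.1.1.1)
          · have h3 := ho.1.1.2 p hp
            rcases mem_union.1 hp with hp | hp
            · obtain ⟨d1, d2, d3, d4⟩ := hd p hp _ hq
              rw [togS_keep d1 d2, togS_keep d3 d4]
              exact h3
            · have hJ : Inner (mir X) (cj b) (cj a) p.1 p.2 := hS _ (hPL hp)
              have hI' : Inner (mir X) (cj b) (cj a) x y := hI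
              have hinv' := mir_inv hinv
              have hne : p ≠ (x, y) := fun h => hqP (h ▸ hp)
              have m0 : p.1 ≠ x := by
                intro h
                have h3 := hJ.arc
                rw [h, hI'.arc] at h3
                exact hne (Prod.ext h (congrArg Prod.fst h3).symm)
              have m1 : p.1 ≠ y := by
                intro h
                have h3 := hJ.arc
                rw [h, ← hI'.arc, hinv'] at h3
                have h4 : x = p.2 := congrArg Prod.fst h3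
                have h5 := hJ.lt
                rw [h, ← h4] at h5
                exact absurd h5 (not_lt.2 hI'.lt.le)
              have m2 : p.2 ≠ x := by
                intro h
                have h3 := hJ.arc
                rw [h] at h3
                have h4 := congrArg (mir X).π h3
                rw [hinv', hI'.arc] at h4
                exact m1 (congrArg Prod.fst h4)
              have m3 : p.2 ≠ y := by
                intro h
                have h3 := hJ.arc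
                rw [h, ← hI'.arc] at h3
                have h4 := congrArg (mir X).π h3
                rw [hinv', hinv'] at h4
                exact m0 (congrArg Prod.fst h4)
              rw [togS_keep m0 m1, togS_keep m2 m3]
              exact h3
          · rw [h1]; exact neg_ne_zero.2 ho.2
        · intro o _
          exact togS_togS _ _ _
      rw [e1, zero_add]
  exact main LS (Finset.Subset.refl _)

/-! ### The bound -/

variable {sp : Finset (Fin N)}

/-- the geometric hypotheses on a row network: arcs `LN` above and `LS` below the row -/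
structure RowData2 (X : Net (Fin N)) (sp : Finset (Fin N)) (a b : Fin N → ℂ)
    (LN LS : Finset (Fin N × Fin N)) {m : ℕ} (Ex : Fin m → Finset (Fin N)) : Prop where
  ov : ∀ c, c ∉ sp → a c = zt ^ (4 : ℤ) ∧ b c = zt ^ (-4 : ℤ)
  anc : ∀ z : Fin N, Anch X sp (z, .W) ∧ Anch X sp (z, .E)
  innN : ∀ p ∈ LN, Inner X a b p.1 p.2
  innS : ∀ p ∈ LS, InnerS X a b p.1 p.2
  dis : ∀ p ∈ LN, ∀ q ∈ LS, p.1 ≠ q.1 ∧ p.1 ≠ q.2 ∧ p.2 ≠ q.1 ∧ p.2 ≠ q.2
  cov : ∀ c, c ∉ sp → Anch X sp (c, .N) → (∃ p ∈ LN ∪ LS, c = p.1 ∨ c = p.2) ∨ ∃ k, c ∈ Ex k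
  gap : ∀ k, ∀ c ∈ Ex k, ∀ c' ∈ Ex k, c < c' → (∀ z, c ≤ z → z ≤ c' → z ∉ sp) ∧
    ∀ z z' : Fin N, c ≤ z → z' ≤ c' → (z' : ℕ) = z + 1 →
      X.π (z, .E) = (z', .W) ∧ ¬ Sp X (z, .E)

variable {LN LS : Finset (Fin N × Fin N)} {m : ℕ} {Ex : Fin m → Finset (Fin N)}

lemma RowData2.one (h : RowData2 X sp a b LN LS Ex) {o : Fin N × Dir → ℤˣ} (ho : Adm X sp o)
    (k : Fin m) {c c' : Fin N} (hc : c ∈ Ex k) (hc' : c' ∈ Ex k) (h1 : ex o c) (h2 : ex o c') :
    c = c' := by
  rcases lt_trichotomy c c' with h3 | h3 | h3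
  · exact (one_ex ho h3 (h.gap k c hc c' hc' h3).1 (h.gap k c hc c' hc' h3).2 h1 h2).elim
  · exact h3
  · exact (one_ex ho h3 (h.gap k c' hc' c hc h3).1 (h.gap k c' hc' c hc h3).2 h2 h1).elim

/-- **Pointwise bound of the vertex sum of a row.** -/
theorem V_bound2 (hinv : ∀ x, X.π (X.π x) = x) (hne : ∀ x, X.π x ≠ x)
    (htn : ∀ x, X.t (X.π x) = -X.t x) (h : RowData2 X sp a b LN LS Ex) {U D : Fin N → Fin N}
    {θ : Fin N → ℤ} (hP : Planar X (Kn X sp) U D θ) {M : ℝ} (hM0 : 0 ≤ M)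
    (hM : ∀ c ∈ sp, ∀ w n e s, ‖vert (a c) (b c) w n e s‖ ≤ M) :
    ‖X.V a b‖ ≤ 2 ^ Ne X (Kn X sp) * M ^ sp.card * 2 ^ (4 * sp.card) * 2 ^ m *
      ∏ k, (1 + ((Ex k).card : ℝ)) := by
  classical
  set L := LN ∪ LS with hL
  set K := Kn X sp with hKdef
  have hK : Str X K := Kn_str h.anc
  have hKsp : ∀ c ∈ K, c ∉ sp := fun c hc => Kn_sp hc
  have hn := hP.ori hinv hne hK
  have hovK : ∀ c ∈ K, a c = zt ^ (4 : ℤ) ∧ b c = zt ^ (-4 : ℤ) := fun c hc => h.ov c (hKsp c hc)
  -- the configurations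
  set A : Finset (Fin N × Dir → ℤˣ) := univ.filter (fun o =>
    X.Cons o ∧ (∀ p ∈ L, ¬ ex o p.1 ∧ ¬ ex o p.2) ∧ X.wt a b o ≠ 0) with hA
  have mA : ∀ o, o ∈ A ↔ X.Cons o ∧ (∀ p ∈ L, ¬ ex o p.1 ∧ ¬ ex o p.2) ∧ X.wt a b o ≠ 0 := by
    intro o; simp [hA]
  have eV : X.V a b = ∑ o ∈ A, X.wt a b o := by
    rw [V_eq2 X a b hinv htn LN LS h.innN h.innS h.dis, ← Finset.sum_filter_ne_zero, Finset.filter_filter]
    refine Finset.sum_congr ?_ fun _ _ => rfl
    ext o
    simp only [mem_filter, mem_univ, true_and, mA]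
    tauto
  -- facts about a configuration of nonzero weight
  have plain : ∀ o, X.Cons o → X.wt a b o ≠ 0 → ∀ c, c ∉ sp →
      (o (c, .E) = -o (c, .W) ∧ o (c, .S) = -o (c, .N)) ∨
      (o (c, .W) = -1 ∧ o (c, .E) = -1 ∧ o (c, .N) = 1 ∧ o (c, .S) = 1) := by
    intro o _ hw c hc
    have hv := vert_ne hw c
    rw [(h.ov c hc).1, (h.ov c hc).2] at hv
    rcases Pool.Agent.Q1.M6b.Strand.vert_over hv with h1 | h1
    · exact Or.inl h1
    · exact Or.inr ⟨h1.2.2.1, h1.2.2.2, h1.1, h1.2.1⟩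
  have strK : ∀ o, X.Cons o → X.wt a b o ≠ 0 → ∀ c ∈ K, o (c, .E) = -o (c, .W) ∧
      o (c, .S) = -o (c, .N) := by
    intro o ho hw
    refine noflip hinv hne hK ho fun i hi => ?_
    have hv := vert_ne hw i
    rwa [(hovK i hi).1, (hovK i hi).2] at hv
  -- the representatives
  set rep : (Fin N × Dir → ℤˣ) → Fin N × Dir → ℤˣ := fun o x => if x ∈ VE K then alt K x else o x
    with hrep
  have rep_in : ∀ o x, x ∈ VE K → rep o x = alt K x := fun o x hx => if_pos hx
  have rep_out : ∀ o x, x ∉ VE K → rep o x = o x := fun o x hx => if_neg hx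
  have hrow : ∀ c : Fin N, (c, Dir.W) ∉ VE K ∧ (c, Dir.E) ∉ VE K := by
    intro c; constructor <;> (rw [mem_VE]; simp)
  have repAdm : ∀ o ∈ A, Adm X sp (rep o) := by
    intro o ho
    obtain ⟨hc, _, hw⟩ := (mA o).1 ho
    refine ⟨?_, ?_⟩
    · have q0 : X.x0 ∉ VE K := hK.x0
      have q1 : X.π X.x0 ∉ VE K := hK.x1 hinv
      have q2 : X.y0 ∉ VE K := hK.y0
      have q3 : X.π X.y0 ∉ VE K := hK.y1 hinv
      refine ⟨?_, ?_, ?_, ?_, fun x h1 h2 h3 h4 => ?_⟩
      · rw [rep_out _ _ q0]; exact hc.1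
      · rw [rep_out _ _ q1]; exact hc.2.1
      · rw [rep_out _ _ q2]; exact hc.2.2.1
      · rw [rep_out _ _ q3]; exact hc.2.2.2.1
      · by_cases hx : x ∈ VE K
        · rw [rep_in _ _ hx, rep_in _ _ (hK.mem x hx), hn.wire x hx]
        · rw [rep_out _ _ hx, rep_out _ _ (by rwa [hK.mem_iff hinv]), hc.2.2.2.2 x h1 h2 h3 h4]
    · intro c hcs
      by_cases hcK : c ∈ K
      · left
        have vN : (c, Dir.N) ∈ VE K := by rw [mem_VE]; exact ⟨hcK, Or.inl rfl⟩
        have vS : (c, Dir.S) ∈ VE K := by rw [mem_VE]; exact ⟨hcK, Or.inr rfl⟩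
        rw [rep_out _ _ (hrow c).1, rep_out _ _ (hrow c).2, rep_in _ _ vN, rep_in _ _ vS,
          hn.vert c hcK]
        exact ⟨(strK o hc hw c hcK).1, rfl⟩
      · have vN : (c, Dir.N) ∉ VE K := by rw [mem_VE]; tauto
        have vS : (c, Dir.S) ∉ VE K := by rw [mem_VE]; tauto
        rw [rep_out _ _ (hrow c).1, rep_out _ _ (hrow c).2, rep_out _ _ vN, rep_out _ _ vS]
        exact plain o hc hw c hcs
  have repEx : ∀ o ∈ A, ∀ c, (ex (rep o) c ↔ (c ∉ K ∧ ex o c)) := by
    intro o ho c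
    obtain ⟨hc, _, hw⟩ := (mA o).1 ho
    by_cases hcK : c ∈ K
    · have vN : (c, Dir.N) ∈ VE K := by rw [mem_VE]; exact ⟨hcK, Or.inl rfl⟩
      have vS : (c, Dir.S) ∈ VE K := by rw [mem_VE]; exact ⟨hcK, Or.inr rfl⟩
      constructor
      · intro he
        unfold ex at he
        rw [rep_in _ _ vN, rep_in _ _ vS, hn.vert c hcK] at he
        exact absurd he.symm (ne_self_neg _)
      · exact fun he => absurd hcK he.1
    · have vN : (c, Dir.N) ∉ VE K := by rw [mem_VE]; tauto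
      have vS : (c, Dir.S) ∉ VE K := by rw [mem_VE]; tauto
      unfold ex
      rw [rep_out _ _ vN, rep_out _ _ vS]
      exact ⟨fun he => ⟨hcK, he⟩, fun he => he.2⟩
  set S := A.image rep with hS
  -- number of classes
  have inEx : ∀ o ∈ A, ∀ c, c ∉ sp → c ∉ K → ex o c → ∃ k, c ∈ Ex k := by
    intro o ho c hcs hcK he
    have hN : Anch X sp (c, .N) := by
      by_contra hh; exact hcK (mem_Kn.2 hh)
    rcases h.cov c hcs hN with ⟨p, hp, hp1 | hp1⟩ | hk
    · exact absurd (hp1 ▸ he) (((mA o).1 ho).2.1 p hp).1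
    · exact absurd (hp1 ▸ he) (((mA o).1 ho).2.1 p hp).2
    · exact hk
  have hcard : S.card ≤ 2 ^ (4 * sp.card) * ∏ k, (1 + (Ex k).card) := by
    refine card_le (X := X) (sp := sp) Ex (alt K) S ?_ ?_ ?_ ?_
    · intro o ho
      obtain ⟨o', ho', rfl⟩ := mem_image.1 ho
      exact repAdm o' ho'
    · intro o ho p hp
      obtain ⟨o', ho', rfl⟩ := mem_image.1 ho
      exact rep_in _ _ ((mem_VE_Kn h.anc p).2 hp)
    · intro o ho c hcs he
      obtain ⟨o', ho', rfl⟩ := mem_image.1 ho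
      have h1 := (repEx o' ho' c).1 he
      exact inEx o' ho' c hcs h1.1 h1.2
    · intro o ho k c hc c' hc' h1 h2
      obtain ⟨o', ho', rfl⟩ := mem_image.1 ho
      exact h.one (repAdm o' ho') k hc hc' h1 h2
  -- number of exchanges of a configuration
  have hexc : ∀ o ∈ A, (univ.filter (fun c => c ∉ sp ∧ c ∉ K ∧ ex o c)).card ≤ m := by
    intro o ho
    have hm : (Finset.univ : Finset (Fin m)).card = m := by simp
    rw [← hm]
    refine Finset.card_le_card_of_forall_subsingleton (fun c k => c ∈ Ex k) ?_ ?_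
    · intro c hc
      have hc1 := (mem_filter.1 hc).2
      obtain ⟨k, hk⟩ := inEx o ho c hc1.1 hc1.2.1 hc1.2.2
      exact ⟨k, mem_univ _, hk⟩
    · rintro k _ c ⟨hc, hck⟩ c' ⟨hc', hck'⟩
      have hc1 := (mem_filter.1 hc).2
      have hc2 := (mem_filter.1 hc').2
      exact h.one (repAdm o ho) k hck hck' ((repEx o ho c).2 hc1.2) ((repEx o ho c').2 hc2.2)
  -- the sum over a class
  have hclass : ∀ s ∈ S, ‖∑ o ∈ A with rep o = s, X.wt a b o‖ ≤
      2 ^ Ne X K * (M ^ sp.card * 2 ^ m) := by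
    intro s hs
    obtain ⟨o₀, ho₀, rfl⟩ := mem_image.1 hs
    obtain ⟨hc₀, hL₀, hw₀⟩ := (mA o₀).1 ho₀
    have e1 : ∑ o ∈ A with rep o = rep o₀, X.wt a b o = ∑ o : Fin N × Dir → ℤˣ,
        if X.Cons o ∧ ∀ x, x ∉ VE K → o x = o₀ x then X.wt a b o else 0 := by
      rw [← Finset.sum_filter, ← Finset.sum_filter_ne_zero (s := univ.filter _)]
      refine Finset.sum_congr ?_ fun _ _ => rfl
      ext o
      simp only [mem_filter, mem_univ, true_and, mA]
      constructor
      · rintro ⟨⟨h1, h2, h3⟩, h4⟩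
        refine ⟨⟨h1, fun x hx => ?_⟩, h3⟩
        have := congrFun h4 x
        rwa [rep_out _ _ hx, rep_out _ _ hx] at this
      · rintro ⟨⟨h1, h2⟩, h3⟩
        have hexo : ∀ c, ¬ ex o₀ c → ¬ ex o c := by
          intro c hne' he
          by_cases hcK : c ∈ K
          · have := (strK o h1 h3 c hcK).2
            unfold ex at he
            exact ne_self_neg _ (he.symm.trans this)
          · apply hne'
            unfold ex at he ⊢
            have vN : (c, Dir.N) ∉ VE K := by rw [mem_VE]; tauto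
            have vS : (c, Dir.S) ∉ VE K := by rw [mem_VE]; tauto
            rw [← h2 _ vN, ← h2 _ vS]
            exact he
        refine ⟨⟨h1, fun p hp => ⟨hexo _ (hL₀ p hp).1, hexo _ (hL₀ p hp).2⟩, h3⟩, ?_⟩
        funext x
        by_cases hx : x ∈ VE K
        · rw [rep_in _ _ hx, rep_in _ _ hx]
        · rw [rep_out _ _ hx, rep_out _ _ hx, h2 x hx]
    rw [e1]
    refine (hP.class_sum hinv hne htn hK hovK o₀).trans ?_
    refine mul_le_mul_of_nonneg_left ?_ (by positivity)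
    refine (wtR_norm hM h.ov hKsp o₀).trans ?_
    refine mul_le_mul_of_nonneg_left ?_ (by positivity)
    exact pow_le_pow_right₀ (by norm_num) (hexc o₀ ho₀)
  have hsum : ∑ o ∈ A, X.wt a b o = ∑ s ∈ S, ∑ o ∈ A with rep o = s, X.wt a b o :=
    (Finset.sum_fiberwise_of_maps_to (fun o ho => mem_image_of_mem rep ho) _).symm
  rw [eV, hsum]
  calc ‖∑ s ∈ S, ∑ o ∈ A with rep o = s, X.wt a b o‖
      ≤ ∑ s ∈ S, ‖∑ o ∈ A with rep o = s, X.wt a b o‖ := norm_sum_le _ _
    _ ≤ ∑ _s ∈ S, 2 ^ Ne X K * (M ^ sp.card * 2 ^ m) := Finset.sum_le_sum hclass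
    _ = (S.card : ℝ) * (2 ^ Ne X K * (M ^ sp.card * 2 ^ m)) := by rw [sum_const, nsmul_eq_mul]
    _ ≤ ((2 ^ (4 * sp.card) * ∏ k, (1 + (Ex k).card) : ℕ) : ℝ) *
        (2 ^ Ne X K * (M ^ sp.card * 2 ^ m)) := by
      refine mul_le_mul_of_nonneg_right ?_ (by positivity)
      exact_mod_cast hcard
    _ = _ := by push_cast; ring

/-- **The state sum of a row with coupons `(1, -1)` or over-tiles at the columns of `sp` and over-tiles
elsewhere.** -/
theorem Z_bound2 {p : Fin N → Bool} (hX : X.Good p) (hrow : X.IsRow) {T0 : ℤ}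
    (h0 : ∀ s, X.KT s X.x0 (X.ln s X.x0) = T0) (h : RowData2 X sp a b LN LS Ex) {U D : Fin N → Fin N}
    {θ : Fin N → ℤ} (hP : Planar X (Kn X sp) U D θ)
    (hcp : ∀ c ∈ sp, (a c = 1 ∧ b c = -1) ∨ (a c = zt ^ (4 : ℤ) ∧ b c = zt ^ (-4 : ℤ))) :
    ‖X.Z a b‖ ≤ 2 ^ Ne X (Kn X sp) * 2 ^ (5 * sp.card + m) * ∏ k, (1 + ((Ex k).card : ℝ)) := by
  have h1 := congrArg norm (vertex_eq' hX (row_connected hrow hX.inv) a b T0 h0)
  rw [norm_mul, norm_mul, norm_zpow_zt, norm_zpow_zt, one_mul, one_mul] at h1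
  rw [h1]
  refine (V_bound2 hX.inv hX.ne hX.t_neg h hP (M := 2) (by norm_num) ?_).trans (le_of_eq ?_)
  · intro c hc w n e s
    rcases hcp c hc with hc1 | hc1
    · rw [hc1.1, hc1.2]
      exact coupon_norm w n e s
    · rw [hc1.1, hc1.2]
      refine (vert_norm w n e s).trans ?_
      split_ifs <;> norm_num
  · have e : (2 : ℝ) ^ (5 * sp.card + m) = 2 ^ sp.card * 2 ^ (4 * sp.card) * 2 ^ m := by
      rw [← pow_add, ← pow_add]
      congr 1
      ring
    rw [e]; ring

end Pool.Agent.H81.G1
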