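import Mathlib
import Pool.Agent.H81.G1.Exists

set_option autoImplicit false
open Finset

/-! **The four frames of the tiles; rows of tiles of an environment.**

The label `e = (a, b)` is the tile with the four corners `(a, b)` (south west), `(a+1, b)` (south east),
`(a+1, b+1)` (north east), `(a, b+1)` (north west). In the frame `k` the ends `W, S, E, N` of the tile are
the corners south west, south east, north east, north west, rotated by `k` quarter turns. In the frame `k`
rows have the direction `dv k`. -/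

namespace Pool.Agent.H81.G1

open Pool.Agent.H75.Perc Pool.Agent.H75.TwoArm Pool.Agent.Q1

/-- number of an end, counterclockwise from `W` -/
def Dir.dn : Dir → Fin 4
  | .W => 0 | .S => 1 | .E => 2 | .N => 3

/-- the four corners of a tile, counterclockwise from the south west -/
def offc : Fin 4 → ℤ × ℤ
  | 0 => (0, 0) | 1 => (1, 0) | 2 => (1, 1) | 3 => (0, 1)

/-- the corner at the end `d` in the frame `k` -/
def off (k : Fin 4) (d : Dir) : ℤ × ℤ := offc (k + d.dn)

/-- orientation of the tile `e` in the frame `k` -/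
def pf (k : Fin 4) (e : ℤ × ℤ) : Bool := xor (decide (e.1 % 2 = 1)) (decide (k = 1 ∨ k = 3))

/-- direction of the rows in the frame `k` -/
def dv : Fin 4 → ℤ × ℤ
  | 0 => (1, 1) | 1 => (-1, 1) | 2 => (-1, -1) | 3 => (1, -1)

/-- the corner at the end `x` of the tile `lb x.1` in the frame `k` -/
def crf {ι : Type*} (lb : ι → ℤ × ℤ) (k : Fin 4) (x : ι × Dir) : ℤ × ℤ :=
  ((lb x.1).1 + (off k x.2).1, (lb x.1).2 + (off k x.2).2)

lemma off_row (k : Fin 4) : off k .E = ((dv k).1 + (off k .W).1, (dv k).2 + (off k .W).2) := by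
  fin_cases k <;> rfl

/-- the direction across the rows -/
def uv (k : Fin 4) : ℤ × ℤ := dv (k + 1)

lemma off_col (k : Fin 4) : off k .N = ((uv k).1 + (off k .S).1, (uv k).2 + (off k .S).2) := by
  fin_cases k <;> rfl

lemma frame_tt (k : Fin 4) (e : ℤ × ℤ) (he : (e.1 + e.2) % 2 = 1) (hp : pf k e = true) :
    lab (e.1 + (off k .W).1, e.2 + (off k .W).2) = e ∧
      lab (e.1 + (off k .E).1, e.2 + (off k .E).2) = e ∧
      (e.1 + (off k .W).1, e.2 + (off k .W).2) ≠ (e.1 + (off k .E).1, e.2 + (off k .E).2) ∧
      (e.1 + (off k .N).1, e.2 + (off k .N).2) = nxC (e.1 + (off k .W).1, e.2 + (off k .W).2) ∧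
      (e.1 + (off k .S).1, e.2 + (off k .S).2) = nxC (e.1 + (off k .E).1, e.2 + (off k .E).2) := by
  obtain ⟨a, b⟩ := e
  simp only at he
  have k0 : pf 0 (a, b) = decide (a % 2 = 1) := by simp [pf]
  have k1 : pf 1 (a, b) = !decide (a % 2 = 1) := by simp [pf]
  have k2 : pf 2 (a, b) = decide (a % 2 = 1) := by simp [pf]
  have k3 : pf 3 (a, b) = !decide (a % 2 = 1) := by simp [pf]
  fin_cases k
  · have h : a % 2 = 1 := by
      change pf 0 (a, b) = true at hp
      rw [k0] at hp; exact of_decide_eq_true hp
    have hb : b % 2 = 0 := by omega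
    refine ⟨?_, ?_, ?_, ?_, ?_⟩
    · show lab (a + 0, b + 0) = (a, b)
      unfold lab; simp only; split_ifs <;> simp at * <;> omega
    · show lab (a + 1, b + 1) = (a, b)
      unfold lab; simp only; split_ifs <;> simp at * <;> omega
    · show (a + 0, b + 0) ≠ (a + 1, b + 1)
      intro h; have := congrArg Prod.fst h; simp at this
    · show (a + 0, b + 1) = nxC (a + 0, b + 0)
      unfold nxC; simp only; split_ifs <;> simp at * <;> omega
    · show (a + 1, b + 0) = nxC (a + 1, b + 1)
      unfold nxC; simp only; split_ifs <;> simp at * <;> omega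
  · have h : a % 2 = 0 := by
      change pf 1 (a, b) = true at hp
      rw [k1] at hp; simp at hp; omega
    have hb : b % 2 = 1 := by omega
    refine ⟨?_, ?_, ?_, ?_, ?_⟩
    · show lab (a + 1, b + 0) = (a, b)
      unfold lab; simp only; split_ifs <;> simp at * <;> omega
    · show lab (a + 0, b + 1) = (a, b)
      unfold lab; simp only; split_ifs <;> simp at * <;> omega
    · show (a + 1, b + 0) ≠ (a + 0, b + 1)
      intro h; have := congrArg Prod.fst h; simp at this
    · show (a + 0, b + 0) = nxC (a + 1, b + 0)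
      unfold nxC; simp only; split_ifs <;> simp at * <;> omega
    · show (a + 1, b + 1) = nxC (a + 0, b + 1)
      unfold nxC; simp only; split_ifs <;> simp at * <;> omega
  · have h : a % 2 = 1 := by
      change pf 2 (a, b) = true at hp
      rw [k2] at hp; exact of_decide_eq_true hp
    have hb : b % 2 = 0 := by omega
    refine ⟨?_, ?_, ?_, ?_, ?_⟩
    · show lab (a + 1, b + 1) = (a, b)
      unfold lab; simp only; split_ifs <;> simp at * <;> omega
    · show lab (a + 0, b + 0) = (a, b)
      unfold lab; simp only; split_ifs <;> simp at * <;> omega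
    · show (a + 1, b + 1) ≠ (a + 0, b + 0)
      intro h; have := congrArg Prod.fst h; simp at this
    · show (a + 1, b + 0) = nxC (a + 1, b + 1)
      unfold nxC; simp only; split_ifs <;> simp at * <;> omega
    · show (a + 0, b + 1) = nxC (a + 0, b + 0)
      unfold nxC; simp only; split_ifs <;> simp at * <;> omega
  · have h : a % 2 = 0 := by
      change pf 3 (a, b) = true at hp
      rw [k3] at hp; simp at hp; omega
    have hb : b % 2 = 1 := by omega
    refine ⟨?_, ?_, ?_, ?_, ?_⟩
    · show lab (a + 0, b + 1) = (a, b)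
      unfold lab; simp only; split_ifs <;> simp at * <;> omega
    · show lab (a + 1, b + 0) = (a, b)
      unfold lab; simp only; split_ifs <;> simp at * <;> omega
    · show (a + 0, b + 1) ≠ (a + 1, b + 0)
      intro h; have := congrArg Prod.fst h; simp at this
    · show (a + 1, b + 1) = nxC (a + 0, b + 1)
      unfold nxC; simp only; split_ifs <;> simp at * <;> omega
    · show (a + 0, b + 0) = nxC (a + 1, b + 0)
      unfold nxC; simp only; split_ifs <;> simp at * <;> omega

lemma frame_ff (k : Fin 4) (e : ℤ × ℤ) (he : (e.1 + e.2) % 2 = 1) (hp : pf k e = false) :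
    lab (e.1 + (off k .N).1, e.2 + (off k .N).2) = e ∧
      lab (e.1 + (off k .S).1, e.2 + (off k .S).2) = e ∧
      (e.1 + (off k .N).1, e.2 + (off k .N).2) ≠ (e.1 + (off k .S).1, e.2 + (off k .S).2) ∧
      (e.1 + (off k .E).1, e.2 + (off k .E).2) = nxC (e.1 + (off k .N).1, e.2 + (off k .N).2) ∧
      (e.1 + (off k .W).1, e.2 + (off k .W).2) = nxC (e.1 + (off k .S).1, e.2 + (off k .S).2) := by
  obtain ⟨a, b⟩ := e
  simp only at he
  have k0 : pf 0 (a, b) = decide (a % 2 = 1) := by simp [pf]
  have k1 : pf 1 (a, b) = !decide (a % 2 = 1) := by simp [pf]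
  have k2 : pf 2 (a, b) = decide (a % 2 = 1) := by simp [pf]
  have k3 : pf 3 (a, b) = !decide (a % 2 = 1) := by simp [pf]
  fin_cases k
  · have h : a % 2 = 0 := by
      change pf 0 (a, b) = false at hp
      rw [k0] at hp; have := of_decide_eq_false hp; omega
    have hb : b % 2 = 1 := by omega
    refine ⟨?_, ?_, ?_, ?_, ?_⟩
    · show lab (a + 0, b + 1) = (a, b)
      unfold lab; simp only; split_ifs <;> simp at * <;> omega
    · show lab (a + 1, b + 0) = (a, b)
      unfold lab; simp only; split_ifs <;> simp at * <;> omega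
    · show (a + 0, b + 1) ≠ (a + 1, b + 0)
      intro h; have := congrArg Prod.fst h; simp at this
    · show (a + 1, b + 1) = nxC (a + 0, b + 1)
      unfold nxC; simp only; split_ifs <;> simp at * <;> omega
    · show (a + 0, b + 0) = nxC (a + 1, b + 0)
      unfold nxC; simp only; split_ifs <;> simp at * <;> omega
  · have h : a % 2 = 1 := by
      change pf 1 (a, b) = false at hp
      rw [k1] at hp; simpa using hp
    have hb : b % 2 = 0 := by omega
    refine ⟨?_, ?_, ?_, ?_, ?_⟩
    · show lab (a + 0, b + 0) = (a, b)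
      unfold lab; simp only; split_ifs <;> simp at * <;> omega
    · show lab (a + 1, b + 1) = (a, b)
      unfold lab; simp only; split_ifs <;> simp at * <;> omega
    · show (a + 0, b + 0) ≠ (a + 1, b + 1)
      intro h; have := congrArg Prod.fst h; simp at this
    · show (a + 0, b + 1) = nxC (a + 0, b + 0)
      unfold nxC; simp only; split_ifs <;> simp at * <;> omega
    · show (a + 1, b + 0) = nxC (a + 1, b + 1)
      unfold nxC; simp only; split_ifs <;> simp at * <;> omega
  · have h : a % 2 = 0 := by
      change pf 2 (a, b) = false at hp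
      rw [k2] at hp; have := of_decide_eq_false hp; omega
    have hb : b % 2 = 1 := by omega
    refine ⟨?_, ?_, ?_, ?_, ?_⟩
    · show lab (a + 1, b + 0) = (a, b)
      unfold lab; simp only; split_ifs <;> simp at * <;> omega
    · show lab (a + 0, b + 1) = (a, b)
      unfold lab; simp only; split_ifs <;> simp at * <;> omega
    · show (a + 1, b + 0) ≠ (a + 0, b + 1)
      intro h; have := congrArg Prod.fst h; simp at this
    · show (a + 0, b + 0) = nxC (a + 1, b + 0)
      unfold nxC; simp only; split_ifs <;> simp at * <;> omega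
    · show (a + 1, b + 1) = nxC (a + 0, b + 1)
      unfold nxC; simp only; split_ifs <;> simp at * <;> omega
  · have h : a % 2 = 1 := by
      change pf 3 (a, b) = false at hp
      rw [k3] at hp; simpa using hp
    have hb : b % 2 = 0 := by omega
    refine ⟨?_, ?_, ?_, ?_, ?_⟩
    · show lab (a + 1, b + 1) = (a, b)
      unfold lab; simp only; split_ifs <;> simp at * <;> omega
    · show lab (a + 0, b + 0) = (a, b)
      unfold lab; simp only; split_ifs <;> simp at * <;> omega
    · show (a + 1, b + 1) ≠ (a + 0, b + 0)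
      intro h; have := congrArg Prod.fst h; simp at this
    · show (a + 1, b + 0) = nxC (a + 1, b + 1)
      unfold nxC; simp only; split_ifs <;> simp at * <;> omega
    · show (a + 0, b + 1) = nxC (a + 0, b + 0)
      unfold nxC; simp only; split_ifs <;> simp at * <;> omega

variable {ι : Type*} [Fintype ι] [DecidableEq ι] {X : Env} {lb : ι → ℤ × ℤ}

omit [Fintype ι] [DecidableEq ι] in
/-- **the tiles of an environment in the frame `k`** -/
theorem tiles_frame (X : Env) (k : Fin 4) (hinj : Function.Injective lb) (hmem : ∀ i, lb i ∈ X.E)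
    (hsurj : ∀ e ∈ X.E, ∃ i, lb i = e) : Tiles X lb (fun i => pf k (lb i)) (crf lb k) where
  inj := hinj
  mem := hmem
  surj := hsurj
  tt := fun i h => frame_tt k (lb i) (X.odd _ (hmem i)) h
  ff := fun i h => frame_ff k (lb i) (X.odd _ (hmem i)) h

section
variable {p : ι → Bool} {cr : ι × Dir → ℤ × ℤ}

omit [DecidableEq ι] in
/-- ends with the same corner are joined by a wire without turning -/
lemma wire_zero (T : Tiles X lb p cr) {x y : ι × Dir} (hx : inc p x = false)
    (hy : inc p y = true) (h : cr x = cr y) :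
    wπ T x = y ∧ wπ T y = x ∧ wτ T x = 0 ∧ wτ T y = 0 := by
  obtain ⟨h1, h2⟩ := wired_pi T (n := 0) hx hy (fun i hi => absurd hi (Nat.not_lt_zero i)) h
  have e1 : wπ T x = y := by unfold wπ; rw [if_pos hx, h2]
  have e2 : wπ T y = x := by rw [← e1, wπ_wπ]
  have e3 : wτ T x = 0 := by
    unfold wτ; rw [if_pos hx]; unfold wt; rw [h1]; rfl
  refine ⟨e1, e2, e3, ?_⟩
  rw [← e1, wτ_wπ, e3, neg_zero]

end

/-- neighbours have different orientations -/
lemma pf_dv (k l : Fin 4) (e : ℤ × ℤ) : pf k (e.1 + (dv l).1, e.2 + (dv l).2) = !pf k e := by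
  unfold pf
  have : decide ((e.1 + (dv l).1) % 2 = 1) = !decide (e.1 % 2 = 1) := by
    have hd : (dv l).1 = 1 ∨ (dv l).1 = -1 := by
      fin_cases l
      · exact Or.inl rfl
      · exact Or.inr rfl
      · exact Or.inr rfl
      · exact Or.inl rfl
    by_cases h : e.1 % 2 = 1
    · have h2 : ¬ (e.1 + (dv l).1) % 2 = 1 := by omega
      rw [decide_eq_true h, decide_eq_false h2]; rfl
    · have h2 : (e.1 + (dv l).1) % 2 = 1 := by omega
      rw [decide_eq_false h, decide_eq_true h2]; rfl
  rw [this]
  cases decide (e.1 % 2 = 1) <;> cases decide (k = 1 ∨ k = 3) <;> rfl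

omit [DecidableEq ι] in
/-- **neighbours along a row are joined by a wire without turning** -/
theorem wire_row {k : Fin 4} (T : Tiles X lb (fun i => pf k (lb i)) (crf lb k)) {i j : ι}
    (h : lb j = ((lb i).1 + (dv k).1, (lb i).2 + (dv k).2)) :
    wπ T (i, .E) = (j, .W) ∧ wπ T (j, .W) = (i, .E) ∧ wτ T (i, .E) = 0 ∧ wτ T (j, .W) = 0 := by
  have hc : crf lb k (i, .E) = crf lb k (j, .W) := by
    unfold crf
    simp only
    rw [h, off_row]
    ext <;> simp only <;> ring
  have hp : pf k (lb j) = !pf k (lb i) := by rw [h, pf_dv]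
  cases hi : pf k (lb i)
  · have h1 : inc (fun i => pf k (lb i)) ((i, .E) : ι × Dir) = false := by
      unfold inc; simp only [hi]; rfl
    have h2 : inc (fun i => pf k (lb i)) ((j, .W) : ι × Dir) = true := by
      unfold inc; simp only [hp, hi]; rfl
    exact wire_zero T h1 h2 hc
  · have h1 : inc (fun i => pf k (lb i)) ((i, .E) : ι × Dir) = true := by
      unfold inc; simp only [hi]; rfl
    have h2 : inc (fun i => pf k (lb i)) ((j, .W) : ι × Dir) = false := by
      unfold inc; simp only [hp, hi]; rfl
    obtain ⟨q1, q2, q3, q4⟩ := wire_zero T h2 h1 hc.symm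
    exact ⟨q2, q1, q4, q3⟩

omit [DecidableEq ι] in
/-- **neighbours across the rows are joined by a wire without turning** -/
theorem wire_col {k : Fin 4} (T : Tiles X lb (fun i => pf k (lb i)) (crf lb k)) {i j : ι}
    (h : lb j = ((lb i).1 + (uv k).1, (lb i).2 + (uv k).2)) :
    wπ T (i, .N) = (j, .S) ∧ wπ T (j, .S) = (i, .N) ∧ wτ T (i, .N) = 0 ∧ wτ T (j, .S) = 0 := by
  have hc : crf lb k (i, .N) = crf lb k (j, .S) := by
    unfold crf
    simp only
    rw [h, off_col]
    ext <;> simp only <;> ring
  have hp : pf k (lb j) = !pf k (lb i) := by rw [h]; exact pf_dv k (k + 1) (lb i)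
  cases hi : pf k (lb i)
  · have h1 : inc (fun i => pf k (lb i)) ((i, .N) : ι × Dir) = true := by
      unfold inc; simp only [hi]; rfl
    have h2 : inc (fun i => pf k (lb i)) ((j, .S) : ι × Dir) = false := by
      unfold inc; simp only [hp, hi]; rfl
    obtain ⟨q1, q2, q3, q4⟩ := wire_zero T h2 h1 hc.symm
    exact ⟨q2, q1, q4, q3⟩
  · have h1 : inc (fun i => pf k (lb i)) ((i, .N) : ι × Dir) = false := by
      unfold inc; simp only [hi]; rfl
    have h2 : inc (fun i => pf k (lb i)) ((j, .S) : ι × Dir) = true := by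
      unfold inc; simp only [hp, hi]; rfl
    exact wire_zero T h1 h2 hc

/-! ### Rows -/

/-- the labels of the row of `N` tiles from `e` in the frame `k` -/
def rowl (k : Fin 4) (e : ℤ × ℤ) (N : ℕ) (c : Fin N) : ℤ × ℤ :=
  (e.1 + (c : ℕ) * (dv k).1, e.2 + (c : ℕ) * (dv k).2)

lemma rowl_inj (k : Fin 4) (e : ℤ × ℤ) (N : ℕ) : Function.Injective (rowl k e N) := by
  intro c c' h
  have h1 := congrArg Prod.fst h
  unfold rowl at h1
  simp only at h1
  have hd : (dv k).1 = 1 ∨ (dv k).1 = -1 := by
    fin_cases k
    · exact Or.inl rfl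
    · exact Or.inr rfl
    · exact Or.inr rfl
    · exact Or.inl rfl
  apply Fin.ext
  rcases hd with h2 | h2 <;> rw [h2] at h1 <;> omega

lemma rowl_succ (k : Fin 4) (e : ℤ × ℤ) {N : ℕ} (c c' : Fin N) (h : (c' : ℕ) = c + 1) :
    rowl k e N c' = ((rowl k e N c).1 + (dv k).1, (rowl k e N c).2 + (dv k).2) := by
  unfold rowl
  rw [h]
  push_cast
  ext <;> simp only <;> ring

/-- **the network of an environment whose random tiles are a row** -/
theorem row_net {k : Fin 4} {N : ℕ} {lb : Fin N → ℤ × ℤ}
    (T : Tiles X lb (fun i => pf k (lb i)) (crf lb k)) (hm : Meets X) (y : Fin N × Dir)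
    (hrow : ∀ c c' : Fin N, (c' : ℕ) = c + 1 →
      lb c' = ((lb c).1 + (dv k).1, (lb c).2 + (dv k).2)) :
    (net T hm y).IsRow ∧ (net T hm y).Connected ∧
      ∀ c c' : Fin N, (c' : ℕ) = c + 1 → (net T hm y).t (c, .E) = 0 := by
  have h1 : (net T hm y).IsRow := fun c c' h => (wire_row T (hrow c c' h)).1
  exact ⟨h1, row_connected h1 (wπ_wπ T), fun c c' h => (wire_row T (hrow c c' h)).2.2.1⟩

end Pool.Agent.H81.G1
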