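import Pool.Agent.H81.G1.LpFin

set_option autoImplicit false
set_option linter.unusedSectionVars false
open Finset

/-! # The data of `g1_row` for an abstract environment

`data_abs` : as `data_XF'`, from the layers, the geometry of the row, the frames, the glued configuration
and the randomness of the labels near the row. -/

namespace Pool.Agent.H81.G1

open Pool.Agent.H75.Perc Pool.Agent.H75.TwoArm Pool.Agent.Q1 Pool.Agent.H30.Mid
open Pool.Agent.H69.M6b (lbt lbt_inj lbt_odd pr0 Lay3 lbt_diff zr AX hX ctz rad Ref Near sd amp_first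
  rad_in rad_sep zz_czz)
open Pool.Agent.Q1.M6b.Strand Pool.Agent.Q1.M6b.ExN Pool.Agent.Q1.M6b.PB Pool.Agent.Q1.M6b.Nest
open Pool.Agent.Q1.M6b.Gd
open Pool.Agent.Q1.M6b.Gl
open Pool.Agent.Q1.M6b (dy mem_dy cells)
open Pool.Agent.H34.Q1 Pool.Agent.H53.G1 Pool.Agent.H99.NC

section

variable {N : ℕ} {x0 y0 : ℤ} {ι : Type*} [Fintype ι] [DecidableEq ι]

/-- **The bound of the amplitude of the reference configuration.** -/
theorem ar_coreG {X : Env} {ζ L : Finset (ℤ × ℤ)} (h : HasRow X N x0 y0)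
    (ho : OutL (X.freeze (RS N x0 y0) ζ) L) (F : Frame L N x0 y0) {g s0 : ℕ} (hEU : F.EU.card + F.ED.card ≤ g)
    (hroot : ¬ F.In (plab X.c0))
    {y : Fin N × Dir} (hy : inc (rp x0 y0) y = true) {k0 : Fin N} (hyk : y = (k0, .W) ∨ y = (k0, .E))
    {k : ℕ} (hpos : pos y = k) {b : ℤ} (hb : 4 ≤ b) {Lv : ι → ℕ} {cc : ι → ℤ} {x1 : ι → Fin N}
    {e : ι → Bool} (hW : Wnd N k b Lv cc x1)
    (near : ∀ i, Lv i ≠ 0 → ∃ S : Finset (Fin N), S.card ≤ 2 ∧ ∀ c : Fin N,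
      |((c : ℕ) : ℤ) - cc i| ≤ 8 * b ^ Lv i - 2 → c ∉ S → ∀ c',
      (if e i then opt F.EU F.U else opt F.ED F.D) c = some c' →
      |((c' : ℕ) : ℤ) - cc i| ≤ Rw b (Lv i) ∧ ¬ (c < x1 i ∧ x1 i < c') ∧ ¬ (c' < x1 i ∧ x1 i < c))
    {E WG ω z' : Finset (ℤ × ℤ)} (hd : Disjoint E WG) (hL : GLab F (z' ∪ WG))
    {In Out : ι → Finset (ℤ × ℤ)} (hsub : ∀ i, In i ⊆ Out i) (hOE : ∀ i, Out i ⊆ E)
    (hI0 : ∀ i, Lv i = 0 → Out i = ∅)
    (hI1 : ∀ i, Lv i ≠ 0 → ∀ q ∈ In i, |q.1 - (x0 - y0 + 1 + cc i)| ≤ 8 * b ^ Lv i + 1 ∧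
      (q.1 + q.2) % 2 = 1)
    (hO1 : ∀ i, Lv i ≠ 0 → ∀ q ∈ Out i, |q.1 - (x0 - y0 + 1 + cc i)| ≤ Rw b (Lv i))
    (hag : ∀ q, (∀ i, q ∉ In i) → (q ∈ z' ↔ q ∈ ω))
    (hfar : ∀ i, Lv i ≠ 0 → ∀ z, FarIn (In i) (Out i) z' z → ∃ n : ℕ,
      ((∀ t < n, lab ((nx z')^[t] z) ∈ E) ∧ (nx z')^[n] z = sc x0 y0 (x1 i)) ∨
      ((∀ t < n, lab ((nx z')^[t] (sc x0 y0 (x1 i))) ∈ E) ∧ (nx z')^[n] (sc x0 y0 (x1 i)) = z))
    {Sw : Finset ℤ} (hSw : Sw.card ≤ s0) {R0 : ℕ} (hR0 : 2 ≤ R0)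
    (one : ∀ Sp : Finset ℤ, Sw ⊆ Sp → ∀ G : Set (ℤ × ℤ), (∀ q ∈ G, (q.1 + q.2) % 2 = 1) →
      ∀ c : Fin N, ∀ M : ℤ, 1 ≤ M → Dst Sp R0 (sc x0 y0 c) M → OneType E WG G (sc x0 y0 c) M)
    (hfin : (Lp (ω ∪ WG) (vx (sm true y0 (x0 - y0 + 1 + (k : ℕ))))).Finite) :
    ‖AR X x0 y0 y (cA (univ.image x1) (zt ^ (4 : ℤ))) (cB (univ.image x1) (zt ^ (-4 : ℤ))) ζ‖ ≤
      2 ^ ((Lp (ω ∪ WG) (vx (sm true y0 (x0 - y0 + 1 + (k : ℕ))))).ncard + 1) *
      gF (4 * Fintype.card ι + g + 2) (Fintype.card ι + g) (Fintype.card ι) (11 * Fintype.card ι + (s0 + 2)) N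
        E WG WG (HN y0) (HS y0) (sc x0 y0) (sc x0 y0) R0 R0 ω := by
  classical
  have hWR := hW.winR hb (p := pos y) hpos near
  set Sp : Finset ℤ := (Zc N (pos y) (lw b Lv cc) x1).image (fun z : ℕ => x0 - y0 + 1 + (z : ℤ)) ∪
    Sb (x0 - y0 + 1) b Lv cc ∪ Sw with hSp
  have hSpc : Sp.card ≤ 11 * Fintype.card ι + (s0 + 2) := by
    rw [hSp]
    refine (card_union_le _ _).trans ?_
    have h1 : ((Zc N (pos y) (lw b Lv cc) x1).image (fun z : ℕ => x0 - y0 + 1 + (z : ℤ)) ∪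
      Sb (x0 - y0 + 1) b Lv cc).card ≤ (3 * Fintype.card ι + 2) + 8 * Fintype.card ι :=
      (card_union_le _ _).trans (Nat.add_le_add (card_image_le.trans card_Zc) card_Sb)
    omega
  have hag' : ∀ q, q ∉ {q : ℤ × ℤ | ∃ i, q ∈ In i} → (q ∈ z' ∪ WG ↔ q ∈ ω ∪ WG) := by
    intro q hq
    rw [mem_union, mem_union, hag q (fun i hi => hq ⟨i, hi⟩)]
  have hex : ExD N (ω ∪ WG) (z' ∪ WG) E WG {q | ∃ i, q ∈ In i} (x0 - y0 + 1) y0
      (Zc N (pos y) (lw b Lv cc) x1) Sp R0 (Iw N b Lv cc) :=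
    { cuts := fun z hz => by
        rw [hSp]
        exact mem_union_left _ (mem_union_left _ (mem_image_of_mem _ hz))
      r0 := hR0
      oneN := fun c M hM1 hM => one Sp (by rw [hSp]; exact subset_union_right) _ HN_odd c M hM1 hM
      oneS := fun c M hM1 hM => one Sp (by rw [hSp]; exact subset_union_right) _ HS_odd c M hM1 hM
      agr := hag'
      box := fun c hc M hM q hq => by
        obtain ⟨i, hi⟩ := hq
        by_cases hl : Lv i = 0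
        · have := hsub i hi
          rw [hI0 i hl] at this
          exact absurd this (notMem_empty _)
        · obtain ⟨h1, h2⟩ := hI1 i hl q hi
          exact box_far (by rw [hSp]; exact subset_union_right.trans subset_union_left) hl (hc i) hM
            h1 h2 }
  have key := ar_bound h ho F hroot hy hyk hWR hL hex hsub
    (fun i z hz => by
      have hl : Lv i ≠ 0 := by
        intro hl
        have h1 := hsub i hz.1
        rw [hI0 i hl] at h1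
        exact absurd h1 (notMem_empty _)
      obtain ⟨n, h1⟩ := hfar i hl z (farIn_sub hd (hOE i) hz)
      refine ⟨n, x1 i, mem_image_of_mem _ (mem_univ _), ?_⟩
      rcases h1 with ⟨h2, h3⟩ | ⟨h2, h3⟩
      · left
        rw [path_sub hd h2]
        exact h3
      · right
        have h4 := path_sub (WG := WG) hd h2
        rw [h3] at h4
        exact h4)
    (fun i => by
      by_cases hl : Lv i = 0
      · left
        intro c hc
        rw [hI0 i hl] at hc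
        exact absurd hc (notMem_empty _)
      · have hnear : ∀ c : Fin N, lab (sm true y0 (x0 - y0 + 1 + (c : ℕ))) ∈ Out i →
            |((c : ℕ) : ℤ) - cc i| ≤ Rw b (Lv i) + 1 := by
          intro c hc
          have h1 := hO1 i hl _ hc
          have h2 := (lab_near (sm true y0 (x0 - y0 + 1 + (c : ℕ)))).1
          have e1 : (sm true y0 (x0 - y0 + 1 + (c : ℕ))).1 = x0 - y0 + 1 + (c : ℕ) := by
            unfold sm; simp
          rw [e1] at h2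
          rw [abs_le] at h1 h2 ⊢
          omega
        rcases hW.mark i hl with h1 | h1
        · left
          intro c hc
          have h2 := hnear c hc
          rw [abs_le] at h2
          omega
        · right
          intro c hc
          have h2 := hnear c hc
          rw [abs_le] at h2
          omega)
    (by rw [hpos]; exact hfin)
  rw [hpos] at key
  refine key.trans ?_
  rw [mul_assoc]
  refine mul_le_mul_of_nonneg_left ?_ (by positivity)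
  have hT : TEE N (ω ∪ WG) E WG (x0 - y0 + 1) y0 Sp R0 ≤
      TB N (ω ∪ WG) E WG (HN y0) (sc x0 y0) (11 * Fintype.card ι + (s0 + 2)) R0 +
        TB N (ω ∪ WG) E WG (HS y0) (sc x0 y0) (11 * Fintype.card ι + (s0 + 2)) R0 := by
    unfold TEE
    exact Nat.add_le_add (TE_le_TB hSpc) (TE_le_TB hSpc)
  unfold gF
  have hn : (0 : ℝ) ≤ ((6 * Fintype.card ι + TEE N (ω ∪ WG) E WG (x0 - y0 + 1) y0 Sp R0 : ℕ) : ℝ) :=
    Nat.cast_nonneg _
  have hT' : ((6 * Fintype.card ι + TEE N (ω ∪ WG) E WG (x0 - y0 + 1) y0 Sp R0 : ℕ) : ℝ) ≤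
      ((6 * Fintype.card ι + TB N (ω ∪ WG) E WG (HN y0) (sc x0 y0) (11 * Fintype.card ι + (s0 + 2)) R0 +
        TB N (ω ∪ WG) E WG (HS y0) (sc x0 y0) (11 * Fintype.card ι + (s0 + 2)) R0 : ℕ) : ℝ) := by
    have : 6 * Fintype.card ι + TEE N (ω ∪ WG) E WG (x0 - y0 + 1) y0 Sp R0 ≤
      6 * Fintype.card ι + TB N (ω ∪ WG) E WG (HN y0) (sc x0 y0) (11 * Fintype.card ι + (s0 + 2)) R0 +
        TB N (ω ∪ WG) E WG (HS y0) (sc x0 y0) (11 * Fintype.card ι + (s0 + 2)) R0 := by omega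
    exact_mod_cast this
  refine mul_le_mul ?_ ?_ (by positivity) (by positivity)
  · exact pow_le_pow_right₀ (by norm_num) (by omega)
  · refine (pow_le_pow_left₀ (by linarith) (by linarith) _).trans
      (pow_le_pow_right₀ (by linarith) (by omega))


end

variable {X : Env} {EL EU WG : Finset (ℤ × ℤ)} {N : ℕ} {xr y0 : ℤ}

/-- the factor `g` of `g1_row` for an abstract environment with at most `g` gate columns and `s0` special
columns of the walls, `m` coupons -/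
noncomputable def gA (N : ℕ) (EL EU WG : Finset (ℤ × ℤ)) (xr y0 : ℤ) (g s0 m R0 : ℕ)
    (ω : Finset (ℤ × ℤ)) : ℝ :=
  gF (4 * m + g + 2) (m + g) m (11 * m + (s0 + 2)) N (gE EL EU (1, -1)) WG WG (HN y0) (HS y0)
    (sc xr y0) (sc xr y0) R0 R0 ω

lemma gA_nonneg (g s0 m R0 : ℕ) (ω : Finset (ℤ × ℤ)) : 0 ≤ gA N EL EU WG xr y0 g s0 m R0 ω :=
  gF_nonneg ..

/-- **The moment of `g`.** -/
theorem gA_root (g s0 m A : ℕ) (ε : ℝ) (hε : 0 < ε) : ∃ C : ℝ, 1 ≤ C ∧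
    ∀ (N : ℕ) (EL EU WG : Finset (ℤ × ℤ)) (xr y0 : ℤ) (R0 : ℕ) (R : ℝ),
    (∀ e ∈ gE EL EU (1, -1), (e.1 + e.2) % 2 = 1) → 2 ≤ R0 → (R0 : ℝ) ≤ R → N ≤ A * R0 →
    (Ex (cp (1 / 2)) (gE EL EU (1, -1))
      (fun ω => gA N EL EU WG xr y0 g s0 m R0 ω ^ 10)) ^ (1 / 10 : ℝ) ≤ C * R ^ ε := by
  obtain ⟨C, hC, hg⟩ := gF_root (4 * m + g + 2) (m + g) m (11 * m + (s0 + 2)) A 0 ε hε
  refine ⟨C, hC, ?_⟩
  intro N EL EU WG xr y0 R0 R hE h2 hR hN
  exact hg N _ _ _ _ _ _ _ R0 R0 R hE (sc_slope N xr y0) (sc_slope N xr y0) h2 h2 hR hR hN hN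

/-- **The data of `g1_row` for an abstract environment.** -/
theorem data_abs (L3 : Lay3 X N xr y0 EL EU) {b K K0 : ℤ} (hb : 6 ≤ b) (hK0 : 1 ≤ K0)
    (hK : K0 * (4 * b + 8) + 1 ≤ K) {k : ℕ} (hk1 : 1 ≤ k) (hkN : k + 1 ≤ N)
    (hgeo : RowGeo (gE EL EU (1, -1)) (zr xr y0 k) K0 k (N - k)) {y : Fin N × Dir}
    (hy : inc (rp xr y0) y = true) {k0 : Fin N} (hyk : y = (k0, .W) ∨ y = (k0, .E))
    (hpos : pos y = k) (hd : Disjoint (gE EL EU (1, -1)) WG) {g s0 : ℕ}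
    (fr : ∀ ζ, ζ ⊆ gE EL EU (1, -1) → ∃ (L : Finset (ℤ × ℤ)) (F : Frame L N xr y0),
      OutL (X.freeze (RS N xr y0) (ug EL EU (1, -1) ζ)) L ∧ ¬ F.In (plab X.c0) ∧
      GLab F (ζ ∪ WG) ∧ F.EU.card + F.ED.card ≤ g)
    {Sw : Finset ℤ} (hSw : Sw.card ≤ s0) {R0 : ℕ} (hR : 2 ≤ R0)
    (nr : ∀ (c : Fin N) (M : ℤ), 1 ≤ M → M ≤ R0 → (∀ s ∈ Sw, M ≤ |(sc xr y0 c).1 - s|) →
      ∀ e : ℤ × ℤ, (e.1 + e.2) % 2 = 1 → |e.1 - (sc xr y0 c).1| ≤ M → |e.2 - (sc xr y0 c).2| ≤ M →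
      e ∈ gE EL EU (1, -1))
    {S m₁ m₂ : ℕ} {k₁ : Fin m₁ → ℕ × ℤ} {k₂ : Fin m₂ → ℕ × ℤ} (hk₁ : k₁ ∈ cells b K S m₁ k)
    (hk₂ : k₂ ∈ cells b K S m₂ (N - k)) {Lv : Fin m₁ ⊕ Fin m₂ → ℕ} {yv : Fin m₁ ⊕ Fin m₂ → ℤ}
    (hL : Lv ∈ Lev (lv2 k₁ k₂)) (hyv : yv ∈ Num b (lv2 k₁ k₂) (nu2 k₁ k₂) Lv)
    {ω : Finset (ℤ × ℤ)} (hω : ω ⊆ gE EL EU (1, -1))
    (hS : Stops b (lv2 k₁ k₂) (fun i => badB b (zz (zr xr y0 k) i) (gE EL EU (1, -1))) Lv yv ω) :
    ∃ A hh, AmpData b (zz (zr xr y0 k)) Lv yv ω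
      (fun x ζ => Amp X xr y0 y (zt ^ (4 : ℤ)) (zt ^ (-4 : ℤ)) EL EU k (cols2 x) ζ) A hh ∧
      ‖A‖ ≤ 2 ^ ((Lp (ω ∪ WG) (vx (sm true y0 (xr - y0 + 1 + (k : ℕ))))).ncard + 1) *
        gA N EL EU WG xr y0 g s0 (m₁ + m₂) R0 ω := by
  classical
  unfold gA
  have hb4 : 4 ≤ b := by omega
  have hKb : K0 * (2 * b + 2) + 1 ≤ K := by nlinarith
  have hKc : 4 * b + 9 ≤ K := by nlinarith
  have hoE : ∀ i, Lv i ≠ 0 → OutB b (zz (zr xr y0 k) i) (Lv i) (yv i) ⊆ gE EL EU (1, -1) :=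
    fun i hi => out_sub hb4 hgeo (by omega) hKb hk₁ hk₂ hL hyv hi
  have uniq : ∀ i, Lv i ≠ 0 → ∀ a a', FarIn (InB b (zz (zr xr y0 k) i) (Lv i) (yv i))
      (OutB b (zz (zr xr y0 k) i) (Lv i) (yv i)) ω a →
      FarIn (InB b (zz (zr xr y0 k) i) (Lv i) (yv i))
      (OutB b (zz (zr xr y0 k) i) (Lv i) (yv i)) ω a' → a = a' := by
    intro i hi a a' ha ha'
    have h2 := (hS i).1
    refine Pool.Agent.H65.G1.far_unique_box hb (hoE i hi) ?_ ha ha'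
    rcases h2 with h2 | h2
    · exact absurd h2 hi
    · exact h2
  have hyk' : (y.1 : ℕ) = k ∨ (y.1 : ℕ) + 1 = k := by
    rcases hyk with e1 | e1
    · left; rw [← hpos, e1]; rfl
    · right; rw [← hpos, e1]; rfl
  obtain ⟨A, hA, hA2⟩ := amp_first L3 hb4 (by omega) hK (by omega) hgeo hy hyk' hk₁ hk₂ hL hyv uniq
  refine ⟨A, _, hA, ?_⟩
  have hg1 : (1 : ℝ) ≤ 2 ^ ((Lp (ω ∪ WG) (vx (sm true y0 (xr - y0 + 1 + (k : ℕ))))).ncard + 1) *
      gF (4 * (m₁ + m₂) + g + 2) (m₁ + m₂ + g) (m₁ + m₂) (11 * (m₁ + m₂) + (s0 + 2)) N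
        (gE EL EU (1, -1)) WG WG (HN y0) (HS y0) (sc xr y0) (sc xr y0) R0 R0 ω := by
    unfold gF
    refine one_le_mul_of_one_le_of_one_le (one_le_pow₀ (by norm_num))
      (one_le_mul_of_one_le_of_one_le (one_le_pow₀ (by norm_num)) (one_le_pow₀ ?_))
    exact le_add_of_nonneg_right (Nat.cast_nonneg _)
  rcases hA2 with hA2 | ⟨η0, hη0, x1, e, hm, hne, hAn, hRef, hCon⟩
  · exact hA2.trans hg1
  set V := univ.biUnion (Wi b (zz (zr xr y0 k)) Lv yv) with hV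
  set z' := ω \ V ∪ η0 with hz'
  -- the boxes
  set In : Fin m₁ ⊕ Fin m₂ → Finset (ℤ × ℤ) := Wi b (zz (zr xr y0 k)) Lv yv with hIn
  set Out : Fin m₁ ⊕ Fin m₂ → Finset (ℤ × ℤ) := fun i =>
    if Lv i = 0 then ∅ else OutB b (zz (zr xr y0 k) i) (Lv i) (yv i) with hOut
  have eIn : ∀ i, Lv i ≠ 0 → In i = InB b (zz (zr xr y0 k) i) (Lv i) (yv i) := by
    intro i hi
    rw [hIn]; unfold Wi; rw [if_neg hi]
  have eOut : ∀ i, Lv i ≠ 0 → Out i = OutB b (zz (zr xr y0 k) i) (Lv i) (yv i) := by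
    intro i hi
    rw [hOut]; simp only; rw [if_neg hi]
  have hsub : ∀ i, In i ⊆ Out i := by
    intro i
    by_cases hi : Lv i = 0
    · rw [hIn]; unfold Wi; rw [if_pos hi]; exact empty_subset _
    · rw [eIn i hi, eOut i hi]; exact in_out_B hb4 _ _ _
  have hOE : ∀ i, Out i ⊆ gE EL EU (1, -1) := by
    intro i
    by_cases hi : Lv i = 0
    · rw [hOut]; simp only; rw [if_pos hi]; exact empty_subset _
    · rw [eOut i hi]; exact hoE i hi
  have hz'E : z' ⊆ gE EL EU (1, -1) := by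
    intro q hq
    rw [hz', mem_union, mem_sdiff] at hq
    rcases hq with hq | hq
    · exact hω hq.1
    · have h2 := hη0 hq
      rw [hV, mem_biUnion] at h2
      obtain ⟨i, -, h3⟩ := h2
      exact hOE i (hsub i h3)
  have hag : ∀ q, (∀ i, q ∉ In i) → (q ∈ z' ↔ q ∈ ω) := by
    intro q hq
    have hqV : q ∉ V := by
      rw [hV, mem_biUnion]
      rintro ⟨i, -, h3⟩
      exact hq i h3
    rw [hz', mem_union, mem_sdiff]
    constructor
    · rintro (h3 | h3)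
      · exact h3.1
      · exact absurd (hη0 h3) hqV
    · exact fun h3 => Or.inl ⟨h3, hqV⟩
  -- positions
  have hzr : ∀ i, zz (zr xr y0 k) i (b ^ Lv i * yv i) =
      sm true y0 (xr - y0 + 1 + ctz k b Lv yv i) := by
    intro i
    rw [zz_czz]
    change sm true y0 (xr + (k : ℤ) - y0 + 1 + Pool.Agent.H69.M6b.czz i (b ^ Lv i * yv i)) =
      sm true y0 (xr - y0 + 1 + ((k : ℤ) + Pool.Agent.H69.M6b.czz i (b ^ Lv i * yv i)))
    rw [show xr + (k : ℤ) - y0 + 1 + Pool.Agent.H69.M6b.czz i (b ^ Lv i * yv i) =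
      xr - y0 + 1 + ((k : ℤ) + Pool.Agent.H69.M6b.czz i (b ^ Lv i * yv i)) by ring]
  have hsm1 : ∀ a : ℤ, (sm true y0 a).1 = a := by
    intro a; unfold sm; simp
  have hI1 : ∀ i, Lv i ≠ 0 → ∀ q ∈ In i, |q.1 - (xr - y0 + 1 + ctz k b Lv yv i)| ≤
      8 * b ^ Lv i + 1 ∧ (q.1 + q.2) % 2 = 1 := by
    intro i hi q hq
    rw [eIn i hi] at hq
    unfold InB at hq
    obtain ⟨h3, h4⟩ := box_near hq
    have h5 := h3.1
    rw [hzr, hsm1] at h5
    exact ⟨by linarith, h4⟩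
  have hO1 : ∀ i, Lv i ≠ 0 → ∀ q ∈ Out i, |q.1 - (xr - y0 + 1 + ctz k b Lv yv i)| ≤
      Rw b (Lv i) := by
    intro i hi q hq
    rw [eOut i hi] at hq
    unfold OutB at hq
    obtain ⟨h3, h4⟩ := box_near hq
    have h5 := h3.1
    rw [hzr, hsm1] at h5
    rw [Rw_pos hi]
    exact h5
  have hrw : ∀ i, rad b Lv i = Rw b (Lv i) := fun i => rfl
  -- the windows
  have hWnd : Wnd N k b Lv (ctz k b Lv yv) x1 := by
    have hin1 : ∀ i, Lv i ≠ 0 → _ := fun i hi =>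
      rad_in (yc := ⟨k, by omega⟩) hb4 (by omega) hK (by omega) hgeo hk₁ hk₂ hL hyv (Or.inl rfl) (i := i) hi
    have hin2 : ∀ i, Lv i ≠ 0 → _ := fun i hi =>
      rad_in (yc := ⟨k - 1, by omega⟩) hb4 (by omega) hK (by omega) hgeo hk₁ hk₂ hL hyv
        (Or.inr (by simp only; omega)) (i := i) hi
    refine ⟨fun i => hRef.bd i, ?_, ?_, ?_, ?_⟩
    · intro i
      by_cases hi : Lv i = 0
      · rw [hi, Rw_zero, ← hRef.pt i hi]
        simp
      · have h3 := (hin1 i hi).1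
        rw [hrw] at h3
        omega
    · intro i
      by_cases hi : Lv i = 0
      · rw [hi, Rw_zero, ← hRef.pt i hi]
        have := (x1 i).2
        omega
      · have h3 := (hin1 i hi).2.1
        rw [hrw] at h3
        omega
    · intro i i' hii
      have h3 := rad_sep (k := k) hb4 hKc hk₁ hk₂ hL hyv hii
      rw [hrw, hrw] at h3
      rw [abs_sub_comm]
      exact h3
    · intro i hi
      have h3 := (hin1 i hi).2.2
      have h4 := (hin2 i hi).2.2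
      have h5 := Rw_nonneg (b := b) (by omega) (Lv i)
      rw [hrw] at h3 h4
      simp only at h3 h4
      rw [lt_abs] at h3 h4
      rcases h3 with h3 | h3 <;> rcases h4 with h4 | h4 <;> omega
  -- the frame
  obtain ⟨L, F, ho, hroot, hGL, fg⟩ := fr z' hz'E
  have hW2 := net_wired (rtiles L3.row _) hm hy hne
  have hRM := frame_rm F hW2 ho (frz_E L3.row _)
  have near : ∀ i, Lv i ≠ 0 → ∃ S : Finset (Fin N), S.card ≤ 2 ∧ ∀ c : Fin N,
      |((c : ℕ) : ℤ) - ctz k b Lv yv i| ≤ 8 * b ^ Lv i - 2 → c ∉ S → ∀ c',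
      (if e i then opt F.EU F.U else opt F.ED F.D) c = some c' →
      |((c' : ℕ) : ℤ) - ctz k b Lv yv i| ≤ Rw b (Lv i) ∧ ¬ (c < x1 i ∧ x1 i < c') ∧
        ¬ (c' < x1 i ∧ x1 i < c) := by
    intro i hi
    obtain ⟨S', hS', hS2⟩ := hRef.near i hi
    refine ⟨S', hS', ?_⟩
    intro c hc hcS c' hc'
    obtain ⟨c2, h3, h4, h5, h6⟩ := hS2 c hc hcS
    have h7 : (net (rtiles L3.row _) hm y).π (c, sd (e i)) = (c', sd (e i)) := by
      cases hei : e i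
      · rw [hei] at hc'
        exact (hRM.dn c c' hc').1
      · rw [hei] at hc'
        exact (hRM.up c c' hc').1
    rw [h3] at h7
    have h8 : c2 = c' := (Prod.mk.inj h7).1
    rw [← h8]
    exact ⟨h4, h5, h6⟩
  have key := ar_coreG (x0 := xr) (y0 := y0) L3.row ho F (g := g) (s0 := s0) fg hroot hy hyk hpos hb4 hWnd
    near hd hGL hsub hOE
    (fun i hi => by rw [hOut]; simp only; rw [if_pos hi]) hI1 hO1 hag
    (fun i hi z hz => by
      rw [eIn i hi, eOut i hi] at hz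
      rcases hCon i hi z hz with ⟨n, h3, h4⟩ | ⟨n, h3, h4⟩
      · exact ⟨n, Or.inl ⟨h4, h3⟩⟩
      · exact ⟨n, Or.inr ⟨h4, h3⟩⟩)
    (Sw := Sw) hSw hR
    (fun Sp hSp G hG c M hM1 hM => Or.inl fun q hq h3 h4 => disjoint_left.1 hd
      (nr c M hM1 hM.1 (fun s hs => hM.2 s (hSp hs)) q (hG q hq) h3 h4))
    (Lp_finite _ _)
  rw [Fintype.card_sum, Fintype.card_fin, Fintype.card_fin] at key
  refine le_trans (le_of_eq ?_) key
  rw [hAn, AR_net L3.row hy hm hne, norm_mul, zt_norm_zpow, one_mul]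

end Pool.Agent.H81.G1
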