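import Pool.Agent.H81.G1.PBS

set_option autoImplicit false
set_option linter.unusedSectionVars false
open Finset

/-! # Blocks of a row

`Z` : cut positions (the position `z` is between the columns `z - 1` and `z`). Two columns are in the same
block if there is no cut between them. Every block has a side `sd`. The exit columns of a block are the
columns whose wire on the side of the block does not join them to a column of the same block. -/

namespace Pool.Agent.H81.G1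

open Pool.Agent.Q1.M6b.Strand Pool.Agent.Q1.M6b.ExN Pool.Agent.Q1.M6b.PB Pool.Agent.Q1.M6b.Meander
open Pool.Agent.H69.M6b (mir fl fl_fl flE fld)

variable {N : ℕ} {X : Net (Fin N)} {a b : Fin N → ℂ} {U D : Fin N → Option (Fin N)}

/-! ### The mirror image -/

lemma sp_mir (x : Fin N × Dir) : Sp (mir X) x ↔ Sp X (fl x) := by
  have e : ∀ p q : Fin N × Dir, p = fl q ↔ fl p = q := fun p q =>
    ⟨fun h => by rw [h, fl_fl], fun h => by rw [← h, fl_fl]⟩
  have h3 : (mir X).π (mir X).x0 = fl (X.π X.x0) := by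
    change fl (X.π (fl (fl X.x0))) = _
    rw [fl_fl]
  have h4 : (mir X).π (mir X).y0 = fl (X.π X.y0) := by
    change fl (X.π (fl (fl X.y0))) = _
    rw [fl_fl]
  unfold Sp
  rw [h3, h4]
  change (x = fl X.x0 ∨ x = fl (X.π X.x0) ∨ x = fl X.y0 ∨ x = fl (X.π X.y0)) ↔ _
  rw [e, e, e, e]

theorem RM.mir (h : RM X U D) : RM (mir X) D U where
  inv := mir_inv h.inv
  ne x hx := by
    have h1 : fl (X.π (fl x)) = x := hx
    have h2 : X.π (fl x) = fl x := by
      have := congrArg fl h1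
      rwa [fl_fl] at this
    exact h.ne _ h2
  tn := mir_tn h.tn
  row c c' hc := by
    change fl (X.π (c, .E)) = (c', .W)
    rw [h.row c c' hc]; rfl
  tE c hc := by
    change -X.t (c, .E) = 0
    rw [h.tE c hc, neg_zero]
  pU := h.pD
  pD := h.pU
  up c c' hc := by
    constructor
    · change fl (X.π (c, .S)) = (c', .N)
      rw [(h.dn c c' hc).1]; rfl
    · change -X.t (c, .S) = _
      rw [(h.dn c c' hc).2]; ring
  dn c c' hc := by
    constructor
    · change fl (X.π (c, .N)) = (c', .S)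
      rw [(h.up c c' hc).1]; rfl
    · change -X.t (c, .N) = _
      rw [(h.up c c' hc).2]; ring

/-- **inner arcs below the row** -/
theorem RM.innerS (h : RM X U D) {x y : Fin N} (hxy : D x = some y) (hlt : x < y)
    (hov : ∀ c, x ≤ c → c ≤ y → a c = zt ^ (4 : ℤ) ∧ b c = zt ^ (-4 : ℤ))
    (hE : ∀ c, x ≤ c → c < y → ¬ Sp X (c, .E)) (hN : ∀ c, x ≤ c → c ≤ y → ¬ Sp X (c, .S)) :
    InnerS X a b x y := by
  refine h.mir.inner hxy hlt ?_ ?_ ?_
  · intro c h1 h2
    unfold cj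
    rw [(hov c h1 h2).1, (hov c h1 h2).2, conj_zt_zpow, conj_zt_zpow]
    norm_num
  · intro c h1 h2 h3
    exact hE c h1 h2 ((sp_mir _).1 h3)
  · intro c h1 h2 h3
    exact hN c h1 h2 ((sp_mir _).1 h3)

/-! ### Blocks -/

/-- no cut between two columns -/
def SB (Z : Finset ℕ) (c c' : Fin N) : Prop :=
  ∀ z ∈ Z, ¬ ((c : ℕ) < z ∧ z ≤ c') ∧ ¬ ((c' : ℕ) < z ∧ z ≤ c)

lemma SB.symm {Z : Finset ℕ} {c c' : Fin N} (h : SB Z c c') : SB Z c' c :=
  fun z hz => ⟨(h z hz).2, (h z hz).1⟩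

/-- the data of the blocks: `cp` = the columns with a coupon, `Z` = the cuts of the arcs, `Z'` = all
cuts (also at the columns of `sp`) -/
structure Blk (X : Net (Fin N)) (sp cp : Finset (Fin N)) (a b : Fin N → ℂ)
    (U D : Fin N → Option (Fin N)) (Z Z' : Finset ℕ) (sd : Fin N → Bool) : Prop where
  ov : ∀ c, c ∉ cp → a c = zt ^ (4 : ℤ) ∧ b c = zt ^ (-4 : ℤ)
  cps : cp ⊆ sp
  anc : ∀ z : Fin N, Anch X sp (z, .W) ∧ Anch X sp (z, .E)
  gU : ∀ c, U c = none → c ∈ sp
  gD : ∀ c, D c = none → c ∈ sp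
  cut : ∀ c ∈ cp, (c : ℕ) ∈ Z ∧ (c : ℕ) + 1 ∈ Z
  cut' : ∀ c ∈ sp, (c : ℕ) ∈ Z'
  mE : ∀ c, Sp X (c, .E) → (c : ℕ) + 1 ∈ Z
  mN : ∀ c, Sp X (c, .N) → U c = none
  mS : ∀ c, Sp X (c, .S) → D c = none
  sub : Z ⊆ Z'
  side : ∀ c c', SB Z c c' → sd c = sd c'

section

variable {sp cp : Finset (Fin N)} {Z Z' : Finset ℕ} {sd : Fin N → Bool}

open Classical in
/-- exit columns above -/
noncomputable def XU (U : Fin N → Option (Fin N)) (sp : Finset (Fin N)) (Z : Finset ℕ)
    (sd : Fin N → Bool) : Finset (Fin N) :=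
  univ.filter fun c => c ∉ sp ∧ sd c = true ∧ ∀ c', U c = some c' → ¬ SB Z c c'

open Classical in
/-- exit columns below -/
noncomputable def XD (D : Fin N → Option (Fin N)) (sp : Finset (Fin N)) (Z : Finset ℕ)
    (sd : Fin N → Bool) : Finset (Fin N) :=
  univ.filter fun c => c ∉ sp ∧ sd c = false ∧ ∀ c', D c = some c' → ¬ SB Z c c'

/-- number of the block of a column -/
def bk (Z : Finset ℕ) (c : Fin N) : ℕ := (Z.filter (fun z => z ≤ (c : ℕ))).card

lemma bk_lt (Z : Finset ℕ) (c : Fin N) : bk Z c < Z.card + 1 :=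
  Nat.lt_succ_of_le (card_filter_le _ _)

lemma bk_SB {c c' : Fin N} (h : bk Z c = bk Z c') (hlt : c < c') : SB Z c c' := by
  have hsub : Z.filter (fun z => z ≤ (c : ℕ)) ⊆ Z.filter (fun z => z ≤ (c' : ℕ)) := by
    intro z hz
    rw [mem_filter] at hz ⊢
    exact ⟨hz.1, hz.2.trans (Fin.lt_def.1 hlt).le⟩
  have he := eq_of_subset_of_card_le hsub (by unfold bk at h; omega)
  intro z hz
  constructor
  · rintro ⟨h1, h2⟩
    have : z ∈ Z.filter (fun z => z ≤ (c' : ℕ)) := mem_filter.2 ⟨hz, h2⟩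
    rw [← he, mem_filter] at this
    omega
  · rintro ⟨h1, h2⟩
    have := Fin.lt_def.1 hlt
    omega

open Classical in
/-- exit columns of a block -/
noncomputable def Exb (U D : Fin N → Option (Fin N)) (sp : Finset (Fin N)) (Z Z' : Finset ℕ)
    (sd : Fin N → Bool) (k : Fin (Z'.card + 1)) : Finset (Fin N) :=
  (XU U sp Z sd ∪ XD D sp Z sd).filter fun c => bk Z' c = k

open Classical in
/-- arcs above -/
noncomputable def LNb (U : Fin N → Option (Fin N)) (Z : Finset ℕ) (sd : Fin N → Bool) :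
    Finset (Fin N × Fin N) :=
  univ.filter fun p => sd p.1 = true ∧ p.1 < p.2 ∧ U p.1 = some p.2 ∧ SB Z p.1 p.2

open Classical in
/-- arcs below -/
noncomputable def LSb (D : Fin N → Option (Fin N)) (Z : Finset ℕ) (sd : Fin N → Bool) :
    Finset (Fin N × Fin N) :=
  univ.filter fun p => sd p.1 = false ∧ p.1 < p.2 ∧ D p.1 = some p.2 ∧ SB Z p.1 p.2

lemma mem_LNb {p : Fin N × Fin N} : p ∈ LNb U Z sd ↔
    sd p.1 = true ∧ p.1 < p.2 ∧ U p.1 = some p.2 ∧ SB Z p.1 p.2 := by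
  classical
  simp [LNb]

lemma mem_LSb {p : Fin N × Fin N} : p ∈ LSb D Z sd ↔
    sd p.1 = false ∧ p.1 < p.2 ∧ D p.1 = some p.2 ∧ SB Z p.1 p.2 := by
  classical
  simp [LSb]

lemma mem_XU {c : Fin N} : c ∈ XU U sp Z sd ↔
    c ∉ sp ∧ sd c = true ∧ ∀ c', U c = some c' → ¬ SB Z c c' := by
  classical
  simp [XU]

lemma mem_XD {c : Fin N} : c ∈ XD D sp Z sd ↔
    c ∉ sp ∧ sd c = false ∧ ∀ c', D c = some c' → ¬ SB Z c c' := by
  classical
  simp [XD]

/-- no coupon strictly inside a block -/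
lemma Blk.nsp (h : Blk X sp cp a b U D Z Z' sd) {x y : Fin N} (hlt : x < y) (hb : SB Z x y) :
    ∀ c, x ≤ c → c ≤ y → c ∉ cp := by
  intro c h1 h2 hc
  have hlt' := Fin.lt_def.1 hlt
  rcases eq_or_lt_of_le h1 with rfl | h3
  · exact (hb _ (h.cut x hc).2).1 ⟨by omega, by omega⟩
  · exact (hb _ (h.cut c hc).1).1 ⟨Fin.lt_def.1 h3, Fin.le_def.1 h2⟩

lemma Blk.nE (h : Blk X sp cp a b U D Z Z' sd) {x y : Fin N} (hb : SB Z x y) :
    ∀ c, x ≤ c → c < y → ¬ Sp X (c, .E) := by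
  intro c h1 h2 hc
  have a1 := Fin.le_def.1 h1
  have a2 := Fin.lt_def.1 h2
  exact (hb _ (h.mE c hc)).1 ⟨by omega, by omega⟩

/-- all the columns under an arc are regular -/
lemma PM.under {V : Fin N → Option (Fin N)} (h : PM V) {x y : Fin N} (hx : V x = some y) :
    ∀ c, x ≤ c → c ≤ y → V c ≠ none := by
  intro c h1 h2
  rcases eq_or_lt_of_le h1 with rfl | h3
  · rw [hx]; simp
  rcases eq_or_lt_of_le h2 with rfl | h4
  · rw [h.sy _ _ hx]; simp
  · obtain ⟨z, hz, -⟩ := h.ns _ _ _ hx h3 h4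
    rw [hz]; simp

/-- **the data of the blocks give the data of the row** -/
theorem Blk.rowData (h : Blk X sp cp a b U D Z Z' sd) (hR : RM X U D) :
    RowData2 X sp a b (LNb U Z sd) (LSb D Z sd) (Exb U D sp Z Z' sd) where
  ov c hc := h.ov c fun hh => hc (h.cps hh)
  anc := h.anc
  innN p hp := by
    obtain ⟨h2, h3, h4, h5⟩ := mem_LNb.1 hp
    have hn := h.nsp h3 h5
    exact hR.inner h4 h3 (fun c a1 a2 => h.ov c (hn c a1 a2)) (h.nE h5)
      (fun c a1 a2 hc => hR.pU.under h4 c a1 a2 (h.mN c hc))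
  innS p hp := by
    obtain ⟨h2, h3, h4, h5⟩ := mem_LSb.1 hp
    have hn := h.nsp h3 h5
    exact hR.innerS h4 h3 (fun c a1 a2 => h.ov c (hn c a1 a2)) (h.nE h5)
      (fun c a1 a2 hc => hR.pD.under h4 c a1 a2 (h.mS c hc))
  dis p hp q hq := by
    obtain ⟨h2, h3, h4, h5⟩ := mem_LNb.1 hp
    obtain ⟨g2, g3, g4, g5⟩ := mem_LSb.1 hq
    have e1 := h.side _ _ h5
    have e2 := h.side _ _ g5
    have key : ∀ x y : Fin N, sd x = true → sd y = false → x ≠ y := by
      rintro x y a1 a2 rfl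
      rw [a1] at a2
      exact absurd a2 (by decide)
    have e1' : sd p.2 = true := by rw [← e1]; exact h2
    have e2' : sd q.2 = false := by rw [← e2]; exact g2
    exact ⟨key _ _ h2 g2, key _ _ h2 e2', key _ _ e1' g2, key _ _ e1' e2'⟩
  cov c hc _ := by
    classical
    cases hs : sd c
    · -- lower side
      by_cases hex : ∃ c', D c = some c' ∧ SB Z c c'
      · obtain ⟨c', h1, h2⟩ := hex
        left
        rcases lt_trichotomy c c' with h3 | h3 | h3
        · exact ⟨(c, c'), mem_union_right _ (mem_LSb.2 ⟨hs, h3, h1, h2⟩), Or.inl rfl⟩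
        · exact absurd h3 (hR.pD.ne _ _ h1)
        · refine ⟨(c', c), mem_union_right _ (mem_LSb.2 ⟨?_, h3, hR.pD.sy _ _ h1,
            h2.symm⟩), Or.inr rfl⟩
          rw [← h.side _ _ h2]; exact hs
      · right
        push Not at hex
        exact ⟨⟨bk Z' c, bk_lt Z' c⟩, mem_filter.2 ⟨mem_union_right _ (mem_XD.2 ⟨hc, hs, hex⟩), rfl⟩⟩
    · by_cases hex : ∃ c', U c = some c' ∧ SB Z c c'
      · obtain ⟨c', h1, h2⟩ := hex
        left
        rcases lt_trichotomy c c' with h3 | h3 | h3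
        · exact ⟨(c, c'), mem_union_left _ (mem_LNb.2 ⟨hs, h3, h1, h2⟩), Or.inl rfl⟩
        · exact absurd h3 (hR.pU.ne _ _ h1)
        · refine ⟨(c', c), mem_union_left _ (mem_LNb.2 ⟨?_, h3, hR.pU.sy _ _ h1,
            h2.symm⟩), Or.inr rfl⟩
          rw [← h.side _ _ h2]; exact hs
      · right
        push Not at hex
        exact ⟨⟨bk Z' c, bk_lt Z' c⟩, mem_filter.2 ⟨mem_union_left _ (mem_XU.2 ⟨hc, hs, hex⟩), rfl⟩⟩
  gap k c hc c' hc' hlt := by
    classical
    obtain ⟨h1, h2⟩ := mem_filter.1 hc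
    obtain ⟨h3, h4⟩ := mem_filter.1 hc'
    have hb : SB Z' c c' := bk_SB (h2.trans h4.symm) hlt
    have hbZ : SB Z c c' := fun z hz => hb z (h.sub hz)
    have hcs : c ∉ sp := by
      rcases mem_union.1 h1 with h5 | h5
      · exact (mem_XU.1 h5).1
      · exact (mem_XD.1 h5).1
    refine ⟨?_, fun z z' a1 a2 a3 => ⟨hR.row z z' a3, h.nE hbZ z a1 ?_⟩⟩
    · intro z a1 a2 hz
      rcases eq_or_lt_of_le a1 with rfl | a3
      · exact hcs hz
      · exact (hb _ (h.cut' z hz)).1 ⟨Fin.lt_def.1 a3, Fin.le_def.1 a2⟩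
    · rw [Fin.lt_def]
      have := Fin.le_def.1 a2
      omega

/-- **The bound of a row with blocks.** -/
theorem Blk.bound {p : Fin N → Bool} (hX : X.Good p) {T0 : ℤ}
    (h0 : ∀ s, X.KT s X.x0 (X.ln s X.x0) = T0) (h : Blk X sp cp a b U D Z Z' sd) (hR : RM X U D)
    (hroot : Gt U D X.x0)
    (hcp : ∀ c ∈ sp, (a c = 1 ∧ b c = -1) ∨ (a c = zt ^ (4 : ℤ) ∧ b c = zt ^ (-4 : ℤ))) :
    ‖X.Z a b‖ ≤ 2 ^ Ne X (Kn X sp) * 2 ^ (5 * sp.card + (Z'.card + 1)) *
      (1 + ((XU U sp Z sd).card + (XD D sp Z sd).card : ℝ)) ^ (Z'.card + 1) := by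
  classical
  have hP := hR.planar_Kn h.anc (fun c hc => Anch.col _ (h.gU c hc))
    (fun c hc => Anch.col _ (h.gD c hc)) hroot
  refine (Z_bound2 hX hR.row h0 (h.rowData hR) hP hcp).trans ?_
  refine mul_le_mul_of_nonneg_left ?_ (by positivity)
  calc ∏ k, (1 + ((Exb U D sp Z Z' sd k).card : ℝ))
      ≤ ∏ _k : Fin (Z'.card + 1), (1 + ((XU U sp Z sd).card + (XD D sp Z sd).card : ℝ)) := by
        refine Finset.prod_le_prod (fun k _ => by positivity) fun k _ => ?_
        have h1 : (Exb U D sp Z Z' sd k).card ≤ (XU U sp Z sd).card + (XD D sp Z sd).card :=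
          (card_filter_le _ _).trans (card_union_le _ _)
        have h2 : ((Exb U D sp Z Z' sd k).card : ℝ) ≤ (XU U sp Z sd).card + (XD D sp Z sd).card := by
          exact_mod_cast h1
        linarith
    _ = _ := by rw [prod_const, card_univ, Fintype.card_fin]

end

end Pool.Agent.H81.G1
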