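import Pool.Agent.H81.G1.SNet
import Pool.Agent.Q1.M6b.Nest2
import Pool.Agent.Q1.M6b.Seam
import Pool.Agent.Q1.M6b.FarEnv

set_option autoImplicit false
set_option linter.unusedSectionVars false
open Finset

/-! # The number of closed strands of the row around the mark

Index of a closed orbit at the positions of the line `sm up s`; an orbit which meets a box and leaves the
outer box contains a far entrance; the closed strands of the row without special columns which surround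
the mark are closed orbits of the original configuration around the mark. -/

namespace Pool.Agent.H81.G1

open Pool.Agent.Q1.M6b.Strand Pool.Agent.Q1.M6b.ExN Pool.Agent.Q1.M6b.PB Pool.Agent.Q1.M6b.Meander
open Pool.Agent.H75.Perc Pool.Agent.H75.TwoArm Pool.Agent.Q1.M6b.Nest Pool.Agent.Q1.M6b.Gd
open Pool.Agent.H19.Q1 (around)

/-! ### The index along the line -/

/-- index at the position `p` (between the corners `p - 1` and `p`) of the line -/
noncomputable def pix (O : Finset (ℤ × ℤ)) (up : Bool) (s p : ℤ) : ZMod 2 :=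
  if p % 2 = 0 then ixf O (fi (sm up s p)) else ixv O (vx (sm up s p))

lemma vx_sm_succ (up : Bool) (s : ℤ) {p : ℤ} (hp : p % 2 = 0) :
    vx (sm up s (p + 1)) = vx (sm up s p) := by
  unfold vx sm
  cases up
  · simp only [Bool.false_eq_true, if_false, Prod.mk.injEq]; omega
  · simp only [if_true, Prod.mk.injEq]; omega

lemma fi_sm_succ (up : Bool) (s : ℤ) {p : ℤ} (hp : ¬ p % 2 = 0) :
    fi (sm up s (p + 1)) = fi (sm up s p) := by
  unfold fi sm
  cases up
  · simp only [Bool.false_eq_true, if_false, Prod.mk.injEq]; omega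
  · simp only [if_true, Prod.mk.injEq]; omega

lemma add_swap (a b c : ZMod 2) (h : a + b = c) : a = b + c ∧ b = a + c := by
  revert a b c; decide

lemma pix_step {O : Finset (ℤ × ℤ)} (hT : Tile0 O) (up : Bool) (s p : ℤ) :
    pix O up s (p + 1) = pix O up s p + A O (sm up s p) := by
  have h := add_swap _ _ _ (ix_corner hT (sm up s p))
  unfold pix
  by_cases hp : p % 2 = 0
  · rw [if_pos hp, if_neg (by omega), vx_sm_succ up s hp]
    exact h.1
  · rw [if_neg hp, if_pos (by omega), fi_sm_succ up s hp]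
    exact h.2

lemma pix_far {O : Finset (ℤ × ℤ)} {M : ℤ} (hM : ∀ d ∈ O, M < d.1) (up : Bool) (s : ℤ) {p : ℤ}
    (hp : p ≤ M) : pix O up s p = 0 := by
  unfold pix ixf ixv fi vx sm
  split_ifs with h1
  all_goals
    apply S_far hM
    simp only
    omega

/-- no corner of `O` on the line to the left of `j0` -/
lemma pix_left {O : Finset (ℤ × ℤ)} (hT : Tile0 O) (up : Bool) (s : ℤ) {j0 : ℤ}
    (h : ∀ x, x < j0 → sm up s x ∉ O) : pix O up s j0 = 0 := by
  obtain ⟨M, hM⟩ := exists_lb O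
  have key : ∀ n : ℕ, ∀ p : ℤ, p = M + n → p ≤ j0 → pix O up s p = 0 := by
    intro n
    induction n with
    | zero => intro p hp _; exact pix_far hM up s (by omega)
    | succ n ih =>
      intro p hp hpj
      have e : p = (p - 1) + 1 := by ring
      rw [e, pix_step hT, ih (p - 1) (by push_cast at hp; omega) (by omega), zero_add]
      unfold A
      rw [if_neg (h _ (by omega))]
  rcases le_or_gt j0 M with h1 | h1
  · exact pix_far hM up s h1
  · exact key (j0 - M).toNat j0 (by omega) le_rfl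

/-- the index at a position is the number of corners to the left -/
lemma pix_count {N : ℕ} {O : Finset (ℤ × ℤ)} (hT : Tile0 O) (up : Bool) (s : ℤ) {j0 : ℤ}
    {C : Finset (Fin N)} (hO : ∀ x, sm up s x ∈ O ↔ ∃ c ∈ C, x = j0 + (c : ℕ)) (p : ℕ) :
    pix O up s (j0 + p) = ((C.filter (fun z : Fin N => (z : ℕ) < p)).card : ZMod 2) := by
  induction p with
  | zero =>
    rw [filter_eq_empty_iff.2 (fun z _ => by omega), card_empty]
    push_cast
    rw [add_zero]
    refine pix_left hT up s fun x hx hh => ?_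
    obtain ⟨c, -, hc⟩ := (hO x).1 hh
    omega
  | succ p ih =>
    have e : (j0 + ((p + 1 : ℕ) : ℤ)) = (j0 + p) + 1 := by push_cast; ring
    rw [e, pix_step hT, ih]
    have e2 : C.filter (fun z : Fin N => (z : ℕ) < p + 1) =
        C.filter (fun z : Fin N => (z : ℕ) < p) ∪ C.filter (fun z : Fin N => (z : ℕ) = p) := by
      ext z
      simp only [mem_filter, mem_union]
      constructor
      · rintro ⟨h1, h2⟩
        rcases Nat.lt_succ_iff_lt_or_eq.1 h2 with h3 | h3
        · exact Or.inl ⟨h1, h3⟩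
        · exact Or.inr ⟨h1, h3⟩
      · rintro (⟨h1, h2⟩ | ⟨h1, h2⟩)
        · exact ⟨h1, by omega⟩
        · exact ⟨h1, by omega⟩
    have hd : Disjoint (C.filter (fun z : Fin N => (z : ℕ) < p)) (C.filter (fun z : Fin N => (z : ℕ) = p)) := by
      rw [disjoint_left]
      intro z h1 h2
      have a1 := (mem_filter.1 h1).2
      have a2 := (mem_filter.1 h2).2
      omega
    rw [e2, card_union_of_disjoint hd]
    push_cast
    congr 1
    unfold A
    by_cases hc : ∃ c ∈ C, (c : ℕ) = p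
    · obtain ⟨c, hc, rfl⟩ := hc
      rw [if_pos ((hO _).2 ⟨c, hc, rfl⟩)]
      have : C.filter (fun z : Fin N => (z : ℕ) = c) = {c} := by
        ext z
        simp only [mem_filter, mem_singleton]
        constructor
        · rintro ⟨-, h⟩; exact Fin.ext h
        · rintro rfl; exact ⟨hc, rfl⟩
      rw [this, card_singleton]; simp
    · rw [if_neg]
      · rw [filter_eq_empty_iff.2, card_empty]
        · simp
        · intro z hz h
          exact hc ⟨z, hz, h⟩
      · intro hh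
        obtain ⟨c, hcC, hx⟩ := (hO _).1 hh
        exact hc ⟨c, hcC, by omega⟩

/-! ### Far entrances -/

/-- an orbit which meets the inner box and leaves the outer box contains a far entrance -/
lemma far_of_orbit {w In Out : Finset (ℤ × ℤ)} (hIO : In ⊆ Out) {O : Set (ℤ × ℤ)} {c0 : ℤ × ℤ}
    (hO : O = Set.range (fun i : ℕ => (nx w)^[i] c0)) (hf : O.Finite) {d c : ℤ × ℤ} (hd : d ∈ O)
    (hdI : lab d ∈ In) (hc : c ∈ O) (hcO : lab c ∉ Out) : ∃ z ∈ O, FarIn In Out w z := by
  classical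
  rw [orbit_of_mem hO hf hc] at hd
  obtain ⟨m, hm⟩ := hd
  simp only at hm
  have hex : ∃ k : ℕ, lab ((nx w)^[k] c) ∈ In := ⟨m, by rw [hm]; exact hdI⟩
  set k := Nat.find hex with hk
  have hkI : lab ((nx w)^[k] c) ∈ In := Nat.find_spec hex
  have hkm : ∀ i < k, lab ((nx w)^[i] c) ∉ In := fun i hi => Nat.find_min hex hi
  set P : ℕ → Prop := fun j => j ≤ k ∧ lab ((nx w)^[j] c) ∉ Out with hP
  have hk0 : 0 < k := by
    rcases Nat.eq_zero_or_pos k with h0 | h0
    · rw [h0] at hkI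
      exact absurd (hIO hkI) hcO
    · exact h0
  obtain ⟨j, hjP, hjmax⟩ : ∃ j, P j ∧ ∀ i, P i → i ≤ j := by
    refine ⟨Nat.findGreatest P k, ?_, ?_⟩
    · exact Nat.findGreatest_spec (P := P) (Nat.zero_le k) ⟨Nat.zero_le k, hcO⟩
    · intro i hi
      exact Nat.le_findGreatest hi.1 hi
  have hjk : j < k := by
    rcases lt_or_eq_of_le hjP.1 with h | h
    · exact h
    · have := hjP.2
      rw [h] at this
      exact absurd (hIO hkI) this
  refine ⟨(nx w)^[k] c, ?_, hkI, (nx w)^[j + 1] c, k - (j + 1), ?_, ?_, ?_⟩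
  · rw [orbit_of_mem hO hf hc]; exact ⟨k, rfl⟩
  · rw [Function.iterate_succ_apply', plab_nx]; exact hjP.2
  · rw [← Function.iterate_add_apply]
    congr 2
    omega
  · intro i hi
    rw [← Function.iterate_add_apply, mem_sdiff]
    refine ⟨?_, hkm _ (by omega)⟩
    by_contra hh
    have := hjmax (i + (j + 1)) ⟨by omega, hh⟩
    omega

lemma nx_agree {w w' : Finset (ℤ × ℤ)} {c : ℤ × ℤ} (h : lab c ∈ w' ↔ lab c ∈ w) : nx w' c = nx w c := by
  unfold nx
  by_cases hh : lab c ∈ w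
  · rw [if_pos hh, if_pos (h.2 hh)]
  · rw [if_neg hh, if_neg (fun h' => hh (h.1 h'))]

/-- orbits which avoid the boxes -/
lemma orbit_agree {w w' V : Finset (ℤ × ℤ)} (hag : ∀ e, e ∉ V → (e ∈ w' ↔ e ∈ w)) {c0 : ℤ × ℤ}
    (h : ∀ i : ℕ, lab ((nx w')^[i] c0) ∉ V) : ∀ i : ℕ, (nx w')^[i] c0 = (nx w)^[i] c0 := by
  intro i
  induction i with
  | zero => rfl
  | succ i ih =>
    rw [Function.iterate_succ_apply', Function.iterate_succ_apply', ← ih]
    exact nx_agree (hag _ (h i))

/-! ### The count -/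

variable {N : ℕ} {X : Net (Fin N)} {U D : Fin N → Option (Fin N)} {K : Finset (Fin N)}

/-- the columns of a stable set are matched in pairs -/
lemma even_card (h : RM X U D) {C : Finset (Fin N)} (hC : Q1.M6b.Strand.Str X C)
    (hr : SNet.Rg U D C) : Even C.card := by
  classical
  have hs : ∀ c ∈ C, ∃ c', U c = some c' := fun c hc => Option.ne_none_iff_exists'.1 (hr c hc).1
  have h2 : ∑ c ∈ C, (1 : ZMod 2) = 0 := by
    refine Finset.sum_involution (fun c _ => fU U c) ?_ ?_ ?_ ?_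
    · intro c _; decide
    · intro c hc _
      obtain ⟨c', hc'⟩ := hs c hc
      rw [fU_eq hc']
      exact (h.pU.ne c c' hc').symm
    · intro c hc
      obtain ⟨c', hc'⟩ := hs c hc
      rw [fU_eq hc']
      have h3 := hC.mem (c, .N) (by rw [mem_VE]; exact ⟨hc, Or.inl rfl⟩)
      rw [(h.up c c' hc').1, mem_VE] at h3
      exact h3.1
    · intro c hc
      obtain ⟨c', hc'⟩ := hs c hc
      rw [fU_eq hc', fU_eq (h.pU.sy c c' hc')]
  rw [sum_const, nsmul_eq_mul, mul_one] at h2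
  exact (ZMod.natCast_eq_zero_iff_even).1 h2

/-- the boxes of the windows, the configurations `w`, `w'` agree outside the inner boxes; the far strands
of `w'` pass columns outside `K`; the position `p` of the mark is outside the outer boxes -/
structure WinData {ι : Type*} (In Out : ι → Finset (ℤ × ℤ)) (w w' : Finset (ℤ × ℤ)) (up : Bool)
    (s j0 : ℤ) (K : Finset (Fin N)) (p : ℕ) : Prop where
  sub : ∀ i, In i ⊆ Out i
  agr : ∀ e, (∀ i, e ∉ In i) → (e ∈ w' ↔ e ∈ w)
  far : ∀ i z, FarIn (In i) (Out i) w' z → ∃ (n : ℕ) (x : ℤ),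
    ((nx w')^[n] z = sm up s x ∨ (nx w')^[n] (sm up s x) = z) ∧ ∀ c ∈ K, x ≠ j0 + (c : ℕ)
  out : ∀ i, (∀ c : Fin N, lab (sm up s (j0 + (c : ℕ))) ∈ Out i → (c : ℕ) < p) ∨
    (∀ c : Fin N, lab (sm up s (j0 + (c : ℕ))) ∈ Out i → p ≤ (c : ℕ))

/-- the regular closed orbits do not surround the walls -/
def WallOut (w : Finset (ℤ × ℤ)) (E : Set (ℤ × ℤ)) (up : Bool) (s j0 : ℤ) (K : Finset (Fin N)) :
    Prop :=
  ∀ (O : Set (ℤ × ℤ)) (hf : O.Finite) (c0 : ℤ × ℤ), O = Set.range (fun i : ℕ => (nx w)^[i] c0) →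
    (∀ x, sm up s x ∈ O → ∃ c ∈ K, x = j0 + (c : ℕ)) →
    ∀ c, lab c ∉ E → c ∉ O → ixv hf.toFinset (vx c) = 0

section count

variable {ι : Type*} {In Out : ι → Finset (ℤ × ℤ)} {w w' : Finset (ℤ × ℤ)} {up : Bool} {s j0 : ℤ}
  {dn : Fin N → Bool} {C : Finset (Fin N)}

lemma or_iter {f : ℤ × ℤ → ℤ × ℤ} {c0 z : ℤ × ℤ} {O : Set (ℤ × ℤ)}
    (hO : O = Set.range (fun i : ℕ => f^[i] c0)) (hz : z ∈ O) (n : ℕ) : f^[n] z ∈ O := by
  rw [hO] at hz ⊢
  obtain ⟨k, rfl⟩ := hz
  exact ⟨n + k, Function.iterate_add_apply _ _ _ _⟩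

lemma or_back {f : ℤ × ℤ → ℤ × ℤ} (hi : Function.Injective f) {c0 y : ℤ × ℤ} {O : Set (ℤ × ℤ)}
    (hO : O = Set.range (fun i : ℕ => f^[i] c0)) (hf : O.Finite) {n : ℕ} (h : f^[n] y ∈ O) :
    y ∈ O := by
  classical
  have hmaps : ∀ z ∈ hf.toFinset, f^[n] z ∈ hf.toFinset := by
    intro z hz
    rw [Set.Finite.mem_toFinset] at hz ⊢
    exact or_iter hO hz n
  have hs : Set.SurjOn (f^[n]) (hf.toFinset : Set (ℤ × ℤ)) (hf.toFinset : Set (ℤ × ℤ)) :=
    Finset.surjOn_of_injOn_of_card_le _ hmaps ((hi.iterate n).injOn) le_rfl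
  obtain ⟨z, hz, he⟩ := hs (show f^[n] y ∈ (hf.toFinset : Set (ℤ × ℤ)) by
    rw [Set.Finite.coe_toFinset]; exact h)
  rw [← hi.iterate n he]
  rwa [Set.Finite.coe_toFinset] at hz

/-- a closed strand around the mark avoids the inner boxes -/
lemma avoid (h : RM X U D) (hS : SNet (nx w') (sm up s) j0 dn U D) (hK : SNet.Rg U D K)
    {p : ℕ} (hW : WinData In Out w w' up s j0 K p) (hC : C ∈ orbs X K)
    (ho : Odd (C.filter (fun z : Fin N => (z : ℕ) < p)).card) (i : ι) :
    ∀ d ∈ SNet.Or (nx w') (sm up s) j0 C, lab d ∉ In i := by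
  intro d hd hdI
  obtain ⟨hCK, hsg⟩ := mem_orbs.1 hC
  have hr : SNet.Rg U D C := fun c hc => hK c (hCK hc)
  obtain ⟨c0, h0, hO⟩ := SNet.or_eq (nx w') (sm up s) j0 hsg.ne
  have hf := SNet.or_fin h hS hsg hr
  have hmem := SNet.or_mem h hS hsg hr
  by_cases hall : ∀ c ∈ SNet.Or (nx w') (sm up s) j0 C, lab c ∈ Out i
  · have hcol : ∀ c ∈ C, lab (sm up s (j0 + (c : ℕ))) ∈ Out i := fun c hc =>
      hall _ ((hmem _).2 ⟨c, hc, rfl⟩)
    rcases hW.out i with h1 | h1
    · have e : C.filter (fun z : Fin N => (z : ℕ) < p) = C :=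
        filter_true_of_mem fun c hc => h1 c (hcol c hc)
      rw [e] at ho
      exact Nat.not_even_iff_odd.2 ho (even_card h hsg.str hr)
    · have e : C.filter (fun z : Fin N => (z : ℕ) < p) = ∅ :=
        filter_false_of_mem fun c hc => not_lt.2 (h1 c (hcol c hc))
      rw [e] at ho
      exact Nat.not_even_iff_odd.2 ho (by simp)
  · push Not at hall
    obtain ⟨c, hc, hcO⟩ := hall
    obtain ⟨z, hz, hfar⟩ := far_of_orbit (hW.sub i) hO hf hd hdI hc hcO
    obtain ⟨n, x, hx, hxK⟩ := hW.far i z hfar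
    have h1 : sm up s x ∈ SNet.Or (nx w') (sm up s) j0 C := by
      rcases hx with hx | hx
      · rw [← hx]; exact or_iter hO hz n
      · exact or_back (nx_injective w') hO hf (n := n) (by rw [hx]; exact hz)
    rw [hmem] at h1
    obtain ⟨c', hc', rfl⟩ := h1
    exact hxK c' (hCK hc') rfl

/-- the orbit of a closed strand around the mark is an orbit of the original configuration -/
lemma or_orig (h : RM X U D) (hS : SNet (nx w') (sm up s) j0 dn U D) (hK : SNet.Rg U D K)
    {p : ℕ} (hW : WinData In Out w w' up s j0 K p) (hC : C ∈ orbs X K)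
    (ho : Odd (C.filter (fun z : Fin N => (z : ℕ) < p)).card) :
    ∃ c0, SNet.Or (nx w') (sm up s) j0 C = Set.range (fun i : ℕ => (nx w)^[i] c0) := by
  obtain ⟨hCK, hsg⟩ := mem_orbs.1 hC
  obtain ⟨c0, h0, hO⟩ := SNet.or_eq (nx w') (sm up s) j0 hsg.ne
  refine ⟨sm up s (j0 + (c0 : ℕ)), ?_⟩
  have hav : ∀ i : ℕ, ∀ k, lab ((nx w')^[i] (sm up s (j0 + (c0 : ℕ)))) ∉ In k := fun i k =>
    avoid h hS hK hW hC ho k _ (by rw [hO]; exact ⟨i, rfl⟩)
  have key : ∀ i : ℕ, (nx w')^[i] (sm up s (j0 + (c0 : ℕ))) = (nx w)^[i] (sm up s (j0 + (c0 : ℕ))) := by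
    intro i
    induction i with
    | zero => rfl
    | succ i ih =>
      rw [Function.iterate_succ_apply', Function.iterate_succ_apply', ← ih]
      exact nx_agree (hW.agr _ (hav i))
  rw [hO]
  congr 1
  funext i
  exact key i

/-- **The number of closed strands of the row around the mark.** -/
theorem ne_le {E : Set (ℤ × ℤ)} (h : RM X U D) (hS : SNet (nx w') (sm up s) j0 dn U D)
    (hK : SNet.Rg U D K) (hW : WinData In Out w w' up s j0 K (pos X.y0))
    (hE : WallOut w E up s j0 K)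
    (ha : (around w E (vx (sm up s (j0 + (pos X.y0 : ℕ)))) 0).Finite) :
    Ne X K ≤ (around w E (vx (sm up s (j0 + (pos X.y0 : ℕ)))) 0).ncard + 2 := by
  classical
  set P : ℤ := j0 + (pos X.y0 : ℕ) with hP
  set v := vx (sm up s P) with hv
  set F := (orbs X K).filter
    (fun C => Odd (C.filter (fun z : Fin N => (z : ℕ) < pos X.y0)).card) with hF
  set Φ : Finset (Fin N) → Set (ℤ × ℤ) := SNet.Or (nx w') (sm up s) j0 with hΦ
  have hNe : Ne X K = F.card := rfl
  -- facts
  have mF : ∀ C ∈ F, Single X C ∧ SNet.Rg U D C ∧ C ⊆ K ∧ C ∈ orbs X K ∧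
      Odd (C.filter (fun z : Fin N => (z : ℕ) < pos X.y0)).card := by
    intro C hC
    obtain ⟨h1, h2⟩ := mem_filter.1 hC
    obtain ⟨h3, h4⟩ := mem_orbs.1 h1
    exact ⟨h4, fun c hc => hK c (h3 hc), h3, h1, h2⟩
  have fin : ∀ C ∈ F, (Φ C).Finite := fun C hC => SNet.or_fin h hS (mF C hC).1 (mF C hC).2.1
  have memΦ : ∀ C ∈ F, ∀ x, sm up s x ∈ Φ C ↔ ∃ c ∈ C, x = j0 + (c : ℕ) := fun C hC =>
    SNet.or_mem h hS (mF C hC).1 (mF C hC).2.1
  have orig : ∀ C ∈ F, ∃ c0, Φ C = Set.range (fun i : ℕ => (nx w)^[i] c0) := fun C hC =>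
    or_orig h hS hK hW (mF C hC).2.2.2.1 (mF C hC).2.2.2.2
  have inv : ∀ C (hC : C ∈ F), Inv w (fin C hC).toFinset := fun C hC => by
    obtain ⟨c0, h0⟩ := orig C hC
    exact inv_of_orbit h0 (fin C hC)
  have ix : ∀ C (hC : C ∈ F), sm up s P ∉ Φ C → ixv (fin C hC).toFinset v = 1 := by
    intro C hC hn
    have hT := (inv C hC).tile
    have h1 := pix_count (C := C) hT up s (j0 := j0)
      (fun x => by rw [Set.Finite.mem_toFinset]; exact memΦ C hC x) (pos X.y0)
    obtain ⟨m, hm⟩ := (mF C hC).2.2.2.2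
    rw [hm] at h1
    have h2 : pix (fin C hC).toFinset up s P = 1 := by
      rw [h1]; push_cast
      have : (2 : ZMod 2) = 0 := rfl
      rw [this, zero_mul, zero_add]
    unfold pix at h2
    by_cases hp : P % 2 = 0
    · rw [if_pos hp] at h2
      have h3 := ix_corner hT (sm up s P)
      rw [h2] at h3
      unfold A at h3
      rw [if_neg (by rw [Set.Finite.mem_toFinset]; exact hn)] at h3
      have : ∀ a : ZMod 2, a + 1 = 0 → a = 1 := by decide
      exact this _ h3
    · rw [if_neg hp] at h2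
      exact h2
  have lp : ∀ C (hC : C ∈ F), sm up s P ∉ Φ C → Φ C ∈ Lp w v := fun C hC hn =>
    ⟨orig C hC, fin C hC, (odd_iff_ixv (fin C hC) v).2 (ix C hC hn)⟩
  have disj : ∀ C (hC : C ∈ F) C' (hC' : C' ∈ F), C ≠ C' → Disjoint (fin C hC).toFinset
      (fin C' hC').toFinset := by
    intro C hC C' hC' hne
    refine disj_of_ne (orig C hC) (orig C' hC') (fin C hC) (fin C' hC') fun he => hne ?_
    exact SNet.or_inj h hS (mF C hC).1 (mF C hC).2.1 (mF C' hC').1 (mF C' hC').2.1 he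
  -- the three parts
  set F1 := F.filter (fun C => sm up s P ∈ Φ C) with hF1
  set F2 := F.filter (fun C => sm up s P ∉ Φ C ∧ ∃ c ∈ Φ C, lab c ∉ E) with hF2
  set F3 := F.filter (fun C => sm up s P ∉ Φ C ∧ ∀ c ∈ Φ C, lab c ∈ E) with hF3
  have hun : F ⊆ (F3 ∪ F2) ∪ F1 := by
    intro C hC
    rw [mem_union, mem_union]
    by_cases h1 : sm up s P ∈ Φ C
    · exact Or.inr (mem_filter.2 ⟨hC, h1⟩)
    · by_cases h2 : ∀ c ∈ Φ C, lab c ∈ E
      · exact Or.inl (Or.inl (mem_filter.2 ⟨hC, h1, h2⟩))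
      · push Not at h2
        exact Or.inl (Or.inr (mem_filter.2 ⟨hC, h1, h2⟩))
  have c1 : F1.card ≤ 1 := by
    rw [card_le_one]
    intro C hC C' hC'
    obtain ⟨a1, a2⟩ := mem_filter.1 hC
    obtain ⟨b1, b2⟩ := mem_filter.1 hC'
    by_contra hne
    have := disj C a1 C' b1 hne
    rw [disjoint_left] at this
    exact this ((fin C a1).mem_toFinset.2 a2) ((fin C' b1).mem_toFinset.2 b2)
  have c2 : F2.card ≤ 1 := by
    rw [card_le_one]
    intro C hC C' hC'
    obtain ⟨a1, a2, c, hc, hcE⟩ := mem_filter.1 hC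
    obtain ⟨b1, b2, c', hc', hcE'⟩ := mem_filter.1 hC'
    by_contra hne
    have hd := disj C a1 C' b1 hne
    obtain ⟨o1, ho1⟩ := orig C a1
    obtain ⟨o2, ho2⟩ := orig C' b1
    have n1 : c ∉ Φ C' := fun hh => by
      rw [disjoint_left] at hd
      exact hd ((fin C a1).mem_toFinset.2 hc) ((fin C' b1).mem_toFinset.2 hh)
    have n2 : c' ∉ Φ C := fun hh => by
      rw [disjoint_left] at hd
      exact hd ((fin C a1).mem_toFinset.2 hh) ((fin C' b1).mem_toFinset.2 hc')
    have e1 := hE (Φ C') (fin C' b1) o2 ho2 (fun x hx => by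
      obtain ⟨q, hq, hx⟩ := (memΦ C' b1 x).1 hx
      exact ⟨q, (mF C' b1).2.2.1 hq, hx⟩) c hcE n1
    have e2 := hE (Φ C) (fin C a1) o1 ho1 (fun x hx => by
      obtain ⟨q, hq, hx⟩ := (memΦ C a1 x).1 hx
      exact ⟨q, (mF C a1).2.2.1 hq, hx⟩) c' hcE' n2
    refine nest (w := w) hd (ix C a1 a2) (ix C' b1 b2) ?_ ?_ (inv C a1) (inv C' b1)
    · intro d hd'
      rw [Set.Finite.mem_toFinset, orbit_of_mem ho1 (fin C a1) hc] at hd'
      obtain ⟨i, rfl⟩ := hd'
      rw [(inv C' b1).ixv_iter, e1]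
    · intro d hd'
      rw [Set.Finite.mem_toFinset, orbit_of_mem ho2 (fin C' b1) hc'] at hd'
      obtain ⟨i, rfl⟩ := hd'
      rw [(inv C a1).ixv_iter, e2]
  have c3 : F3.card ≤ (around w E v 0).ncard := by
    rw [← Set.ncard_coe_finset]
    refine Set.ncard_le_ncard_of_injOn Φ ?_ ?_ ha
    · intro C hC
      rw [mem_coe] at hC
      obtain ⟨a1, a2, a3⟩ := mem_filter.1 hC
      rw [around_eq]
      exact ⟨lp C a1 a2, a3⟩
    · intro C hC C' hC' he
      rw [mem_coe] at hC hC'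
      have a1 := (mem_filter.1 hC).1
      have b1 := (mem_filter.1 hC').1
      exact SNet.or_inj h hS (mF C a1).1 (mF C a1).2.1 (mF C' b1).1 (mF C' b1).2.1 he
  rw [hNe]
  have := card_le_card hun
  have h4 := card_union_le (F3 ∪ F2) F1
  have h5 := card_union_le F3 F2
  omega

/-- the same count with all closed orbits around the mark -/
theorem ne_le_Lp (h : RM X U D) (hS : SNet (nx w') (sm up s) j0 dn U D)
    (hK : SNet.Rg U D K) (hW : WinData In Out w w' up s j0 K (pos X.y0))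
    (ha : (Lp w (vx (sm up s (j0 + (pos X.y0 : ℕ))))).Finite) :
    Ne X K ≤ (Lp w (vx (sm up s (j0 + (pos X.y0 : ℕ))))).ncard + 1 := by
  classical
  set P : ℤ := j0 + (pos X.y0 : ℕ) with hP
  set v := vx (sm up s P) with hv
  set F := (orbs X K).filter
    (fun C => Odd (C.filter (fun z : Fin N => (z : ℕ) < pos X.y0)).card) with hF
  set Φ : Finset (Fin N) → Set (ℤ × ℤ) := SNet.Or (nx w') (sm up s) j0 with hΦ
  have hNe : Ne X K = F.card := rfl
  have mF : ∀ C ∈ F, Single X C ∧ SNet.Rg U D C ∧ C ⊆ K ∧ C ∈ orbs X K ∧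
      Odd (C.filter (fun z : Fin N => (z : ℕ) < pos X.y0)).card := by
    intro C hC
    obtain ⟨h1, h2⟩ := mem_filter.1 hC
    obtain ⟨h3, h4⟩ := mem_orbs.1 h1
    exact ⟨h4, fun c hc => hK c (h3 hc), h3, h1, h2⟩
  have fin : ∀ C ∈ F, (Φ C).Finite := fun C hC => SNet.or_fin h hS (mF C hC).1 (mF C hC).2.1
  have memΦ : ∀ C ∈ F, ∀ x, sm up s x ∈ Φ C ↔ ∃ c ∈ C, x = j0 + (c : ℕ) := fun C hC =>
    SNet.or_mem h hS (mF C hC).1 (mF C hC).2.1
  have orig : ∀ C ∈ F, ∃ c0, Φ C = Set.range (fun i : ℕ => (nx w)^[i] c0) := fun C hC =>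
    or_orig h hS hK hW (mF C hC).2.2.2.1 (mF C hC).2.2.2.2
  have inv : ∀ C (hC : C ∈ F), Inv w (fin C hC).toFinset := fun C hC => by
    obtain ⟨c0, h0⟩ := orig C hC
    exact inv_of_orbit h0 (fin C hC)
  have ix : ∀ C (hC : C ∈ F), sm up s P ∉ Φ C → ixv (fin C hC).toFinset v = 1 := by
    intro C hC hn
    have hT := (inv C hC).tile
    have h1 := pix_count (C := C) hT up s (j0 := j0)
      (fun x => by rw [Set.Finite.mem_toFinset]; exact memΦ C hC x) (pos X.y0)
    obtain ⟨m, hm⟩ := (mF C hC).2.2.2.2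
    rw [hm] at h1
    have h2 : pix (fin C hC).toFinset up s P = 1 := by
      rw [h1]; push_cast
      have : (2 : ZMod 2) = 0 := rfl
      rw [this, zero_mul, zero_add]
    unfold pix at h2
    by_cases hp : P % 2 = 0
    · rw [if_pos hp] at h2
      have h3 := ix_corner hT (sm up s P)
      rw [h2] at h3
      unfold A at h3
      rw [if_neg (by rw [Set.Finite.mem_toFinset]; exact hn)] at h3
      have : ∀ a : ZMod 2, a + 1 = 0 → a = 1 := by decide
      exact this _ h3
    · rw [if_neg hp] at h2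
      exact h2
  have disj : ∀ C (hC : C ∈ F) C' (hC' : C' ∈ F), C ≠ C' → Disjoint (fin C hC).toFinset
      (fin C' hC').toFinset := by
    intro C hC C' hC' hne
    refine disj_of_ne (orig C hC) (orig C' hC') (fin C hC) (fin C' hC') fun he => hne ?_
    exact SNet.or_inj h hS (mF C hC).1 (mF C hC).2.1 (mF C' hC').1 (mF C' hC').2.1 he
  set F1 := F.filter (fun C => sm up s P ∈ Φ C) with hF1
  set F3 := F.filter (fun C => ¬ sm up s P ∈ Φ C) with hF3
  have hun : F3.card + F1.card = F.card := by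
    rw [add_comm]
    exact card_filter_add_card_filter_not _
  have c1 : F1.card ≤ 1 := by
    rw [card_le_one]
    intro C hC C' hC'
    obtain ⟨a1, a2⟩ := mem_filter.1 hC
    obtain ⟨b1, b2⟩ := mem_filter.1 hC'
    by_contra hne
    have := disj C a1 C' b1 hne
    rw [disjoint_left] at this
    exact this ((fin C a1).mem_toFinset.2 a2) ((fin C' b1).mem_toFinset.2 b2)
  have c3 : F3.card ≤ (Lp w v).ncard := by
    rw [← Set.ncard_coe_finset]
    refine Set.ncard_le_ncard_of_injOn Φ ?_ ?_ ha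
    · intro C hC
      rw [mem_coe] at hC
      obtain ⟨a1, a2⟩ := mem_filter.1 hC
      exact ⟨orig C a1, fin C a1, (odd_iff_ixv (fin C a1) v).2 (ix C a1 a2)⟩
    · intro C hC C' hC' he
      rw [mem_coe] at hC hC'
      have a1 := (mem_filter.1 hC).1
      have b1 := (mem_filter.1 hC').1
      exact SNet.or_inj h hS (mF C a1).1 (mF C a1).2.1 (mF C' b1).1 (mF C' b1).2.1 he
  rw [hNe]
  omega

end count

end Pool.Agent.H81.G1
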