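import Pool.Agent.H81.G1.Ar
import Pool.Agent.H75.TwoArm.Exit

set_option autoImplicit false
set_option linter.unusedSectionVars false
open Finset

/-! # The wires near a window

`HalfR`: the strands of `w` in one half of a rectangle next to the line `ln`, columns `[l, r]`;
`Ex` = columns whose strand leaves the half rectangle elsewhere. `near_of`: if there is only one far
entrance `a` of the boxes `In ⊆ Out` and the strand of the special column comes from outside of the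
rectangle, the strands from the columns of the inner box are arcs of the half rectangle, which do not
jump over the special column, except for two. -/

namespace Pool.Agent.H81.G1

open Pool.Agent.H75.Perc Pool.Agent.H75.TwoArm
open Pool.Agent.Q1.M6b.Gd (FarIn)

variable {N : ℕ}

/-- the strands in a half rectangle -/
structure HalfR (w : Finset (ℤ × ℤ)) (cr : Fin N → ℤ × ℤ) (G Bs Bx : Set (ℤ × ℤ)) (o : Fin N → Bool)
    (l r : ℕ) (Ex : Finset (Fin N)) (V : Fin N → Fin N) : Prop where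
  sub : Bs ⊆ G
  subx : Bs ⊆ Bx
  rg : ∀ c : Fin N, l ≤ (c : ℕ) → (c : ℕ) ≤ r → c ∉ Ex → (l ≤ (V c : ℕ) ∧ (V c : ℕ) ≤ r) ∧ V c ∉ Ex ∧
    V (V c) = c ∧ o (V c) = !o c
  path : ∀ c : Fin N, l ≤ (c : ℕ) → (c : ℕ) ≤ r → c ∉ Ex → o c = true →
    ∃ n, (∀ t < n, lab ((nx w)^[t] (cr c)) ∈ Bs) ∧ (nx w)^[n] (cr c) = cr (V c)
  jump : ∀ c : Fin N, l ≤ (c : ℕ) → (c : ℕ) ≤ r → c ∉ Ex → ∀ d ∈ Ex, ¬ (c < d ∧ d < V c)
  exo : ∀ c : Fin N, l ≤ (c : ℕ) → (c : ℕ) ≤ r → c ∈ Ex → o c = true →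
    ∃ n, (∀ t < n, lab ((nx w)^[t] (cr c)) ∈ Bs) ∧ lab ((nx w)^[n] (cr c)) ∉ Bx
  exi : ∀ c : Fin N, l ≤ (c : ℕ) → (c : ℕ) ≤ r → c ∈ Ex → o c = false →
    ∃ q n, plab q ∉ Bx ∧ (∀ t < n, lab ((nx w)^[t] q) ∈ Bs) ∧ (nx w)^[n] q = cr c

section

variable {w : Finset (ℤ × ℤ)}

/-- comparison of two returns -/
lemma ret_cmp {G : Set (ℤ × ℤ)} {c : ℤ × ℤ} {n m : ℕ} (h1 : ∀ t < m, lab ((nx w)^[t] c) ∈ G)
    (h2 : lab ((nx w)^[n] c) ∉ G) : m ≤ n := by
  by_contra h
  exact h2 (h1 n (by omega))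

/-- comparison of two starts of the same path -/
lemma start_cmp {G : Set (ℤ × ℤ)} {q q' c : ℤ × ℤ} {n m : ℕ} (h1 : ∀ t < m, lab ((nx w)^[t] q') ∈ G)
    (e1 : (nx w)^[n] q = c) (e2 : (nx w)^[m] q' = c) (h2 : plab q ∉ G) : m ≤ n := by
  by_contra h
  obtain ⟨k, rfl⟩ : ∃ k, m = n + (k + 1) := ⟨m - n - 1, by omega⟩
  rw [Function.iterate_add_apply] at e2
  have e3 := ((nx_injective w).iterate n) (e1.trans e2.symm)
  apply h2
  rw [e3, Function.iterate_succ_apply', plab_nx]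
  exact h1 k (by omega)

/-- the path which enters `Out` at last before `z` -/
lemma far_before {In Out : Finset (ℤ × ℤ)} (hIO : In ⊆ Out) {z : ℤ × ℤ} (hz : lab z ∈ In) {q : ℤ × ℤ}
    {n : ℕ} (hq : plab q ∉ Out) (hn : (nx w)^[n] q = z) :
    ∃ a k, FarIn In Out w a ∧ k ≤ n ∧ (nx w)^[n - k] q = a ∧ (nx w)^[k] a = z ∧
      ∀ t ≤ k, lab ((nx w)^[t] a) ∈ Out := by
  classical
  -- last time `i ≤ n` with `plab ∉ Out`
  set P : ℕ → Prop := fun i => plab ((nx w)^[i] q) ∉ Out with hP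
  obtain ⟨i, hiP, hin, himax⟩ : ∃ i, P i ∧ i ≤ n ∧ ∀ j, j ≤ n → P j → j ≤ i := by
    refine ⟨Nat.findGreatest P n, ?_, Nat.findGreatest_le n, ?_⟩
    · exact Nat.findGreatest_spec (P := P) (Nat.zero_le n) hq
    · intro j hj hPj
      exact Nat.le_findGreatest hj hPj
  have hall : ∀ j, i ≤ j → j < n → lab ((nx w)^[j] q) ∈ Out := by
    intro j h1 h2
    by_contra h
    have : P (j + 1) := by
      show plab ((nx w)^[j + 1] q) ∉ Out
      rw [Function.iterate_succ_apply', plab_nx]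
      exact h
    have := himax (j + 1) (by omega) this
    omega
  have hex : ∃ j, i ≤ j ∧ lab ((nx w)^[j] q) ∈ In := ⟨n, hin, by rw [hn]; exact hz⟩
  set m := Nat.find hex with hm
  obtain ⟨hm1, hm2⟩ := Nat.find_spec hex
  have hmn : m ≤ n := Nat.find_le ⟨hin, by rw [hn]; exact hz⟩
  have hno : ∀ j, i ≤ j → j < m → lab ((nx w)^[j] q) ∉ In := fun j h1 h2 h3 =>
    Nat.find_min hex h2 ⟨h1, h3⟩
  refine ⟨(nx w)^[m] q, n - m, ⟨hm2, (nx w)^[i] q, m - i, hiP, ?_, ?_⟩, by omega, ?_, ?_, ?_⟩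
  · rw [← Function.iterate_add_apply]; congr 2; omega
  · intro j hj
    rw [← Function.iterate_add_apply, mem_sdiff]
    exact ⟨hall _ (by omega) (by omega), hno _ (by omega) (by omega)⟩
  · congr 2; omega
  · rw [← Function.iterate_add_apply, Nat.sub_add_cancel hmn]; exact hn
  · intro t ht
    rw [← Function.iterate_add_apply]
    rcases Nat.lt_or_ge (t + m) n with h1 | h1
    · exact hall _ (by omega) h1
    · have : t + m = n := by omega
      rw [this, hn]
      exact hIO hz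

/-- a strand which leaves `Out` has entered it -/
lemma far_before' {In Out : Finset (ℤ × ℤ)} (hIO : In ⊆ Out) {z : ℤ × ℤ} (hz : lab z ∈ In) {m : ℕ}
    (hm : lab ((nx w)^[m] z) ∉ Out) :
    ∃ a k, FarIn In Out w a ∧ (nx w)^[k] a = z ∧ ∀ t ≤ k, lab ((nx w)^[t] a) ∈ Out := by
  obtain ⟨P, hP⟩ := ExitAux.exists_period w z
  have hpos := hP.pos
  have hper : (nx w)^[(m + 1) * P] z = z := by
    have h1 : ∀ j : ℕ, (nx w)^[j * P] z = z := by
      intro j
      induction j with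
      | zero => simp
      | succ j ih => rw [Nat.succ_mul, Function.iterate_add_apply, hP.per, ih]
    exact h1 _
  have hle : m + 1 ≤ (m + 1) * P := Nat.le_mul_of_pos_right _ hpos
  obtain ⟨a, k, h1, -, -, h2, h3⟩ := far_before (w := w) hIO hz (q := (nx w)^[m + 1] z)
    (n := (m + 1) * P - (m + 1)) (by rw [Function.iterate_succ_apply', plab_nx]; exact hm)
    (by rw [← Function.iterate_add_apply, Nat.sub_add_cancel hle]; exact hper)
  exact ⟨a, k, h1, h2, h3⟩

end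

/-- **The wires near a window.** -/
theorem near_of {w : Finset (ℤ × ℤ)} {cr : Fin N → ℤ × ℤ} {G Bs Bx : Set (ℤ × ℤ)} {o : Fin N → Bool}
    {l r : ℕ} {Ex : Finset (Fin N)} {V : Fin N → Fin N} (hH : HalfR w cr G Bs Bx o l r Ex V)
    (hcr : Function.Injective cr) {Vb : Fin N → Option (Fin N)} (hS : SideW w G cr o Vb)
    {In Out : Finset (ℤ × ℤ)} (hIO : In ⊆ Out) (hOB : ∀ e ∈ Out, e ∈ Bx) {a : ℤ × ℤ}
    (hu : ∀ a', FarIn In Out w a' → a' = a) {x : Fin N} (hx : l ≤ (x : ℕ) ∧ (x : ℕ) ≤ r)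
    (hcol : ∀ c : Fin N, l ≤ (c : ℕ) → (c : ℕ) ≤ r → plab (cr c) ∈ Bx)
    {q : ℤ × ℤ} {n : ℕ} (hq : plab q ∉ Bx) (hqn : ∀ t < n, lab ((nx w)^[t] q) ∈ Bs)
    (hqx : (nx w)^[n] q = cr x) {Iv : Finset (Fin N)}
    (hIv : ∀ c ∈ Iv, (l ≤ (c : ℕ) ∧ (c : ℕ) ≤ r) ∧ (lab (cr c) ∈ In ∨ plab (cr c) ∈ In)) :
    ∃ S : Finset (Fin N), S.card ≤ 2 ∧ ∀ c ∈ Iv, c ∉ S → ∀ c', Vb c = some c' →
      (l ≤ (c' : ℕ) ∧ (c' : ℕ) ≤ r) ∧ ¬ (c < x ∧ x < c') ∧ ¬ (c' < x ∧ x < c) := by
  classical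
  -- the special column is exceptional
  have hn0 : 0 < n := by
    rcases Nat.eq_zero_or_pos n with h | h
    · exfalso
      subst h
      rw [Function.iterate_zero, id] at hqx
      apply hq
      rw [hqx]
      exact hcol x hx.1 hx.2
    · exact h
  have hox : o x = false := by
    by_contra h
    have h := Bool.eq_true_of_not_eq_false h
    obtain ⟨k, rfl⟩ : ∃ k, n = k + 1 := ⟨n - 1, by omega⟩
    apply hS.pl x h
    rw [← hqx, Function.iterate_succ_apply', plab_nx]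
    exact hH.sub (hqn k (by omega))
  have hxE : x ∈ Ex := by
    by_contra hxE
    obtain ⟨h1, h2, h3, h4⟩ := hH.rg x hx.1 hx.2 hxE
    rw [hox] at h4
    obtain ⟨m, m1, m2⟩ := hH.path (V x) h1.1 h1.2 h2 h4
    rw [h3] at m2
    have e1 : n ≤ m := start_cmp (w := w) (fun t ht => hH.sub (hqn t ht)) m2 hqx (hS.pl _ h4)
    obtain ⟨k, rfl⟩ : ∃ k, m = n + k := ⟨m - n, by omega⟩
    rw [Function.iterate_add_apply] at m2
    have e3 := ((nx_injective w).iterate n) (m2.trans hqx.symm)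
    apply hq
    rw [← e3]
    rcases Nat.eq_zero_or_pos k with h | h
    · subst h
      exact hcol _ h1.1 h1.2
    · obtain ⟨j, rfl⟩ : ∃ j, k = j + 1 := ⟨k - 1, by omega⟩
      rw [Function.iterate_succ_apply', plab_nx]
      exact hH.subx (m1 j (by omega))
  -- times of the exceptional columns on the orbit of `a`
  have tA : ∀ c ∈ Iv, c ∈ Ex → o c = true → ∃ T, (nx w)^[T] a = cr c ∧
      ∀ t < T, lab ((nx w)^[t] a) ∈ Out := by
    intro c hc hcE hoc
    obtain ⟨h1, h2⟩ := hIv c hc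
    obtain ⟨m, -, m2⟩ := hH.exo c h1.1 h1.2 hcE hoc
    have m3 : lab ((nx w)^[m] (cr c)) ∉ Out := fun h => m2 (hOB _ h)
    rcases h2 with h2 | h2
    · obtain ⟨a', k, k1, k2, k3⟩ := far_before' hIO h2 m3
      rw [hu a' k1] at k2 k3
      exact ⟨k, k2, fun t ht => k3 t ht.le⟩
    · have e1 : lab (pv w (cr c)) ∈ In := by rw [lab_pv]; exact h2
      obtain ⟨a', k, k1, k2, k3⟩ := far_before' (m := m + 1) hIO e1 (by
        rw [Function.iterate_succ_apply, nx_pv]; exact m3)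
      rw [hu a' k1] at k2 k3
      refine ⟨k + 1, ?_, fun t ht => k3 t (by omega)⟩
      rw [Function.iterate_succ_apply', k2, nx_pv]
  have tB : ∀ c ∈ Iv, c ∈ Ex → o c = false → ∃ T, (nx w)^[T] a = cr c ∧
      ∀ t < T, lab ((nx w)^[t] a) ∈ G := by
    intro c hc hcE hoc
    obtain ⟨h1, h2⟩ := hIv c hc
    obtain ⟨q', m, m0, m1, m2⟩ := hH.exi c h1.1 h1.2 hcE hoc
    have m3 : plab q' ∉ Out := fun h => m0 (hOB _ h)
    have hm0 : 0 < m := by
      rcases Nat.eq_zero_or_pos m with h | h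
      · exfalso
        subst h
        rw [Function.iterate_zero, id] at m2
        apply m0
        rw [m2]
        exact hcol c h1.1 h1.2
      · exact h
    rcases h2 with h2 | h2
    · obtain ⟨a', k, k1, k2, k3, k4, -⟩ := far_before hIO h2 m3 m2
      rw [hu a' k1] at k3 k4
      refine ⟨k, k4, fun t ht => ?_⟩
      rw [← k3, ← Function.iterate_add_apply]
      exact hH.sub (m1 _ (by omega))
    · have e1 : lab (pv w (cr c)) ∈ In := by rw [lab_pv]; exact h2
      have e2 : (nx w)^[m - 1] q' = pv w (cr c) := by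
        rw [← m2]
        obtain ⟨j, rfl⟩ : ∃ j, m = j + 1 := ⟨m - 1, by omega⟩
        rw [Nat.add_sub_cancel, Function.iterate_succ_apply', pv_nx]
      obtain ⟨a', k, k1, k2, k3, k4, -⟩ := far_before hIO e1 m3 e2
      rw [hu a' k1] at k3 k4
      refine ⟨k + 1, ?_, fun t ht => ?_⟩
      · rw [Function.iterate_succ_apply', k4, nx_pv]
      · rw [← k3, ← Function.iterate_add_apply]
        exact hH.sub (m1 _ (by omega))
  have cA : ∀ c ∈ Iv, c ∈ Ex → o c = true → ∀ c' ∈ Iv, c' ∈ Ex → o c' = true → c = c' := by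
    have key : ∀ c ∈ Iv, c ∈ Ex → o c = true → ∀ c' ∈ Iv, c' ∈ Ex → o c' = true → ∀ T T',
        (nx w)^[T] a = cr c → (∀ t < T', lab ((nx w)^[t] a) ∈ Out) → (nx w)^[T'] a = cr c' →
        ¬ T < T' := by
      intro c hc hcE hoc c' hc' hcE' hoc' T T' h1 h2 h3 hlt
      obtain ⟨g1, -⟩ := hIv c hc
      obtain ⟨m, m1, m2⟩ := hH.exo c g1.1 g1.2 hcE hoc
      obtain ⟨k, rfl⟩ : ∃ k, T' = k + 1 + T := ⟨T' - T - 1, by omega⟩
      rw [Function.iterate_add_apply, h1] at h3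
      rcases Nat.lt_or_ge k m with h4 | h4
      · apply hS.pl c' hoc'
        rw [← h3, Function.iterate_succ_apply', plab_nx]
        exact hH.sub (m1 k h4)
      · apply m2
        have h5 := h2 (m + T) (by omega)
        rw [Function.iterate_add_apply, h1] at h5
        exact hOB _ h5
    intro c hc hcE hoc c' hc' hcE' hoc'
    obtain ⟨T, h1, h2⟩ := tA c hc hcE hoc
    obtain ⟨T', h3, h4⟩ := tA c' hc' hcE' hoc'
    have k1 := key c hc hcE hoc c' hc' hcE' hoc' T T' h1 h4 h3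
    have k2 := key c' hc' hcE' hoc' c hc hcE hoc T' T h3 h2 h1
    have : T = T' := by omega
    subst this
    exact hcr (h1.symm.trans h3)
  have cB : ∀ c ∈ Iv, c ∈ Ex → o c = false → ∀ c' ∈ Iv, c' ∈ Ex → o c' = false → c = c' := by
    intro c hc hcE hoc c' hc' hcE' hoc'
    obtain ⟨T, h1, h2⟩ := tB c hc hcE hoc
    obtain ⟨T', h3, h4⟩ := tB c' hc' hcE' hoc'
    have k1 : ¬ T < T' := fun h => hS.la c hoc (by rw [← h1]; exact h4 T h)
    have k2 : ¬ T' < T := fun h => hS.la c' hoc' (by rw [← h3]; exact h2 T' h)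
    have : T = T' := by omega
    subst this
    exact hcr (h1.symm.trans h3)
  refine ⟨Iv.filter (fun c => c ∈ Ex), ?_, ?_⟩
  · have hs : Iv.filter (fun c => c ∈ Ex) ⊆
        (Iv.filter (fun c => c ∈ Ex ∧ o c = true)) ∪ (Iv.filter (fun c => c ∈ Ex ∧ o c = false)) := by
      intro c hc
      obtain ⟨h1, h2⟩ := mem_filter.1 hc
      rw [mem_union, mem_filter, mem_filter]
      cases o c
      · exact Or.inr ⟨h1, h2, rfl⟩
      · exact Or.inl ⟨h1, h2, rfl⟩
    have h1 : (Iv.filter (fun c => c ∈ Ex ∧ o c = true)).card ≤ 1 := by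
      rw [card_le_one]
      intro c hc c' hc'
      obtain ⟨g1, g2, g3⟩ := mem_filter.1 hc
      obtain ⟨g4, g5, g6⟩ := mem_filter.1 hc'
      exact cA c g1 g2 g3 c' g4 g5 g6
    have h2 : (Iv.filter (fun c => c ∈ Ex ∧ o c = false)).card ≤ 1 := by
      rw [card_le_one]
      intro c hc c' hc'
      obtain ⟨g1, g2, g3⟩ := mem_filter.1 hc
      obtain ⟨g4, g5, g6⟩ := mem_filter.1 hc'
      exact cB c g1 g2 g3 c' g4 g5 g6
    exact (card_le_card hs).trans ((card_union_le _ _).trans (by omega))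
  · intro c hc hcS c' hc'
    obtain ⟨h1, -⟩ := hIv c hc
    have hcE : c ∉ Ex := fun h => hcS (mem_filter.2 ⟨hc, h⟩)
    obtain ⟨r1, r2, r3, r4⟩ := hH.rg c h1.1 h1.2 hcE
    have e : c' = V c := by
      cases hoc : o c
      · have o1 : o (V c) = true := by rw [r4, hoc]; rfl
        have o2 : o c' = true := by rw [hS.ori c c' hc', hoc]; rfl
        obtain ⟨m, m1, m2⟩ := hH.path (V c) r1.1 r1.2 r2 o1
        rw [r3] at m2
        obtain ⟨m', m1', m2'⟩ := hS.path c' c (hS.sy c c' hc') o2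
        have k1 : m ≤ m' := start_cmp (w := w) (fun t ht => hH.sub (m1 t ht)) m2' m2 (hS.pl _ o2)
        have k2 : m' ≤ m := start_cmp (w := w) m1' m2 m2' (hS.pl _ o1)
        have : m = m' := by omega
        subst this
        exact hcr (((nx_injective w).iterate m) (m2'.trans m2.symm))
      · have o1 : o (V c) = false := by rw [r4, hoc]; rfl
        have o2 : o c' = false := by rw [hS.ori c c' hc', hoc]; rfl
        obtain ⟨m, m1, m2⟩ := hH.path c h1.1 h1.2 hcE hoc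
        obtain ⟨m', m1', m2'⟩ := hS.path c c' hc' hoc
        have k1 : m ≤ m' := ret_cmp (w := w) (fun t ht => hH.sub (m1 t ht)) (by
          rw [m2']; exact hS.la _ o2)
        have k2 : m' ≤ m := ret_cmp (w := w) m1' (by rw [m2]; exact hS.la _ o1)
        have : m = m' := by omega
        subst this
        exact hcr (m2'.symm.trans m2)
    subst e
    refine ⟨r1, hH.jump c h1.1 h1.2 hcE x hxE, ?_⟩
    have := hH.jump (V c) r1.1 r1.2 r2 x hxE
    rwa [r3] at this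

end Pool.Agent.H81.G1
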