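import Pool.Agent.H81.G1.Ar
import Pool.Agent.H81.G1.Glu
import Pool.Agent.H81.G1.HalfB

set_option autoImplicit false
set_option linter.unusedSectionVars false
open Finset

/-! # The labels near the row of the frozen environment `XF` are random -/

namespace Pool.Agent.H81.G1

open Pool.Agent.H75.Perc Pool.Agent.H75.TwoArm Pool.Agent.Q1 Pool.Agent.H30.Mid
open Pool.Agent.H69.M6b (lbt lbt_inj lbt_odd pr0)
open Pool.Agent.Q1.M6b.Gl
open Pool.Agent.Q1.M6b.Gd (sm)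
open Pool.Agent.H74.R45 Pool.Agent.H13.R45 Pool.Agent.H33.Q1 Pool.Agent.H34.Q1

variable {w h j x y : ℤ} {N : ℕ} {B t : Finset (ℤ × ℤ)}

/-- special columns at the walls -/
def Sw (N : ℕ) (y0 : ℤ) : Finset ℤ :=
  (({0, 1, 2, 3} : Finset ℤ) ∪ {(N : ℤ) - 4, (N : ℤ) - 3, (N : ℤ) - 2, (N : ℤ) - 1, (N : ℤ)}).image
    fun c => -y0 + 1 + c

lemma card_Sw (y0 : ℤ) : (Sw N y0).card ≤ 9 := by
  unfold Sw
  refine card_image_le.trans ((card_union_le _ _).trans ?_)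
  have h1 : ({0, 1, 2, 3} : Finset ℤ).card ≤ 4 := by decide
  have h2 : ({(N : ℤ) - 4, (N : ℤ) - 3, (N : ℤ) - 2, (N : ℤ) - 1, (N : ℤ)} : Finset ℤ).card ≤ 5 := by
    refine (card_insert_le _ _).trans (Nat.succ_le_succ ?_)
    refine (card_insert_le _ _).trans (Nat.succ_le_succ ?_)
    refine (card_insert_le _ _).trans (Nat.succ_le_succ ?_)
    exact card_le_two
  omega

lemma mem_Sw {y0 c : ℤ} (hc : (0 ≤ c ∧ c ≤ 3) ∨ ((N : ℤ) - 4 ≤ c ∧ c ≤ N)) : -y0 + 1 + c ∈ Sw N y0 := by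
  unfold Sw
  refine mem_image.2 ⟨c, ?_, rfl⟩
  rw [mem_union]
  simp only [mem_insert, mem_singleton]
  omega

/-- **The labels near a column of the row are random.** -/
theorem near_gE (hN : (N : ℤ) = w) (hB : Sep B N 0 (j - 1)) (hB' : Sep B N 0 j) {Sp : Finset ℤ}
    (hSp : Sw N (j - 1) ⊆ Sp) {R0 : ℕ} (hR1 : (R0 : ℤ) ≤ j) (hR2 : (R0 : ℤ) ≤ h - j) (c : Fin N)
    {M : ℤ} (hM1 : 1 ≤ M) (hM : Dst Sp R0 (sm true (j - 1) (0 - (j - 1) + 1 + (c : ℕ))) M)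
    {e : ℤ × ℤ} (ho : (e.1 + e.2) % 2 = 1)
    (h1 : |e.1 - (sm true (j - 1) (0 - (j - 1) + 1 + (c : ℕ))).1| ≤ M)
    (h2 : |e.2 - (sm true (j - 1) (0 - (j - 1) + 1 + (c : ℕ))).2| ≤ M) :
    e ∈ gE (BL w j B) (BU w h j B) (1, -1) := by
  have hc := c.2
  obtain ⟨hMR, hMs⟩ := hM
  have e1 : (sm true (j - 1) (0 - (j - 1) + 1 + (c : ℕ))).1 = -(j - 1) + 1 + (c : ℕ) := by
    unfold sm; simp
  have e2 : (sm true (j - 1) (0 - (j - 1) + 1 + (c : ℕ))).2 = (j - 1) + 1 + (c : ℕ) := by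
    unfold sm; simp; ring
  rw [e1] at h1 hMs
  rw [e2] at h2
  rw [abs_le] at h1 h2
  -- the walls
  have key : ∀ d : ℤ, (0 ≤ d ∧ d ≤ 3) ∨ ((N : ℤ) - 4 ≤ d ∧ d ≤ N) → M ≤ |((c : ℕ) : ℤ) - d| := by
    intro d hd
    have h3 := hMs _ (hSp (mem_Sw (y0 := j - 1) hd))
    have e3 : -(j - 1) + 1 + ((c : ℕ) : ℤ) - (-(j - 1) + 1 + d) = ((c : ℕ) : ℤ) - d := by ring
    rwa [e3] at h3
  have hcl : 3 < ((c : ℕ) : ℤ) := by
    by_contra hh
    have := key (c : ℕ) (Or.inl ⟨by omega, by omega⟩)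
    rw [sub_self, abs_zero] at this
    omega
  have hcr : ((c : ℕ) : ℤ) < N - 4 := by
    by_contra hh
    have := key (c : ℕ) (Or.inr ⟨by omega, by omega⟩)
    rw [sub_self, abs_zero] at this
    omega
  have k1 := key 3 (Or.inl ⟨by omega, by omega⟩)
  have k2 := key (N - 4) (Or.inr ⟨by omega, by omega⟩)
  rw [abs_of_nonneg (by omega)] at k1
  rw [abs_of_nonpos (by omega)] at k2
  obtain ⟨x, y, rfl⟩ := exists_lbt ho
  unfold lbt at h1 h2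
  simp only at h1 h2
  rw [mem_gE]
  rcases lt_or_ge y (j - 1) with hy | hy
  · left
    rw [mem_BL]
    refine ⟨⟨by omega, by omega, by omega, hy⟩, fun hb => ?_⟩
    rcases hB x y hb with h3 | h3
    · rw [abs_of_neg (by omega)] at h3; omega
    · rw [abs_of_neg (by omega)] at h3; omega
  · right
    rw [mem_BU]
    refine ⟨⟨by omega, by omega, by omega, by omega⟩, fun hb => ?_⟩
    rcases hB' x (y + 1) hb with h3 | h3
    · rw [abs_of_nonneg (by omega)] at h3; omega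
    · rw [abs_of_nonneg (by omega)] at h3; omega

section

variable (O : Out w h) (h0 : 0 ≤ j) (h1 : j ≤ h) (j2 : j % 2 = 0)

/-- **One type.** -/
theorem one_XF (hN : (N : ℤ) = w) (g0 : 0 < j) (g1 : j < h) (hB : Sep B N 0 (j - 1))
    (hB' : Sep B N 0 j) {Sp : Finset ℤ} (hSp : Sw N (j - 1) ⊆ Sp) {R0 : ℕ} (hR1 : (R0 : ℤ) ≤ j)
    (hR2 : (R0 : ℤ) ≤ h - j) {G : Set (ℤ × ℤ)} (hG : ∀ e ∈ G, (e.1 + e.2) % 2 = 1) (c : Fin N) {M : ℤ}
    (hM1 : 1 ≤ M) (hM : Dst Sp R0 (sm true (j - 1) (0 - (j - 1) + 1 + (c : ℕ))) M) :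
    OneType (gE (BL w j B) (BU w h j B) (1, -1)) (WGl w h j (WF O h0 h1 j2 N B t) (BU w h j B)) G
      (sm true (j - 1) (0 - (j - 1) + 1 + (c : ℕ))) M := by
  left
  intro e he h2 h3
  exact disjoint_left.1 (disj_WGl O h0 h1 j2 hN g0 g1)
    (near_gE hN hB hB' hSp hR1 hR2 c hM1 hM (hG e he) h2 h3)

lemma HN_odd {y0 : ℤ} : ∀ e ∈ HN y0, (e.1 + e.2) % 2 = 1 := fun _ he => he.1

lemma HS_odd {y0 : ℤ} : ∀ e ∈ HS y0, (e.1 + e.2) % 2 = 1 := fun _ he => he.1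

end

end Pool.Agent.H81.G1
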