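import Pool.Agent.H81.G1.RM

set_option autoImplicit false
set_option linter.unusedSectionVars false
open Finset

/-! # Closed strands of the row network and closed orbits of the glued configuration

`SNet f ln j0 dn U D`: the step map `f` of the glued configuration joins the corners `ln (j0 + c)` of the
line as the regular wires `U`, `D` of the row say; `dn c`: the strand crosses the line at the column `c`
from the upper to the lower side. -/

namespace Pool.Agent.H81.G1

open Pool.Agent.Q1.M6b.Strand Pool.Agent.Q1.M6b.ExN Pool.Agent.Q1.M6b.PB Pool.Agent.Q1.M6b.Meander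

variable {N : ℕ}

/-- the next column along the strand -/
def sx (dn : Fin N → Bool) (U D : Fin N → Option (Fin N)) (c : Fin N) : Option (Fin N) :=
  if dn c then D c else U c

/-- the strands of the glued configuration along the line `ln` -/
structure SNet (f : ℤ × ℤ → ℤ × ℤ) (ln : ℤ → ℤ × ℤ) (j0 : ℤ) (dn : Fin N → Bool)
    (U D : Fin N → Option (Fin N)) : Prop where
  inj : Function.Injective f
  lnj : Function.Injective ln
  nx : ∀ c c', sx dn U D c = some c' → ∃ n, 0 < n ∧ f^[n] (ln (j0 + (c : ℕ))) = ln (j0 + (c' : ℕ)) ∧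
    ∀ i, 0 < i → i < n → ∀ x, f^[i] (ln (j0 + (c : ℕ))) ≠ ln x
  fU : ∀ c c', U c = some c' → dn c' = !dn c
  fD : ∀ c c', D c = some c' → dn c' = !dn c

namespace SNet

variable {f : ℤ × ℤ → ℤ × ℤ} {ln : ℤ → ℤ × ℤ} {j0 : ℤ} {dn : Fin N → Bool}
  {U D : Fin N → Option (Fin N)} {X : Net (Fin N)} {C : Finset (Fin N)}

/-- the next column -/
def g (dn : Fin N → Bool) (U D : Fin N → Option (Fin N)) (c : Fin N) : Fin N :=
  (sx dn U D c).getD c

/-- regular columns -/
def Rg (U D : Fin N → Option (Fin N)) (C : Finset (Fin N)) : Prop :=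
  ∀ c ∈ C, U c ≠ none ∧ D c ≠ none

lemma g_some (hr : Rg U D C) {c : Fin N} (hc : c ∈ C) : sx dn U D c = some (g dn U D c) := by
  obtain ⟨h1, h2⟩ := hr c hc
  obtain ⟨u, hu⟩ := Option.ne_none_iff_exists'.1 h1
  obtain ⟨d, hd⟩ := Option.ne_none_iff_exists'.1 h2
  unfold g sx
  cases dn c
  · simp [hu]
  · simp [hd]

lemma g_mem (h : RM X U D) (hC : Str X C) (hr : Rg U D C) {c : Fin N} (hc : c ∈ C) :
    g dn U D c ∈ C := by
  have h1 := g_some (dn := dn) hr hc
  unfold sx at h1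
  cases hd : dn c
  · rw [hd] at h1
    have h2 := hC.mem (c, .N) (by rw [mem_VE]; exact ⟨hc, Or.inl rfl⟩)
    rw [(h.up c _ h1).1, mem_VE] at h2
    exact h2.1
  · rw [hd] at h1
    have h2 := hC.mem (c, .S) (by rw [mem_VE]; exact ⟨hc, Or.inr rfl⟩)
    rw [(h.dn c _ h1).1, mem_VE] at h2
    exact h2.1

lemma g_inj (h : RM X U D) (hS : SNet f ln j0 dn U D) (hr : Rg U D C) {c c' : Fin N} (hc : c ∈ C)
    (hc' : c' ∈ C) (he : g dn U D c = g dn U D c') : c = c' := by
  have h1 := g_some (dn := dn) hr hc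
  have h2 := g_some (dn := dn) hr hc'
  rw [he] at h1
  unfold sx at h1 h2
  cases hd : dn c <;> cases hd' : dn c' <;> rw [hd] at h1 <;> rw [hd'] at h2
  · have e1 := h.pU.sy _ _ h1
    have e2 := h.pU.sy _ _ h2
    rw [e1] at e2; exact Option.some.inj e2
  · have e1 := hS.fU _ _ h1
    have e2 := hS.fD _ _ h2
    rw [hd] at e1; rw [hd', e1] at e2
    exact absurd e2 (by decide)
  · have e1 := hS.fD _ _ h1
    have e2 := hS.fU _ _ h2
    rw [hd] at e1; rw [hd', e1] at e2
    exact absurd e2 (by decide)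
  · have e1 := h.pD.sy _ _ h1
    have e2 := h.pD.sy _ _ h2
    rw [e1] at e2; exact Option.some.inj e2

/-- an invariant part of a closed strand is everything -/
lemma inv_all (h : RM X U D) (hS : SNet f ln j0 dn U D) (hC : Single X C) (hr : Rg U D C)
    {S : Finset (Fin N)} (hSC : S ⊆ C) (hne : S.Nonempty) (hg : ∀ c ∈ S, g dn U D c ∈ S) : S = C := by
  have hbij : ∀ c ∈ S, ∃ c1 ∈ S, g dn U D c1 = c := by
    have hinj : Set.InjOn (g dn U D) S := fun a ha b hb he => g_inj h hS hr (hSC ha) (hSC hb) he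
    have him : S.image (g dn U D) ⊆ S := by
      intro x hx
      obtain ⟨y, hy, rfl⟩ := mem_image.1 hx
      exact hg y hy
    have he : S.image (g dn U D) = S := eq_of_subset_of_card_le him (by rw [card_image_of_injOn hinj])
    intro c hc
    rw [← he] at hc
    exact mem_image.1 hc
  have back : ∀ c ∈ S, ∀ c'' ∈ C, g dn U D c'' = c → c'' ∈ S := by
    intro c hc c'' hc'' he
    obtain ⟨c1, h1, h2⟩ := hbij c hc
    rw [← g_inj h hS hr (hSC h1) hc'' (h2.trans he.symm)]
    exact h1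
  refine hC.single S hSC hne ⟨?_, ?_, ?_⟩
  · rintro ⟨c, d⟩ hx
    rw [mem_VE] at hx
    obtain ⟨hc, hd⟩ := hx
    obtain ⟨hU, hD⟩ := hr c (hSC hc)
    obtain ⟨u, hu⟩ := Option.ne_none_iff_exists'.1 hU
    obtain ⟨w, hw⟩ := Option.ne_none_iff_exists'.1 hD
    have huC : u ∈ C := by
      have h2 := hC.str.mem (c, .N) (by rw [mem_VE]; exact ⟨hSC hc, Or.inl rfl⟩)
      rw [(h.up c _ hu).1, mem_VE] at h2
      exact h2.1
    have hwC : w ∈ C := by
      have h2 := hC.str.mem (c, .S) (by rw [mem_VE]; exact ⟨hSC hc, Or.inr rfl⟩)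
      rw [(h.dn c _ hw).1, mem_VE] at h2
      exact h2.1
    rcases hd with rfl | rfl
    · rw [(h.up c u hu).1, mem_VE]
      refine ⟨?_, Or.inl rfl⟩
      cases hdc : dn c
      · have e : g dn U D c = u := by unfold g sx; rw [hdc]; simp [hu]
        rw [← e]; exact hg c hc
      · apply back c hc u huC
        have e1 := hS.fU c u hu
        rw [hdc] at e1
        unfold g sx
        rw [e1]
        simp [h.pU.sy c u hu]
    · rw [(h.dn c w hw).1, mem_VE]
      refine ⟨?_, Or.inr rfl⟩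
      cases hdc : dn c
      · apply back c hc w hwC
        have e1 := hS.fD c w hw
        rw [hdc] at e1
        unfold g sx
        rw [e1]
        simp [h.pD.sy c w hw]
      · have e : g dn U D c = w := by unfold g sx; rw [hdc]; simp [hw]
        rw [← e]; exact hg c hc
  · exact fun hh => hC.str.x0 (VE_mono hSC hh)
  · exact fun hh => hC.str.y0 (VE_mono hSC hh)

/-- **the orbit of a closed strand** -/
theorem orbit (h : RM X U D) (hS : SNet f ln j0 dn U D) (hC : Single X C) (hr : Rg U D C)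
    {c0 : Fin N} (h0 : c0 ∈ C) :
    (Set.range fun i : ℕ => f^[i] (ln (j0 + (c0 : ℕ)))).Finite ∧
      ∀ x, ln x ∈ Set.range (fun i : ℕ => f^[i] (ln (j0 + (c0 : ℕ)))) ↔
        ∃ c ∈ C, x = j0 + (c : ℕ) := by
  classical
  have hgC : ∀ m : ℕ, (g dn U D)^[m] c0 ∈ C := by
    intro m
    induction m with
    | zero => exact h0
    | succ m ih => rw [Function.iterate_succ_apply']; exact g_mem h hC.str hr ih
  choose n hn using fun c : {c // c ∈ C} => hS.nx c.1 _ (g_some (dn := dn) hr c.2)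
  set y : Fin N → ℤ × ℤ := fun c => ln (j0 + (c : ℕ)) with hy
  -- every point of the orbit
  have pos : ∀ k : ℕ, ∃ m i : ℕ, i < n ⟨(g dn U D)^[m] c0, hgC m⟩ ∧
      f^[k] (y c0) = f^[i] (y ((g dn U D)^[m] c0)) := by
    intro k
    induction k with
    | zero => exact ⟨0, 0, (hn _).1, rfl⟩
    | succ k ih =>
      obtain ⟨m, i, hi, he⟩ := ih
      by_cases h1 : i + 1 < n ⟨(g dn U D)^[m] c0, hgC m⟩
      · exact ⟨m, i + 1, h1, by rw [Function.iterate_succ_apply', he, ← Function.iterate_succ_apply' f]⟩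
      · have h2 : n ⟨(g dn U D)^[m] c0, hgC m⟩ = i + 1 := by omega
        refine ⟨m + 1, 0, (hn _).1, ?_⟩
        have h3 := (hn ⟨(g dn U D)^[m] c0, hgC m⟩).2.1
        rw [h2] at h3
        rw [Function.iterate_succ_apply', he, ← Function.iterate_succ_apply' f i]
        rw [Function.iterate_zero, id, Function.iterate_succ_apply' (g dn U D) m]
        exact h3
  -- every column of the strand
  have col : ∀ c ∈ C, ∃ m : ℕ, (g dn U D)^[m] c0 = c := by
    set S := C.filter (fun c => ∃ m : ℕ, (g dn U D)^[m] c0 = c) with hSd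
    have hSC : S = C := by
      refine inv_all h hS hC hr (filter_subset _ _) ⟨c0, mem_filter.2 ⟨h0, 0, rfl⟩⟩ ?_
      intro c hc
      obtain ⟨h1, m, hm⟩ := mem_filter.1 hc
      exact mem_filter.2 ⟨g_mem h hC.str hr h1, m + 1, by rw [Function.iterate_succ_apply', hm]⟩
    intro c hc
    rw [← hSC] at hc
    exact (mem_filter.1 hc).2
  have reach : ∀ m : ℕ, ∃ k : ℕ, f^[k] (y c0) = y ((g dn U D)^[m] c0) := by
    intro m
    induction m with
    | zero => exact ⟨0, rfl⟩
    | succ m ih =>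
      obtain ⟨k, hk⟩ := ih
      refine ⟨n ⟨(g dn U D)^[m] c0, hgC m⟩ + k, ?_⟩
      rw [Function.iterate_add_apply, hk, Function.iterate_succ_apply']
      exact (hn ⟨(g dn U D)^[m] c0, hgC m⟩).2.1
  constructor
  · refine (Set.Finite.subset (s := ⋃ c : {c // c ∈ C}, (fun i => f^[i] (y c.1)) '' (Set.Iio (n c))) ?_ ?_)
    · exact Set.finite_iUnion fun c => (Set.finite_Iio _).image _
    · rintro _ ⟨k, rfl⟩
      obtain ⟨m, i, hi, he⟩ := pos k
      exact Set.mem_iUnion.2 ⟨⟨_, hgC m⟩, ⟨i, hi, he.symm⟩⟩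
  · intro x
    constructor
    · rintro ⟨k, hk⟩
      obtain ⟨m, i, hi, he⟩ := pos k
      rcases Nat.eq_zero_or_pos i with h1 | h1
      · subst h1
        have h2 : ln (j0 + (((g dn U D)^[m] c0 : Fin N) : ℕ)) = ln x := he.symm.trans hk
        exact ⟨_, hgC m, (hS.lnj h2).symm⟩
      · exact absurd (he.symm.trans hk) ((hn ⟨_, hgC m⟩).2.2 i h1 hi x)
    · rintro ⟨c, hc, rfl⟩
      obtain ⟨m, rfl⟩ := col c hc
      obtain ⟨k, hk⟩ := reach m
      exact ⟨k, hk⟩

open Classical in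
/-- the orbit of a strand -/
noncomputable def Or (f : ℤ × ℤ → ℤ × ℤ) (ln : ℤ → ℤ × ℤ) (j0 : ℤ) (C : Finset (Fin N)) :
    Set (ℤ × ℤ) :=
  if h : C.Nonempty then Set.range (fun i : ℕ => f^[i] (ln (j0 + (h.choose : ℕ)))) else ∅

lemma or_eq (f : ℤ × ℤ → ℤ × ℤ) (ln : ℤ → ℤ × ℤ) (j0 : ℤ) (hC : C.Nonempty) :
    ∃ c0 ∈ C, Or f ln j0 C = Set.range (fun i : ℕ => f^[i] (ln (j0 + (c0 : ℕ)))) :=
  ⟨hC.choose, hC.choose_spec, by unfold Or; rw [dif_pos hC]⟩

lemma or_mem (h : RM X U D) (hS : SNet f ln j0 dn U D) (hC : Single X C) (hr : Rg U D C) (x : ℤ) :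
    ln x ∈ Or f ln j0 C ↔ ∃ c ∈ C, x = j0 + (c : ℕ) := by
  obtain ⟨c0, h0, e⟩ := or_eq f ln j0 hC.ne
  rw [e]
  exact (orbit h hS hC hr h0).2 x

lemma or_fin (h : RM X U D) (hS : SNet f ln j0 dn U D) (hC : Single X C) (hr : Rg U D C) :
    (Or f ln j0 C).Finite := by
  obtain ⟨c0, h0, e⟩ := or_eq f ln j0 hC.ne
  rw [e]
  exact (orbit h hS hC hr h0).1

lemma or_col (h : RM X U D) (hS : SNet f ln j0 dn U D) (hC : Single X C) (hr : Rg U D C) (c : Fin N) :
    ln (j0 + (c : ℕ)) ∈ Or f ln j0 C ↔ c ∈ C := by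
  rw [or_mem h hS hC hr]
  constructor
  · rintro ⟨c', hc', e⟩
    have : c = c' := Fin.ext (by omega)
    rw [this]; exact hc'
  · exact fun hc => ⟨c, hc, rfl⟩

/-- different strands have different orbits -/
lemma or_inj (h : RM X U D) (hS : SNet f ln j0 dn U D) {C' : Finset (Fin N)} (hC : Single X C)
    (hr : Rg U D C) (hC' : Single X C') (hr' : Rg U D C') (he : Or f ln j0 C = Or f ln j0 C') :
    C = C' := by
  ext c
  rw [← or_col h hS hC hr, ← or_col h hS hC' hr', he]

end SNet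

end Pool.Agent.H81.G1
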