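import Pool.Agent.H46.G1.WBox
import Pool.Agent.H30.Mid.RGeo

set_option autoImplicit false
set_option linter.unusedSectionVars false
open Finset

/-! # The boxes of the ties are near the walls, away from the row -/

namespace Pool.Agent.H81.G1

open Pool.Agent.H75.Perc Pool.Agent.H75.TwoArm Pool.Agent.Q1 Pool.Agent.H30.Mid Pool.Agent.H46.G1
open Pool.Agent.H69.M6b (lbt lbt_inj lbt_odd)
open Pool.Agent.H74.R45 Pool.Agent.H13.R45 Pool.Agent.H33.Q1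

variable {w h j K : ℤ} {A : Finset (ℤ × ℤ)} {N : ℕ}

/-- coordinates of the labels of the boxes -/
lemma BA_cases (hw : 0 ≤ w) (w2 : w % 2 = 0) (h2 : h % 2 = 0) (j2 : j % 2 = 0) (hA : A ⊆ Ti w h j)
    (hK : 4 ≤ K) {x' y' : ℤ} (hl : lt (x', y') ∈ BA K h j A) :
    ∃ r : ℤ, 1 ≤ r ∧ ((0 ≤ x' ∧ 2 * x' + 1 ≤ 4 * r ∧ 6 * r + x' ≤ y' - j) ∨
      (x' < w ∧ 2 * (w - x') - 1 ≤ 4 * r ∧ 6 * r + (w - x') ≤ j - y')) := by
  unfold BA at hl
  obtain ⟨e, he, hb⟩ := mem_biUnion.1 hl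
  have hD0 := gD_pos hw h2 j2 hA he
  have hr0 : 0 ≤ gD h j A e / K := Int.ediv_nonneg (by omega) (by omega)
  have hKr : K * (gD h j A e / K) ≤ gD h j A e := Int.mul_ediv_self_le (by omega)
  unfold Bt at hb
  rcases Ti_cases (hA he) with ⟨y, rfl, h3, h4, h5⟩ | ⟨y, rfl, h3, h4, h5⟩
  · rw [mem_HBL h5] at hb
    obtain ⟨b1, b2, b3⟩ := gD_L hw h2 j2 hA he
    set r := gD h j A (lt (-1, y)) / K with hr
    have h6 : 4 * r ≤ K * r := mul_le_mul_of_nonneg_right hK hr0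
    exact ⟨r, by omega, Or.inl ⟨by omega, by omega, by omega⟩⟩
  · rw [mem_HBR hw (by omega)] at hb
    obtain ⟨b1, b2, b3⟩ := gD_R hw h2 j2 hA he
    set r := gD h j A (lt (w, y)) / K with hr
    have h6 : 4 * r ≤ K * r := mul_le_mul_of_nonneg_right hK hr0
    exact ⟨r, by omega, Or.inr ⟨by omega, by omega, by omega⟩⟩

/-- **`Sep` of the boxes of the ties**, rows `j - 1` and `j`. -/
theorem sep_BA (hw : 0 ≤ w) (w2 : w % 2 = 0) (h2 : h % 2 = 0) (j2 : j % 2 = 0) (hA : A ⊆ Ti w h j)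
    (hK : 4 ≤ K) (hN : (N : ℤ) = w) : Sep (BA K h j A) N 0 (j - 1) ∧ Sep (BA K h j A) N 0 j := by
  have key : ∀ x y : ℤ, lbt x y ∈ BA K h j A → ∃ r : ℤ, 1 ≤ r ∧
      ((0 ≤ x ∧ 2 * x + 1 ≤ 4 * r ∧ 6 * r + x ≤ y - j) ∨
      (x < w ∧ 2 * (w - x) - 1 ≤ 4 * r ∧ 6 * r + (w - x) ≤ j - y)) := by
    intro x y hxy
    rw [lbt_lt] at hxy
    exact BA_cases hw w2 h2 j2 hA hK hxy
  constructor
  · intro x y hxy
    obtain ⟨r, h1, h3 | h3⟩ := key x y hxy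
    · left
      rw [abs_of_nonneg (by omega)]
      omega
    · right
      rw [abs_of_nonpos (by omega)]
      omega
  · intro x y hxy
    obtain ⟨r, h1, h3 | h3⟩ := key x y hxy
    · left
      rw [abs_of_nonneg (by omega)]
      omega
    · right
      rw [abs_of_nonpos (by omega)]
      omega

end Pool.Agent.H81.G1
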