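import Pool.Agent.H64.Q1.Reg2

/-!
# Planarity of a grown region

`Dy s L`: the ends of the list `L` (name, direction) are matched by the pairing `s` in a well nested way,
and the turning of the arc from an end to a later end is the difference of the directions minus 2.
`Bt.dyck`: this holds for the front of every grown region and every state of its tiles.
-/

set_option autoImplicit false

namespace Pool.Agent.H81.G1

open Pool.Agent.H64.Q1 Pool.Agent.H64.Q1.LP

variable {D : Type*}

/-- well nested matching of a list of ends with directions -/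
inductive Dy (s : LP D) : List (D × ℤ) → Prop
  | nil : Dy s []
  | node {A B : List (D × ℤ)} {x y : D} {k m : ℤ} (hA : Dy s A) (hB : Dy s B) (h : s x = y)
      (hd : s.d x = m - k - 2) : Dy s ((x, k) :: (A ++ (y, m) :: B))

variable {s : LP D}

/-- the names -/
def nn (L : List (D × ℤ)) : List D := L.map Prod.fst

@[simp] lemma nn_nil : nn ([] : List (D × ℤ)) = [] := rfl

@[simp] lemma nn_cons (c : D × ℤ) (L : List (D × ℤ)) : nn (c :: L) = c.1 :: nn L := rfl

@[simp] lemma nn_append (L M : List (D × ℤ)) : nn (L ++ M) = nn L ++ nn M := List.map_append ..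

lemma Dy.append {A B : List (D × ℤ)} (hA : Dy s A) (hB : Dy s B) : Dy s (A ++ B) := by
  induction hA with
  | nil => exact hB
  | node h1 _ h3 h4 _ ih2 =>
    rw [List.cons_append, List.append_assoc, List.cons_append]
    exact Dy.node h1 ih2 h3 h4

lemma Dy.inv_cons {B : List (D × ℤ)} {x : D} {k : ℤ} (h : Dy s ((x, k) :: B)) :
    ∃ A C y m, B = A ++ (y, m) :: C ∧ Dy s A ∧ Dy s C ∧ s x = y ∧ s.d x = m - k - 2 := by
  cases h with
  | node h1 h2 h3 h4 => exact ⟨_, _, _, _, rfl, h1, h2, h3, h4⟩

/-- the set of names is closed under the matching -/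
lemma Dy.closed {L : List (D × ℤ)} (h : Dy s L) : ∀ x ∈ nn L, s x ∈ nn L := by
  induction h with
  | nil => intro x hx; exact absurd hx List.not_mem_nil
  | @node A B x y k m _ _ h3 _ ih1 ih2 =>
    intro t ht
    simp only [nn_cons, nn_append, List.mem_cons, List.mem_append] at ht ⊢
    rcases ht with rfl | ht | rfl | ht
    · rw [h3]; tauto
    · have := ih1 t ht; tauto
    · rw [← h3, s.invol]; tauto
    · have := ih2 t ht; tauto

lemma Dy.congr {s' : LP D} {L : List (D × ℤ)} (h : Dy s L)
    (hs : ∀ x ∈ nn L, s' x = s x ∧ s'.d x = s.d x) : Dy s' L := by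
  induction h with
  | nil => exact Dy.nil
  | @node A B x y k m _ _ h3 h4 ih1 ih2 =>
    have hx := hs x (by simp)
    refine Dy.node (ih1 fun t ht => hs t ?_) (ih2 fun t ht => hs t ?_) (hx.1.trans h3)
      (hx.2.trans h4)
    · simp only [nn_cons, nn_append, List.mem_cons, List.mem_append]; tauto
    · simp only [nn_cons, nn_append, List.mem_cons, List.mem_append]; tauto

/-- insertion of a matched word -/
lemma Dy.insert {L C : List (D × ℤ)} (h : Dy s L) (hC : Dy s C) :
    ∀ A B : List (D × ℤ), L = A ++ B → Dy s (A ++ (C ++ B)) := by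
  induction h with
  | nil =>
    intro A B h
    obtain ⟨rfl, rfl⟩ := List.append_eq_nil_iff.1 h.symm
    simpa using hC
  | @node A1 B1 x y k m h1 h2 h3 h4 ih1 ih2 =>
    intro A B h
    cases A with
    | nil =>
      rw [List.nil_append] at h
      rw [List.nil_append, ← h]
      exact hC.append (Dy.node h1 h2 h3 h4)
    | cons a A =>
      rw [List.cons_append, List.cons_eq_cons] at h
      obtain ⟨rfl, h⟩ := h
      rw [List.cons_append]
      rcases List.append_eq_append_iff.1 h with ⟨E, hE1, hE2⟩ | ⟨E, hE1, hE2⟩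
      · -- A = A1 ++ E
        cases E with
        | nil =>
          rw [List.append_nil] at hE1
          rw [List.nil_append] at hE2
          subst hE1
          rw [← hE2]
          have := Dy.node (h1.append hC) h2 h3 h4
          rwa [List.append_assoc] at this
        | cons e E =>
          rw [List.cons_append, List.cons_eq_cons] at hE2
          obtain ⟨rfl, hE2⟩ := hE2
          subst hE1
          rw [List.append_assoc, List.cons_append]
          exact Dy.node h1 (ih2 E B hE2) h3 h4
      · -- A1 = A ++ E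
        subst hE2
        have h5 := ih1 A E hE1
        have h6 := Dy.node h5 h2 h3 h4
        rw [List.append_assoc, List.append_assoc] at h6
        exact h6

/-- the partner of the last end -/
lemma Dy.last {L : List (D × ℤ)} (h : Dy s L) : ∀ (A : List (D × ℤ)) (b : D) (m : ℤ),
    L = A ++ [(b, m)] → ∃ X Y x k, A = X ++ (x, k) :: Y ∧ Dy s X ∧ Dy s Y ∧ s x = b ∧
      s.d x = m - k - 2 := by
  induction h with
  | nil =>
    intro A b m h
    exact absurd h.symm (by simp)
  | @node A1 B1 x y k m1 h1 h2 h3 h4 ih1 ih2 =>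
    intro A b m h
    rcases List.eq_nil_or_concat B1 with rfl | ⟨B2, c, rfl⟩
    · have h5 : (x, k) :: A1 ++ [(y, m1)] = A ++ [(b, m)] := by rw [← h]; rfl
      obtain ⟨h6, h7⟩ := List.append_inj' h5 rfl
      have h8 := (List.cons_eq_cons.1 h7).1
      rw [Prod.mk.injEq] at h8
      obtain ⟨rfl, rfl⟩ := h8
      exact ⟨[], A1, x, k, h6.symm, Dy.nil, h1, h3, h4⟩
    · rw [List.concat_eq_append] at h h2 ih2
      have h5 : ((x, k) :: (A1 ++ (y, m1) :: B2)) ++ [c] = A ++ [(b, m)] := by
        rw [← h]
        simp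
      obtain ⟨h6, h7⟩ := List.append_inj' h5 rfl
      have h8 := (List.cons_eq_cons.1 h7).1
      subst h8
      obtain ⟨X, Y, x', k', hB, hX, hY, hx', hd'⟩ := ih2 B2 b m rfl
      refine ⟨(x, k) :: (A1 ++ (y, m1) :: X), Y, x', k', ?_, Dy.node h1 hX h3 h4, hY, hx', hd'⟩
      rw [← h6, hB]
      simp

/-- a new pairing obtained from `s` by joining `x` and `y` -/
structure Spl (s s' : LP D) (x y : D) (τ : ℤ) : Prop where
  far : ∀ t, t ≠ x → t ≠ y → t ≠ s x → t ≠ s y → s' t = s t ∧ s'.d t = s.d t
  l : s x ≠ y → s' (s x) = s y ∧ s'.d (s x) = -s.d x + τ + s.d y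
  r : s x ≠ y → s' (s y) = s x ∧ s'.d (s y) = -s.d y - τ + s.d x

lemma spl_jn [DecidableEq D] (s : LP D) {x y : D} (h : x ≠ y) (τ κ : ℤ) : Spl s (jn x y τ κ s) x y τ := by
  have h1 := s.ne x
  have h2 := s.ne y
  refine ⟨?_, ?_, ?_⟩
  · intro t t1 t2 t3 t4
    rw [jn_apply _ _ _ _ _ h, jn_d _ _ _ _ _ h, if_neg t1, if_neg t2, if_neg t3, if_neg t4,
      if_neg t1, if_neg t2, if_neg t3, if_neg t4]
    exact ⟨rfl, rfl⟩
  · intro hne
    rw [jn_apply _ _ _ _ _ h, jn_d _ _ _ _ _ h, if_neg h1, if_neg hne, if_pos rfl, if_neg h1,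
      if_neg hne, if_pos rfl]
    exact ⟨rfl, rfl⟩
  · intro hne
    have a1 : s y ≠ x := fun e => hne (by rw [← e, s.invol])
    have a2 : s y ≠ s x := fun e => h (s.p.injective e).symm
    rw [jn_apply _ _ _ _ _ h, jn_d _ _ _ _ _ h, if_neg a1, if_neg h2, if_neg a2, if_pos rfl,
      if_neg a1, if_neg h2, if_neg a2, if_pos rfl]
    exact ⟨rfl, rfl⟩

/-- a matched word whose names do not meet another matched word containing `x` and `y` is not changed -/
lemma Dy.keep {s' : LP D} {x y : D} {τ : ℤ} (hs : Spl s s' x y τ) {L : List (D × ℤ)} (h : Dy s L)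
    (hx : x ∉ nn L) (hy : y ∉ nn L) (hsx : s x ∉ nn L) (hsy : s y ∉ nn L) : Dy s' L :=
  h.congr fun t ht => hs.far t (fun e => hx (e ▸ ht)) (fun e => hy (e ▸ ht)) (fun e => hsx (e ▸ ht))
    (fun e => hsy (e ▸ ht))

/-- **two neighbours are joined** -/
lemma Dy.cap {s' : LP D} {x y : D} {k m τ : ℤ} (hs : Spl s s' x y τ) (hτ : τ = m - k + 2)
    {L : List (D × ℤ)} (h : Dy s L) : ∀ A B : List (D × ℤ), L = A ++ (x, k) :: (y, m) :: B →
    (nn L).Nodup → Dy s' (A ++ B) := by
  have symm : ∀ {a b : D}, s a = b → s b = a := fun h => by rw [← h, s.invol]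
  induction h with
  | nil =>
    intro A B h
    exact absurd h.symm (by simp)
  | @node A1 B1 p q kp mq h1 h2 h3 h4 ih1 ih2 =>
    intro A B h hnd
    have c1 := h1.closed
    have c2 := h2.closed
    have hqp := symm h3
    rw [nn_cons, nn_append, nn_cons] at hnd
    simp only [List.nodup_cons, List.mem_append, List.mem_cons, not_or, List.nodup_append] at hnd
    obtain ⟨⟨n1, n2, n3⟩, n4, ⟨n5, n6⟩, n7⟩ := hnd
    have n2' : p ≠ q := n2
    cases A with
    | nil =>
      rw [List.nil_append, List.cons_eq_cons] at h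
      obtain ⟨h5, h⟩ := h
      rw [Prod.mk.injEq] at h5
      obtain ⟨rfl, rfl⟩ := h5
      cases A1 with
      | nil =>
        rw [List.nil_append, List.cons_eq_cons] at h
        obtain ⟨h5, rfl⟩ := h
        rw [Prod.mk.injEq] at h5
        obtain ⟨rfl, rfl⟩ := h5
        rw [List.nil_append]
        refine h2.keep hs n3 n5 (by rw [h3]; exact n5) (by rw [hqp]; exact n3)
      | cons a A2 =>
        rw [List.cons_append, List.cons_eq_cons] at h
        obtain ⟨h5, rfl⟩ := h
        subst h5
        obtain ⟨A3, B3, r, mr, h6, h7, h8, h9, h10⟩ := h1.inv_cons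
        subst h6
        have hry := symm h9
        rw [nn_cons, nn_append, nn_cons] at n4
        simp only [List.nodup_cons, List.mem_append, List.mem_cons, not_or, List.nodup_append] at n4
        obtain ⟨⟨m1, m2, m3⟩, m4, ⟨m5, m6⟩, m7⟩ := n4
        simp only [nn_cons, nn_append, List.mem_cons, List.mem_append, not_or] at n1 n7 c1
        obtain ⟨n1y, n1a, n1r, n1b⟩ := n1
        have hqy : p ≠ y := n1y
        have hsxy : s p ≠ y := by
          rw [h3]
          intro e
          exact n7 y (Or.inl rfl) q (by simp) e.symm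
        have hA3q : q ∉ nn A3 := fun hh => n7 q (Or.inr (Or.inl hh)) q (by simp) rfl
        have hB3q : q ∉ nn B3 := fun hh => n7 q (Or.inr (Or.inr (Or.inr hh))) q (by simp) rfl
        have hB1 : ∀ t, t ∈ nn B1 → t ≠ y ∧ t ≠ r := fun t ht =>
          ⟨fun e => n7 y (Or.inl rfl) t (by simp [ht]) e.symm,
            fun e => n7 r (Or.inr (Or.inr (Or.inl rfl))) t (by simp [ht]) e.symm⟩
        have kA3 : Dy s' A3 := h7.keep hs n1a m1 (by rw [h3]; exact hA3q)
          (by rw [h9]; exact fun hh => m7 r hh r (by simp) rfl)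
        have kB3 : Dy s' B3 := h8.keep hs n1b m3 (by rw [h3]; exact hB3q) (by rw [h9]; exact m5)
        have kB1 : Dy s' B1 := h2.keep hs n3 (fun hh => (hB1 y hh).1 rfl) (by rw [h3]; exact n5)
          (by rw [h9]; exact fun hh => (hB1 r hh).2 rfl)
        obtain ⟨g1, g2⟩ := hs.r hsxy
        rw [h9, h3] at g1
        rw [h9] at g2
        rw [List.nil_append, List.append_assoc, List.cons_append]
        refine kA3.append (Dy.node kB3 kB1 g1 ?_)
        rw [g2, h4, h10, hτ]; ring
    | cons a A =>
      rw [List.cons_append, List.cons_eq_cons] at h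
      obtain ⟨rfl, h⟩ := h
      rw [List.cons_append]
      have main : A = A1 → (q, mq) :: B1 = (x, k) :: (y, m) :: B →
          Dy s' ((p, kp) :: (A ++ B)) := by
        intro hA hE2
        subst hA
        rw [List.cons_eq_cons] at hE2
        obtain ⟨h5, rfl⟩ := hE2
        rw [Prod.mk.injEq] at h5
        obtain ⟨rfl, rfl⟩ := h5
        obtain ⟨A3, B3, r, mr, h6, h7, h8, h9, h10⟩ := h2.inv_cons
        subst h6
        simp only [nn_cons, nn_append, List.mem_cons, List.mem_append, not_or] at n3 n5 n7
        obtain ⟨n3y, n3a, n3r, n3b⟩ := n3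
        obtain ⟨n5y, n5a, n5r, n5b⟩ := n5
        rw [nn_cons, nn_append, nn_cons] at n6
        simp only [List.nodup_cons, List.mem_append, List.mem_cons, not_or, List.nodup_append] at n6
        obtain ⟨⟨m1, m2, m3⟩, m4, ⟨m5, m6⟩, m7⟩ := n6
        have hsxy : s q ≠ y := by rw [hqp]; exact n3y
        have hA1 : ∀ t ∈ nn A, t ≠ q ∧ t ≠ y ∧ t ≠ r := fun t ht =>
          ⟨n7 t ht q (Or.inl rfl), n7 t ht y (Or.inr (Or.inl rfl)),
            n7 t ht r (Or.inr (Or.inr (Or.inr (Or.inl rfl))))⟩
        have kA1 : Dy s' A := h1.keep hs (fun hh => (hA1 q hh).1 rfl)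
          (fun hh => (hA1 y hh).2.1 rfl) (by rw [hqp]; exact n1)
          (by rw [h9]; exact fun hh => (hA1 r hh).2.2 rfl)
        have kA3 : Dy s' A3 := h7.keep hs n5a m1 (by rw [hqp]; exact n3a)
          (by rw [h9]; exact fun hh => m7 r hh r (by simp) rfl)
        have kB3 : Dy s' B3 := h8.keep hs n5b m3 (by rw [hqp]; exact n3b) (by rw [h9]; exact m5)
        obtain ⟨g1, g2⟩ := hs.l hsxy
        rw [hqp, h9] at g1
        rw [hqp] at g2
        have key := Dy.node (A := A ++ A3) (B := B3) (x := p) (y := r) (k := kp) (m := mr)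
          (kA1.append kA3) kB3 g1 (by
            have e := s.anti p
            rw [h3] at e
            rw [g2, e, h4, h10, hτ]; ring)
        rw [List.append_assoc] at key
        exact key
      rcases List.append_eq_append_iff.1 h with ⟨E, hE1, hE2⟩ | ⟨E, hE1, hE2⟩
      · -- A = A1 ++ E
        cases E with
        | nil =>
          rw [List.append_nil] at hE1
          exact main hE1 hE2
        | cons e E =>
          subst hE1
          rw [List.cons_append, List.cons_eq_cons] at hE2
          obtain ⟨rfl, hE2⟩ := hE2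
          subst hE2
          have hb := ih2 E B rfl n6
          rw [List.append_assoc, List.cons_append]
          have mx : x ∈ nn (E ++ (x, k) :: (y, m) :: B) := by simp
          have my : y ∈ nn (E ++ (x, k) :: (y, m) :: B) := by simp
          have msx := c2 x mx
          have msy := c2 y my
          have hp : p ≠ x ∧ p ≠ y ∧ p ≠ s x ∧ p ≠ s y :=
            ⟨fun e => n3 (e ▸ mx), fun e => n3 (e ▸ my), fun e => n3 (e ▸ msx), fun e => n3 (e ▸ msy)⟩
          have hA1 : ∀ t ∈ nn (E ++ (x, k) :: (y, m) :: B), t ∉ nn A1 := fun t ht ht' =>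
            n7 t ht' t (Or.inr ht) rfl
          obtain ⟨g1, g2⟩ := hs.far p hp.1 hp.2.1 hp.2.2.1 hp.2.2.2
          exact Dy.node (h1.keep hs (hA1 x mx) (hA1 y my) (hA1 _ msx) (hA1 _ msy)) hb (g1.trans h3)
            (g2.trans h4)
      · -- A1 = A ++ E
        cases E with
        | nil =>
          rw [List.append_nil] at hE1
          exact main hE1.symm (by rw [hE2]; rfl)
        | cons e E =>
          rw [List.cons_append, List.cons_eq_cons] at hE2
          obtain ⟨rfl, hE2⟩ := hE2
          cases E with
          | nil =>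
            -- y = q
            rw [List.nil_append, List.cons_eq_cons] at hE2
            obtain ⟨h5, rfl⟩ := hE2
            rw [Prod.mk.injEq] at h5
            obtain ⟨rfl, rfl⟩ := h5
            obtain ⟨X, Y, r, kr, hAX, hX, hY, hr1, hr2⟩ := h1.last A x k hE1
            subst hE1
            subst hAX
            have hxr := symm hr1
            simp only [nn_cons, nn_append, nn_nil, List.mem_cons, List.mem_append, List.not_mem_nil,
              or_false, not_or] at n1 n4 n7 n5
            obtain ⟨⟨n1X, n1r, n1Y⟩, n1x⟩ := n1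
            rw [List.nodup_append, List.nodup_append, List.nodup_cons] at n4
            obtain ⟨⟨a1, ⟨a2, a3⟩, a4⟩, a5, a6⟩ := n4
            have hsxy : s x ≠ y := by
              rw [hxr]
              exact n7 r (Or.inl (Or.inr (Or.inl rfl))) y (Or.inl rfl)
            have xX : x ∉ nn X := fun hh => a6 x (by simp [hh]) x (by simp) rfl
            have xY : x ∉ nn Y := fun hh => a6 x (by simp [hh]) x (by simp) rfl
            have yX : y ∉ nn X := fun hh => n7 y (Or.inl (Or.inl hh)) y (Or.inl rfl) rfl
            have yY : y ∉ nn Y := fun hh => n7 y (Or.inl (Or.inr (Or.inr hh))) y (Or.inl rfl) rfl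
            have xB : x ∉ nn B := fun hh => n7 x (Or.inr rfl) x (Or.inr hh) rfl
            have rX : r ∉ nn X := fun hh => a4 r hh r (by simp) rfl
            have rB : r ∉ nn B := fun hh =>
              n7 r (Or.inl (Or.inr (Or.inl rfl))) r (Or.inr hh) rfl
            have kX : Dy s' X := hX.keep hs xX yX (by rw [hxr]; exact rX) (by rw [hqp]; exact n1X)
            have kY : Dy s' Y := hY.keep hs xY yY (by rw [hxr]; exact a2) (by rw [hqp]; exact n1Y)
            have kB : Dy s' B := h2.keep hs xB n5 (by rw [hxr]; exact rB) (by rw [hqp]; exact n3)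
            obtain ⟨g1, g2⟩ := hs.r hsxy
            rw [hqp, hxr] at g1
            rw [hqp] at g2
            have key := Dy.node (A := X) (B := Y ++ B) (x := p) (y := r) (k := kp) (m := kr)
              kX (kY.append kB) g1 (by
                have e := s.anti p
                rw [h3] at e
                have e2 := s.anti r
                rw [hr1] at e2
                rw [g2, e, h4, e2, hr2, hτ]; ring)
            have e3 : (p, kp) :: (X ++ (r, kr) :: (Y ++ B)) = (p, kp) :: ((X ++ (r, kr) :: Y) ++ B) := by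
              simp
            rw [← e3]
            exact key
          | cons e' E =>
            rw [List.cons_append, List.cons_eq_cons] at hE2
            obtain ⟨rfl, hE2⟩ := hE2
            subst hE1
            subst hE2
            have ha := ih1 A E rfl n4
            have mx : x ∈ nn (A ++ (x, k) :: (y, m) :: E) := by simp
            have my : y ∈ nn (A ++ (x, k) :: (y, m) :: E) := by simp
            have msx := c1 x mx
            have msy := c1 y my
            have hB1 : ∀ t ∈ nn (A ++ (x, k) :: (y, m) :: E), t ∉ nn B1 := fun t ht ht' =>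
              n7 t ht t (Or.inr ht') rfl
            have hp : p ≠ x ∧ p ≠ y ∧ p ≠ s x ∧ p ≠ s y :=
              ⟨fun e => n1 (e ▸ mx), fun e => n1 (e ▸ my), fun e => n1 (e ▸ msx),
                fun e => n1 (e ▸ msy)⟩
            obtain ⟨g1, g2⟩ := hs.far p hp.1 hp.2.1 hp.2.2.1 hp.2.2.2
            have key := Dy.node (A := A ++ E) (B := B1) ha
              (h2.keep hs (hB1 x mx) (hB1 y my) (hB1 _ msx) (hB1 _ msy)) (g1.trans h3) (g2.trans h4)
            rw [List.append_assoc] at key
            exact key

/-! ### Grown regions -/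

variable [DecidableEq D]

/-- names and directions of a front -/
def dl (F : List (Fe D)) : List (D × ℤ) := F.map fun c => (c.1, c.2.1)

omit [DecidableEq D] in
lemma nn_dl (F : List (Fe D)) : nn (dl F) = fn F := by
  unfold nn dl fn
  rw [List.map_map]; rfl

omit [DecidableEq D] in
@[simp] lemma dl_append (F G : List (Fe D)) : dl (F ++ G) = dl F ++ dl G := List.map_append ..

omit [DecidableEq D] in
@[simp] lemma dl_cons (c : Fe D) (F : List (Fe D)) : dl (c :: F) = (c.1, c.2.1) :: dl F := rfl

/-- **The strands of a grown region are well nested** in the front, and their turnings are the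
differences of the directions minus 2. -/
theorem Bt.dyck {g : LP D} {u v : D} {T : Set D} {l : List (Tl D)} {F : List (Fe D)}
    (h : Bt g u v T l F) : ∀ s, St g l s → Dy s (dl F) := by
  induction h with
  | nil h => intro s _; exact Dy.nil
  | edge F1 F2 x k θ h hx hθ ih =>
    intro s hs
    obtain ⟨h1, h2⟩ := (h.inv.out s hs).2 x hx
    have h3 := ih s hs
    rw [dl_append] at h3 ⊢
    rw [dl_cons, dl_cons]
    have h4 : Dy s [(x, k), (g x, k + g.d x + 2)] :=
      Dy.node (A := []) (B := []) Dy.nil Dy.nil h1.symm (by rw [← h2]; ring)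
    exact h3.insert h4 (dl F1) (dl F2) rfl
  | fill F1 F2 z0 z1 z2 z3 k θ0 θ1 h hw ih =>
    rename_i T l
    intro s hs
    cases hs with
    | cons b hs =>
      rename_i s
      have hnd := h.inv.nd
      have hD := ih s hs
      rw [← nn_dl] at hnd
      simp only [dl_append, dl_cons] at hD hnd
      have hne : z0 ≠ z1 ∧ z0 ≠ z2 ∧ z0 ≠ z3 ∧ z1 ≠ z2 ∧ z1 ≠ z3 ∧ z2 ≠ z3 := by
        simp only [nn_append, nn_cons, List.nodup_append, List.nodup_cons, List.mem_cons,
          not_or] at hnd
        tauto
      obtain ⟨n1, n2, n3, n4, n5, n6⟩ := hne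
      rw [dl_append]
      unfold Tl.op tl
      cases b
      · simp only [Bool.false_eq_true, if_false]
        have e1 : dl F1 ++ (z0, k) :: (z1, k - 1) :: (z2, k - 2) :: (z3, k - 3) :: dl F2 =
            (dl F1 ++ [(z0, k)]) ++ (z1, k - 1) :: (z2, k - 2) :: ((z3, k - 3) :: dl F2) := by simp
        have d1 := hD.cap (spl_jn s n4 1 0) (by ring) _ _ e1 hnd
        have hnd2 : (nn ((dl F1 ++ [(z0, k)]) ++ ((z3, k - 3) :: dl F2))).Nodup := by
          refine List.Nodup.sublist ?_ hnd
          unfold nn
          apply List.Sublist.map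
          rw [e1]
          exact List.Sublist.append (List.Sublist.refl _)
            ((List.Sublist.refl _).cons _ |>.cons _)
        have e2 : (dl F1 ++ [(z0, k)]) ++ ((z3, k - 3) :: dl F2) =
            dl F1 ++ (z0, k) :: (z3, k - 3) :: dl F2 := by simp
        exact d1.cap (spl_jn _ n3 (-1) 0) (by ring) _ _ e2 hnd2
      · simp only [if_true]
        have e1 : dl F1 ++ (z0, k) :: (z1, k - 1) :: (z2, k - 2) :: (z3, k - 3) :: dl F2 =
            (dl F1 ++ [(z0, k), (z1, k - 1)]) ++ (z2, k - 2) :: (z3, k - 3) :: dl F2 := by simp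
        have d1 := hD.cap (spl_jn s n6 1 0) (by ring) _ _ e1 hnd
        have hnd2 : (nn ((dl F1 ++ [(z0, k), (z1, k - 1)]) ++ dl F2)).Nodup := by
          refine List.Nodup.sublist ?_ hnd
          unfold nn
          apply List.Sublist.map
          rw [e1]
          exact List.Sublist.append (List.Sublist.refl _)
            ((List.Sublist.refl _).cons _ |>.cons _)
        have e2 : (dl F1 ++ [(z0, k), (z1, k - 1)]) ++ dl F2 =
            dl F1 ++ (z0, k) :: (z1, k - 1) :: dl F2 := by simp
        exact d1.cap (spl_jn _ n1 1 0) (by ring) _ _ e2 hnd2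
  | rot F x k θ h ih =>
    intro s hs
    have h1 := ih s hs
    rw [dl_cons] at h1
    obtain ⟨A, C, y, m, h2, h3, h4, h5, h6⟩ := h1.inv_cons
    rw [dl_append, h2]
    have e : A ++ (y, m) :: C ++ dl [(x, k + 4, θ + 2 * Real.pi)] =
        A ++ ((y, m) :: (C ++ (x, k + 4) :: [])) := by simp [dl]
    rw [e]
    refine h3.append (Dy.node h4 Dy.nil (by rw [← h5, s.invol]) ?_)
    have h7 := s.anti x
    rw [h5] at h7
    rw [h7, h6]; ring

end Pool.Agent.H81.G1
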